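import Mathlib

/-!
Simple positive solutions of bivariate fewnomial systems: the definitions.
-/

namespace Fewnomial

open MvPolynomial

/-- The set of simple (nondegenerate) positive solutions `p = (p 0, p 1)` of `f = g = 0`. -/
def positiveSimple (f g : MvPolynomial (Fin 2) ℝ) : Set (Fin 2 → ℝ) :=
  {p | 0 < p 0 ∧ 0 < p 1 ∧ eval p f = 0 ∧ eval p g = 0 ∧
    eval p (pderiv 0 f * pderiv 1 g - pderiv 1 f * pderiv 0 g) ≠ 0}

/-- `N a b`: the supremum of the number of simple positive solutions of `f = g = 0`, over all
real polynomials `f`, `g` in two variables with exactly `a` and `b` monomials. -/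
noncomputable def N (a b : ℕ) : ℕ∞ :=
  ⨆ (f : MvPolynomial (Fin 2) ℝ) (g : MvPolynomial (Fin 2) ℝ) (_ : f.support.card = a)
    (_ : g.support.card = b), (positiveSimple f g).encard

end Fewnomial
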