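import Mathlib

/-!
The functions `∑ j < n, (l j + k j * τ) * exp (j * τ)` form a Chebyshev space of dimension `2 n`,
and every function outside of this space can be approximated with `2 n` sign changes of the error.
-/

namespace Fewnomial.Low

open Finset

/-- Rolle's theorem for finite sets of zeros. -/
lemma rolle_finset {f f' : ℝ → ℝ} (hf : ∀ x, HasDerivAt f (f' x) x) (m : ℕ) (Z : Finset ℝ)
    (hZ : m + 1 ≤ Z.card) (h0 : ∀ z ∈ Z, f z = 0) :
    ∃ W : Finset ℝ, m ≤ W.card ∧ ∀ w ∈ W, f' w = 0 := by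
  obtain ⟨Z', hZ', hcard⟩ := Finset.exists_subset_card_eq hZ
  let e := Z'.orderEmbOfFin hcard
  have hmem : ∀ i, e i ∈ Z := fun i => hZ' (Z'.orderEmbOfFin_mem hcard i)
  have hlt : ∀ i : Fin m, e i.castSucc < e i.succ := fun i =>
    e.strictMono (Fin.castSucc_lt_succ)
  have hex : ∀ i : Fin m, ∃ c, e i.castSucc < c ∧ c < e i.succ ∧ f' c = 0 := by
    intro i
    obtain ⟨c, hc, hc'⟩ := exists_hasDerivAt_eq_zero (hlt i)
      (fun x _ => (hf x).continuousAt.continuousWithinAt)
      ((h0 _ (hmem _)).trans (h0 _ (hmem _)).symm) (fun x _ => hf x)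
    exact ⟨c, hc.1, hc.2, hc'⟩
  choose c hc1 hc2 hc3 using hex
  have hinj : Function.Injective c := by
    have hmono : StrictMono c := by
      intro i j hij
      have h1 : e i.succ ≤ e j.castSucc := by
        apply e.monotone
        rw [Fin.le_def]
        simp only [Fin.val_succ, Fin.val_castSucc]
        exact hij
      exact (hc2 i).trans_le (h1.trans (hc1 j).le)
    exact hmono.injective
  refine ⟨Finset.univ.image c, ?_, ?_⟩
  · rw [Finset.card_image_of_injective _ hinj, Finset.card_univ, Fintype.card_fin]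
  · intro w hw
    obtain ⟨i, _, rfl⟩ := Finset.mem_image.1 hw
    exact hc3 i

/-- The general element of the space. -/
noncomputable def G (n : ℕ) (l k : ℕ → ℝ) (τ : ℝ) : ℝ :=
  ∑ j ∈ range n, (l j + k j * τ) * Real.exp (j * τ)

lemma G_deriv (n : ℕ) (l k : ℕ → ℝ) (τ : ℝ) :
    HasDerivAt (G n l k) (G n (fun j => j * l j + k j) (fun j => j * k j) τ) τ := by
  unfold G
  apply HasDerivAt.fun_sum
  intro j _
  have h1 : HasDerivAt (fun τ : ℝ => l j + k j * τ) (k j) τ := by
    simpa using ((hasDerivAt_id τ).const_mul (k j)).const_add (l j)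
  have h2 : HasDerivAt (fun τ : ℝ => Real.exp (j * τ)) (Real.exp (j * τ) * j) τ := by
    have := ((hasDerivAt_id τ).const_mul (j : ℝ)).exp
    simpa using this
  have h3 := h1.mul h2
  refine h3.congr_deriv ?_
  ring

lemma G_shift (n : ℕ) (l k : ℕ → ℝ) (hl : l 0 = 0) (hk : k 0 = 0) (τ : ℝ) :
    G (n + 1) l k τ = Real.exp τ * G n (fun j => l (j + 1)) (fun j => k (j + 1)) τ := by
  unfold G
  rw [Finset.sum_range_succ', hl, hk, Finset.mul_sum]
  simp only [zero_mul, add_zero]
  refine Finset.sum_congr rfl fun j _ => ?_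
  have : Real.exp ((j + 1 : ℕ) * τ) = Real.exp τ * Real.exp (j * τ) := by
    rw [← Real.exp_add]
    congr 1
    push_cast
    ring
  rw [this]
  ring

/-- Chebyshev property. -/
theorem cheb : ∀ (n : ℕ) (l k : ℕ → ℝ) (Z : Finset ℝ), 2 * n ≤ Z.card →
    (∀ z ∈ Z, G n l k z = 0) → ∀ j < n, l j = 0 ∧ k j = 0 := by
  intro n
  induction n with
  | zero => intro l k Z _ _ j hj; omega
  | succ n ih =>
    intro l k Z hZ h0
    obtain ⟨W, hW, hW0⟩ := rolle_finset (G_deriv (n + 1) l k) (2 * n + 1) Z (by omega) h0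
    obtain ⟨Y, hY, hY0⟩ := rolle_finset
      (G_deriv (n + 1) (fun j => j * l j + k j) (fun j => j * k j)) (2 * n) W hW hW0
    have h1 := ih (fun j => ((j + 1 : ℕ) : ℝ) * (((j + 1 : ℕ) : ℝ) * l (j + 1) + k (j + 1)) +
        ((j + 1 : ℕ) : ℝ) * k (j + 1))
      (fun j => ((j + 1 : ℕ) : ℝ) * (((j + 1 : ℕ) : ℝ) * k (j + 1))) Y hY (by
        intro z hz
        have h2 := hY0 z hz
        rw [G_shift n _ _ (by simp) (by simp)] at h2
        exact (mul_eq_zero.1 h2).resolve_left (Real.exp_pos z).ne')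
    have h3 : ∀ j < n, l (j + 1) = 0 ∧ k (j + 1) = 0 := by
      intro j hj
      obtain ⟨ha, hb⟩ := h1 j hj
      have hj0 : (((j + 1 : ℕ) : ℝ)) ≠ 0 := by positivity
      have hk : k (j + 1) = 0 := by
        rcases mul_eq_zero.1 hb with h | h
        · exact absurd h hj0
        · exact (mul_eq_zero.1 h).resolve_left hj0
      simp only [hk, mul_zero, add_zero] at ha
      refine ⟨?_, hk⟩
      rcases mul_eq_zero.1 ha with h | h
      · exact absurd h hj0
      · exact (mul_eq_zero.1 h).resolve_left hj0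
    have h4 : ∀ z ∈ Z, l 0 + k 0 * z = 0 := by
      intro z hz
      have h5 := h0 z hz
      unfold G at h5
      rw [Finset.sum_range_succ'] at h5
      rw [Finset.sum_eq_zero] at h5
      · simpa using h5
      · intro j hj
        rw [(h3 j (Finset.mem_range.1 hj)).1, (h3 j (Finset.mem_range.1 hj)).2]
        simp
    obtain ⟨a, ha, b, hb, hab⟩ := Finset.one_lt_card.1 (show 1 < Z.card by omega)
    have hka : k 0 = 0 := by
      have h5 : k 0 * (a - b) = 0 := by linarith [h4 a ha, h4 b hb]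
      exact (mul_eq_zero.1 h5).resolve_right (sub_ne_zero.2 hab)
    have hla : l 0 = 0 := by
      have := h4 a ha
      rw [hka] at this
      simpa using this
    intro j hj
    rcases j with _ | j
    · exact ⟨hla, hka⟩
    · exact h3 j (by omega)

/-- sign alternation at `m + 1` points gives `m` zeros -/
lemma zeros_of_alt {f : ℝ → ℝ} (hf : Continuous f) (m : ℕ) (t : Fin (m + 1) → ℝ)
    (ht : StrictMono t) (η : ℝ) (hη : η ≠ 0)
    (h : ∀ i : Fin (m + 1), f (t i) = (-1) ^ (i : ℕ) * η) :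
    ∃ W : Finset ℝ, m ≤ W.card ∧ ∀ w ∈ W, f w = 0 := by
  have hex : ∀ i : Fin m, ∃ c, t i.castSucc < c ∧ c < t i.succ ∧ f c = 0 := by
    intro i
    have hlt : t i.castSucc < t i.succ := ht Fin.castSucc_lt_succ
    have h1 := h i.castSucc
    have h2 := h i.succ
    simp only [Fin.val_castSucc] at h1
    simp only [Fin.val_succ] at h2
    have h3 : f (t i.castSucc) * f (t i.succ) < 0 := by
      rw [h1, h2, pow_succ]
      have h4 : ((-1 : ℝ) ^ (i : ℕ)) * ((-1 : ℝ) ^ (i : ℕ)) = 1 := by
        rw [← mul_pow]; norm_num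
      have h5 : (-1 : ℝ) ^ (i : ℕ) * η * ((-1) ^ (i : ℕ) * -1 * η) =
        -(((-1 : ℝ) ^ (i : ℕ)) * ((-1 : ℝ) ^ (i : ℕ))) * η ^ 2 := by ring
      rw [h5, h4]
      have := sq_pos_of_ne_zero hη
      linarith
    have hne1 : f (t i.castSucc) ≠ 0 := fun h0 => by rw [h0, zero_mul] at h3; exact lt_irrefl _ h3
    have hne2 : f (t i.succ) ≠ 0 := fun h0 => by rw [h0, mul_zero] at h3; exact lt_irrefl _ h3
    have hz : (0 : ℝ) ∈ f '' Set.Icc (t i.castSucc) (t i.succ) := by
      rcases lt_or_gt_of_ne hne1 with h6 | h6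
      · have h7 : 0 < f (t i.succ) := by
          by_contra hcon
          have := mul_nonneg_of_nonpos_of_nonpos h6.le (not_lt.1 hcon)
          linarith
        exact intermediate_value_Icc hlt.le hf.continuousOn ⟨h6.le, h7.le⟩
      · have h7 : f (t i.succ) < 0 := by
          by_contra hcon
          have := mul_nonneg h6.le (not_lt.1 hcon)
          linarith
        exact intermediate_value_Icc' hlt.le hf.continuousOn ⟨h7.le, h6.le⟩
    obtain ⟨c, hc, hc0⟩ := hz
    refine ⟨c, lt_of_le_of_ne hc.1 ?_, lt_of_le_of_ne hc.2 ?_, hc0⟩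
    · intro h8; exact hne1 (h8 ▸ hc0)
    · intro h8; exact hne2 (h8 ▸ hc0)
  choose c hc1 hc2 hc3 using hex
  have hmono : StrictMono c := by
    intro i j hij
    have h1 : t i.succ ≤ t j.castSucc := by
      apply ht.monotone
      rw [Fin.le_def]
      simp only [Fin.val_succ, Fin.val_castSucc]
      exact hij
    exact (hc2 i).trans_le (h1.trans (hc1 j).le)
  refine ⟨Finset.univ.image c, ?_, ?_⟩
  · rw [Finset.card_image_of_injective _ hmono.injective, Finset.card_univ, Fintype.card_fin]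
  · intro w hw
    obtain ⟨i, _, rfl⟩ := Finset.mem_image.1 hw
    exact hc3 i

lemma G_continuous (n : ℕ) (l k : ℕ → ℝ) : Continuous (G n l k) := by
  unfold G
  fun_prop

lemma G_add (n : ℕ) (l k l' k' : ℕ → ℝ) (τ : ℝ) :
    G n (fun j => l j + l' j) (fun j => k j + k' j) τ = G n l k τ + G n l' k' τ := by
  unfold G
  rw [← Finset.sum_add_distrib]
  exact Finset.sum_congr rfl fun j _ => by ring

lemma G_smul (n : ℕ) (c : ℝ) (l k : ℕ → ℝ) (τ : ℝ) :
    G n (fun j => c * l j) (fun j => c * k j) τ = c * G n l k τ := by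
  unfold G
  rw [Finset.mul_sum]
  exact Finset.sum_congr rfl fun j _ => by ring

/-- extension of a vector by zero -/
def ext {n : ℕ} (v : Fin n → ℝ) (j : ℕ) : ℝ := if h : j < n then v ⟨j, h⟩ else 0

lemma ext_add {n : ℕ} (v w : Fin n → ℝ) : ext (v + w) = fun j => ext v j + ext w j := by
  funext j
  unfold ext
  split_ifs <;> simp

lemma ext_smul {n : ℕ} (c : ℝ) (v : Fin n → ℝ) : ext (c • v) = fun j => c * ext v j := by
  funext j
  unfold ext
  split_ifs <;> simp

lemma ext_eq {n : ℕ} (v : Fin n → ℝ) (j : Fin n) : ext v j = v j := by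
  unfold ext
  rw [dif_pos j.2]

/-- the interpolation map -/
noncomputable def interp (n : ℕ) (t : Fin (2 * n + 1) → ℝ) :
    ((Fin n → ℝ) × (Fin n → ℝ) × ℝ) →ₗ[ℝ] (Fin (2 * n + 1) → ℝ) where
  toFun q := fun i => G n (ext q.1) (ext q.2.1) (t i) + (-1) ^ (i : ℕ) * q.2.2
  map_add' q r := by
    funext i
    simp only [Prod.fst_add, Prod.snd_add, Pi.add_apply, ext_add]
    rw [G_add]
    ring
  map_smul' c q := by
    funext i
    simp only [Prod.smul_fst, Prod.smul_snd, Pi.smul_apply, smul_eq_mul, RingHom.id_apply, ext_smul]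
    rw [G_smul]
    ring

lemma interp_injective (n : ℕ) (t : Fin (2 * n + 1) → ℝ) (ht : StrictMono t) :
    Function.Injective (interp n t) := by
  rw [injective_iff_map_eq_zero]
  rintro ⟨v, w, η⟩ hq
  have h0 : ∀ i, G n (ext v) (ext w) (t i) = (-1) ^ (i : ℕ) * (-η) := by
    intro i
    have := congrFun hq i
    simp only [interp, LinearMap.coe_mk, AddHom.coe_mk, Pi.zero_apply] at this
    linarith
  have hη : η = 0 := by
    by_contra hne
    obtain ⟨W, hW, hW0⟩ := zeros_of_alt (G_continuous n _ _) (2 * n) t ht (-η)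
      (neg_ne_zero.2 hne) h0
    have h1 := cheb n _ _ W hW hW0
    have h2 := h0 0
    have h3 : G n (ext v) (ext w) (t 0) = 0 := by
      unfold G
      apply Finset.sum_eq_zero
      intro j hj
      rw [(h1 j (Finset.mem_range.1 hj)).1, (h1 j (Finset.mem_range.1 hj)).2]
      simp
    rw [h3] at h2
    simp at h2
    exact hne h2
  have h1 := cheb n (ext v) (ext w) (Finset.univ.image t) (by
    rw [Finset.card_image_of_injective _ ht.injective, Finset.card_univ, Fintype.card_fin]
    omega) (by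
    intro z hz
    obtain ⟨i, _, rfl⟩ := Finset.mem_image.1 hz
    rw [h0 i, hη]
    simp)
  have hv : v = 0 := by
    funext j
    have := (h1 j j.2).1
    rwa [ext_eq] at this
  have hw : w = 0 := by
    funext j
    have := (h1 j j.2).2
    rwa [ext_eq] at this
  rw [hv, hw, hη]
  rfl

lemma interp_surjective (n : ℕ) (t : Fin (2 * n + 1) → ℝ) (ht : StrictMono t) :
    Function.Surjective (interp n t) := by
  have hfr : Module.finrank ℝ ((Fin n → ℝ) × (Fin n → ℝ) × ℝ) =
      Module.finrank ℝ (Fin (2 * n + 1) → ℝ) := by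
    simp only [Module.finrank_prod, Module.finrank_fintype_fun_eq_card, Fintype.card_fin,
      Module.finrank_self]
    omega
  exact (LinearMap.injective_iff_surjective_of_finrank_eq_finrank hfr).1 (interp_injective n t ht)

lemma G_sub (n : ℕ) (l k l' k' : ℕ → ℝ) (τ : ℝ) :
    G n (fun j => l j - l' j) (fun j => k j - k' j) τ = G n l k τ - G n l' k' τ := by
  unfold G
  rw [← Finset.sum_sub_distrib]
  exact Finset.sum_congr rfl fun j _ => by ring

lemma G_congr {n : ℕ} {l k l' k' : ℕ → ℝ} (hl : ∀ j < n, l j = l' j) (hk : ∀ j < n, k j = k' j)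
    (τ : ℝ) : G n l k τ = G n l' k' τ := by
  unfold G
  refine Finset.sum_congr rfl fun j hj => ?_
  rw [hl j (Finset.mem_range.1 hj), hk j (Finset.mem_range.1 hj)]

/-- A function outside of the space can be approximated with alternating errors. -/
theorem exists_alt (n : ℕ) (Ψ : ℝ → ℝ) (b : ℝ)
    (hΨ : ∀ (l k : ℕ → ℝ) (b' : ℝ), b' ≤ b → ∃ τ < b', Ψ τ ≠ G n l k τ) :
    ∃ t : Fin (2 * n + 1) → ℝ, StrictMono t ∧ (∀ i, t i < b) ∧ ∃ (l k : ℕ → ℝ) (η : ℝ), η ≠ 0 ∧
      ∀ i, Ψ (t i) - G n l k (t i) = (-1) ^ (i : ℕ) * η := by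
  have step : ∀ t : Fin (2 * n + 1) → ℝ, StrictMono t → ∃ (l k : ℕ → ℝ) (η : ℝ),
      ∀ i, Ψ (t i) - G n l k (t i) = (-1) ^ (i : ℕ) * η := by
    intro t ht
    obtain ⟨⟨v, w, η⟩, h⟩ := interp_surjective n t ht (fun i => Ψ (t i))
    refine ⟨ext v, ext w, η, fun i => ?_⟩
    have := congrFun h i
    simp only [interp, LinearMap.coe_mk, AddHom.coe_mk] at this
    linarith
  set t0 : Fin (2 * n + 1) → ℝ := fun i => b - (2 * n + 1) + (i : ℕ) with ht0
  have ht0m : StrictMono t0 := by
    intro i j hij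
    have : ((i : ℕ) : ℝ) < ((j : ℕ) : ℝ) := by exact_mod_cast hij
    simp only [ht0]
    linarith
  have ht0b : ∀ i, t0 i < b := by
    intro i
    have : ((i : ℕ) : ℝ) < 2 * n + 1 := by
      have := i.2
      exact_mod_cast this
    simp only [ht0]
    linarith
  obtain ⟨l, k, η, h⟩ := step t0 ht0m
  by_cases hη : η = 0
  swap
  · exact ⟨t0, ht0m, ht0b, l, k, η, hη, h⟩
  obtain ⟨τ, hτ, hne⟩ := hΨ l k (t0 0) (ht0b 0).le
  set t1 : Fin (2 * n + 1) → ℝ := Fin.cons τ (fun i : Fin (2 * n) => t0 i.castSucc) with ht1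
  have ht1m : StrictMono t1 := by
    intro i j hij
    refine Fin.cases ?_ (fun i' => ?_) i hij
    · intro hij
      refine Fin.cases ?_ (fun j' => ?_) j hij
      · intro h; exact absurd h (lt_irrefl _)
      · intro _
        simp only [ht1, Fin.cons_zero, Fin.cons_succ]
        exact hτ.trans_le (ht0m.monotone (Fin.zero_le _))
    · intro hij
      refine Fin.cases ?_ (fun j' => ?_) j hij
      · intro h; exact absurd h (Fin.not_lt_zero _)
      · intro h
        simp only [ht1, Fin.cons_succ]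
        apply ht0m
        rw [Fin.castSucc_lt_castSucc_iff]
        exact Fin.succ_lt_succ_iff.1 h
  have ht1b : ∀ i, t1 i < b := by
    intro i
    refine Fin.cases ?_ (fun i' => ?_) i
    · simp only [ht1, Fin.cons_zero]
      exact hτ.trans (ht0b 0)
    · simp only [ht1, Fin.cons_succ]
      exact ht0b _
  obtain ⟨l', k', η', h'⟩ := step t1 ht1m
  refine ⟨t1, ht1m, ht1b, l', k', η', ?_, h'⟩
  intro hη'
  apply hne
  have h1 := cheb n (fun j => l' j - l j) (fun j => k' j - k j)
    (Finset.univ.image (fun i : Fin (2 * n) => t0 i.castSucc)) (by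
      have hinj : Function.Injective (fun i : Fin (2 * n) => t0 i.castSucc) :=
        ht0m.injective.comp (Fin.castSucc_injective (2 * n))
      rw [Finset.card_image_of_injective _ hinj, Finset.card_univ, Fintype.card_fin]) (by
      intro z hz
      obtain ⟨i, _, rfl⟩ := Finset.mem_image.1 hz
      rw [G_sub]
      have h2 := h i.castSucc
      have h3 := h' i.succ
      simp only [ht1, Fin.cons_succ] at h3
      rw [hη, mul_zero] at h2
      rw [hη', mul_zero] at h3
      linarith)
  have h4 := h' 0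
  simp only [ht1, Fin.cons_zero] at h4
  rw [hη', mul_zero] at h4
  have h5 : G n l' k' τ = G n l k τ := G_congr (fun j hj => by linarith [(h1 j hj).1])
    (fun j hj => by linarith [(h1 j hj).2]) τ
  linarith

end Fewnomial.Low
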