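import Mathlib
import Pool.Agent.Lib.MP_4cba3d_ag.Defs

/-!
From alternating signs along a curve to simple positive solutions of a system of two polynomials
`(XY)^K (X^A + Y^A) - ∑ c_j (XY)^(E_j)`.
-/

namespace Fewnomial.Low

open Filter Set MvPolynomial
open scoped Topology

/-- exponent vectors -/
noncomputable def ex (a b : ℕ) : Fin 2 →₀ ℕ := Finsupp.single 0 a + Finsupp.single 1 b

lemma ex_inj {a b a' b' : ℕ} (h : ex a b = ex a' b') : a = a' ∧ b = b' := by
  have h0 := DFunLike.congr_fun h 0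
  have h1 := DFunLike.congr_fun h 1
  simp [ex] at h0 h1
  exact ⟨h0, h1⟩

lemma support_card_sum {ι : Type*} [Fintype ι] [DecidableEq ι] (e : ι → (Fin 2 →₀ ℕ))
    (he : Function.Injective e) (c : ι → ℝ) (hc : ∀ i, c i ≠ 0) :
    (∑ i, monomial (e i) (c i) : MvPolynomial (Fin 2) ℝ).support.card = Fintype.card ι := by
  have h1 : (∑ i, monomial (e i) (c i) : MvPolynomial (Fin 2) ℝ).support =
      Finset.univ.image e := by
    ext m
    rw [mem_support_iff, coeff_sum, Finset.mem_image]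
    constructor
    · intro h
      by_contra hcon
      apply h
      apply Finset.sum_eq_zero
      intro i _
      rw [coeff_monomial, if_neg]
      intro h2
      exact hcon ⟨i, Finset.mem_univ _, h2⟩
    · rintro ⟨i, _, rfl⟩
      rw [Finset.sum_eq_single i]
      · rw [coeff_monomial, if_pos rfl]
        exact hc i
      · intro j _ hj
        rw [coeff_monomial, if_neg]
        intro h2
        exact hj (he h2)
      · intro h
        exact absurd (Finset.mem_univ _) h
  rw [h1, Finset.card_image_of_injective _ he, Finset.card_univ]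

/-- The polynomials. -/
noncomputable def fp (n A K : ℕ) (E : ℕ → ℕ) (c : ℕ → ℝ) : MvPolynomial (Fin 2) ℝ :=
  ∑ i : Fin n ⊕ Bool, monomial
    (Sum.elim (fun j : Fin n => ex (E j) (E j)) (fun b => if b then ex (A + K) K else ex K (A + K))
      i) (Sum.elim (fun j : Fin n => -c j) (fun _ => (1 : ℝ)) i)

lemma fp_card (n A K : ℕ) (E : ℕ → ℕ) (c : ℕ → ℝ) (hA : 1 ≤ A)
    (hE : ∀ i < n, ∀ j < n, E i = E j → i = j) (hc : ∀ j < n, c j ≠ 0) :
    (fp n A K E c).support.card = n + 2 := by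
  unfold fp
  rw [support_card_sum]
  · simp
  · rintro (i | b) (j | b') h
    · simp only [Sum.elim_inl] at h
      have := hE i i.2 j j.2 (ex_inj h).1
      rw [Fin.ext this]
    · simp only [Sum.elim_inl, Sum.elim_inr] at h
      split_ifs at h <;> · have := ex_inj h; omega
    · simp only [Sum.elim_inl, Sum.elim_inr] at h
      split_ifs at h <;> · have := ex_inj h; omega
    · simp only [Sum.elim_inr] at h
      cases b <;> cases b' <;> simp only [if_true, if_false, Bool.false_eq_true] at h ⊢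
      · have := ex_inj h; omega
      · have := ex_inj h; omega
  · rintro (i | b)
    · simp only [Sum.elim_inl]
      exact neg_ne_zero.2 (hc i i.2)
    · simp

/-- values of the diagonal part -/
noncomputable def Pe (n : ℕ) (E : ℕ → ℕ) (c : ℕ → ℝ) (θ : ℝ) : ℝ :=
  ∑ j ∈ Finset.range n, c j * Real.exp (2 * E j * θ)

/-- the point with `log X = θ + w`, `log Y = θ - w` -/
noncomputable def pt (θ w : ℝ) : Fin 2 → ℝ := ![Real.exp (θ + w), Real.exp (θ - w)]

lemma eval_mono (a b : ℕ) (c θ w : ℝ) :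
    eval (pt θ w) (monomial (ex a b) c) = c * Real.exp (a * (θ + w) + b * (θ - w)) := by
  have h1 : (monomial (ex a b) c : MvPolynomial (Fin 2) ℝ) = C c * X 0 ^ a * X 1 ^ b := by
    rw [C_mul_X_pow_eq_monomial, X_pow_eq_monomial, monomial_mul, mul_one]
    rfl
  rw [h1, map_mul, map_mul, map_pow, map_pow, eval_C, eval_X, eval_X, pt]
  simp only [Matrix.cons_val_zero, Matrix.cons_val_one]
  rw [← Real.exp_nat_mul, ← Real.exp_nat_mul, mul_assoc, ← Real.exp_add]

lemma eval_fp (n A K : ℕ) (E : ℕ → ℕ) (c : ℕ → ℝ) (θ w : ℝ) :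
    eval (pt θ w) (fp n A K E c) =
      2 * Real.exp ((2 * K + A) * θ) * Real.cosh (A * w) - Pe n E c θ := by
  unfold fp Pe
  rw [map_sum, Fintype.sum_sum_type]
  simp only [Sum.elim_inl, Sum.elim_inr, Fintype.sum_bool, if_true, if_false, Bool.false_eq_true]
  rw [eval_mono, eval_mono, Finset.sum_range]
  have h1 : ∀ j : Fin n, eval (pt θ w) (monomial (ex (E j) (E j)) (-c j)) =
      -(c j * Real.exp (2 * E j * θ)) := by
    intro j
    rw [eval_mono]
    have : ((E j : ℕ) : ℝ) * (θ + w) + (E j : ℕ) * (θ - w) = 2 * (E j : ℕ) * θ := by ring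
    rw [this]
    ring
  rw [Finset.sum_congr rfl (fun j _ => h1 j), Finset.sum_neg_distrib, Real.cosh_eq]
  have h2 : ((A + K : ℕ) : ℝ) * (θ + w) + (K : ℝ) * (θ - w) = (2 * K + A) * θ + A * w := by
    push_cast; ring
  have h3 : (K : ℝ) * (θ + w) + ((A + K : ℕ) : ℝ) * (θ - w) = (2 * K + A) * θ + -(A * w) := by
    push_cast; ring
  rw [h2, h3, Real.exp_add, Real.exp_add]
  ring

/-- chain rule for polynomials -/
lemma hasDerivAt_eval (f : MvPolynomial (Fin 2) ℝ) (u : ℝ → Fin 2 → ℝ) (u' : Fin 2 → ℝ) (s : ℝ)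
    (hu : ∀ i, HasDerivAt (fun s => u s i) (u' i) s) :
    HasDerivAt (fun s => eval (u s) f)
      (eval (u s) (pderiv 0 f) * u' 0 + eval (u s) (pderiv 1 f) * u' 1) s := by
  induction f using MvPolynomial.induction_on with
  | C a => simpa using hasDerivAt_const s a
  | add p q hp hq =>
    simp only [map_add]
    refine (hp.add hq).congr_deriv ?_
    ring
  | mul_X p i hp =>
    simp only [map_mul, eval_X]
    have h1 := hp.mul (hu i)
    refine h1.congr_deriv ?_
    rw [Derivation.leibniz, Derivation.leibniz]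
    simp only [smul_eq_mul, map_add, map_mul, eval_X, pderiv_X]
    fin_cases i
    · simp
      ring
    · simp
      ring

lemma pt_hasDerivAt {w : ℝ → ℝ} {w' s : ℝ} (hw : HasDerivAt w w' s) :
    ∀ i, HasDerivAt (fun s => pt s (w s) i)
      ((![Real.exp (s + w s) * (1 + w'), Real.exp (s - w s) * (1 - w')] : Fin 2 → ℝ) i) s := by
  intro i
  fin_cases i
  · simpa [pt] using ((hasDerivAt_id s).add hw).exp
  · simpa [pt] using ((hasDerivAt_id s).sub hw).exp

lemma pt_hasDerivAt' (θ w : ℝ) :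
    ∀ i, HasDerivAt (fun s => pt θ s i)
      ((![Real.exp (θ + w), -Real.exp (θ - w)] : Fin 2 → ℝ) i) w := by
  intro i
  fin_cases i
  · simpa [pt] using ((hasDerivAt_id w).const_add θ).exp
  · simpa [pt] using ((hasDerivAt_id w).const_sub θ).exp

/-- The criterion for simple solutions. -/
lemma mem_positiveSimple (f1 f2 : MvPolynomial (Fin 2) ℝ) (w : ℝ → ℝ) (θ w' : ℝ)
    (hw : HasDerivAt w w' θ) (h1 : ∀ᶠ s in 𝓝 θ, eval (pt s (w s)) f1 = 0)
    (h2 : eval (pt θ (w θ)) f2 = 0) (d : ℝ) (hd : HasDerivAt (fun s => eval (pt s (w s)) f2) d θ)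
    (hd0 : d ≠ 0) (e : ℝ) (he : HasDerivAt (fun s => eval (pt θ s) f1) e (w θ)) (he0 : e ≠ 0) :
    pt θ (w θ) ∈ positiveSimple f1 f2 := by
  have ha := hasDerivAt_eval f1 (fun s => pt s (w s)) _ θ (pt_hasDerivAt hw)
  have hb := hasDerivAt_eval f2 (fun s => pt s (w s)) _ θ (pt_hasDerivAt hw)
  have hc := hasDerivAt_eval f1 (fun s => pt θ s) _ (w θ) (pt_hasDerivAt' θ (w θ))
  have ha0 : HasDerivAt (fun s => eval (pt s (w s)) f1) 0 θ :=
    (hasDerivAt_const θ (0 : ℝ)).congr_of_eventuallyEq h1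
  have e1 := ha.unique ha0
  have e2 := hb.unique hd
  have e3 := hc.unique he
  refine ⟨?_, ?_, h1.self_of_nhds, h2, ?_⟩
  · simp [pt, Real.exp_pos]
  · simp [pt, Real.exp_pos]
  · intro hJ
    rw [map_sub, map_mul, map_mul] at hJ
    have h3 : d * e = 0 := by
      rw [← e2, ← e3]
      linear_combination
        (eval (pt θ (w θ)) (pderiv 0 f2) * (![Real.exp (θ + w θ), -Real.exp (θ - w θ)] : Fin 2 → ℝ) 0
          + eval (pt θ (w θ)) (pderiv 1 f2) *
            (![Real.exp (θ + w θ), -Real.exp (θ - w θ)] : Fin 2 → ℝ) 1) * e1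
        + ((![Real.exp (θ + w θ) * (1 + w'), Real.exp (θ - w θ) * (1 - w')] : Fin 2 → ℝ) 1 *
            (![Real.exp (θ + w θ), -Real.exp (θ - w θ)] : Fin 2 → ℝ) 0 -
          (![Real.exp (θ + w θ) * (1 + w'), Real.exp (θ - w θ) * (1 - w')] : Fin 2 → ℝ) 0 *
            (![Real.exp (θ + w θ), -Real.exp (θ - w θ)] : Fin 2 → ℝ) 1) * hJ
    rcases mul_eq_zero.1 h3 with h | h
    · exact hd0 h
    · exact he0 h

end Fewnomial.Low
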