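import Mathlib
import Pool.Agent.Lib.MP_4cba3d_ag.LowPoly

/-!
Counting simple positive solutions from sign alternation.
-/

namespace Fewnomial.Low

open Filter Set MvPolynomial
open scoped Topology

/-- Sard's lemma in dimension one, with a weight. -/
lemma sard_weight {F F' m m' : ℝ → ℝ} {I : Set ℝ} (hF : ∀ x ∈ I, HasDerivAt F (F' x) x)
    (hm : ∀ x, HasDerivAt m (m' x) x) (hm0 : ∀ x, m x ≠ 0) {δ : ℝ} (hδ : 0 < δ) :
    ∃ c, 0 < c ∧ c < δ ∧ ∀ x ∈ I, F x - c * m x = 0 → F' x - c * m' x ≠ 0 := by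
  set H : ℝ → ℝ := fun x => F x / m x with hH
  set H' : ℝ → ℝ := fun x => (F' x * m x - F x * m' x) / m x ^ 2 with hH'
  have hHd : ∀ x ∈ I, HasDerivAt H (H' x) x := fun x hx => (hF x hx).div (hm x) (hm0 x)
  set Sc : Set ℝ := {x | x ∈ I ∧ H' x = 0} with hSc
  have hvol : MeasureTheory.volume (H '' Sc) = 0 := by
    apply MeasureTheory.addHaar_image_eq_zero_of_det_fderivWithin_eq_zero MeasureTheory.volume
      (f' := fun x => ContinuousLinearMap.toSpanSingleton ℝ (H' x))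
    · intro x hx
      exact (hHd x hx.1).hasFDerivAt.hasFDerivWithinAt
    · intro x hx
      rw [hx.2]
      have : (ContinuousLinearMap.toSpanSingleton ℝ (0 : ℝ) : ℝ →L[ℝ] ℝ) = 0 := by
        ext; simp
      rw [this]
      simp [ContinuousLinearMap.det]
  have hne : ∃ c ∈ Ioo (0 : ℝ) δ, c ∉ H '' Sc := by
    by_contra hcon
    push Not at hcon
    have h1 : MeasureTheory.volume (Ioo (0 : ℝ) δ) ≤ 0 := by
      rw [← hvol]
      exact MeasureTheory.measure_mono hcon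
    rw [Real.volume_Ioo, sub_zero] at h1
    have h2 : 0 < ENNReal.ofReal δ := ENNReal.ofReal_pos.2 hδ
    exact absurd h1 (not_le.2 h2)
  obtain ⟨c, hc, hcn⟩ := hne
  refine ⟨c, hc.1, hc.2, fun x hx h0 h1 => hcn ⟨x, ⟨hx, ?_⟩, ?_⟩⟩
  · have h2 : F x = c * m x := by linarith
    have h3 : F' x = c * m' x := by linarith
    simp only [hH']
    rw [h2, h3]
    have : c * m' x * m x - c * m x * m' x = 0 := by ring
    rw [this, zero_div]
  · simp only [hH]
    rw [div_eq_iff (hm0 x)]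
    linarith

/-- Zeros from alternating signs. -/
lemma alt_zeros {f : ℝ → ℝ} (m : ℕ) (t : Fin (m + 1) → ℝ) (ht : StrictMono t)
    (hf : ContinuousOn f (Icc (t 0) (t (Fin.last m)))) (s : ℝ)
    (hs : ∀ i : Fin (m + 1), 0 < (-1) ^ (i : ℕ) * s * f (t i)) :
    ∃ Z : Finset ℝ, Z.card = m ∧ ∀ z ∈ Z, z ∈ Ioo (t 0) (t (Fin.last m)) ∧ f z = 0 := by
  have hex : ∀ i : Fin m, ∃ c, t i.castSucc < c ∧ c < t i.succ ∧ f c = 0 := by
    intro i
    have hlt : t i.castSucc < t i.succ := ht Fin.castSucc_lt_succ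
    have h1 := hs i.castSucc
    have h2 := hs i.succ
    simp only [Fin.val_castSucc] at h1
    simp only [Fin.val_succ] at h2
    set a : ℝ := (-1) ^ (i : ℕ) * s with ha
    have h2' : a * f (t i.succ) < 0 := by
      have : (-1 : ℝ) ^ ((i : ℕ) + 1) * s = -a := by rw [ha, pow_succ]; ring
      rw [this] at h2
      linarith
    have hsub : Icc (t i.castSucc) (t i.succ) ⊆ Icc (t 0) (t (Fin.last m)) :=
      Icc_subset_Icc (ht.monotone (Fin.zero_le _)) (ht.monotone (Fin.le_last _))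
    have hg : ContinuousOn (fun x => a * f x) (Icc (t i.castSucc) (t i.succ)) :=
      continuousOn_const.mul (hf.mono hsub)
    obtain ⟨c, hc, hc0⟩ := intermediate_value_Icc' hlt.le hg ⟨h2'.le, h1.le⟩
    have ha0 : a ≠ 0 := by
      intro h
      rw [h, zero_mul] at h1
      exact lt_irrefl _ h1
    have hfc : f c = 0 := (mul_eq_zero.1 hc0).resolve_left ha0
    refine ⟨c, lt_of_le_of_ne hc.1 ?_, lt_of_le_of_ne hc.2 ?_, hfc⟩
    · intro h8
      rw [h8, hfc, mul_zero] at h1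
      exact lt_irrefl _ h1
    · intro h8
      rw [← h8, hfc, mul_zero] at h2'
      exact lt_irrefl _ h2'
  choose c hc1 hc2 hc3 using hex
  have hmono : StrictMono c := by
    intro i j hij
    have h1 : t i.succ ≤ t j.castSucc := by
      apply ht.monotone
      rw [Fin.le_def]
      simp only [Fin.val_succ, Fin.val_castSucc]
      exact hij
    exact (hc2 i).trans_le (h1.trans (hc1 j).le)
  refine ⟨Finset.univ.image c, ?_, ?_⟩
  · rw [Finset.card_image_of_injective _ hmono.injective, Finset.card_univ, Fintype.card_fin]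
  · intro w hw
    obtain ⟨i, _, rfl⟩ := Finset.mem_image.1 hw
    exact ⟨⟨(ht.monotone (Fin.zero_le _)).trans_lt (hc1 i),
      (hc2 i).trans_le (ht.monotone (Fin.le_last _))⟩, hc3 i⟩

/-- derivative of the diagonal part -/
noncomputable def Pe' (n : ℕ) (E : ℕ → ℕ) (c : ℕ → ℝ) (θ : ℝ) : ℝ :=
  ∑ j ∈ Finset.range n, c j * (2 * E j * Real.exp (2 * E j * θ))

lemma Pe_hasDerivAt (n : ℕ) (E : ℕ → ℕ) (c : ℕ → ℝ) (θ : ℝ) :
    HasDerivAt (Pe n E c) (Pe' n E c θ) θ := by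
  unfold Pe Pe'
  apply HasDerivAt.fun_sum
  intro j _
  have h1 := ((hasDerivAt_id θ).const_mul (2 * (E j : ℝ))).exp
  simp only [mul_one, id_eq] at h1
  refine (h1.const_mul (c j)).congr_deriv ?_
  ring

/-- The solution of the first equation. -/
noncomputable def ve (n A K : ℕ) (E : ℕ → ℕ) (c : ℕ → ℝ) (θ : ℝ) : ℝ :=
  Real.arcosh (Pe n E c θ * Real.exp (-((2 * K + A) * θ)) / 2) / A

/-- The second equation on the solution curve of the first. -/
noncomputable def Fe (n1 n2 A1 A2 K : ℕ) (E1 E2 : ℕ → ℕ) (c1 c2 : ℕ → ℝ) (θ : ℝ) : ℝ :=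
  2 * Real.exp ((2 * K + A2) * θ) * Real.cosh (A2 * ve n1 A1 K E1 c1 θ) - Pe n2 E2 c2 θ

lemma arg_gt {P θ : ℝ} {B : ℝ} (h : 2 * Real.exp (B * θ) < P) :
    1 < P * Real.exp (-(B * θ)) / 2 := by
  have h1 := Real.exp_pos (-(B * θ))
  have h2 : Real.exp (B * θ) * Real.exp (-(B * θ)) = 1 := by
    rw [← Real.exp_add, add_neg_cancel, Real.exp_zero]
  have h3 : 2 * Real.exp (B * θ) * Real.exp (-(B * θ)) < P * Real.exp (-(B * θ)) :=
    mul_lt_mul_of_pos_right h h1
  rw [mul_assoc, h2, mul_one] at h3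
  linarith

lemma ve_differentiableAt (n A K : ℕ) (E : ℕ → ℕ) (c : ℕ → ℝ) (θ : ℝ)
    (h : 2 * Real.exp ((2 * K + A) * θ) < Pe n E c θ) :
    DifferentiableAt ℝ (ve n A K E c) θ := by
  unfold ve
  apply DifferentiableAt.div_const
  have h1 : DifferentiableAt ℝ (fun θ => Pe n E c θ * Real.exp (-((2 * K + A) * θ)) / 2) θ := by
    apply DifferentiableAt.div_const
    apply (Pe_hasDerivAt n E c θ).differentiableAt.mul
    fun_prop
  exact DifferentiableAt.fun_comp' (g := Real.arcosh) θ (Real.differentiableAt_arcosh (arg_gt h)) h1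

lemma ve_eq (n A K : ℕ) (hA : 1 ≤ A) (E : ℕ → ℕ) (c : ℕ → ℝ) (θ : ℝ)
    (h : 2 * Real.exp ((2 * K + A) * θ) < Pe n E c θ) :
    2 * Real.exp ((2 * K + A) * θ) * Real.cosh (A * ve n A K E c θ) - Pe n E c θ = 0 := by
  have hA0 : (A : ℝ) ≠ 0 := by
    have : 0 < A := hA
    positivity
  unfold ve
  rw [mul_div_cancel₀ _ hA0, Real.cosh_arcosh (arg_gt h).le]
  have h2 : Real.exp ((2 * K + A) * θ) * Real.exp (-((2 * K + A) * θ)) = 1 := by
    rw [← Real.exp_add, add_neg_cancel, Real.exp_zero]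
  linear_combination (Pe n E c θ) * h2

lemma ve_pos (n A K : ℕ) (hA : 1 ≤ A) (E : ℕ → ℕ) (c : ℕ → ℝ) (θ : ℝ)
    (h : 2 * Real.exp ((2 * K + A) * θ) < Pe n E c θ) : 0 < ve n A K E c θ := by
  unfold ve
  have : (0 : ℝ) < A := by exact_mod_cast hA
  exact div_pos (Real.arcosh_pos (arg_gt h)) this

lemma Fe_differentiableAt (n1 n2 A1 A2 K : ℕ) (E1 E2 : ℕ → ℕ) (c1 c2 : ℕ → ℝ) (θ : ℝ)
    (h : 2 * Real.exp ((2 * K + A1) * θ) < Pe n1 E1 c1 θ) :
    DifferentiableAt ℝ (Fe n1 n2 A1 A2 K E1 E2 c1 c2) θ := by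
  unfold Fe
  have h1 := ve_differentiableAt n1 A1 K E1 c1 θ h
  have h2 : DifferentiableAt ℝ (fun θ => Real.cosh (A2 * ve n1 A1 K E1 c1 θ)) θ :=
    Real.differentiable_cosh.differentiableAt.comp θ (h1.const_mul (A2 : ℝ))
  have h3 : DifferentiableAt ℝ (fun θ : ℝ => 2 * Real.exp ((2 * K + A2) * θ)) θ := by fun_prop
  exact (h3.mul h2).sub (Pe_hasDerivAt n2 E2 c2 θ).differentiableAt

theorem count (n1 n2 M : ℕ) (hn2 : 1 ≤ n2) (A1 A2 K : ℕ) (hA1 : 1 ≤ A1) (hA2 : 1 ≤ A2)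
    (E1 E2 : ℕ → ℕ) (hE1 : ∀ i < n1, ∀ j < n1, E1 i = E1 j → i = j)
    (hE2 : ∀ i < n2, ∀ j < n2, E2 i = E2 j → i = j) (c1 c2 : ℕ → ℝ)
    (hc1 : ∀ j < n1, c1 j ≠ 0) (hc2 : ∀ j < n2, c2 j ≠ 0) (t : Fin (2 * M + 1) → ℝ)
    (ht : StrictMono t)
    (hR : ∀ θ ∈ Icc (t 0) (t (Fin.last (2 * M))), 2 * Real.exp ((2 * K + A1) * θ) < Pe n1 E1 c1 θ)
    (s : ℝ) (hs : ∀ i : Fin (2 * M + 1),
      0 < (-1) ^ (i : ℕ) * s * Fe n1 n2 A1 A2 K E1 E2 c1 c2 (t i)) :
    ((4 * M : ℕ) : ℕ∞) ≤ N (n1 + 2) (n2 + 2) := by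
  classical
  -- the generic constant
  have hev1 : ∀ᶠ c in 𝓝 (0 : ℝ), ∀ i : Fin (2 * M + 1), 0 < (-1) ^ (i : ℕ) * s *
      (Fe n1 n2 A1 A2 K E1 E2 c1 c2 (t i) - c * Real.exp (2 * E2 0 * t i)) := by
    rw [eventually_all]
    intro i
    have hc : Continuous fun c : ℝ => (-1) ^ (i : ℕ) * s *
      (Fe n1 n2 A1 A2 K E1 E2 c1 c2 (t i) - c * Real.exp (2 * E2 0 * t i)) := by fun_prop
    apply hc.continuousAt.eventually
    simp only [zero_mul, sub_zero]
    exact Ioi_mem_nhds (hs i)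
  have hev2 : ∀ᶠ c in 𝓝 (0 : ℝ), c2 0 + c ≠ 0 := by
    have hc : Continuous fun c : ℝ => c2 0 + c := by fun_prop
    apply hc.continuousAt.eventually_ne
    rw [add_zero]
    exact hc2 0 hn2
  obtain ⟨δ, hδ, hball⟩ := Metric.eventually_nhds_iff.1 (hev1.and hev2)
  set I : Set ℝ := Ioo (t 0) (t (Fin.last (2 * M))) with hI
  have hFd : ∀ x ∈ I, HasDerivAt (Fe n1 n2 A1 A2 K E1 E2 c1 c2)
      (deriv (Fe n1 n2 A1 A2 K E1 E2 c1 c2) x) x := fun x hx =>
    (Fe_differentiableAt n1 n2 A1 A2 K E1 E2 c1 c2 x (hR x (Ioo_subset_Icc_self hx))).hasDerivAt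
  have hmd : ∀ x, HasDerivAt (fun θ : ℝ => Real.exp (2 * E2 0 * θ))
      (2 * E2 0 * Real.exp (2 * E2 0 * x)) x := by
    intro x
    have h1 := ((hasDerivAt_id x).const_mul (2 * (E2 0 : ℝ))).exp
    simp only [mul_one, id_eq] at h1
    refine h1.congr_deriv ?_
    ring
  obtain ⟨c, hc0, hcδ, hcs⟩ := sard_weight hFd hmd (fun x => (Real.exp_pos _).ne') hδ
  obtain ⟨hsc, hcne⟩ := hball (show dist c 0 < δ by
    rw [Real.dist_eq, sub_zero, abs_of_pos hc0]; exact hcδ)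
  -- the modified second polynomial
  set c2' : ℕ → ℝ := fun j => if j = 0 then c2 0 + c else c2 j with hc2'
  have hPe : ∀ θ, Pe n2 E2 c2' θ = Pe n2 E2 c2 θ + c * Real.exp (2 * E2 0 * θ) := by
    intro θ
    obtain ⟨n, rfl⟩ := Nat.exists_eq_add_of_le' hn2
    unfold Pe
    rw [Finset.sum_range_succ', Finset.sum_range_succ']
    simp only [hc2', if_true, Nat.succ_ne_zero, if_false]
    ring
  have hFe : ∀ θ, Fe n1 n2 A1 A2 K E1 E2 c1 c2' θ =
      Fe n1 n2 A1 A2 K E1 E2 c1 c2 θ - c * Real.exp (2 * E2 0 * θ) := by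
    intro θ
    unfold Fe
    rw [hPe]
    ring
  have hc2'ne : ∀ j < n2, c2' j ≠ 0 := by
    intro j hj
    simp only [hc2']
    split_ifs
    · exact hcne
    · exact hc2 j hj
  set f1 := fp n1 A1 K E1 c1 with hf1
  set f2 := fp n2 A2 K E2 c2' with hf2
  have hcard1 : f1.support.card = n1 + 2 := fp_card n1 A1 K E1 c1 hA1 hE1 hc1
  have hcard2 : f2.support.card = n2 + 2 := fp_card n2 A2 K E2 c2' hA2 hE2 hc2'ne
  -- the zeros
  have hcont : ContinuousOn (Fe n1 n2 A1 A2 K E1 E2 c1 c2') (Icc (t 0) (t (Fin.last (2 * M)))) :=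
    fun x hx => (Fe_differentiableAt n1 n2 A1 A2 K E1 E2 c1 c2' x
      (hR x hx)).continuousAt.continuousWithinAt
  obtain ⟨Z, hZc, hZ⟩ := alt_zeros (2 * M) t ht hcont s (fun i => by
    rw [hFe]; exact hsc i)
  set V := ve n1 A1 K E1 c1 with hV
  -- membership
  have hmem : ∀ z ∈ Z, ∀ σ : ℝ, (σ = 1 ∨ σ = -1) → pt z (σ * V z) ∈ positiveSimple f1 f2 := by
    intro z hz σ hσ
    obtain ⟨hzI, hz0⟩ := hZ z hz
    have hRz := hR z (Ioo_subset_Icc_self hzI)
    have hVd : HasDerivAt V (deriv V z) z :=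
      (ve_differentiableAt n1 A1 K E1 c1 z hRz).hasDerivAt
    have hcosh : ∀ (A : ℕ) (x : ℝ), Real.cosh (A * (σ * x)) = Real.cosh (A * x) := by
      intro A x
      rcases hσ with h | h
      · rw [h, one_mul]
      · rw [h]
        have : (A : ℝ) * (-1 * x) = -(A * x) := by ring
        rw [this, Real.cosh_neg]
    have hev : ∀ᶠ s in 𝓝 z, s ∈ Icc (t 0) (t (Fin.last (2 * M))) := Icc_mem_nhds hzI.1 hzI.2
    have h1 : ∀ᶠ s in 𝓝 z, eval (pt s (σ * V s)) f1 = 0 := by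
      filter_upwards [hev] with s hs
      rw [hf1, eval_fp, hcosh]
      exact ve_eq n1 A1 K hA1 E1 c1 s (hR s hs)
    have hf2e : ∀ s, eval (pt s (σ * V s)) f2 = Fe n1 n2 A1 A2 K E1 E2 c1 c2' s := by
      intro s
      rw [hf2, eval_fp, hcosh]
      rfl
    have hd : HasDerivAt (fun s => eval (pt s (σ * V s)) f2)
        (deriv (Fe n1 n2 A1 A2 K E1 E2 c1 c2) z - c * (2 * E2 0 * Real.exp (2 * E2 0 * z))) z := by
      have e : (fun s => eval (pt s (σ * V s)) f2) = fun s =>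
          Fe n1 n2 A1 A2 K E1 E2 c1 c2 s - c * Real.exp (2 * E2 0 * s) := by
        funext s
        rw [hf2e, hFe]
      rw [e]
      exact (hFd z hzI).sub ((hmd z).const_mul c)
    have hd0 := hcs z hzI (by rw [← hFe]; exact hz0)
    have hVpos := ve_pos n1 A1 K hA1 E1 c1 z hRz
    have he : HasDerivAt (fun s => eval (pt z s) f1)
        (2 * Real.exp ((2 * K + A1) * z) * (Real.sinh (A1 * (σ * V z)) * A1)) (σ * V z) := by
      have e : (fun s => eval (pt z s) f1) = fun s =>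
          2 * Real.exp ((2 * K + A1) * z) * Real.cosh (A1 * s) - Pe n1 E1 c1 z := by
        funext s
        rw [hf1, eval_fp]
      rw [e]
      have h3 := ((hasDerivAt_id (σ * V z)).const_mul (A1 : ℝ)).cosh
      simp only [mul_one, id_eq] at h3
      exact (h3.const_mul _).sub_const _
    have hA10 : (A1 : ℝ) ≠ 0 := by
      have : 0 < A1 := hA1
      positivity
    have hσ0 : σ ≠ 0 := by rcases hσ with h | h <;> rw [h] <;> norm_num
    have he0 : 2 * Real.exp ((2 * K + A1) * z) * (Real.sinh (A1 * (σ * V z)) * A1) ≠ 0 := by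
      apply mul_ne_zero (by positivity)
      apply mul_ne_zero _ hA10
      rw [Ne, Real.sinh_eq_zero]
      exact mul_ne_zero hA10 (mul_ne_zero hσ0 hVpos.ne')
    exact mem_positiveSimple f1 f2 (fun s => σ * V s) z (σ * deriv V z) (hVd.const_mul σ) h1
      (by rw [hf2e]; exact hz0) _ hd hd0 _ he he0
  -- injectivity
  set φ : ℝ × Bool → (Fin 2 → ℝ) := fun q => pt q.1 ((if q.2 then 1 else -1) * V q.1) with hφ
  have hinj : Set.InjOn φ (Z ×ˢ (Finset.univ : Finset Bool) : Finset (ℝ × Bool)) := by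
    rintro ⟨z, b⟩ hz ⟨z', b'⟩ hz' h
    rw [Finset.mem_coe, Finset.mem_product] at hz hz'
    have h0 := congrFun h 0
    have h1 := congrFun h 1
    simp only [hφ, pt, Matrix.cons_val_zero, Matrix.cons_val_one] at h0 h1
    have h0' := Real.exp_injective h0
    have h1' := Real.exp_injective h1
    have hzz : z = z' := by linarith
    subst hzz
    have hRz := hR z (Ioo_subset_Icc_self (hZ z hz.1).1)
    have hVpos : 0 < V z := ve_pos n1 A1 K hA1 E1 c1 z hRz
    have hb : b = b' := by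
      cases b <;> cases b' <;> simp only [if_true, if_false, Bool.false_eq_true] at h0' h1' ⊢
      · linarith
      · linarith
    rw [hb]
  have hsub : (((Z ×ˢ (Finset.univ : Finset Bool)).image φ : Finset (Fin 2 → ℝ)) :
      Set (Fin 2 → ℝ)) ⊆ positiveSimple f1 f2 := by
    intro p hp
    rw [Finset.mem_coe, Finset.mem_image] at hp
    obtain ⟨⟨z, b⟩, hz, rfl⟩ := hp
    rw [Finset.mem_product] at hz
    apply hmem z hz.1
    cases b <;> simp
  have hcardZ : ((Z ×ˢ (Finset.univ : Finset Bool)).image φ).card = 4 * M := by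
    rw [Finset.card_image_of_injOn hinj, Finset.card_product, hZc]
    simp
    ring
  have hle : ((4 * M : ℕ) : ℕ∞) ≤ (positiveSimple f1 f2).encard := by
    rw [← hcardZ, ← Set.encard_coe_eq_coe_finsetCard]
    exact Set.encard_le_encard hsub
  refine hle.trans ?_
  unfold N
  exact le_iSup_of_le f1 (le_iSup_of_le f2 (le_iSup_of_le hcard1 (le_iSup_of_le hcard2 le_rfl)))

end Fewnomial.Low
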