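import Mathlib

/-!
Compact regular curves with a tangent flow: recurrence, first return to a finite set, Sard.
-/

namespace Fewnomial

open Set Filter Metric
open scoped Topology

/-- A compact set which is a union of trajectories of a flow without rest points, such that near
each of its points it consists of one local trajectory only. -/
structure CurveFlow (E : Type*) [NormedAddCommGroup E] [NormedSpace ℝ E] where
  Γ : Set E
  V : E → E
  γ : E → ℝ → E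
  compact : IsCompact Γ
  ne : ∀ p ∈ Γ, V p ≠ 0
  zero : ∀ p ∈ Γ, γ p 0 = p
  mem : ∀ p ∈ Γ, ∀ t, γ p t ∈ Γ
  deriv : ∀ p ∈ Γ, ∀ t, HasDerivAt (γ p) (V (γ p t)) t
  add : ∀ p ∈ Γ, ∀ s t, γ (γ p s) t = γ p (s + t)
  loc : ∀ q ∈ Γ, ∀ δ > 0, ∀ᶠ x in 𝓝 q, x ∈ Γ → ∃ t, |t| < δ ∧ γ q t = x

namespace CurveFlow

variable {E : Type*} [NormedAddCommGroup E] [NormedSpace ℝ E] (C : CurveFlow E)

lemma continuous {p : E} (hp : p ∈ C.Γ) : Continuous (C.γ p) :=
  continuous_iff_continuousAt.mpr fun t => (C.deriv p hp t).continuousAt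

/-- Recurrence: every trajectory comes back to its starting point. -/
lemma recur {p : E} (hp : p ∈ C.Γ) : ∃ T > 0, C.γ p T = p := by
  obtain ⟨q, hq, φ, hφ, hlim⟩ := C.compact.tendsto_subseq (x := fun n : ℕ => C.γ p n)
    (fun n => C.mem p hp n)
  have hev := hlim.eventually (C.loc q hq (1 / 4) (by norm_num))
  obtain ⟨N, hN⟩ := eventually_atTop.mp hev
  obtain ⟨t1, ht1, h1⟩ := hN N le_rfl (C.mem p hp _)
  obtain ⟨t2, ht2, h2⟩ := hN (N + 1) (Nat.le_succ N) (C.mem p hp _)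
  simp only [Function.comp_apply] at h1 h2
  have hlt : φ N < φ (N + 1) := hφ (Nat.lt_succ_self N)
  have hle : (φ N : ℝ) + 1 ≤ φ (N + 1) := by exact_mod_cast hlt
  have e1 : C.γ p (φ N + -t1) = q := by
    rw [← C.add p hp, ← h1, C.add q hq, add_neg_cancel, C.zero q hq]
  have e2 : C.γ p (φ (N + 1) + -t2) = q := by
    rw [← C.add p hp, ← h2, C.add q hq, add_neg_cancel, C.zero q hq]
  have ha1 := abs_lt.mp ht1
  have ha2 := abs_lt.mp ht2
  refine ⟨(φ (N + 1) + -t2) + -(φ N + -t1), by linarith [ha1.1, ha1.2, ha2.1, ha2.2], ?_⟩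
  rw [← C.add p hp, e2, ← e1, C.add p hp, add_neg_cancel, C.zero p hp]

lemma eventually_ne_self {p : E} (hp : p ∈ C.Γ) : ∀ᶠ t in 𝓝[≠] (0 : ℝ), C.γ p t ≠ p := by
  have h := C.deriv p hp 0
  rw [C.zero p hp] at h
  exact h.eventually_ne (C.ne p hp)

/-- The first hitting time of a finite set. -/
lemma exists_next {F : Set E} (hF : F.Finite) {p : E} (hp : p ∈ C.Γ)
    (hpF : p ∈ F) : ∃ τ > 0, C.γ p τ ∈ F ∧ ∀ t ∈ Ioo 0 τ, C.γ p t ∉ F := by
  -- no return for small positive times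
  have h1 : ∀ᶠ t in 𝓝[≠] (0 : ℝ), C.γ p t ∉ F := by
    have hcl : IsClosed (F \ {p}) := (hF.subset sdiff_subset).isClosed
    have h2 : ∀ᶠ t in 𝓝 (0 : ℝ), C.γ p t ∈ (F \ {p})ᶜ := by
      apply (C.continuous hp).continuousAt.eventually
      rw [C.zero p hp]
      exact hcl.isOpen_compl.mem_nhds (by simp)
    filter_upwards [C.eventually_ne_self hp, nhdsWithin_le_nhds h2] with t ht1 ht2 ht3
    exact ht2 ⟨ht3, ht1⟩
  rw [eventually_nhdsWithin_iff, Metric.eventually_nhds_iff] at h1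
  obtain ⟨δ, hδ, h1⟩ := h1
  have hδ' : ∀ t, 0 < t → C.γ p t ∈ F → δ ≤ t := by
    intro t ht0 htF
    by_contra hcon
    push Not at hcon
    exact h1 (by rw [Real.dist_eq, sub_zero, abs_of_pos ht0]; exact hcon)
      (by simpa using ht0.ne') htF
  set S : Set ℝ := {t | δ ≤ t ∧ C.γ p t ∈ F} with hS
  have hclS : IsClosed S := (isClosed_le continuous_const continuous_id).inter
    (hF.isClosed.preimage (C.continuous hp))
  obtain ⟨T, hT, hTp⟩ := C.recur hp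
  have hne : S.Nonempty := ⟨T, hδ' T hT (by rw [hTp]; exact hpF), by
    show C.γ p T ∈ F
    rw [hTp]; exact hpF⟩
  have hbdd : BddBelow S := ⟨δ, fun t ht => ht.1⟩
  have hmem : sInf S ∈ S := hclS.csInf_mem hne hbdd
  refine ⟨sInf S, hδ.trans_le hmem.1, hmem.2, fun t ht htF => ?_⟩
  have : t ∈ S := ⟨hδ' t ht.1 htF, htF⟩
  exact absurd (csInf_le hbdd this) (not_le.mpr ht.2)

/-- Trajectories arcs issued from a set and not meeting it again are disjoint. -/
lemma arc_unique {F : Set E} {p₁ p₂ : E} (h₁ : p₁ ∈ C.Γ) (h₂ : p₂ ∈ C.Γ)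
    (hp₁ : p₁ ∈ F) (hp₂ : p₂ ∈ F) {τ₁ τ₂ t₁ t₂ : ℝ}
    (hn₁ : ∀ t ∈ Ioo 0 τ₁, C.γ p₁ t ∉ F) (hn₂ : ∀ t ∈ Ioo 0 τ₂, C.γ p₂ t ∉ F)
    (ht₁ : 0 < t₁) (ht₁' : t₁ ≤ τ₁) (ht₂ : 0 < t₂) (ht₂' : t₂ ≤ τ₂)
    (h : C.γ p₁ t₁ = C.γ p₂ t₂) : p₁ = p₂ := by
  rcases lt_trichotomy t₁ t₂ with hlt | heq | hgt
  · exfalso
    have e : C.γ p₂ (t₂ + -t₁) = p₁ := by
      rw [← C.add p₂ h₂, ← h, C.add p₁ h₁, add_neg_cancel, C.zero p₁ h₁]
    exact hn₂ (t₂ + -t₁) ⟨by linarith, by linarith⟩ (by rw [e]; exact hp₁)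
  · subst heq
    have e : C.γ p₂ (t₁ + -t₁) = p₁ := by
      rw [← C.add p₂ h₂, ← h, C.add p₁ h₁, add_neg_cancel, C.zero p₁ h₁]
    rw [add_neg_cancel, C.zero p₂ h₂] at e
    exact e.symm
  · exfalso
    have e : C.γ p₁ (t₁ + -t₂) = p₂ := by
      rw [← C.add p₁ h₁, h, C.add p₂ h₂, add_neg_cancel, C.zero p₂ h₂]
    exact hn₁ (t₁ + -t₂) ⟨by linarith, by linarith⟩ (by rw [e]; exact hp₂)

/-- The counting principle behind Rolle's theorem on a compact curve. -/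
lemma count_arcs [DecidableEq E] (F B : Finset E) (hF : ∀ p ∈ F, p ∈ C.Γ)
    (Q : E → Prop)
    (h : ∀ p ∈ F \ B, ∀ τ > 0, C.γ p τ ∈ F \ B → (∀ t ∈ Ioo 0 τ, C.γ p t ∉ F) →
      ∃ t ∈ Ioo 0 τ, Q (C.γ p t)) :
    ∃ Z : Finset E, (∀ z ∈ Z, z ∈ C.Γ ∧ Q z) ∧ (F \ B).card ≤ B.card + Z.card := by
  classical
  have hnext : ∀ p : E, ∃ τ : ℝ, p ∈ F → 0 < τ ∧ C.γ p τ ∈ F ∧ ∀ t ∈ Ioo 0 τ, C.γ p t ∉ F := by
    intro p
    by_cases hp : p ∈ F
    · obtain ⟨τ, h1, h2, h3⟩ := C.exists_next (F := (F : Set E)) F.finite_toSet (hF p hp)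
        (by exact_mod_cast hp)
      exact ⟨τ, fun _ => ⟨h1, by exact_mod_cast h2, fun t ht => by exact_mod_cast h3 t ht⟩⟩
    · exact ⟨0, fun hp' => absurd hp' hp⟩
  choose τ hτ using hnext
  set A := (F \ B).filter (fun p => C.γ p (τ p) ∈ B) with hA
  set A' := (F \ B).filter (fun p => ¬ C.γ p (τ p) ∈ B) with hA'
  have hsplit : (F \ B).card = A.card + A'.card := by
    rw [hA, hA', Finset.card_filter_add_card_filter_not]
  have hFm : ∀ p ∈ F \ B, p ∈ F := fun p hp => (Finset.mem_sdiff.mp hp).1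
  -- the points of `A` inject into `B`
  have hAB : A.card ≤ B.card := by
    apply Finset.card_le_card_of_injOn (fun p => C.γ p (τ p))
    · intro p hp
      exact (Finset.mem_filter.mp hp).2
    · intro p hp q hq hpq
      have hpF := hFm p (Finset.mem_filter.mp hp).1
      have hqF := hFm q (Finset.mem_filter.mp hq).1
      exact C.arc_unique (F := (F : Set E)) (hF p hpF) (hF q hqF)
        (by exact_mod_cast hpF) (by exact_mod_cast hqF)
        (fun t ht => by exact_mod_cast (hτ p hpF).2.2 t ht)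
        (fun t ht => by exact_mod_cast (hτ q hqF).2.2 t ht)
        (hτ p hpF).1 le_rfl (hτ q hqF).1 le_rfl hpq
  -- the arcs from the points of `A'` carry a point with `Q`
  have hex : ∀ p : E, ∃ t : ℝ, p ∈ A' → t ∈ Ioo 0 (τ p) ∧ Q (C.γ p t) := by
    intro p
    by_cases hp : p ∈ A'
    · obtain ⟨hp1, hp2⟩ := Finset.mem_filter.mp hp
      have hpF := hFm p hp1
      obtain ⟨t, ht, hQ⟩ := h p hp1 (τ p) (hτ p hpF).1
        (Finset.mem_sdiff.mpr ⟨(hτ p hpF).2.1, hp2⟩) (hτ p hpF).2.2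
      exact ⟨t, fun _ => ⟨ht, hQ⟩⟩
    · exact ⟨0, fun hp' => absurd hp' hp⟩
  choose r hr using hex
  refine ⟨A'.image (fun p => C.γ p (r p)), ?_, ?_⟩
  · intro z hz
    obtain ⟨p, hp, rfl⟩ := Finset.mem_image.mp hz
    exact ⟨C.mem p (hF p (hFm p (Finset.mem_filter.mp hp).1)) _, (hr p hp).2⟩
  · rw [Finset.card_image_of_injOn, hsplit]
    · omega
    · intro p hp q hq hpq
      have hp' : p ∈ A' := by exact_mod_cast hp
      have hq' : q ∈ A' := by exact_mod_cast hq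
      have hpF := hFm p (Finset.mem_filter.mp hp').1
      have hqF := hFm q (Finset.mem_filter.mp hq').1
      exact C.arc_unique (F := (F : Set E)) (hF p hpF) (hF q hqF)
        (by exact_mod_cast hpF) (by exact_mod_cast hqF)
        (fun t ht => by exact_mod_cast (hτ p hpF).2.2 t ht)
        (fun t ht => by exact_mod_cast (hτ q hqF).2.2 t ht)
        (hr p hp').1.1 (hr p hp').1.2.le (hr q hq').1.1 (hr q hq').1.2.le hpq

/-- `f'` is the derivative of `f` along the flow. -/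
def FD (f f' : E → ℝ) : Prop := ∀ p ∈ C.Γ, HasDerivAt (fun t => f (C.γ p t)) (f' p) 0

variable {C}

lemma FD.at {f f' : E → ℝ} (h : C.FD f f') {p : E} (hp : p ∈ C.Γ) (t : ℝ) :
    HasDerivAt (fun t => f (C.γ p t)) (f' (C.γ p t)) t := by
  have h1 := h (C.γ p t) (C.mem p hp t)
  have h2 : (fun s => f (C.γ (C.γ p t) s)) = fun s => f (C.γ p (t + s)) := by
    funext s
    rw [C.add p hp]
  rw [h2] at h1
  have h4 : HasDerivAt (fun s => f (C.γ p (t + s))) (f' (C.γ p t)) (t - t) := by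
    simpa using h1
  have h5 := h4.comp_sub_const t t
  simpa only [add_sub_cancel] using h5

variable (C)

/-- Sard's theorem on the curve. -/
lemma sard {S : Set E} (hS : S ⊆ C.Γ) (f : E → ℝ)
    (h : ∀ x ∈ S, HasDerivAt (fun t => f (C.γ x t)) 0 0) :
    MeasureTheory.volume (f '' S) = 0 := by
  -- finitely many arcs cover the curve
  have hcov : ∀ q ∈ C.Γ, {x | x ∈ C.Γ → ∃ t, |t| < (1 : ℝ) ∧ C.γ q t = x} ∈ 𝓝 q := fun q hq =>
    C.loc q hq 1 one_pos
  obtain ⟨T, hTcov⟩ := C.compact.elim_nhds_subcover'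
    (fun q _ => {x | x ∈ C.Γ → ∃ t, |t| < (1 : ℝ) ∧ C.γ q t = x}) hcov
  have hsub : f '' S ⊆ ⋃ q ∈ (T : Set C.Γ), (fun t => f (C.γ q t)) '' {t | C.γ q t ∈ S} := by
    rintro _ ⟨x, hx, rfl⟩
    have hxΓ := hS hx
    obtain ⟨q, hq, hxq⟩ := mem_iUnion₂.mp (hTcov hxΓ)
    obtain ⟨t, -, ht⟩ := hxq hxΓ
    refine mem_iUnion₂.mpr ⟨q, hq, t, ?_, ?_⟩
    · show C.γ q t ∈ S
      rw [ht]; exact hx
    · show f (C.γ q t) = f x
      rw [ht]
  refine MeasureTheory.measure_mono_null hsub ?_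
  refine (MeasureTheory.measure_biUnion_null_iff T.countable_toSet).mpr ?_
  intro q _
  apply MeasureTheory.addHaar_image_eq_zero_of_det_fderivWithin_eq_zero
    (f' := fun _ => (0 : ℝ →L[ℝ] ℝ))
  · intro t ht
    have ht' : C.γ q t ∈ S := ht
    have h1 := h _ ht'
    have h2 : (fun s => f (C.γ (C.γ q t) s)) = fun s => f (C.γ q (t + s)) := by
      funext s
      rw [C.add q q.2]
    rw [h2] at h1
    have h4 : HasDerivAt (fun s => f (C.γ q (t + s))) 0 (t - t) := by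
      simpa using h1
    have h5 := h4.comp_sub_const t t
    simp only [add_sub_cancel] at h5
    have h7 := h5.hasFDerivAt
    have h8 : ContinuousLinearMap.toSpanSingleton ℝ (0 : ℝ) = (0 : ℝ →L[ℝ] ℝ) := by
      ext; simp
    rw [h8] at h7
    exact h7.hasFDerivWithinAt
  · intro t _
    simp [ContinuousLinearMap.det]

end CurveFlow

end Fewnomial
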