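import Mathlib

/-!
Global flow of a bounded Lipschitz vector field.
-/

namespace Fewnomial

open Set Metric
open scoped NNReal Topology

variable {E : Type*} [NormedAddCommGroup E] [NormedSpace ℝ E] [CompleteSpace E]

/-- A bounded Lipschitz autonomous vector field has global integral curves. -/
theorem exists_global_curve (v : E → E) {L K : ℝ≥0} (hL : ∀ x, ‖v x‖ ≤ L)
    (hK : LipschitzWith K v) (p : E) :
    ∃ γ : ℝ → E, γ 0 = p ∧ ∀ t, HasDerivAt γ (v (γ t)) t := by
  have hex : ∀ n : ℕ, ∃ α : ℝ → E, α 0 = p ∧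
      ∀ t ∈ Ioo (-((n : ℝ) + 1)) ((n : ℝ) + 1), HasDerivAt α (v (α t)) t := by
    intro n
    have hn : (0 : ℝ) < (n : ℝ) + 1 := by positivity
    have h0 : (0 : ℝ) ∈ Icc (-((n : ℝ) + 1)) ((n : ℝ) + 1) := ⟨by linarith, by linarith⟩
    have hPL : IsPicardLindelof (fun _ : ℝ => v) (tmin := -((n : ℝ) + 1)) (tmax := (n : ℝ) + 1)
        ⟨0, h0⟩ p (L * ((n : ℝ≥0) + 1)) 0 L K := by
      refine IsPicardLindelof.of_time_independent (fun x _ => hL x) hK.lipschitzOnWith ?_
      simp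
    obtain ⟨α, h1, h2⟩ := hPL.exists_eq_forall_mem_Icc_hasDerivWithinAt₀
    refine ⟨α, h1, fun t ht => ?_⟩
    exact (h2 t (Ioo_subset_Icc_self ht)).hasDerivAt (Icc_mem_nhds ht.1 ht.2)
  choose α h0 hα using hex
  have hagree : ∀ m n : ℕ, m ≤ n → EqOn (α m) (α n) (Ioo (-((m : ℝ) + 1)) ((m : ℝ) + 1)) := by
    intro m n hmn
    have hmn' : (m : ℝ) ≤ n := by exact_mod_cast hmn
    have hm : (0 : ℝ) ≤ m := Nat.cast_nonneg m
    refine ODE_solution_unique_of_mem_Ioo (v := fun _ => v) (s := fun _ => univ) (K := K)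
      (t₀ := 0) (fun t _ => hK.lipschitzOnWith) ⟨by linarith, by linarith⟩
      (fun t ht => ⟨hα m t ht, mem_univ _⟩) (fun t ht => ⟨hα n t ⟨?_, ?_⟩, mem_univ _⟩) ?_
    · have := ht.1; linarith
    · have := ht.2; linarith
    · rw [h0, h0]
  set γ : ℝ → E := fun t => α ⌈|t|⌉₊ t with hγ
  have hγeq : ∀ (n : ℕ) (t : ℝ), |t| < (n : ℝ) + 1 → γ t = α n t := by
    intro n t ht
    have hc : |t| ≤ (⌈|t|⌉₊ : ℝ) := Nat.le_ceil _
    rcases le_total ⌈|t|⌉₊ n with h | h
    · have := hagree _ _ h (x := t) ⟨by have := neg_abs_le t; linarith,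
        by have := le_abs_self t; linarith⟩
      exact this
    · have := hagree _ _ h (x := t) ⟨by have := neg_abs_le t; linarith,
        by have := le_abs_self t; linarith⟩
      exact this.symm
  refine ⟨γ, ?_, ?_⟩
  · rw [hγeq 0 0 (by simp)]
    exact h0 0
  · intro t
    set n := ⌈|t|⌉₊ with hn
    have hc : |t| ≤ (n : ℝ) := Nat.le_ceil _
    have hopen : IsOpen {s : ℝ | |s| < (n : ℝ) + 1} := isOpen_lt continuous_abs continuous_const
    have hmem : {s : ℝ | |s| < (n : ℝ) + 1} ∈ 𝓝 t := hopen.mem_nhds (by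
      show |t| < (n : ℝ) + 1
      linarith)
    have hev : γ =ᶠ[𝓝 t] α n := Filter.mem_of_superset hmem (fun s hs => hγeq n s hs)
    have hd := hα n t ⟨by have := neg_abs_le t; linarith, by have := le_abs_self t; linarith⟩
    rw [hγeq n t (by linarith)]
    exact hd.congr_of_eventuallyEq hev

end Fewnomial
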