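import Mathlib
import Pool.Agent.Lib.MP_4cba3d_ag.Flow
import Pool.Agent.Lib.MP_4cba3d_ag.Curve

/-!
Compact regular level curves of `N - 1` functions on `ℝ^N` are `CurveFlow`s.
-/

namespace Fewnomial

open Set Filter Metric
open scoped Topology NNReal

variable {ι : Type*} [Fintype ι] [DecidableEq ι]

/-- The continuous linear map with matrix `A`. -/
noncomputable def clm (A : Matrix ι ι ℝ) : (ι → ℝ) →L[ℝ] (ι → ℝ) :=
  LinearMap.toContinuousLinearMap (Matrix.toLin' A)

lemma clm_apply (A : Matrix ι ι ℝ) (x : ι → ℝ) : clm A x = A.mulVec x := by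
  simp [clm]

lemma clm_det (A : Matrix ι ι ℝ) : (clm A).det = A.det := by
  simp [clm, ContinuousLinearMap.det, LinearMap.det_toLin']

/-- The linear form with coefficients `r`. -/
noncomputable def lf (r : ι → ℝ) : (ι → ℝ) →L[ℝ] ℝ :=
  ∑ j, r j • ContinuousLinearMap.proj (R := ℝ) (φ := fun _ : ι => ℝ) j

omit [DecidableEq ι] in
lemma lf_apply (r x : ι → ℝ) : lf r x = ∑ j, r j * x j := by
  simp [lf]

lemma lf_single (i : ι) : lf (Pi.single i 1) =
    ContinuousLinearMap.proj (R := ℝ) (φ := fun _ : ι => ℝ) i := by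
  ext x
  rw [lf_apply, Finset.sum_eq_single i]
  · simp
  · intro b _ hb; simp [Pi.single_eq_of_ne hb]
  · simp

/-- The tangent field: the cofactors of row `o` of the Jacobian matrix. -/
noncomputable def tangent (g : ι → (ι → ℝ) → ι → ℝ) (o : ι) (x : ι → ℝ) : ι → ℝ :=
  fun j => (Matrix.of fun i => g i x).adjugate j o

lemma lf_tangent (g : ι → (ι → ℝ) → ι → ℝ) (o : ι) (x r : ι → ℝ) :
    lf r (tangent g o x) = ((Matrix.of fun i => g i x).updateRow o r).det := by
  rw [lf_apply, ← Matrix.cramer_transpose_apply]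
  have h : r = ∑ j, r j • (Pi.single j (1 : ℝ) : ι → ℝ) := by
    rw [← pi_eq_sum_univ' r]
  conv_rhs => rw [h]
  rw [map_sum, Finset.sum_apply]
  refine Finset.sum_congr rfl fun j _ => ?_
  rw [map_smul, Pi.smul_apply, smul_eq_mul, Matrix.cramer_transpose_apply, tangent,
    Matrix.adjugate_apply]

lemma tangent_orth (g : ι → (ι → ℝ) → ι → ℝ) {o i : ι} (hi : i ≠ o) (x : ι → ℝ) :
    lf (g i x) (tangent g o x) = 0 := by
  rw [lf_tangent]
  apply Matrix.det_zero_of_row_eq hi
  rw [Matrix.updateRow_ne hi, Matrix.updateRow_self]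
  rfl

lemma tangent_contDiff (g : ι → (ι → ℝ) → ι → ℝ) (o : ι)
    (hg : ∀ i j, ContDiff ℝ 1 (fun x => g i x j)) : ContDiff ℝ 1 (tangent g o) := by
  rw [contDiff_pi]
  intro j
  have h : (fun x => tangent g o x j) = fun x =>
      ∑ σ : Equiv.Perm ι, (Equiv.Perm.sign σ : ℝ) *
        ∏ i, ((Matrix.of fun i => g i x).updateRow o (Pi.single j 1)) (σ i) i := by
    funext x
    rw [tangent, Matrix.adjugate_apply, Matrix.det_apply']
  rw [h]
  refine ContDiff.sum fun σ _ => contDiff_const.mul (contDiff_prod fun i _ => ?_)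
  by_cases hi : σ i = o
  · simp only [hi, Matrix.updateRow_self]
    exact contDiff_const
  · have : (fun x => ((Matrix.of fun i => g i x).updateRow o (Pi.single j 1)) (σ i) i) =
        fun x => g (σ i) x i := by
      funext x
      rw [Matrix.updateRow_ne hi]
      rfl
    rw [this]
    exact hg _ _

lemma hasStrictFDerivAt_of_lf {f : (ι → ℝ) → ℝ} {g : (ι → ℝ) → ι → ℝ}
    (hf : ∀ x, HasFDerivAt f (lf (g x)) x) (hg : ∀ j, Continuous (fun x => g x j)) (x : ι → ℝ) :
    HasStrictFDerivAt f (lf (g x)) x := by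
  apply hasStrictFDerivAt_of_hasFDerivAt_of_continuousAt (f' := fun y => lf (g y))
    (Eventually.of_forall hf)
  have : Continuous fun y => lf (g y) := by
    unfold lf
    exact continuous_finsetSum _ fun j _ => (hg j).smul continuous_const
  exact this.continuousAt

/-- A compact regular level curve, with its flow. -/
theorem exists_curveFlow (o : ι) (G : ι → (ι → ℝ) → ℝ) (g : ι → (ι → ℝ) → ι → ℝ)
    (hG : ∀ i x, HasFDerivAt (G i) (lf (g i x)) x)
    (hg : ∀ i j, ContDiff ℝ 1 (fun x => g i x j))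
    (hcomp : IsCompact {x | ∀ i, i ≠ o → G i x = 0})
    (hreg : ∀ x, (∀ i, i ≠ o → G i x = 0) → tangent g o x ≠ 0) :
    ∃ C : CurveFlow (ι → ℝ), C.Γ = {x | ∀ i, i ≠ o → G i x = 0} ∧ C.V = tangent g o := by
  set Γ : Set (ι → ℝ) := {x | ∀ i, i ≠ o → G i x = 0} with hΓ
  set V := tangent g o with hV
  have hVc : ContDiff ℝ 1 V := tangent_contDiff g o hg
  -- cut-off
  obtain ⟨R, hR, hRΓ⟩ : ∃ R : ℝ, 0 < R ∧ Γ ⊆ closedBall 0 R := by
    obtain ⟨R, hR⟩ := hcomp.isBounded.subset_closedBall 0
    exact ⟨max R 1, lt_max_of_lt_right one_pos,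
      hR.trans (closedBall_subset_closedBall (le_max_left _ _))⟩
  let b : ContDiffBump (0 : ι → ℝ) := ⟨R, R + 1, hR, by linarith⟩
  have hb1 : ∀ x ∈ Γ, b x = 1 := fun x hx => b.one_of_mem_closedBall (hRΓ hx)
  set W : (ι → ℝ) → (ι → ℝ) := fun x => b x • V x with hW
  have hWc : ContDiff ℝ 1 W := b.contDiff.smul hVc
  have hWs : HasCompactSupport W := b.hasCompactSupport.smul_right
  obtain ⟨K, hK⟩ := ContDiff.lipschitzWith_of_hasCompactSupport hWs hWc one_ne_zero
  obtain ⟨L, hL⟩ := hWs.exists_bound_of_continuous hWc.continuous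
  have hL' : ∀ x, ‖W x‖ ≤ ((⟨max L 0, le_max_right _ _⟩ : ℝ≥0) : ℝ) := fun x =>
    (hL x).trans (le_max_left _ _)
  choose γ hγ0 hγ using fun p => exists_global_curve W hL' hK p
  -- invariance
  have hmem : ∀ p ∈ Γ, ∀ t, γ p t ∈ Γ := by
    intro p hp t i hi
    have hd : ∀ s, HasDerivAt (fun s => G i (γ p s)) 0 s := by
      intro s
      have h1 := (hG i (γ p s)).comp_hasDerivAt s (hγ p s)
      have h2 : lf (g i (γ p s)) (W (γ p s)) = 0 := by
        rw [hW]
        simp only [map_smul, smul_eq_mul]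
        rw [hV, tangent_orth g hi, mul_zero]
      rw [h2] at h1
      exact h1
    have hconst := is_const_of_deriv_eq_zero (fun s => (hd s).differentiableAt)
      (fun s => (hd s).deriv) t 0
    rw [hconst, hγ0]
    exact hp i hi
  have hγV : ∀ p ∈ Γ, ∀ t, HasDerivAt (γ p) (V (γ p t)) t := by
    intro p hp t
    have h1 := hγ p t
    have h2 : W (γ p t) = V (γ p t) := by
      rw [hW]
      simp only [hb1 _ (hmem p hp t), one_smul]
    rwa [h2] at h1
  have hcont : ∀ p, Continuous (γ p) := fun p =>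
    continuous_iff_continuousAt.mpr fun t => (hγ p t).continuousAt
  refine ⟨⟨Γ, V, γ, hcomp, fun p hp => hreg p hp, fun p _ => hγ0 p, hmem, hγV, ?_, ?_⟩, rfl, rfl⟩
  · -- flow property
    intro p hp s t
    have h1 : (fun t => γ (γ p s) t) = fun t => γ p (s + t) := by
      refine ODE_solution_unique_univ (v := fun _ => W) (s := fun _ => univ) (K := K) (t₀ := 0)
        (fun t => hK.lipschitzOnWith) (fun t => ⟨hγ _ t, mem_univ _⟩)
        (fun t => ⟨?_, mem_univ _⟩) ?_
      · have := (hγ p (s + t)).comp_const_add s t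
        exact this
      · simp only [add_zero]
        rw [hγ0]
    exact congrFun h1 t
  · -- local structure
    intro q hq δ hδ
    obtain ⟨j, hj⟩ : ∃ j, V q j ≠ 0 := by
      by_contra hcon
      push Not at hcon
      exact hreg q hq (funext hcon)
    set A : Matrix ι ι ℝ := (Matrix.of fun i => g i q).updateRow o (Pi.single j 1) with hA
    have hdet : A.det ≠ 0 := by
      rw [hA, ← Matrix.adjugate_apply]
      exact hj
    set Φ : (ι → ℝ) → (ι → ℝ) := fun x i => if i = o then x j else G i x with hΦ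
    have hΦ' : HasStrictFDerivAt Φ (clm A) q := by
      rw [hasStrictFDerivAt_pi']
      intro i
      have hrow : (ContinuousLinearMap.proj i).comp (clm A) = lf (A i) := by
        ext x
        rw [ContinuousLinearMap.comp_apply, ContinuousLinearMap.proj_apply, clm_apply, lf_apply]
        rfl
      rw [hrow]
      by_cases hi : i = o
      · subst hi
        have e1 : (fun x => Φ x i) = fun x => x j := by
          funext x; simp [hΦ]
        rw [e1, hA, Matrix.updateRow_self, lf_single]
        exact (ContinuousLinearMap.proj (R := ℝ) (φ := fun _ : ι => ℝ) j).hasStrictFDerivAt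
      · have e1 : (fun x => Φ x i) = G i := by
          funext x; simp [hΦ, hi]
        rw [e1, hA, Matrix.updateRow_ne hi]
        exact hasStrictFDerivAt_of_lf (hG i) (fun j => (hg i j).continuous) q
    have hdet' : (clm A).det ≠ 0 := by rw [clm_det]; exact hdet
    set eqv := (clm A).toContinuousLinearEquivOfDetNeZero hdet' with heqv
    have hcoe : (eqv : (ι → ℝ) →L[ℝ] (ι → ℝ)) = clm A := by
      rw [heqv, ContinuousLinearMap.coe_toContinuousLinearEquivOfDetNeZero]
    rw [← hcoe] at hΦ'
    set e := hΦ'.toOpenPartialHomeomorph Φ with he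
    have hsrc : e.source ∈ 𝓝 q :=
      e.open_source.mem_nhds hΦ'.mem_toOpenPartialHomeomorph_source
    have hinj : InjOn Φ e.source := by
      have := e.injOn
      rwa [he, HasStrictFDerivAt.toOpenPartialHomeomorph_coe] at this
    have hev : ∀ᶠ t in 𝓝 (0 : ℝ), γ q t ∈ e.source := by
      apply (hcont q).continuousAt.eventually
      rw [hγ0]
      exact hsrc
    rw [Metric.eventually_nhds_iff] at hev
    obtain ⟨δ1, hδ1, hev⟩ := hev
    -- the coordinate `j` moves along the trajectory
    have hstrict : HasStrictDerivAt (fun t => γ q t j) (V q j) 0 := by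
      have h1 : ∀ t, HasDerivAt (fun t => γ q t j) (V (γ q t) j) t := fun t =>
        (hasDerivAt_pi.mp (hγV q hq t)) j
      have h2 : ContinuousAt (fun t => V (γ q t) j) 0 :=
        ((continuous_apply j).comp (hVc.continuous.comp (hcont q))).continuousAt
      have h3 := hasStrictDerivAt_of_hasDerivAt_of_continuousAt (Eventually.of_forall h1) h2
      simpa only [hγ0] using h3
    have hmap := hstrict.map_nhds_eq hj
    have himg : (fun t => γ q t j) '' (ball 0 (min δ δ1)) ∈ 𝓝 (q j) := by
      have h0 : (fun t => γ q t j) 0 = q j := by simp only [hγ0]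
      rw [← h0, ← hmap]
      exact image_mem_map (ball_mem_nhds _ (lt_min hδ hδ1))
    have hev2 : ∀ᶠ x : ι → ℝ in 𝓝 q, x j ∈ (fun t => γ q t j) '' (ball 0 (min δ δ1)) :=
      (continuous_apply j).continuousAt.eventually himg
    filter_upwards [hev2, hsrc] with x hx1 hx2 hxΓ
    obtain ⟨t, ht, htx⟩ := hx1
    rw [mem_ball, Real.dist_eq, sub_zero] at ht
    refine ⟨t, ht.trans_le (min_le_left _ _), ?_⟩
    apply hinj (hev (by rw [Real.dist_eq, sub_zero]; exact ht.trans_le (min_le_right _ _))) hx2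
    funext i
    by_cases hi : i = o
    · simp only [hΦ, hi, if_true]
      exact htx
    · simp only [hΦ, hi, if_false]
      rw [hmem q hq t i hi, hxΓ i hi]

end Fewnomial
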