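import Mathlib
import Pool.Agent.Lib.MP_4cba3d_ag.LevelCurve

/-!
Bezout's bound for the number of nondegenerate real zeros of `n` polynomials in `n` variables,
by a dimension count.
-/

namespace Fewnomial

open MvPolynomial Filter
open scoped Topology

variable {ι : Type*} [Fintype ι] [DecidableEq ι]

omit [Fintype ι] [DecidableEq ι] in
lemma eval_aeval_eq (P : ι → MvPolynomial ι ℝ) (c : MvPolynomial ι ℝ) (u : ι → ℝ) :
    eval u (aeval P c) = eval (fun i => eval u (P i)) c := by
  induction c using MvPolynomial.induction_on with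
  | C r => simp
  | add p q hp hq => rw [map_add, map_add, map_add, hp, hq]
  | mul_X p v hp => rw [map_mul, map_mul, map_mul, hp, aeval_X, eval_X]

/-- A polynomial nonzero at `z` and zero at the other points of `Z`. -/
noncomputable def sep (Z : Finset (ι → ℝ)) (z : ι → ℝ) : MvPolynomial ι ℝ := by
  classical
  exact ∏ z' ∈ Z.erase z, ∑ i, (X i - C (z' i)) ^ 2

omit [DecidableEq ι] in
lemma sep_self (Z : Finset (ι → ℝ)) (z : ι → ℝ) : eval z (sep Z z) ≠ 0 := by
  classical
  unfold sep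
  rw [eval_prod, Finset.prod_ne_zero_iff]
  intro z' hz'
  simp only [map_sum, map_pow, map_sub, eval_X, eval_C]
  intro h0
  rw [Finset.sum_eq_zero_iff_of_nonneg (fun i _ => sq_nonneg _)] at h0
  apply Finset.ne_of_mem_erase hz'
  funext i
  have := h0 i (Finset.mem_univ i)
  have := pow_eq_zero_iff (two_ne_zero) |>.mp this
  linarith

omit [DecidableEq ι] in
lemma sep_other (Z : Finset (ι → ℝ)) {z z' : ι → ℝ} (hz' : z' ∈ Z) (hne : z' ≠ z) :
    eval z' (sep Z z) = 0 := by
  classical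
  unfold sep
  rw [eval_prod]
  apply Finset.prod_eq_zero (Finset.mem_erase.mpr ⟨hne, hz'⟩)
  simp

/-- The independence statement behind Bezout's bound. -/
lemma independence (P : ι → MvPolynomial ι ℝ) (Z : Finset (ι → ℝ))
    (A : (ι → ℝ) → Matrix ι ι ℝ)
    (hZ : ∀ z ∈ Z, (∀ i, eval z (P i) = 0) ∧
      HasStrictFDerivAt (fun x i => eval x (P i)) (clm (A z)) z ∧ (A z).det ≠ 0)
    (c : Z → MvPolynomial ι ℝ) (hc : ∑ z, aeval P (c z) * sep Z z = 0) : ∀ z, c z = 0 := by
  classical
  set F : (ι → ℝ) → ι → ℝ := fun x i => eval x (P i) with hF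
  -- a product neighbourhood on which the interpolation matrix is invertible
  set D : (Z → ι → ℝ) → ℝ := fun u =>
    (Matrix.of fun w z : Z => eval (u w) (sep Z z)).det with hD
  have hDc : Continuous D := by
    apply Continuous.matrix_det
    refine continuous_matrix fun w z => ?_
    have h1 : Continuous fun x : ι → ℝ => eval x (sep Z (z : ι → ℝ)) :=
      MvPolynomial.continuous_eval _
    exact h1.comp (continuous_apply w)
  have hD0 : D (fun w => (w : ι → ℝ)) ≠ 0 := by
    have h1 : (Matrix.of fun w z : Z => eval (w : ι → ℝ) (sep Z (z : ι → ℝ))) =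
        Matrix.diagonal (fun z : Z => eval (z : ι → ℝ) (sep Z z)) := by
      ext w z
      by_cases h : w = z
      · subst h
        simp
      · rw [Matrix.diagonal_apply_ne _ h, Matrix.of_apply]
        exact sep_other Z w.2 (fun h' => h (Subtype.ext h'))
    rw [hD]
    simp only
    rw [h1, Matrix.det_diagonal]
    exact Finset.prod_ne_zero_iff.mpr fun z _ => sep_self Z z
  have hev : {u : Z → ι → ℝ | D u ≠ 0} ∈ 𝓝 (fun w : Z => (w : ι → ℝ)) :=
    hDc.continuousAt.eventually_ne hD0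
  rw [nhds_pi] at hev
  obtain ⟨I, -, t, ht, hsub⟩ := Filter.mem_pi.mp hev
  -- images of neighbourhoods
  have himg : ∀ w : Z, F '' (t w) ∈ 𝓝 (0 : ι → ℝ) := by
    intro w
    obtain ⟨h1, h2, h3⟩ := hZ w w.2
    have hdet : (clm (A w)).det ≠ 0 := by rw [clm_det]; exact h3
    have h4 : HasStrictFDerivAt F
        (((clm (A w)).toContinuousLinearEquivOfDetNeZero hdet : (ι → ℝ) ≃L[ℝ] (ι → ℝ)) :
          (ι → ℝ) →L[ℝ] (ι → ℝ)) w := by
      rw [ContinuousLinearMap.coe_toContinuousLinearEquivOfDetNeZero]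
      exact h2
    have h5 := h4.map_nhds_eq_of_equiv
    have h6 : F w = 0 := funext fun i => h1 i
    rw [h6] at h5
    rw [← h5]
    exact image_mem_map (ht w)
  have hN : (⋂ w : Z, F '' (t w)) ∈ 𝓝 (0 : ι → ℝ) := iInter_mem.mpr himg
  obtain ⟨r, hr, hball⟩ := Metric.mem_nhds_iff.mp hN
  have hzero : ∀ y ∈ Metric.ball (0 : ι → ℝ) r, ∀ z, eval y (c z) = 0 := by
    intro y hy
    have hy' := fun w => Set.mem_iInter.mp (hball hy) w
    choose u hu huF using hy'
    have hDu : D u ≠ 0 := hsub (fun w _ => hu w)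
    have hmul : (Matrix.of fun w z : Z => eval (u w) (sep Z (z : ι → ℝ))).mulVec
        (fun z => eval y (c z)) = 0 := by
      funext w
      rw [Matrix.mulVec, dotProduct, Pi.zero_apply]
      have h1 := congrArg (eval (u w)) hc
      rw [map_sum, map_zero] at h1
      rw [← h1]
      refine Finset.sum_congr rfl fun z _ => ?_
      have h2 : (fun i => eval (u w) (P i)) = y := huF w
      rw [map_mul, eval_aeval_eq, h2, Matrix.of_apply, mul_comm]
    have := Matrix.eq_zero_of_mulVec_eq_zero hDu hmul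
    exact fun z => congrFun this z
  intro z
  apply MvPolynomial.funext_set (fun _ => Set.Ioo (-r) r)
    (fun _ => Set.Ioo_infinite (by linarith))
  intro x hx
  rw [map_zero]
  apply hzero
  rw [mem_ball_zero_iff, pi_norm_lt_iff hr]
  intro i
  have := hx i (Set.mem_univ i)
  rw [Real.norm_eq_abs, abs_lt]
  exact this

/-- Exponents of weight at most `L`. -/
def wset (m : ι → ℕ) (L : ℕ) : Set (ι →₀ ℕ) := {β | ∑ i, m i * β i ≤ L}

omit [DecidableEq ι] in
lemma wset_finite {m : ι → ℕ} (hm : ∀ i, 1 ≤ m i) (L : ℕ) : (wset m L).Finite := by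
  have h1 : (wset m L) ⊆ (DFunLike.coe : (ι →₀ ℕ) → ι → ℕ) ⁻¹'
      (Set.pi Set.univ fun _ => Set.Iic L) := by
    intro β hβ i _
    have h2 : m i * β i ≤ ∑ i, m i * β i :=
      Finset.single_le_sum (f := fun i => m i * β i) (fun _ _ => Nat.zero_le _)
        (Finset.mem_univ i)
    have h3 : β i ≤ m i * β i := Nat.le_mul_of_pos_left _ (hm i)
    exact h3.trans (h2.trans hβ)
  refine Set.Finite.subset (Set.Finite.preimage (DFunLike.coe_injective.injOn) ?_) h1
  exact Set.Finite.pi fun _ => Set.finite_Iic L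

omit [DecidableEq ι] in
lemma totalDegree_aeval_le {P : ι → MvPolynomial ι ℝ} {m : ι → ℕ}
    (hP : ∀ i, (P i).totalDegree ≤ m i) {L : ℕ} {c : MvPolynomial ι ℝ}
    (hc : c ∈ restrictSupport ℝ (wset m L)) : (aeval P c).totalDegree ≤ L := by
  rw [mem_restrictSupport_iff] at hc
  rw [aeval_def, eval₂_eq]
  refine totalDegree_finsetSum_le fun β hβ => ?_
  refine (totalDegree_mul _ _).trans ?_
  have h1 : (algebraMap ℝ (MvPolynomial ι ℝ) (coeff β c)).totalDegree = 0 := by
    rw [MvPolynomial.algebraMap_eq]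
    exact totalDegree_C _
  rw [h1, zero_add]
  have h2 : ∑ i, m i * β i ≤ L := hc hβ
  refine le_trans ?_ h2
  refine (totalDegree_finsetProd _ _).trans ?_
  calc ∑ i ∈ β.support, (P i ^ β i).totalDegree ≤ ∑ i ∈ β.support, m i * β i := by
        refine Finset.sum_le_sum fun i _ => ?_
        refine (totalDegree_pow _ _).trans ?_
        rw [mul_comm]
        exact Nat.mul_le_mul_right _ (hP i)
    _ ≤ ∑ i, m i * β i :=
        Finset.sum_le_sum_of_subset (Finset.subset_univ _)

/-- The dimension inequality. -/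
lemma dimension_ineq {P : ι → MvPolynomial ι ℝ} {m : ι → ℕ} (hm : ∀ i, 1 ≤ m i)
    (hP : ∀ i, (P i).totalDegree ≤ m i) (Z : Finset (ι → ℝ)) (A : (ι → ℝ) → Matrix ι ι ℝ)
    (hZ : ∀ z ∈ Z, (∀ i, eval z (P i) = 0) ∧
      HasStrictFDerivAt (fun x i => eval x (P i)) (clm (A z)) z ∧ (A z).det ≠ 0) :
    ∃ D : ℕ, ∀ L, Z.card * Nat.card (wset m L) ≤ Nat.card (wset (fun _ : ι => 1) (D + L)) := by
  classical
  refine ⟨∑ z ∈ Z, (sep Z z).totalDegree, fun L => ?_⟩
  set D := ∑ z ∈ Z, (sep Z z).totalDegree with hD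
  set W := restrictSupport ℝ (wset m L) with hW
  set T := restrictSupport ℝ (wset (fun _ : ι => 1) (D + L)) with hT
  have hmemT : ∀ p : MvPolynomial ι ℝ, p.totalDegree ≤ D + L → p ∈ T := by
    intro p hp
    rw [hT, mem_restrictSupport_iff]
    intro β hβ
    have h1 : (β.sum fun _ e => e) ≤ p.totalDegree := le_totalDegree hβ
    rw [Finsupp.sum_fintype _ _ (fun _ => rfl)] at h1
    show ∑ i, 1 * β i ≤ D + L
    simp only [one_mul]
    exact h1.trans hp
  have hfinW : Finite (wset m L) := (wset_finite hm L).to_subtype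
  have hfinT : Finite (wset (fun _ : ι => 1) (D + L)) := (wset_finite (fun _ => le_rfl) _).to_subtype
  have hW' : Module.Finite ℝ W := Module.Finite.of_basis (basisRestrictSupport ℝ _)
  have hT' : Module.Finite ℝ T := Module.Finite.of_basis (basisRestrictSupport ℝ _)
  let Φ₀ : (Z → W) →ₗ[ℝ] MvPolynomial ι ℝ :=
    ∑ z : Z, ((LinearMap.mulRight ℝ (sep Z z)).comp ((aeval P).toLinearMap.comp W.subtype)).comp
      (LinearMap.proj z)
  have hΦ₀ : ∀ c, Φ₀ c = ∑ z : Z, aeval P (c z : MvPolynomial ι ℝ) * sep Z z := by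
    intro c
    simp [Φ₀, LinearMap.sum_apply]
  have hmem : ∀ c, Φ₀ c ∈ T := by
    intro c
    rw [hΦ₀]
    apply hmemT
    refine totalDegree_finsetSum_le fun z _ => ?_
    refine (totalDegree_mul _ _).trans ?_
    have h1 := totalDegree_aeval_le hP (c z).2
    have h2 : (sep Z (z : ι → ℝ)).totalDegree ≤ D :=
      Finset.single_le_sum (f := fun z => (sep Z z).totalDegree) (fun _ _ => Nat.zero_le _) z.2
    omega
  let Φ : (Z → W) →ₗ[ℝ] T := Φ₀.codRestrict T hmem
  have hinj : Function.Injective Φ := by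
    rw [← LinearMap.ker_eq_bot, LinearMap.ker_eq_bot']
    intro c hc
    have h1 : Φ₀ c = 0 := congrArg Subtype.val hc
    rw [hΦ₀] at h1
    funext z
    have := independence P Z A hZ (fun z => (c z : MvPolynomial ι ℝ)) h1 z
    exact Subtype.ext this
  have h1 := LinearMap.finrank_le_finrank_of_injective hinj
  rw [Module.finrank_pi_fintype] at h1
  simp only [Finset.sum_const, Finset.card_univ, Fintype.card_coe, smul_eq_mul] at h1
  rw [Module.finrank_eq_nat_card_basis (basisRestrictSupport ℝ (wset m L)),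
    Module.finrank_eq_nat_card_basis (basisRestrictSupport ℝ _)] at h1
  exact h1

omit [DecidableEq ι] in
lemma card_wset_one_le {m : ι → ℕ} (hm : ∀ i, 1 ≤ m i) (L : ℕ) :
    Nat.card (wset (fun _ : ι => 1) L) ≤ (∏ i, m i) * Nat.card (wset m L) := by
  have hfinW : Finite (wset m L) := (wset_finite hm L).to_subtype
  let f : wset (fun _ : ι => 1) L → (∀ i, Fin (m i)) × wset m L := fun α =>
    (fun i => ⟨(α : ι →₀ ℕ) i % m i, Nat.mod_lt _ (hm i)⟩,
      ⟨Finsupp.equivFunOnFinite.symm fun i => (α : ι →₀ ℕ) i / m i, by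
        have h1 : ∑ i, 1 * (α : ι →₀ ℕ) i ≤ L := α.2
        simp only [one_mul] at h1
        show ∑ i, m i * ((α : ι →₀ ℕ) i / m i) ≤ L
        exact (Finset.sum_le_sum fun i _ => Nat.mul_div_le _ _).trans h1⟩)
  have hf : Function.Injective f := by
    intro α β h
    apply Subtype.ext
    ext i
    have h1 : (α : ι →₀ ℕ) i % m i = (β : ι →₀ ℕ) i % m i := by
      have := congrFun (congrArg Prod.fst h) i
      exact congrArg Fin.val this
    have h2 : (α : ι →₀ ℕ) i / m i = (β : ι →₀ ℕ) i / m i := by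
      have := congrArg (fun w : wset m L => (w : ι →₀ ℕ) i) (congrArg Prod.snd h)
      exact this
    rw [← Nat.div_add_mod ((α : ι →₀ ℕ) i) (m i), h1, h2, Nat.div_add_mod]
  have := Nat.card_le_card_of_injective f hf
  rw [Nat.card_prod, Nat.card_pi] at this
  simpa using this

omit [DecidableEq ι] in
lemma card_wset_growth (L : ℕ) :
    Nat.card (wset (fun _ : ι => 1) L) ≤ (L + 1) ^ Fintype.card ι := by
  let f : wset (fun _ : ι => 1) L → (ι → Fin (L + 1)) := fun α i =>
    ⟨(α : ι →₀ ℕ) i, by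
      have h1 : ∑ i, 1 * (α : ι →₀ ℕ) i ≤ L := α.2
      have h2 : 1 * (α : ι →₀ ℕ) i ≤ ∑ i, 1 * (α : ι →₀ ℕ) i :=
        Finset.single_le_sum (f := fun i => 1 * (α : ι →₀ ℕ) i) (fun _ _ => Nat.zero_le _)
          (Finset.mem_univ i)
      omega⟩
  have hf : Function.Injective f := by
    intro α β h
    apply Subtype.ext
    ext i
    exact congrArg Fin.val (congrFun h i)
  have := Nat.card_le_card_of_injective f hf
  rw [Nat.card_pi] at this
  simpa using this

/-- Bezout's bound for nondegenerate real zeros. -/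
theorem bezout {P : ι → MvPolynomial ι ℝ} {m : ι → ℕ} (hm : ∀ i, 1 ≤ m i)
    (hP : ∀ i, (P i).totalDegree ≤ m i) (Z : Finset (ι → ℝ)) (A : (ι → ℝ) → Matrix ι ι ℝ)
    (hZ : ∀ z ∈ Z, (∀ i, eval z (P i) = 0) ∧
      HasStrictFDerivAt (fun x i => eval x (P i)) (clm (A z)) z ∧ (A z).det ≠ 0) :
    Z.card ≤ ∏ i, m i := by
  obtain ⟨D, hD⟩ := dimension_ineq hm hP Z A hZ
  by_contra hcon
  push Not at hcon
  set M := ∏ i, m i with hM
  have hMpos : 0 < M := Finset.prod_pos fun i _ => hm i
  set q : ℕ → ℕ := fun L => Nat.card (wset (fun _ : ι => 1) L) with hq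
  have hstep : ∀ L, (M + 1) * q L ≤ M * q (D + L) := by
    intro L
    calc (M + 1) * q L ≤ Z.card * q L := Nat.mul_le_mul_right _ hcon
      _ ≤ Z.card * (M * Nat.card (wset m L)) :=
          Nat.mul_le_mul_left _ (card_wset_one_le hm L)
      _ = M * (Z.card * Nat.card (wset m L)) := by ring
      _ ≤ M * q (D + L) := Nat.mul_le_mul_left _ (hD L)
  have hq0 : 1 ≤ q 0 := by
    have : Finite (wset (fun _ : ι => 1) 0) := (wset_finite (fun _ => le_rfl) _).to_subtype
    have : Nonempty (wset (fun _ : ι => 1) 0) := ⟨⟨0, by simp [wset]⟩⟩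
    exact Nat.one_le_iff_ne_zero.mpr Nat.card_pos.ne'
  have hpow : ∀ r : ℕ, (M + 1) ^ r ≤ M ^ r * q (r * D) := by
    intro r
    induction r with
    | zero => simpa using hq0
    | succ r ih =>
      calc (M + 1) ^ (r + 1) = (M + 1) * (M + 1) ^ r := by ring
        _ ≤ (M + 1) * (M ^ r * q (r * D)) := Nat.mul_le_mul_left _ ih
        _ = M ^ r * ((M + 1) * q (r * D)) := by ring
        _ ≤ M ^ r * (M * q (D + r * D)) := Nat.mul_le_mul_left _ (hstep _)
        _ = M ^ (r + 1) * q ((r + 1) * D) := by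
            rw [show (r + 1) * D = D + r * D by ring]; ring
  set n := Fintype.card ι with hn
  have hM' : (0 : ℝ) < M := by exact_mod_cast hMpos
  have hρ : (1 : ℝ) < ((M : ℝ) + 1) / M := by
    rw [lt_div_iff₀ hM']; linarith
  have hbound : ∀ r : ℕ, (((M : ℝ) + 1) / M) ^ r ≤ ((r : ℝ) * D + 1) ^ n := by
    intro r
    have h1 := hpow r
    have h2 : q (r * D) ≤ (r * D + 1) ^ n := card_wset_growth _
    have h3 : (M + 1) ^ r ≤ M ^ r * (r * D + 1) ^ n := h1.trans (Nat.mul_le_mul_left _ h2)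
    rw [div_pow, div_le_iff₀ (by positivity)]
    have h4 : (((M + 1) ^ r : ℕ) : ℝ) ≤ ((M ^ r * (r * D + 1) ^ n : ℕ) : ℝ) := by exact_mod_cast h3
    push_cast at h4
    linarith
  have hlim := tendsto_pow_const_div_const_pow_of_one_lt n hρ
  have hC : (0 : ℝ) < ((D : ℝ) + 1) ^ n := by positivity
  have hev := (hlim.eventually (gt_mem_nhds (show (0 : ℝ) < 1 / ((D : ℝ) + 1) ^ n by positivity))).and
    (eventually_ge_atTop 1)
  obtain ⟨r, hr, hr1⟩ := hev.exists
  have hr1' : (1 : ℝ) ≤ r := by exact_mod_cast hr1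
  have h5 := hbound r
  have h6 : ((r : ℝ) * D + 1) ^ n ≤ (((D : ℝ) + 1) * r) ^ n := by
    apply pow_le_pow_left₀ (by positivity)
    nlinarith
  rw [mul_pow] at h6
  have hρr : (0 : ℝ) < (((M : ℝ) + 1) / M) ^ r := by positivity
  rw [div_lt_div_iff₀ hρr hC] at hr
  linarith

end Fewnomial
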