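import Mathlib
import Pool.Agent.Lib.MP_4cba3d_ag.Curve

/-!
Zeros on compact regular curves: finiteness, persistence, Rolle–Khovanskii.
-/

namespace Fewnomial

open Set Filter Metric
open scoped Topology

lemma eventually_slope_pos {a : ℝ → ℝ} {a' : ℝ} (h : HasDerivAt a a' 0) (ha : 0 < a') :
    ∀ᶠ t in 𝓝[≠] (0 : ℝ), 0 < (a t - a 0) / t := by
  have h1 := hasDerivAt_iff_tendsto_slope.mp h
  filter_upwards [h1.eventually (lt_mem_nhds ha)] with t ht
  rw [slope_def_field, sub_zero] at ht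
  exact ht

/-- Signs of the derivatives at two consecutive zeros. -/
lemma deriv_mul_nonpos {a : ℝ → ℝ} {τ a0 a1 : ℝ} (hτ : 0 < τ) (h0 : HasDerivAt a a0 0)
    (h1 : HasDerivAt a a1 τ) (hc : ContinuousOn a (Icc 0 τ)) (ha0 : a 0 = 0) (ha1 : a τ = 0)
    (hne : ∀ t ∈ Ioo 0 τ, a t ≠ 0) : a0 * a1 ≤ 0 := by
  have hsign : (∀ t ∈ Ioo 0 τ, 0 < a t) ∨ (∀ t ∈ Ioo 0 τ, a t < 0) := by
    by_contra hcon
    push Not at hcon
    obtain ⟨⟨s, hs, hs'⟩, t, ht, ht'⟩ := hcon
    have hc' : ContinuousOn a (uIcc s t) := hc.mono (by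
      intro x hx
      rcases le_total s t with h | h
      · rw [uIcc_of_le h] at hx
        exact ⟨hs.1.le.trans hx.1, hx.2.trans ht.2.le⟩
      · rw [uIcc_of_ge h] at hx
        exact ⟨ht.1.le.trans hx.1, hx.2.trans hs.2.le⟩)
    have h3 := intermediate_value_uIcc hc'
    have h4 : (0 : ℝ) ∈ uIcc (a s) (a t) := by
      rw [uIcc_of_le (hs'.trans ht')]
      exact ⟨hs', ht'⟩
    obtain ⟨x, hx, hx0⟩ := h3 h4
    refine hne x ?_ hx0
    rcases le_total s t with h | h
    · rw [uIcc_of_le h] at hx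
      exact ⟨hs.1.trans_le hx.1, hx.2.trans_lt ht.2⟩
    · rw [uIcc_of_ge h] at hx
      exact ⟨ht.1.trans_le hx.1, hx.2.trans_lt hs.2⟩
  have t0 := (hasDerivAt_iff_tendsto_slope.mp h0).mono_left
    (nhdsWithin_mono 0 (fun x (hx : x ∈ Ioi (0 : ℝ)) => ne_of_gt hx))
  have t1 := (hasDerivAt_iff_tendsto_slope.mp h1).mono_left
    (nhdsWithin_mono τ (fun x (hx : x ∈ Iio τ) => ne_of_lt hx))
  have e0 : ∀ᶠ x in 𝓝[>] (0 : ℝ), x ∈ Ioo 0 τ := Ioo_mem_nhdsGT hτ
  have e1 : ∀ᶠ x in 𝓝[<] τ, x ∈ Ioo 0 τ := Ioo_mem_nhdsLT hτ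
  rcases hsign with h | h
  · have g0 : 0 ≤ a0 := by
      refine ge_of_tendsto t0 ?_
      filter_upwards [e0] with x hx
      rw [slope_def_field, ha0, sub_zero, sub_zero]
      exact div_nonneg (h x hx).le hx.1.le
    have g1 : a1 ≤ 0 := by
      refine le_of_tendsto t1 ?_
      filter_upwards [e1] with x hx
      rw [slope_def_field, ha1, sub_zero]
      exact div_nonpos_of_nonneg_of_nonpos (h x hx).le (by linarith [hx.2])
    exact mul_nonpos_of_nonneg_of_nonpos g0 g1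
  · have g0 : a0 ≤ 0 := by
      refine le_of_tendsto t0 ?_
      filter_upwards [e0] with x hx
      rw [slope_def_field, ha0, sub_zero, sub_zero]
      exact div_nonpos_of_nonpos_of_nonneg (h x hx).le hx.1.le
    have g1 : 0 ≤ a1 := by
      refine ge_of_tendsto t1 ?_
      filter_upwards [e1] with x hx
      rw [slope_def_field, ha1, sub_zero]
      exact div_nonneg_of_nonpos (h x hx).le (by linarith [hx.2])
    exact mul_nonpos_of_nonpos_of_nonneg g0 g1

namespace CurveFlow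

variable {E : Type*} [NormedAddCommGroup E] [NormedSpace ℝ E] (C : CurveFlow E)

lemma isolated {f f' : E → ℝ} (hf : C.FD f f') {x : E} (hx : x ∈ C.Γ) (hx' : f' x ≠ 0) :
    ∀ᶠ y in 𝓝 x, y ∈ C.Γ → f y = f x → y = x := by
  have h := (hf x hx).eventually_ne (c := f x) hx'
  rw [eventually_nhdsWithin_iff, Metric.eventually_nhds_iff] at h
  obtain ⟨δ, hδ, h⟩ := h
  filter_upwards [C.loc x hx δ hδ] with y hy hyΓ hyf
  obtain ⟨t, ht, rfl⟩ := hy hyΓ
  by_cases ht0 : t = 0
  · rw [ht0, C.zero x hx]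
  · exact absurd hyf (h (by rw [Real.dist_eq, sub_zero]; exact ht) ht0)

/-- A regular level set on the curve is finite. -/
lemma finite_level {f f' : E → ℝ} (hf : C.FD f f') (hc : ContinuousOn f C.Γ) (c : ℝ)
    (hreg : ∀ x ∈ C.Γ, f x = c → f' x ≠ 0) : {x | x ∈ C.Γ ∧ f x = c}.Finite := by
  classical
  have hcl : IsClosed (C.Γ ∩ f ⁻¹' {c}) :=
    hc.preimage_isClosed_of_isClosed C.compact.isClosed isClosed_singleton
  have hcomp : IsCompact (C.Γ ∩ f ⁻¹' {c}) :=
    C.compact.of_isClosed_subset hcl inter_subset_left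
  have hcov : ∀ x ∈ C.Γ ∩ f ⁻¹' {c}, {y | y ∈ C.Γ → f y = f x → y = x} ∈ 𝓝 x := fun x hx =>
    C.isolated hf hx.1 (hreg x hx.1 hx.2)
  obtain ⟨T, hT⟩ := hcomp.elim_nhds_subcover' (fun x _ => {y | y ∈ C.Γ → f y = f x → y = x}) hcov
  refine ((T.image (fun x : ↥(C.Γ ∩ f ⁻¹' {c}) => (x : E))).finite_toSet).subset ?_
  rintro y ⟨hyΓ, hyc⟩
  obtain ⟨x, hx, hxy⟩ := mem_iUnion₂.mp (hT ⟨hyΓ, hyc⟩)
  have hxc : f x = c := x.2.2
  have : y = x := hxy hyΓ (by rw [hyc, hxc])
  rw [this]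
  exact_mod_cast Finset.mem_image_of_mem _ hx

/-- Regular values are dense. -/
lemma exists_value {S : Set E} (hS : S ⊆ C.Γ) (f : E → ℝ)
    (h : ∀ x ∈ S, HasDerivAt (fun t => f (C.γ x t)) 0 0) {U : Set ℝ} (hU : IsOpen U)
    (hne : U.Nonempty) : ∃ c ∈ U, ∀ x ∈ S, f x ≠ c := by
  by_contra hcon
  push Not at hcon
  have hsub : U ⊆ f '' S := fun c hc => hcon c hc
  have h0 := MeasureTheory.measure_mono_null hsub (C.sard hS f h)
  exact (hU.measure_pos MeasureTheory.volume hne).ne' h0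

lemma exists_regular {f f' : E → ℝ} (hf : C.FD f f') {U : Set ℝ} (hU : IsOpen U)
    (hne : U.Nonempty) : ∃ c ∈ U, ∀ x ∈ C.Γ, f x = c → f' x ≠ 0 := by
  obtain ⟨c, hc, h⟩ := C.exists_value (S := {x | x ∈ C.Γ ∧ f' x = 0}) (fun x hx => hx.1) f
    (fun x hx => by
      have := hf x hx.1
      rwa [hx.2] at this) hU hne
  exact ⟨c, hc, fun x hx hxc hx' => h x ⟨hx, hx'⟩ hxc⟩

/-- Transversal zeros persist under uniformly small perturbations. -/
lemma persist [DecidableEq E] {f f' : E → ℝ} (hf : C.FD f f') (c : ℝ) (Z : Finset E)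
    (hZ : ∀ z ∈ Z, z ∈ C.Γ ∧ f z = c ∧ f' z ≠ 0) :
    ∃ δ > 0, ∀ g : E → ℝ, ContinuousOn g C.Γ → (∀ x ∈ C.Γ, |g x - f x| < δ) →
      ∃ Z' : Finset E, (∀ z ∈ Z', z ∈ C.Γ ∧ g z = c) ∧ Z'.card = Z.card := by
  classical
  obtain ⟨U, hU, hdisj⟩ := (Z : Set E).toFinite.t2_separation
  -- local statement
  have hloc : ∀ p : E, ∃ δ : ℝ, 0 < δ ∧ (p ∈ Z → ∀ g : E → ℝ, ContinuousOn g C.Γ →
      (∀ x ∈ C.Γ, |g x - f x| < δ) → ∃ z, z ∈ U p ∧ z ∈ C.Γ ∧ g z = c) := by
    intro p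
    by_cases hp : p ∈ Z
    swap
    · exact ⟨1, one_pos, fun h => absurd h hp⟩
    obtain ⟨hpΓ, hpc, hpf⟩ := hZ p hp
    have hsq : 0 < f' p * f' p := mul_self_pos.mpr hpf
    have hd : HasDerivAt (fun t => (f (C.γ p t) - c) * f' p) (f' p * f' p) 0 :=
      ((hf p hpΓ).sub_const c).mul_const _
    have hpos := eventually_slope_pos hd hsq
    simp only [C.zero p hpΓ, hpc, sub_self, zero_mul, sub_zero] at hpos
    have hUp : ∀ᶠ t in 𝓝 (0 : ℝ), C.γ p t ∈ U p := by
      apply (C.continuous hpΓ).continuousAt.eventually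
      rw [C.zero p hpΓ]
      exact (hU p).2.mem_nhds (hU p).1
    rw [eventually_nhdsWithin_iff, Metric.eventually_nhds_iff] at hpos
    rw [Metric.eventually_nhds_iff] at hUp
    obtain ⟨r1, hr1, hpos⟩ := hpos
    obtain ⟨r2, hr2, hUp⟩ := hUp
    set t := min r1 r2 / 2 with ht
    have hmin : 0 < min r1 r2 := lt_min hr1 hr2
    have ht0 : 0 < t := by rw [ht]; linarith
    have htr1 : t < r1 := by have := min_le_left r1 r2; rw [ht]; linarith
    have htr2 : t < r2 := by have := min_le_right r1 r2; rw [ht]; linarith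
    have b1 : 0 < (f (C.γ p t) - c) * f' p := by
      have := hpos (y := t) (by rw [Real.dist_eq, sub_zero, abs_of_pos ht0]; exact htr1)
        (by simpa using ht0.ne')
      have h2 := mul_pos this ht0
      rwa [div_mul_cancel₀ _ ht0.ne'] at h2
    have b2 : (f (C.γ p (-t)) - c) * f' p < 0 := by
      have := hpos (y := -t) (by rw [Real.dist_eq, sub_zero, abs_neg, abs_of_pos ht0]; exact htr1)
        (by simpa using ht0.ne')
      have h2 := mul_neg_of_pos_of_neg this (neg_lt_zero.mpr ht0)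
      rwa [div_mul_cancel₀ _ (by linarith)] at h2
    have habs : 0 < |f' p| := abs_pos.mpr hpf
    refine ⟨min ((f (C.γ p t) - c) * f' p) (-((f (C.γ p (-t)) - c) * f' p)) / |f' p|,
      div_pos (lt_min b1 (by linarith)) habs, fun _ g hg hgf => ?_⟩
    have key : ∀ s : ℝ, |(g (C.γ p s) - f (C.γ p s)) * f' p| <
        min ((f (C.γ p t) - c) * f' p) (-((f (C.γ p (-t)) - c) * f' p)) := by
      intro s
      have := hgf _ (C.mem p hpΓ s)
      rw [lt_div_iff₀ habs] at this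
      rwa [abs_mul]
    have c1 : 0 < (g (C.γ p t) - c) * f' p := by
      have h3 := key t
      have h4 := (abs_lt.mp (h3.trans_le (min_le_left _ _))).1
      nlinarith
    have c2 : (g (C.γ p (-t)) - c) * f' p < 0 := by
      have h3 := key (-t)
      have h4 := (abs_lt.mp (h3.trans_le (min_le_right _ _))).2
      nlinarith
    have hcont : ContinuousOn (fun s => (g (C.γ p s) - c) * f' p) (Icc (-t) t) := by
      have h5 : ContinuousOn (fun s => g (C.γ p s)) (Icc (-t) t) :=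
        hg.comp (C.continuous hpΓ).continuousOn (fun s _ => C.mem p hpΓ s)
      exact (h5.sub continuousOn_const).mul continuousOn_const
    have hIVT := intermediate_value_Icc (by linarith : -t ≤ t) hcont
    obtain ⟨s, hs, hs0⟩ := hIVT (show (0 : ℝ) ∈ Icc _ _ from ⟨c2.le, c1.le⟩)
    refine ⟨C.γ p s, hUp ?_, C.mem p hpΓ s, ?_⟩
    · rw [Real.dist_eq, sub_zero]
      exact (abs_le.mpr hs).trans_lt htr2
    · rcases mul_eq_zero.mp hs0 with h6 | h6
      · linarith
      · exact absurd h6 hpf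
  choose δ hδ hδ' using hloc
  obtain ⟨δ₀, hδ₀, hδ₀'⟩ : ∃ δ₀ > 0, ∀ p ∈ Z, δ₀ ≤ δ p := by
    rcases Z.eq_empty_or_nonempty with h | h
    · exact ⟨1, one_pos, by simp [h]⟩
    · refine ⟨Z.inf' h δ, ?_, fun p hp => Finset.inf'_le _ hp⟩
      rw [gt_iff_lt, Finset.lt_inf'_iff]
      exact fun p _ => hδ p
  refine ⟨δ₀, hδ₀, fun g hg hgf => ?_⟩
  have hex : ∀ p : E, ∃ z, p ∈ Z → z ∈ U p ∧ z ∈ C.Γ ∧ g z = c := by
    intro p
    by_cases hp : p ∈ Z
    · obtain ⟨z, hz⟩ := hδ' p hp g hg (fun x hx => (hgf x hx).trans_le (hδ₀' p hp))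
      exact ⟨z, fun _ => hz⟩
    · exact ⟨p, fun h => absurd h hp⟩
  choose z hz using hex
  refine ⟨Z.image z, ?_, ?_⟩
  · intro y hy
    obtain ⟨p, hp, rfl⟩ := Finset.mem_image.mp hy
    exact (hz p hp).2
  · apply Finset.card_image_of_injOn
    intro p hp q hq hpq
    by_contra hne
    have hd := hdisj hp hq hne
    exact Set.disjoint_left.mp hd (hz p hp).1 (by rw [hpq]; exact (hz q hq).1)

/-- The Rolle–Khovanskii theorem on a compact regular curve, in the form needed here. -/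
theorem rolle_khovanskii [DecidableEq E] {φ J J' ρ : E → ℝ}
    (hφ : C.FD φ (fun x => ρ x * J x)) (hφc : ContinuousOn φ C.Γ)
    (hρ : ∀ x ∈ C.Γ, 0 < ρ x) (hJ : C.FD J J') (Z : Finset E)
    (hZ : ∀ z ∈ Z, z ∈ C.Γ ∧ φ z = 0 ∧ J z ≠ 0) :
    ∃ (ε : ℝ) (Z' : Finset E), (∀ z ∈ Z', z ∈ C.Γ ∧ J z = ε ∧ J' z ≠ 0) ∧ Z.card ≤ Z'.card := by
  classical
  -- a nearby regular level of `φ`
  obtain ⟨δ, hδ, hpers⟩ := C.persist hφ 0 Z (fun z hz => ⟨(hZ z hz).1, (hZ z hz).2.1,
    mul_ne_zero (hρ z (hZ z hz).1).ne' (hZ z hz).2.2⟩)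
  obtain ⟨η, hη, hreg⟩ := C.exists_regular hφ (U := Ioo (-δ) δ) isOpen_Ioo ⟨0, by linarith, hδ⟩
  obtain ⟨Z1, hZ1, hZ1c⟩ := hpers (fun x => φ x - η) (hφc.sub continuousOn_const)
    (fun x _ => by
      rw [show φ x - η - φ x = -η by ring, abs_neg]
      exact abs_lt.mpr hη)
  have hfin := C.finite_level hφ hφc η hreg
  set F := hfin.toFinset with hF
  have hFmem : ∀ x, x ∈ F ↔ x ∈ C.Γ ∧ φ x = η := fun x => by rw [hF]; simp
  have hZF : Z.card ≤ F.card := by
    rw [← hZ1c]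
    apply Finset.card_le_card
    intro x hx
    rw [hFmem]
    have := hZ1 x hx
    exact ⟨this.1, by linarith [this.2]⟩
  have hJne : ∀ x ∈ F, J x ≠ 0 := by
    intro x hx hx0
    have := hreg x ((hFmem x).mp hx).1 ((hFmem x).mp hx).2
    rw [hx0, mul_zero] at this
    exact this rfl
  obtain ⟨m, hm, hm'⟩ : ∃ m > 0, ∀ p ∈ F, m ≤ |J p| := by
    rcases F.eq_empty_or_nonempty with h | h
    · exact ⟨1, one_pos, by simp [h]⟩
    · refine ⟨F.inf' h (fun p => |J p|), ?_, fun p hp => Finset.inf'_le (fun p => |J p|) hp⟩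
      rw [gt_iff_lt, Finset.lt_inf'_iff]
      exact fun p hp => abs_pos.mpr (hJne p hp)
  obtain ⟨ε, hε, hregJ⟩ := C.exists_regular hJ (U := Ioo (-m) m) isOpen_Ioo ⟨0, by linarith, hm⟩
  have hεm := abs_lt.mpr hε
  obtain ⟨Z', hZ', hcard⟩ := C.count_arcs F ∅ (fun p hp => ((hFmem p).mp hp).1)
    (fun x => J x = ε) (by
      intro p hp τ hτ hpτ hno
      rw [Finset.sdiff_empty] at hp hpτ
      obtain ⟨hpΓ, hpη⟩ := (hFmem p).mp hp
      obtain ⟨-, hqη⟩ := (hFmem _).mp hpτ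
      have hd : ∀ t, HasDerivAt (fun t => φ (C.γ p t) - η) (ρ (C.γ p t) * J (C.γ p t)) t :=
        fun t => (FD.at hφ hpΓ t).sub_const η
      have h1 := deriv_mul_nonpos hτ (hd 0) (hd τ)
        (fun t _ => (hd t).continuousAt.continuousWithinAt)
        (by simp [C.zero p hpΓ, hpη]) (by simp [hqη]) (by
          intro t ht hcon
          refine hno t ht ((hFmem _).mpr ⟨C.mem p hpΓ t, ?_⟩)
          have : φ (C.γ p t) - η = 0 := hcon
          linarith)
      rw [C.zero p hpΓ] at h1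
      have hρp := hρ p hpΓ
      have hρq := hρ _ (C.mem p hpΓ τ)
      have h2 : J p * J (C.γ p τ) ≤ 0 := by
        by_contra hcon
        push Not at hcon
        have := mul_pos (mul_pos hρp hρq) hcon
        nlinarith
      have h3 : J p ≠ 0 := hJne p hp
      have h4 : J (C.γ p τ) ≠ 0 := hJne _ hpτ
      have h5 := hm' p hp
      have h6 := hm' _ hpτ
      have hcJ : ContinuousOn (fun t => J (C.γ p t)) (uIcc 0 τ) := fun t _ =>
        (FD.at hJ hpΓ t).continuousAt.continuousWithinAt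
      have h7 := intermediate_value_uIcc hcJ
      simp only [C.zero p hpΓ] at h7
      have h8 : ε ∈ uIcc (J p) (J (C.γ p τ)) := by
        rcases lt_or_gt_of_ne h3 with hneg | hpos
        · have hq : 0 < J (C.γ p τ) := by
            rcases lt_or_gt_of_ne h4 with h | h
            · have := mul_pos_of_neg_of_neg hneg h
              linarith
            · exact h
          rw [abs_of_neg hneg] at h5
          rw [abs_of_pos hq] at h6
          rw [uIcc_of_le (by linarith)]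
          exact ⟨by linarith [hε.1], by linarith [hε.2]⟩
        · have hq : J (C.γ p τ) < 0 := by
            rcases lt_or_gt_of_ne h4 with h | h
            · exact h
            · have := mul_pos hpos h
              linarith
          rw [abs_of_pos hpos] at h5
          rw [abs_of_neg hq] at h6
          rw [uIcc_of_ge (by linarith)]
          exact ⟨by linarith [hε.1], by linarith [hε.2]⟩
      obtain ⟨t, ht, htε⟩ := h7 h8
      rw [uIcc_of_le hτ.le] at ht
      have htε' : J (C.γ p t) = ε := htε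
      refine ⟨t, ⟨lt_of_le_of_ne ht.1 ?_, lt_of_le_of_ne ht.2 ?_⟩, htε⟩
      · intro h0
        rw [← h0, C.zero p hpΓ] at htε'
        rw [htε'] at h5
        linarith
      · intro h0
        rw [h0] at htε'
        rw [htε'] at h6
        linarith)
  refine ⟨ε, Z', fun z hz => ⟨(hZ' z hz).1, (hZ' z hz).2,
    hregJ z (hZ' z hz).1 (hZ' z hz).2⟩, ?_⟩
  rw [Finset.sdiff_empty, Finset.card_empty, zero_add] at hcard
  exact hZF.trans hcard

end CurveFlow

end Fewnomial
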