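import Mathlib
import Pool.Agent.Lib.MP_4cba3d_ag.Curve2

/-!
Wronskians along the flow and the chain of Rolle steps.
-/

namespace Fewnomial

open Filter Set
open scoped Topology

/-- The derivative of a determinant. -/
lemma hasDerivAt_det {n : Type*} [Fintype n] [DecidableEq n] (A : ℝ → Matrix n n ℝ)
    (A' : Matrix n n ℝ) (t : ℝ) (h : ∀ i j, HasDerivAt (fun s => A s i j) (A' i j) t) :
    HasDerivAt (fun s => (A s).det) (∑ i, ((A t).updateRow i (A' i)).det) t := by
  let D : ContinuousMultilinearMap ℝ (fun _ : n => n → ℝ) ℝ :=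
    { toMultilinearMap := (Matrix.detRowAlternating : (n → ℝ) [⋀^n]→ₗ[ℝ] ℝ).toMultilinearMap
      cont := (continuous_id (X := Matrix n n ℝ)).matrix_det }
  have hD : ∀ M : Matrix n n ℝ, D M = M.det := fun M => rfl
  have h1 : HasDerivAt (fun s => (fun i j => A s i j : n → n → ℝ)) (fun i j => A' i j) t := by
    rw [hasDerivAt_pi]
    intro i
    rw [hasDerivAt_pi]
    exact h i
  have h2 := (D.hasFDerivAt (fun i j => A t i j)).comp_hasDerivAt t h1
  rw [ContinuousMultilinearMap.linearDeriv_apply] at h2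
  exact h2

/-- Desnanot–Jacobi through Schur complements. -/
lemma schur_identity {m : Type*} [Fintype m] [DecidableEq m] (A : Matrix m m ℝ) (hA : A.det ≠ 0)
    (B : Matrix m (Fin 2) ℝ) (C : Matrix (Fin 2) m ℝ) (D : Matrix (Fin 2) (Fin 2) ℝ) :
    (Matrix.fromBlocks A (Matrix.of fun r (_ : Fin 1) => B r 0)
        (Matrix.of fun (_ : Fin 1) s => C 0 s) (Matrix.of fun _ _ => D 0 0)).det *
      (Matrix.fromBlocks A (Matrix.of fun r (_ : Fin 1) => B r 1)
        (Matrix.of fun (_ : Fin 1) s => C 1 s) (Matrix.of fun _ _ => D 1 1)).det -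
    (Matrix.fromBlocks A (Matrix.of fun r (_ : Fin 1) => B r 1)
        (Matrix.of fun (_ : Fin 1) s => C 0 s) (Matrix.of fun _ _ => D 0 1)).det *
      (Matrix.fromBlocks A (Matrix.of fun r (_ : Fin 1) => B r 0)
        (Matrix.of fun (_ : Fin 1) s => C 1 s) (Matrix.of fun _ _ => D 1 0)).det =
    A.det * (Matrix.fromBlocks A B C D).det := by
  have hu : IsUnit A.det := isUnit_iff_ne_zero.mpr hA
  let _ := Matrix.invertibleOfIsUnitDet A hu
  simp only [Matrix.det_fromBlocks₁₁, Matrix.det_unique, Matrix.det_fin_two]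
  have e : ∀ i j : Fin 2, ((Matrix.of fun (_ : Fin 1) s => C i s) * ⅟A *
      (Matrix.of fun r (_ : Fin 1) => B r j)) default default = (C * ⅟A * B) i j := by
    intro i j
    rfl
  simp only [Matrix.sub_apply, Matrix.of_apply, e]
  ring

variable {E : Type*}

/-- The Wronskian of the first `n` jets. -/
noncomputable def Wr (f : ℕ → ℕ → E → ℝ) (n : ℕ) (x : E) : ℝ :=
  (Matrix.of fun i l : Fin n => f l i x).det

/-- The derivative of the Wronskian: the last row is of order `n`. -/
noncomputable def Wr' (f : ℕ → ℕ → E → ℝ) (n : ℕ) (x : E) : ℝ :=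
  (Matrix.of fun i l : Fin n => f l (if (i : ℕ) + 1 = n then n else i) x).det

lemma Wr_congr {f g : ℕ → ℕ → E → ℝ} {n : ℕ} (h : ∀ l < n, f l = g l) : Wr f n = Wr g n := by
  funext x
  unfold Wr
  congr 1
  ext i l
  simp [h l l.2]

lemma Wr'_congr {f g : ℕ → ℕ → E → ℝ} {n : ℕ} (h : ∀ l < n, f l = g l) : Wr' f n = Wr' g n := by
  funext x
  unfold Wr'
  congr 1
  ext i l
  simp [h l l.2]

@[simp] lemma Wr_zero (f : ℕ → ℕ → E → ℝ) (x : E) : Wr f 0 x = 1 := by simp [Wr]

lemma Wr_one (f : ℕ → ℕ → E → ℝ) (x : E) : Wr f 1 x = f 0 0 x := by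
  simp [Wr]

section

variable [NormedAddCommGroup E] [NormedSpace ℝ E] (C : CurveFlow E)

lemma Wr_FD (f : ℕ → ℕ → E → ℝ) (hf : ∀ l i, C.FD (f l i) (f l (i + 1))) (n : ℕ) :
    C.FD (Wr f (n + 1)) (Wr' f (n + 1)) := by
  intro p hp
  have h := hasDerivAt_det (fun t => Matrix.of fun i l : Fin (n + 1) => f l i (C.γ p t))
    (Matrix.of fun i l : Fin (n + 1) => f l (i + 1) p) 0 (fun i l => hf l i p hp)
  have h2 : ∑ i, ((Matrix.of fun i l : Fin (n + 1) => f l i (C.γ p 0)).updateRow i
      ((Matrix.of fun i l : Fin (n + 1) => f l (i + 1) p) i)).det = Wr' f (n + 1) p := by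
    rw [Finset.sum_eq_single (Fin.last n)]
    · rw [Wr']
      congr 1
      ext i l
      by_cases hi : i = Fin.last n
      · rw [hi, Matrix.updateRow_self]
        simp
      · rw [Matrix.updateRow_ne hi]
        have : (i : ℕ) + 1 ≠ n + 1 := by
          intro h3
          exact hi (Fin.ext (by simpa using h3))
        simp only [Matrix.of_apply, C.zero p hp]
        rw [if_neg this]
    · intro i _ hi
      have hlt : (i : ℕ) < n := by
        have := Fin.val_lt_last hi
        exact this
      have hne : i ≠ ⟨i + 1, by omega⟩ := by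
        intro h3
        have := congrArg Fin.val h3
        simp at this
      apply Matrix.det_zero_of_row_eq hne
      rw [Matrix.updateRow_self, Matrix.updateRow_ne hne.symm]
      funext l
      simp [C.zero p hp]
    · simp
  rw [h2] at h
  exact h

end

/-- Bordered form of a Wronskian-type determinant. -/
lemma det_border {n : ℕ} (M : Matrix (Fin (n + 1)) (Fin (n + 1)) ℝ) :
    M.det = (Matrix.fromBlocks (Matrix.of fun i l : Fin n => M i.castSucc l.castSucc)
      (Matrix.of fun (i : Fin n) (_ : Fin 1) => M i.castSucc (Fin.last n))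
      (Matrix.of fun (_ : Fin 1) (l : Fin n) => M (Fin.last n) l.castSucc)
      (Matrix.of fun (_ : Fin 1) (_ : Fin 1) => M (Fin.last n) (Fin.last n))).det := by
  rw [← Matrix.det_submatrix_equiv_self (finSumFinEquiv (m := n) (n := 1)) M]
  congr 1
  ext i j
  rcases i with i | i <;> rcases j with j | j
  · simp only [Matrix.submatrix_apply, finSumFinEquiv_apply_left, Matrix.fromBlocks_apply₁₁,
      Matrix.of_apply]
    rfl
  · have : j = 0 := Subsingleton.elim _ _
    subst this
    simp only [Matrix.submatrix_apply, finSumFinEquiv_apply_left, finSumFinEquiv_apply_right,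
      Matrix.fromBlocks_apply₁₂, Matrix.of_apply]
    rfl
  · have : i = 0 := Subsingleton.elim _ _
    subst this
    simp only [Matrix.submatrix_apply, finSumFinEquiv_apply_left, finSumFinEquiv_apply_right,
      Matrix.fromBlocks_apply₂₁, Matrix.of_apply]
    rfl
  · have h1 : j = 0 := Subsingleton.elim _ _
    have h2 : i = 0 := Subsingleton.elim _ _
    subst h1 h2
    simp only [Matrix.submatrix_apply, finSumFinEquiv_apply_right,
      Matrix.fromBlocks_apply₂₂, Matrix.of_apply]
    rfl

/-- Two-column bordered form. -/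
lemma det_border2 {n : ℕ} (M : Matrix (Fin (n + 2)) (Fin (n + 2)) ℝ) :
    M.det = (Matrix.fromBlocks (Matrix.of fun i l : Fin n => M (Fin.castAdd 2 i) (Fin.castAdd 2 l))
      (Matrix.of fun (i : Fin n) (j : Fin 2) => M (Fin.castAdd 2 i) (Fin.natAdd n j))
      (Matrix.of fun (i : Fin 2) (l : Fin n) => M (Fin.natAdd n i) (Fin.castAdd 2 l))
      (Matrix.of fun (i j : Fin 2) => M (Fin.natAdd n i) (Fin.natAdd n j))).det := by
  rw [← Matrix.det_submatrix_equiv_self (finSumFinEquiv (m := n) (n := 2)) M]
  congr 1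
  ext i j
  rcases i with i | i <;> rcases j with j | j <;> rfl

/-- The derivative identity of the chain. -/
lemma chain_identity (f : ℕ → ℕ → E → ℝ) (h : ℕ → E → ℝ) (n : ℕ) (x : E)
    (hW : Wr f n x ≠ 0) :
    Wr f (n + 1) x * Wr' (Function.update f n h) (n + 1) x -
      Wr (Function.update f n h) (n + 1) x * Wr' f (n + 1) x =
    Wr f n x * Wr (Function.update f (n + 1) h) (n + 2) x := by
  set A : Matrix (Fin n) (Fin n) ℝ := Matrix.of fun i l : Fin n => f l i x with hA
  have hAdet : A.det ≠ 0 := hW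
  set col : Fin 2 → ℕ → E → ℝ := ![f n, h] with hcol
  set B : Matrix (Fin n) (Fin 2) ℝ := Matrix.of fun i j => col j i x with hB
  set Cm : Matrix (Fin 2) (Fin n) ℝ := Matrix.of fun i l => f l (n + i) x with hC
  set D : Matrix (Fin 2) (Fin 2) ℝ := Matrix.of fun i j => col j (n + i) x with hD
  have key := schur_identity A hAdet B Cm D
  have e1 : Wr f (n + 1) x = (Matrix.fromBlocks A (Matrix.of fun r (_ : Fin 1) => B r 0)
        (Matrix.of fun (_ : Fin 1) s => Cm 0 s) (Matrix.of fun _ _ => D 0 0)).det := by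
    rw [Wr, det_border]
    congr 1
  have e2 : Wr' (Function.update f n h) (n + 1) x = (Matrix.fromBlocks A
        (Matrix.of fun r (_ : Fin 1) => B r 1)
        (Matrix.of fun (_ : Fin 1) s => Cm 1 s) (Matrix.of fun _ _ => D 1 1)).det := by
    rw [Wr', det_border]
    congr 1
    ext i j
    rcases i with i | i <;> rcases j with j | j
    · simp [hA]
      rw [if_neg (ne_of_lt i.2), Function.update_of_ne (ne_of_lt j.2)]
    · simp [hB, hcol]
      rw [if_neg (ne_of_lt i.2)]
    · simp [hC]
      rw [Function.update_of_ne (ne_of_lt j.2)]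
    · simp [hD, hcol]
  have e3 : Wr (Function.update f n h) (n + 1) x = (Matrix.fromBlocks A
        (Matrix.of fun r (_ : Fin 1) => B r 1)
        (Matrix.of fun (_ : Fin 1) s => Cm 0 s) (Matrix.of fun _ _ => D 0 1)).det := by
    rw [Wr, det_border]
    congr 1
    ext i j
    rcases i with i | i <;> rcases j with j | j
    · simp [hA]
      rw [Function.update_of_ne (ne_of_lt j.2)]
    · simp [hB, hcol]
    · simp [hC]
      rw [Function.update_of_ne (ne_of_lt j.2)]
    · simp [hD, hcol]
  have e4 : Wr' f (n + 1) x = (Matrix.fromBlocks A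
        (Matrix.of fun r (_ : Fin 1) => B r 0)
        (Matrix.of fun (_ : Fin 1) s => Cm 1 s) (Matrix.of fun _ _ => D 1 0)).det := by
    rw [Wr', det_border]
    congr 1
    ext i j
    rcases i with i | i <;> rcases j with j | j
    · simp [hA]
      rw [if_neg (ne_of_lt i.2)]
    · simp [hB, hcol]
      rw [if_neg (ne_of_lt i.2)]
    · simp [hC]
    · simp [hD, hcol]
  have e5 : Wr (Function.update f (n + 1) h) (n + 2) x = (Matrix.fromBlocks A B Cm D).det := by
    rw [Wr, det_border2]
    congr 1
    ext i j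
    rcases i with i | i <;> rcases j with j | j
    · simp [hA]
      rw [Function.update_of_ne (by have := j.2; omega)]
    · fin_cases j
      · simp [hB, hcol]
      · simp [hB, hcol]
    · simp [hC]
      rw [Function.update_of_ne (by have := j.2; omega)]
    · fin_cases j
      · simp [hD, hcol]
      · simp [hD, hcol]
  rw [e1, e2, e3, e4, e5]
  exact key

end Fewnomial
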