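import Mathlib
import Pool.Agent.Lib.MP_4cba3d_ag.Wronsk

/-!
Counting zeros of a linear combination through the zeros of the Wronskians.
-/

namespace Fewnomial

open Filter Set
open scoped Topology

variable {E : Type*} [NormedAddCommGroup E] [NormedSpace ℝ E] (C : CurveFlow E)

lemma update_FD {f : ℕ → ℕ → E → ℝ} {h : ℕ → E → ℝ} (hf : ∀ l i, C.FD (f l i) (f l (i + 1)))
    (hh : ∀ i, C.FD (h i) (h (i + 1))) (n l i : ℕ) :
    C.FD (Function.update f n h l i) (Function.update f n h l (i + 1)) := by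
  by_cases hl : l = n
  · subst hl
    simp only [Function.update_self]
    exact hh i
  · simp only [Function.update_of_ne hl]
    exact hf l i

lemma chain_step [DecidableEq E] (f : ℕ → ℕ → E → ℝ) (h : ℕ → E → ℝ)
    (hf : ∀ l i, C.FD (f l i) (f l (i + 1)))
    (hh : ∀ i, C.FD (h i) (h (i + 1))) (n : ℕ) (F₀ F₁ : Finset E)
    (hF₀Γ : ∀ x ∈ F₀, x ∈ C.Γ) (hF₁Γ : ∀ x ∈ F₁, x ∈ C.Γ)
    (hF₀ : ∀ x ∈ C.Γ, Wr f n x = 0 → x ∈ F₀) (hF₁ : ∀ x ∈ C.Γ, Wr f (n + 1) x = 0 → x ∈ F₁)
    (S : Finset E) (hS : ∀ x ∈ S, x ∈ C.Γ ∧ Wr (Function.update f n h) (n + 1) x = 0) :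
    ∃ S' : Finset E, (∀ x ∈ S', x ∈ C.Γ ∧ Wr (Function.update f (n + 1) h) (n + 2) x = 0) ∧
      S.card ≤ 2 * (F₀.card + F₁.card) + S'.card := by
  set B := F₀ ∪ F₁ with hB
  obtain ⟨S', hS', hcard⟩ := C.count_arcs (S ∪ B) B (by
    intro p hp
    rcases Finset.mem_union.mp hp with hp | hp
    · exact (hS p hp).1
    · rcases Finset.mem_union.mp hp with hp | hp
      · exact hF₀Γ p hp
      · exact hF₁Γ p hp) (fun x => Wr (Function.update f (n + 1) h) (n + 2) x = 0) (by
    intro p hp τ hτ hpτ hno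
    have hpS : p ∈ S ∧ p ∉ B := by
      obtain ⟨h1, h2⟩ := Finset.mem_sdiff.mp hp
      exact ⟨(Finset.mem_union.mp h1).resolve_right h2, h2⟩
    have hqS : C.γ p τ ∈ S ∧ C.γ p τ ∉ B := by
      obtain ⟨h1, h2⟩ := Finset.mem_sdiff.mp hpτ
      exact ⟨(Finset.mem_union.mp h1).resolve_right h2, h2⟩
    have hpΓ := (hS p hpS.1).1
    -- no zero of the two Wronskians on the closed arc
    have hnB : ∀ t ∈ Icc 0 τ, C.γ p t ∉ B := by
      intro t ht htB
      rcases eq_or_lt_of_le ht.1 with h0 | h0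
      · rw [← h0, C.zero p hpΓ] at htB
        exact hpS.2 htB
      · rcases eq_or_lt_of_le ht.2 with h1 | h1
        · rw [h1] at htB
          exact hqS.2 htB
        · exact hno t ⟨h0, h1⟩ (Finset.mem_union_right _ htB)
    have hW0 : ∀ t ∈ Icc 0 τ, Wr f n (C.γ p t) ≠ 0 := fun t ht h0 =>
      hnB t ht (Finset.mem_union_left _ (hF₀ _ (C.mem p hpΓ t) h0))
    have hW1 : ∀ t ∈ Icc 0 τ, Wr f (n + 1) (C.γ p t) ≠ 0 := fun t ht h0 =>
      hnB t ht (Finset.mem_union_right _ (hF₁ _ (C.mem p hpΓ t) h0))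
    have hdA : ∀ t, HasDerivAt (fun t => Wr (Function.update f n h) (n + 1) (C.γ p t))
        (Wr' (Function.update f n h) (n + 1) (C.γ p t)) t := fun t =>
      (Wr_FD C _ (update_FD C hf hh n) n).at hpΓ t
    have hdW : ∀ t, HasDerivAt (fun t => Wr f (n + 1) (C.γ p t))
        (Wr' f (n + 1) (C.γ p t)) t := fun t => (Wr_FD C f hf n).at hpΓ t
    have hquot : ∀ t ∈ Icc 0 τ, HasDerivAt (fun t => Wr (Function.update f n h) (n + 1) (C.γ p t) /
        Wr f (n + 1) (C.γ p t)) ((Wr' (Function.update f n h) (n + 1) (C.γ p t) *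
          Wr f (n + 1) (C.γ p t) - Wr (Function.update f n h) (n + 1) (C.γ p t) *
          Wr' f (n + 1) (C.γ p t)) / Wr f (n + 1) (C.γ p t) ^ 2) t := fun t ht =>
      (hdA t).fun_div (hdW t) (hW1 t ht)
    obtain ⟨t, ht, ht0⟩ := exists_hasDerivAt_eq_zero hτ
      (fun t ht => (hquot t ht).continuousAt.continuousWithinAt)
      (by
        have e1 : Wr (Function.update f n h) (n + 1) (C.γ p 0) = 0 := by
          rw [C.zero p hpΓ]; exact (hS p hpS.1).2
        have e2 : Wr (Function.update f n h) (n + 1) (C.γ p τ) = 0 := (hS _ hqS.1).2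
        simp only [e1, e2, zero_div])
      (fun t ht => hquot t (Ioo_subset_Icc_self ht))
    refine ⟨t, ht, ?_⟩
    have ht' := Ioo_subset_Icc_self ht
    have h3 := chain_identity f h n (C.γ p t) (hW0 t ht')
    rw [div_eq_zero_iff] at ht0
    have h4 := ht0.resolve_right (pow_ne_zero 2 (hW1 t ht'))
    have h5 : Wr f n (C.γ p t) * Wr (Function.update f (n + 1) h) (n + 2) (C.γ p t) = 0 := by
      rw [← h3]
      linarith
    exact (mul_eq_zero.mp h5).resolve_left (hW0 t ht'))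
  refine ⟨S', hS', ?_⟩
  have h1 : S.card ≤ ((S ∪ B) \ B).card + B.card := by
    have h2 : S ⊆ ((S ∪ B) \ B) ∪ B := by
      intro x hx
      by_cases hxB : x ∈ B
      · exact Finset.mem_union_right _ hxB
      · exact Finset.mem_union_left _ (Finset.mem_sdiff.mpr ⟨Finset.mem_union_left _ hx, hxB⟩)
    exact (Finset.card_le_card h2).trans (Finset.card_union_le _ _)
  have h2 : B.card ≤ F₀.card + F₁.card := Finset.card_union_le _ _
  omega

omit [NormedAddCommGroup E] [NormedSpace ℝ E] in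
lemma Wr_last (f : ℕ → ℕ → E → ℝ) (n : ℕ) (c : ℕ → ℝ) (h : ℕ → E → ℝ)
    (hh : ∀ i x, h i x = ∑ l ∈ Finset.range (n + 1), c l * f l i x) (x : E) :
    Wr (Function.update f n h) (n + 1) x = c n * Wr f (n + 1) x := by
  set A : Matrix (Fin (n + 1)) (Fin (n + 1)) ℝ := Matrix.of fun i l => f l i x with hA
  have h1 := Matrix.det_updateCol_sum A (Fin.last n) (fun l : Fin (n + 1) => c l)
  have h2 : (Matrix.of fun i l : Fin (n + 1) => Function.update f n h l i x) =
      A.updateCol (Fin.last n) (fun k => ∑ i : Fin (n + 1), c i • A k i) := by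
    ext i l
    by_cases hl : l = Fin.last n
    · subst hl
      rw [Matrix.updateCol_self, Matrix.of_apply]
      simp only [Fin.val_last, Function.update_self, hh, hA, Matrix.of_apply, smul_eq_mul]
      rw [Finset.sum_range]
    · have hl' : (l : ℕ) ≠ n := fun h3 => hl (Fin.ext (by simpa using h3))
      rw [Matrix.updateCol_ne hl, Matrix.of_apply, Function.update_of_ne hl']
      rfl
  rw [Wr, h2, h1]
  simp [hA, Wr]

/-- The zero count. -/
theorem chain_count [DecidableEq E] (f : ℕ → ℕ → E → ℝ)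
    (hf : ∀ l i, C.FD (f l i) (f l (i + 1))) (t : ℕ) (F : ℕ → Finset E)
    (hFΓ : ∀ n ≤ t + 1, ∀ x ∈ F n, x ∈ C.Γ)
    (hF : ∀ n ≤ t + 1, ∀ x ∈ C.Γ, Wr f n x = 0 → x ∈ F n) (K : ℕ)
    (hK : ∀ n ≤ t + 1, (F n).card ≤ K) (c : ℕ → ℝ) (hc : c t ≠ 0) (S : Finset E)
    (hS : ∀ x ∈ S, x ∈ C.Γ ∧ ∑ l ∈ Finset.range (t + 1), c l * f l 0 x = 0) :
    S.card ≤ 4 * (t + 1) * K := by
  set h : ℕ → E → ℝ := fun i x => ∑ l ∈ Finset.range (t + 1), c l * f l i x with hh
  have hhFD : ∀ i, C.FD (h i) (h (i + 1)) := by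
    intro i p hp
    exact HasDerivAt.fun_sum fun l _ => (hf l i p hp).const_mul (c l)
  have key : ∀ d n : ℕ, n + d = t → ∀ S : Finset E,
      (∀ x ∈ S, x ∈ C.Γ ∧ Wr (Function.update f n h) (n + 1) x = 0) →
      S.card ≤ 4 * d * K + K := by
    intro d
    induction d with
    | zero =>
      intro n hn S hS
      rw [add_zero] at hn
      subst hn
      have h1 : S ⊆ F (n + 1) := by
        intro x hx
        obtain ⟨hxΓ, hx0⟩ := hS x hx
        apply hF (n + 1) le_rfl x hxΓ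
        rw [Wr_last f n c h (fun i x => rfl)] at hx0
        exact (mul_eq_zero.mp hx0).resolve_left hc
      have := (Finset.card_le_card h1).trans (hK (n + 1) le_rfl)
      omega
    | succ d ih =>
      intro n hn S hS
      obtain ⟨S', hS', hcard⟩ := chain_step C f h hf hhFD n (F n) (F (n + 1))
        (hFΓ n (by omega)) (hFΓ (n + 1) (by omega)) (hF n (by omega)) (hF (n + 1) (by omega)) S hS
      have h1 := ih (n + 1) (by omega) S' hS'
      have h2 := hK n (by omega)
      have h3 := hK (n + 1) (by omega)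
      calc S.card ≤ 2 * ((F n).card + (F (n + 1)).card) + S'.card := hcard
        _ ≤ 2 * (K + K) + (4 * d * K + K) := by omega
        _ = 4 * (d + 1) * K + K := by ring
  have h1 := key t 0 (by omega) S (fun x hx => ⟨(hS x hx).1, by
    rw [Wr_one, Function.update_self]
    exact (hS x hx).2⟩)
  calc S.card ≤ 4 * t * K + K := h1
    _ ≤ 4 * (t + 1) * K := by nlinarith

end Fewnomial
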