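import Mathlib
import Pool.Agent.Lib.MP_4cba3d_ag.LevelCurve

/-!
Polynomials in the coordinates and in exponentials of linear forms.
-/

namespace Fewnomial

open MvPolynomial
open scoped Topology

section degrees

variable {σ : Type*}

lemma totalDegree_mkDerivation_le {f : σ → MvPolynomial σ ℝ} (hf : ∀ i, (f i).totalDegree ≤ 1)
    (p : MvPolynomial σ ℝ) : (mkDerivation ℝ f p).totalDegree ≤ p.totalDegree := by
  classical
  conv_lhs => rw [p.as_sum, map_sum]
  refine totalDegree_finsetSum_le fun s hs => ?_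
  rw [mkDerivation_monomial]
  refine (totalDegree_smul_le _ _).trans ?_
  rw [Finsupp.sum]
  refine totalDegree_finsetSum_le fun i hi => ?_
  rw [smul_eq_mul]
  refine (totalDegree_mul _ _).trans ?_
  have h1 : (monomial (s - Finsupp.single i 1) ((s i : ℕ) : ℝ)).totalDegree ≤
      (s - Finsupp.single i 1).sum fun _ => id := totalDegree_monomial_le _ _
  have h2 : ((s - Finsupp.single i 1).sum fun _ => id) + 1 = s.sum fun _ => id := by
    have h3 : s = (s - Finsupp.single i 1) + Finsupp.single i 1 := by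
      rw [tsub_add_cancel_of_le]
      rw [Finsupp.single_le_iff]
      exact Nat.one_le_iff_ne_zero.mpr (Finsupp.mem_support_iff.mp hi)
    conv_rhs => rw [h3]
    rw [Finsupp.sum_add_index' (fun _ => rfl) (fun _ _ _ => rfl),
      Finsupp.sum_single_index rfl]
    rfl
  have h4 : (s.sum fun _ => id) ≤ p.totalDegree := le_totalDegree hs
  have h5 := hf i
  omega

lemma totalDegree_det_le {n : Type*} [Fintype n] [DecidableEq n]
    (M : Matrix n n (MvPolynomial σ ℝ)) (r c : n → ℕ)
    (h : ∀ i j, (M i j).totalDegree ≤ r i + c j) :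
    M.det.totalDegree ≤ ∑ i, r i + ∑ j, c j := by
  rw [Matrix.det_apply]
  refine totalDegree_finsetSum_le fun τ _ => ?_
  have h1 : (Equiv.Perm.sign τ • ∏ i, M (τ i) i).totalDegree ≤ (∏ i, M (τ i) i).totalDegree := by
    rcases Int.units_eq_one_or (Equiv.Perm.sign τ) with h | h
    · rw [h, one_smul]
    · rw [h, Units.neg_smul, one_smul, totalDegree_neg]
  refine h1.trans ((totalDegree_finsetProd _ _).trans ?_)
  refine (Finset.sum_le_sum fun i _ => h (τ i) i).trans ?_
  rw [Finset.sum_add_distrib, Equiv.sum_comp τ r]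

end degrees

variable {ι κ : Type*} [Fintype ι] [DecidableEq ι]

/-- The point of `ℝ^(ι ⊕ κ)` formed by the coordinates and the exponentials. -/
noncomputable def pt (a : κ → ι → ℝ) (x : ι → ℝ) : ι ⊕ κ → ℝ :=
  Sum.elim x (fun k => Real.exp (∑ i, a k i * x i))

/-- Evaluation of a polynomial in the coordinates and the exponentials. -/
noncomputable def ev (a : κ → ι → ℝ) (f : MvPolynomial (ι ⊕ κ) ℝ) (x : ι → ℝ) : ℝ :=
  eval (pt a x) f

/-- Partial derivative as an operator on polynomials. -/
noncomputable def dd (a : κ → ι → ℝ) (i : ι) :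
    Derivation ℝ (MvPolynomial (ι ⊕ κ) ℝ) (MvPolynomial (ι ⊕ κ) ℝ) :=
  mkDerivation ℝ (Sum.elim (fun i' => if i' = i then 1 else 0)
    (fun k => C (a k i) * X (Sum.inr k)))

omit [Fintype ι] in
lemma dd_totalDegree (a : κ → ι → ℝ) (i : ι) (f : MvPolynomial (ι ⊕ κ) ℝ) :
    (dd a i f).totalDegree ≤ f.totalDegree := by
  apply totalDegree_mkDerivation_le
  rintro (i' | k)
  · simp only [Sum.elim_inl]
    split_ifs <;> simp
  · simp only [Sum.elim_inr]
    refine (totalDegree_mul _ _).trans ?_
    simp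

omit [DecidableEq ι] in
@[simp] lemma ev_C (a : κ → ι → ℝ) (r : ℝ) (x : ι → ℝ) : ev a (C r) x = r := by simp [ev]
omit [DecidableEq ι] in
@[simp] lemma ev_add (a : κ → ι → ℝ) (f g : MvPolynomial (ι ⊕ κ) ℝ) (x : ι → ℝ) :
    ev a (f + g) x = ev a f x + ev a g x := by simp [ev]
omit [DecidableEq ι] in
@[simp] lemma ev_sub (a : κ → ι → ℝ) (f g : MvPolynomial (ι ⊕ κ) ℝ) (x : ι → ℝ) :
    ev a (f - g) x = ev a f x - ev a g x := by simp [ev]
omit [DecidableEq ι] in
@[simp] lemma ev_mul (a : κ → ι → ℝ) (f g : MvPolynomial (ι ⊕ κ) ℝ) (x : ι → ℝ) :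
    ev a (f * g) x = ev a f x * ev a g x := by simp [ev]
omit [DecidableEq ι] in
@[simp] lemma ev_inl (a : κ → ι → ℝ) (i : ι) (x : ι → ℝ) : ev a (X (Sum.inl i)) x = x i := by
  simp [ev, pt]
omit [DecidableEq ι] in
@[simp] lemma ev_inr (a : κ → ι → ℝ) (k : κ) (x : ι → ℝ) :
    ev a (X (Sum.inr k)) x = Real.exp (∑ i, a k i * x i) := by
  simp [ev, pt]
omit [DecidableEq ι] in
@[simp] lemma ev_sum (a : κ → ι → ℝ) {β : Type*} (s : Finset β)
    (f : β → MvPolynomial (ι ⊕ κ) ℝ) (x : ι → ℝ) :
    ev a (∑ b ∈ s, f b) x = ∑ b ∈ s, ev a (f b) x := by simp [ev]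

omit [Fintype ι] in
@[simp] lemma dd_inl (a : κ → ι → ℝ) (i i' : ι) :
    dd a i (X (Sum.inl i')) = if i' = i then 1 else 0 := by simp [dd]
omit [Fintype ι] in
@[simp] lemma dd_inr (a : κ → ι → ℝ) (i : ι) (k : κ) :
    dd a i (X (Sum.inr k)) = C (a k i) * X (Sum.inr k) := by simp [dd]

omit [DecidableEq ι] in
lemma lf_add' (r s : ι → ℝ) : lf (fun i => r i + s i) = lf r + lf s := by
  ext x
  simp [lf_apply, add_mul, Finset.sum_add_distrib]

omit [DecidableEq ι] in
lemma lf_smul' (c : ℝ) (r : ι → ℝ) : lf (fun i => c * r i) = c • lf r := by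
  ext x
  simp only [lf_apply, smul_apply, smul_eq_mul, Finset.mul_sum, mul_assoc]

/-- The gradient of an exponential polynomial. -/
lemma hasFDerivAt_ev (a : κ → ι → ℝ) (f : MvPolynomial (ι ⊕ κ) ℝ) (x : ι → ℝ) :
    HasFDerivAt (ev a f) (lf (fun i => ev a (dd a i f) x)) x := by
  induction f using MvPolynomial.induction_on with
  | C r =>
    have h1 : ev a (C r) = fun _ => r := by funext y; simp
    have h2 : lf (fun i => ev a (dd a i (C r)) x) = 0 := by
      ext y
      rw [lf_apply]
      simp [ev, derivation_C]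
    rw [h1, h2]
    exact hasFDerivAt_const _ _
  | add p q hp hq =>
    have h1 : ev a (p + q) = fun y => ev a p y + ev a q y := by funext y; simp
    have h2 : lf (fun i => ev a (dd a i (p + q)) x) =
        lf (fun i => ev a (dd a i p) x) + lf (fun i => ev a (dd a i q) x) := by
      rw [← lf_add']
      simp
    rw [h1, h2]
    exact hp.add hq
  | mul_X p v hp =>
    have hv : HasFDerivAt (fun y => ev a (X v) y) (lf (fun i => ev a (dd a i (X v)) x)) x := by
      rcases v with i' | k
      · have h2 : (fun i => ev a (dd a i (X (Sum.inl i'))) x) = Pi.single i' 1 := by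
          funext i
          rw [dd_inl]
          by_cases h : i' = i
          · subst h
            simp [ev]
          · rw [if_neg h, Pi.single_eq_of_ne (Ne.symm h)]
            simp [ev]
        rw [h2, lf_single]
        simp only [ev_inl]
        exact (ContinuousLinearMap.proj (R := ℝ) (φ := fun _ : ι => ℝ) i').hasFDerivAt
      · have h2 : lf (fun i => ev a (dd a i (X (Sum.inr k))) x) =
            Real.exp (∑ i, a k i * x i) • lf (a k) := by
          rw [← lf_smul']
          congr 1
          funext i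
          rw [dd_inr, ev_mul, ev_C, ev_inr, mul_comm]
        rw [h2]
        simp only [ev_inr]
        have h3 : HasFDerivAt (fun y : ι → ℝ => ∑ i, a k i * y i) (lf (a k)) x := by
          have := (lf (a k)).hasFDerivAt (x := x)
          have h4 : (fun y : ι → ℝ => ∑ i, a k i * y i) = lf (a k) := by
            funext y; rw [lf_apply]
          rw [h4]; exact this
        exact h3.exp
    have h1 : ev a (p * X v) = fun y => ev a p y * ev a (X v) y := by funext y; simp
    have h2 : lf (fun i => ev a (dd a i (p * X v)) x) =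
        ev a p x • lf (fun i => ev a (dd a i (X v)) x) +
          ev a (X v) x • lf (fun i => ev a (dd a i p) x) := by
      rw [← lf_smul', ← lf_smul', ← lf_add']
      congr 1
      funext i
      rw [Derivation.leibniz, ev_add, smul_eq_mul, smul_eq_mul, ev_mul, ev_mul]
    rw [h1, h2]
    exact hp.mul hv

omit [DecidableEq ι] in
lemma contDiff_ev (a : κ → ι → ℝ) (f : MvPolynomial (ι ⊕ κ) ℝ) {n : WithTop ℕ∞} :
    ContDiff ℝ n (ev a f) := by
  induction f using MvPolynomial.induction_on with
  | C r =>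
    have h1 : ev a (C r) = fun _ => r := by funext y; simp
    rw [h1]
    exact contDiff_const
  | add p q hp hq =>
    have h1 : ev a (p + q) = fun y => ev a p y + ev a q y := by funext y; simp
    rw [h1]
    exact hp.add hq
  | mul_X p v hp =>
    have h1 : ev a (p * X v) = fun y => ev a p y * ev a (X v) y := by funext y; simp
    rw [h1]
    refine hp.mul ?_
    rcases v with i' | k
    · have h2 : ev a (X (Sum.inl i')) = fun y : ι → ℝ => y i' := by funext y; simp
      rw [h2]
      exact contDiff_apply ℝ ℝ i'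
    · have h2 : ev a (X (Sum.inr k)) = fun y : ι → ℝ => Real.exp (∑ i, a k i * y i) := by
        funext y; simp
      rw [h2]
      apply Real.contDiff_exp.comp
      exact ContDiff.sum fun i _ => contDiff_const.mul (contDiff_apply ℝ ℝ i)

/-- The Jacobian matrix of a system, as a matrix of polynomials. -/
noncomputable def jac (a : κ → ι → ℝ) (P : ι → MvPolynomial (ι ⊕ κ) ℝ) :
    Matrix ι ι (MvPolynomial (ι ⊕ κ) ℝ) :=
  Matrix.of fun i j => dd a j (P i)

/-- `z` is a nondegenerate zero of the system `P`. -/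
def Nondeg (a : κ → ι → ℝ) (P : ι → MvPolynomial (ι ⊕ κ) ℝ) (z : ι → ℝ) : Prop :=
  (∀ i, ev a (P i) z = 0) ∧ (Matrix.of fun i j => ev a (dd a j (P i)) z).det ≠ 0

omit [DecidableEq ι] in
lemma ev_det {n : Type*} [Fintype n] [DecidableEq n] (a : κ → ι → ℝ)
    (M : Matrix n n (MvPolynomial (ι ⊕ κ) ℝ)) (x : ι → ℝ) :
    ev a M.det x = (Matrix.of fun i j => ev a (M i j) x).det := by
  rw [ev, RingHom.map_det]
  rfl

end Fewnomial
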