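import Mathlib
import Pool.Agent.Lib.MP_4cba3d_ag.ExpPoly
import Pool.Agent.Lib.MP_4cba3d_ag.Regular
import Pool.Agent.Lib.MP_4cba3d_ag.Curve2

/-!
The induction step of the Khovanskii bound: one exponential is replaced by a new variable,
another variable compactifies the situation.
-/

namespace Fewnomial

open MvPolynomial Filter Set
open scoped Topology

/-- Persistence of a nondegenerate zero in a family. -/
lemma persist_param {T E : Type*} [NormedAddCommGroup T] [NormedSpace ℝ T]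
    [FiniteDimensional ℝ T] [NormedAddCommGroup E] [NormedSpace ℝ E] [FiniteDimensional ℝ E]
    (F : T × E → E) (hF : ContDiff ℝ 1 F) (w₀ : E) (h0 : F (0, w₀) = 0)
    (hinj : ∀ w, fderiv ℝ F (0, w₀) (0, w) = 0 → w = 0) {U : Set E} (hU : U ∈ 𝓝 w₀) :
    ∀ᶠ θ in 𝓝 (0 : T), ∃ w ∈ U, F (θ, w) = 0 := by
  have : CompleteSpace T := FiniteDimensional.complete ℝ T
  have : CompleteSpace E := FiniteDimensional.complete ℝ E
  set L := fderiv ℝ F (0, w₀) with hL
  have hs : HasStrictFDerivAt F L (0, w₀) := (hF.contDiffAt).hasStrictFDerivAt one_ne_zero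
  set Φ : T × E → T × E := fun p => (p.1, F p) with hΦ
  set M : (T × E) →L[ℝ] (T × E) := (ContinuousLinearMap.fst ℝ T E).prod L with hM
  have hΦs : HasStrictFDerivAt Φ M (0, w₀) := hasStrictFDerivAt_fst.prodMk hs
  have hker : LinearMap.ker (M : (T × E) →ₗ[ℝ] (T × E)) = ⊥ := by
    rw [LinearMap.ker_eq_bot']
    rintro ⟨θ, w⟩ h
    have h1 : (θ, L (θ, w)) = (0, 0) := h
    have h2 : θ = 0 := congrArg Prod.fst h1
    subst h2
    have h3 : L (0, w) = 0 := congrArg Prod.snd h1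
    rw [hinj w h3]
    rfl
  have hdet : M.det ≠ 0 := by
    have h1 : Function.Injective (M : (T × E) →ₗ[ℝ] (T × E)) := LinearMap.ker_eq_bot.mp hker
    have h2 : IsUnit (M : (T × E) →ₗ[ℝ] (T × E)) := by
      rw [Module.End.isUnit_iff]
      exact ⟨h1, LinearMap.injective_iff_surjective.mp h1⟩
    have h3 := LinearMap.isUnit_det _ h2
    exact h3.ne_zero
  rw [← ContinuousLinearMap.coe_toContinuousLinearEquivOfDetNeZero M hdet] at hΦs
  have hmap := hΦs.map_nhds_eq_of_equiv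
  have hΦ0 : Φ (0, w₀) = (0, 0) := by rw [hΦ]; simp [h0]
  rw [hΦ0] at hmap
  have hW : Prod.snd ⁻¹' U ∈ 𝓝 ((0 : T), w₀) := continuous_snd.continuousAt.preimage_mem_nhds hU
  have himg : Φ '' (Prod.snd ⁻¹' U) ∈ 𝓝 ((0 : T), (0 : E)) := by
    rw [← hmap]
    exact image_mem_map hW
  have hct : ContinuousAt (fun θ : T => (θ, (0 : E))) 0 := by fun_prop
  have hpre : (fun θ : T => (θ, (0 : E))) ⁻¹' (Φ '' (Prod.snd ⁻¹' U)) ∈ 𝓝 (0 : T) :=
    hct.preimage_mem_nhds himg
  filter_upwards [hpre] with θ hθ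
  obtain ⟨⟨θ', w⟩, hw, hwΦ⟩ := hθ
  have h1 : θ' = θ := congrArg Prod.fst hwΦ
  have h2 : F (θ', w) = 0 := congrArg Prod.snd hwΦ
  exact ⟨w, hw, by rw [← h1]; exact h2⟩

section

variable {ι : Type} {k : ℕ}

/-- The exponents of the remaining exponentials. -/
def newA (a : Fin (k + 1) → ι → ℝ) : Fin k → (ι ⊕ Bool) → ℝ :=
  fun j => Sum.elim (a j.castSucc) (fun _ => 0)

/-- The last exponential becomes a variable. -/
def liftIdx : ι ⊕ Fin (k + 1) → (ι ⊕ Bool) ⊕ Fin k :=
  Sum.elim (fun i => Sum.inl (Sum.inl i))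
    (fun j => Fin.lastCases (motive := fun _ => (ι ⊕ Bool) ⊕ Fin k)
      (Sum.inl (Sum.inr false)) (fun j => Sum.inr j) j)

/-- The lifted polynomial. -/
noncomputable def liftP (f : MvPolynomial (ι ⊕ Fin (k + 1)) ℝ) :
    MvPolynomial ((ι ⊕ Bool) ⊕ Fin k) ℝ := rename liftIdx f

variable [Fintype ι]

/-- The sphere. -/
noncomputable def sph (ι : Type) [Fintype ι] (k : ℕ) (R : ℝ) :
    MvPolynomial ((ι ⊕ Bool) ⊕ Fin k) ℝ :=
  ∑ v, X (Sum.inl v) ^ 2 - C (R ^ 2)

/-- The unperturbed system. -/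
noncomputable def baseQ (P : ι → MvPolynomial (ι ⊕ Fin (k + 1)) ℝ) (R : ℝ) :
    ι ⊕ Bool → MvPolynomial ((ι ⊕ Bool) ⊕ Fin k) ℝ :=
  Sum.elim (fun i => liftP (P i)) (fun b => if b then 0 else sph ι k R)

/-- An affine perturbation of a system. -/
noncomputable def pertQ {J κ : Type} [Fintype J] (Q : J → MvPolynomial (J ⊕ κ) ℝ)
    (θ : (J → ℝ) × (J → J → ℝ)) : J → MvPolynomial (J ⊕ κ) ℝ :=
  fun v => Q v - C (θ.1 v) - ∑ v', C (θ.2 v v') * X (Sum.inl v')

/-- The gradient of `u exp(-a x) - 1`, up to a positive factor. -/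
noncomputable def nu (a : Fin (k + 1) → ι → ℝ) :
    ι ⊕ Bool → MvPolynomial ((ι ⊕ Bool) ⊕ Fin k) ℝ :=
  Sum.elim (fun i => -(C (a (Fin.last k) i) * X (Sum.inl (Sum.inr false))))
    (fun b => if b then 0 else 1)

/-- The determinant polynomial. -/
noncomputable def Jp [DecidableEq ι] (a : Fin (k + 1) → ι → ℝ)
    (Q : ι ⊕ Bool → MvPolynomial ((ι ⊕ Bool) ⊕ Fin k) ℝ) :
    MvPolynomial ((ι ⊕ Bool) ⊕ Fin k) ℝ :=
  ((jac (newA a) Q).updateRow (Sum.inr true) (nu a)).det

/-- The function vanishing on the graph of the last exponential. -/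
noncomputable def phi (a : Fin (k + 1) → ι → ℝ) (w : ι ⊕ Bool → ℝ) : ℝ :=
  w (Sum.inr false) * Real.exp (-(∑ i, a (Fin.last k) i * w (Sum.inl i))) - 1

/-- The positive factor. -/
noncomputable def rho (a : Fin (k + 1) → ι → ℝ) (w : ι ⊕ Bool → ℝ) : ℝ :=
  Real.exp (-(∑ i, a (Fin.last k) i * w (Sum.inl i)))

lemma phi_hasFDerivAt (a : Fin (k + 1) → ι → ℝ) (w : ι ⊕ Bool → ℝ) :
    HasFDerivAt (phi a) (lf (fun v => rho a w * ev (newA a) (nu a v) w)) w := by
  set b : ι ⊕ Bool → ℝ := Sum.elim (a (Fin.last k)) (fun _ => 0) with hb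
  have hsum : ∀ y : ι ⊕ Bool → ℝ, ∑ i, a (Fin.last k) i * y (Sum.inl i) = lf b y := by
    intro y
    rw [lf_apply, Fintype.sum_sum_type]
    simp [hb]
  have hphi : phi a = fun y => y (Sum.inr false) * Real.exp (-(lf b y)) - 1 := by
    funext y
    rw [phi, hsum]
  have h1 : HasFDerivAt (fun y : ι ⊕ Bool → ℝ => y (Sum.inr false))
      (ContinuousLinearMap.proj (R := ℝ) (φ := fun _ : ι ⊕ Bool => ℝ) (Sum.inr false)) w :=
    (ContinuousLinearMap.proj (R := ℝ) (φ := fun _ : ι ⊕ Bool => ℝ) (Sum.inr false)).hasFDerivAt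
  have h2 : HasFDerivAt (fun y : ι ⊕ Bool → ℝ => Real.exp (-(lf b y)))
      (Real.exp (-(lf b w)) • -(lf b)) w := ((lf b).hasFDerivAt.neg).exp
  have h3 := (h1.mul h2).sub_const 1
  have h4 : lf (fun v => rho a w * ev (newA a) (nu a v) w) =
      w (Sum.inr false) • Real.exp (-(lf b w)) • -(lf b) + Real.exp (-(lf b w)) •
        (ContinuousLinearMap.proj (R := ℝ) (φ := fun _ : ι ⊕ Bool => ℝ) (Sum.inr false)) := by
    ext y
    rw [lf_smul']
    simp only [smul_apply, add_apply, neg_apply,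
      ContinuousLinearMap.proj_apply, smul_eq_mul]
    rw [lf_apply, ← hsum y, rho, hsum w, Fintype.sum_sum_type]
    simp only [nu, Sum.elim_inl, Sum.elim_inr, Fintype.univ_bool, Finset.sum_insert,
      Finset.mem_singleton, Bool.true_eq_false, not_false_eq_true, Finset.sum_singleton,
      if_true, Bool.false_eq_true, if_false]
    have e1 : ∀ i, ev (newA a) (-(C (a (Fin.last k) i) * X (Sum.inl (Sum.inr false)))) w =
        -(a (Fin.last k) i * w (Sum.inr false)) := by
      intro i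
      simp [ev, pt]
    simp only [e1]
    have e2 : ev (newA a) (0 : MvPolynomial ((ι ⊕ Bool) ⊕ Fin k) ℝ) w = 0 := by simp [ev]
    have e3 : ev (newA a) (1 : MvPolynomial ((ι ⊕ Bool) ⊕ Fin k) ℝ) w = 1 := by simp [ev]
    rw [e2, e3]
    have e4 : ∑ i, -(a (Fin.last k) i * w (Sum.inr false)) * y (Sum.inl i) =
        -(w (Sum.inr false) * ∑ i, a (Fin.last k) i * y (Sum.inl i)) := by
      rw [Finset.mul_sum, ← Finset.sum_neg_distrib]
      exact Finset.sum_congr rfl fun i _ => by ring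
    rw [e4]
    ring
  rw [hphi, h4]
  exact h3

lemma ev_liftP (a : Fin (k + 1) → ι → ℝ) (f : MvPolynomial (ι ⊕ Fin (k + 1)) ℝ)
    (w : ι ⊕ Bool → ℝ)
    (hw : w (Sum.inr false) = Real.exp (∑ i, a (Fin.last k) i * w (Sum.inl i))) :
    ev (newA a) (liftP f) w = ev a f (fun i => w (Sum.inl i)) := by
  rw [ev, liftP, eval_rename, ev]
  congr 1
  congr 1
  funext v
  rcases v with i | j
  · simp [liftIdx, pt]
  · induction j using Fin.lastCases with
    | last => simp [liftIdx, pt, hw]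
    | cast j =>
      simp only [Function.comp_apply, liftIdx, Sum.elim_inr, Fin.lastCases_castSucc, pt, newA]
      rw [Fintype.sum_sum_type]
      simp

section pert

variable {J κ : Type} [Fintype J] (b : κ → J → ℝ)

lemma ev_pertQ (Q : J → MvPolynomial (J ⊕ κ) ℝ) (θ : (J → ℝ) × (J → J → ℝ)) (v : J)
    (w : J → ℝ) :
    ev b (pertQ Q θ v) w = ev b (Q v) w - θ.1 v - ∑ v', θ.2 v v' * w v' := by
  simp [pertQ]

variable [DecidableEq J]

lemma ev_dd_pertQ (Q : J → MvPolynomial (J ⊕ κ) ℝ) (θ : (J → ℝ) × (J → J → ℝ)) (v j : J)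
    (w : J → ℝ) :
    ev b (dd b j (pertQ Q θ v)) w = ev b (dd b j (Q v)) w - θ.2 v j := by
  have h : ∀ v', ev b (dd b j (C (θ.2 v v') * X (Sum.inl v'))) w =
      if v' = j then θ.2 v v' else 0 := by
    intro v'
    rw [Derivation.leibniz, derivation_C, smul_zero, add_zero, dd_inl, smul_eq_mul]
    split_ifs with h
    · rw [mul_one, ev_C]
    · simp [ev]
  rw [pertQ, map_sub, map_sub, map_sum, derivation_C, ev_sub, ev_sub, ev_sum]
  simp only [h]
  rw [Finset.sum_ite_eq' Finset.univ j]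
  simp [ev]

omit [DecidableEq J] in
lemma pertQ_totalDegree {Q : J → MvPolynomial (J ⊕ κ) ℝ} (θ : (J → ℝ) × (J → J → ℝ)) {v : J}
    {m : ℕ} (hm : 1 ≤ m) (hQ : (Q v).totalDegree ≤ m) : (pertQ Q θ v).totalDegree ≤ m := by
  rw [pertQ]
  refine (totalDegree_sub _ _).trans (max_le ((totalDegree_sub _ _).trans (max_le hQ ?_)) ?_)
  · rw [totalDegree_C]; exact Nat.zero_le _
  · refine totalDegree_finsetSum_le fun v' _ => ?_
    refine (totalDegree_mul _ _).trans ?_
    rw [totalDegree_C, totalDegree_X]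
    omega

end pert

variable [DecidableEq ι]

lemma dd_sph_totalDegree (b : Fin k → (ι ⊕ Bool) → ℝ) (R : ℝ) (j : ι ⊕ Bool) :
    (dd b j (sph ι k R)).totalDegree ≤ 1 := by
  rw [sph, map_sub, map_sum, derivation_C, sub_zero]
  refine totalDegree_finsetSum_le fun v _ => ?_
  rw [Derivation.leibniz_pow, dd_inl]
  split_ifs with h
  · simp only [Nat.add_one_sub_one, pow_one, smul_eq_mul, mul_one]
    refine (totalDegree_smul_le _ _).trans ?_
    simp
  · simp

lemma Jp_totalDegree (a : Fin (k + 1) → ι → ℝ)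
    (Q : ι ⊕ Bool → MvPolynomial ((ι ⊕ Bool) ⊕ Fin k) ℝ) (r : ι → ℕ)
    (h1 : ∀ i j, (dd (newA a) j (Q (Sum.inl i))).totalDegree ≤ r i)
    (h2 : ∀ j, (dd (newA a) j (Q (Sum.inr false))).totalDegree ≤ 1) :
    (Jp a Q).totalDegree ≤ ∑ i, r i + 2 := by
  have h := totalDegree_det_le ((jac (newA a) Q).updateRow (Sum.inr true) (nu a))
    (Sum.elim r (fun _ => 1)) (fun _ => 0) (by
      intro v j
      rcases v with i | b
      · rw [Matrix.updateRow_ne (by simp)]
        show (dd (newA a) j (Q (Sum.inl i))).totalDegree ≤ r i + 0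
        rw [add_zero]
        exact h1 i j
      · cases b with
        | false =>
          rw [Matrix.updateRow_ne (by simp)]
          show (dd (newA a) j (Q (Sum.inr false))).totalDegree ≤ 1 + 0
          rw [add_zero]
          exact h2 j
        | true =>
          rw [Matrix.updateRow_self]
          simp only [Sum.elim_inr, add_zero]
          rcases j with i | b
          · simp only [nu, Sum.elim_inl, totalDegree_neg]
            refine (totalDegree_mul _ _).trans ?_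
            simp
          · cases b <;> simp [nu])
  rw [Fintype.sum_sum_type] at h
  simpa [Jp] using h

lemma ev_Jp (a : Fin (k + 1) → ι → ℝ) (Q : ι ⊕ Bool → MvPolynomial ((ι ⊕ Bool) ⊕ Fin k) ℝ)
    (w : ι ⊕ Bool → ℝ) :
    ev (newA a) (Jp a Q) w = ((Matrix.of fun v v' => ev (newA a) (dd (newA a) v' (Q v)) w).updateRow
      (Sum.inr true) (fun v' => ev (newA a) (nu a v') w)).det := by
  rw [Jp, ev_det]
  congr 1
  ext v v'
  rw [Matrix.of_apply]
  by_cases h : v = Sum.inr true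
  · subst h
    rw [Matrix.updateRow_self, Matrix.updateRow_self]
  · rw [Matrix.updateRow_ne h, Matrix.updateRow_ne h]
    rfl

end

end Fewnomial
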