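import Mathlib
import Pool.Agent.Lib.MP_4cba3d_ag.Step

/-!
From `k + 1` exponentials to `k` exponentials.
-/

namespace Fewnomial

open MvPolynomial Filter Set
open scoped Topology

variable {ι : Type} {k : ℕ} [Fintype ι] [DecidableEq ι]

lemma ev_dd_sph (b : Fin k → (ι ⊕ Bool) → ℝ) (R : ℝ) (j : ι ⊕ Bool) (w : ι ⊕ Bool → ℝ) :
    ev b (dd b j (sph ι k R)) w = 2 * w j := by
  have h : ∀ v : ι ⊕ Bool, ev b (dd b j ((X (Sum.inl v) : MvPolynomial ((ι ⊕ Bool) ⊕ Fin k) ℝ)
      ^ 2)) w = if v = j then 2 * w v else 0 := by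
    intro v
    rw [Derivation.leibniz_pow, dd_inl]
    split_ifs with h
    · simp [ev, pt]
    · simp [ev]
  rw [sph, map_sub, map_sum, derivation_C, sub_zero, ev_sum]
  simp only [h]
  rw [Finset.sum_ite_eq' Finset.univ j]
  simp

omit [DecidableEq ι] in
lemma ev_sph (b : Fin k → (ι ⊕ Bool) → ℝ) (R : ℝ) (w : ι ⊕ Bool → ℝ) :
    ev b (sph ι k R) w = ∑ v, w v ^ 2 - R ^ 2 := by
  simp only [sph, ev_sub, ev_sum, ev_C]
  congr 1
  refine Finset.sum_congr rfl fun v _ => ?_
  simp [ev, pt]

/-- The lifted zeros. -/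
noncomputable def liftPt (a : Fin (k + 1) → ι → ℝ) (z : ι → ℝ) (s : ℝ) : ι ⊕ Bool → ℝ :=
  Sum.elim z (fun b => if b then s else Real.exp (∑ i, a (Fin.last k) i * z i))

lemma liftPt_det_ne (a : Fin (k + 1) → ι → ℝ) (P : ι → MvPolynomial (ι ⊕ Fin (k + 1)) ℝ)
    (R : ℝ) (z : ι → ℝ) (hz : Nondeg a P z) (s : ℝ) (hs : s ≠ 0) :
    ((Matrix.of fun v v' => ev (newA a) (dd (newA a) v' (baseQ P R v)) (liftPt a z s)).updateRow
      (Sum.inr true) (fun v' => ev (newA a) (nu a v') (liftPt a z s))).det ≠ 0 := by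
  set w := liftPt a z s with hw
  set M := (Matrix.of fun v v' => ev (newA a) (dd (newA a) v' (baseQ P R v)) w).updateRow
      (Sum.inr true) (fun v' => ev (newA a) (nu a v') w) with hM
  intro hdet
  obtain ⟨v, hv, hv0⟩ := Matrix.exists_mulVec_eq_zero_iff.mpr hdet
  apply hv
  set dx : ι → ℝ := fun i => v (Sum.inl i) with hdx
  set u := Real.exp (∑ i, a (Fin.last k) i * z i) with hu
  have hwu : w (Sum.inr false) = u := by simp [hw, liftPt, hu]
  have hws : w (Sum.inr true) = s := by simp [hw, liftPt]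
  have hwz : ∀ i, w (Sum.inl i) = z i := fun i => by simp [hw, liftPt]
  -- the row of `nu`
  have hrow : v (Sum.inr false) = u * ∑ i, a (Fin.last k) i * dx i := by
    have h1 := congrFun hv0 (Sum.inr true)
    rw [Matrix.mulVec, dotProduct, hM, Matrix.updateRow_self, Fintype.sum_sum_type] at h1
    simp only [nu, Sum.elim_inl, Sum.elim_inr, Fintype.univ_bool, Finset.sum_insert,
      Finset.mem_singleton, Bool.true_eq_false, not_false_eq_true, Finset.sum_singleton,
      if_true, Bool.false_eq_true, if_false, Pi.zero_apply] at h1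
    have e1 : ∀ i, ev (newA a) (-(C (a (Fin.last k) i) * X (Sum.inl (Sum.inr false)))) w =
        -(a (Fin.last k) i * u) := by
      intro i
      simp [ev, pt, hwu]
    have e2 : ev (newA a) (0 : MvPolynomial ((ι ⊕ Bool) ⊕ Fin k) ℝ) w = 0 := by simp [ev]
    have e3 : ev (newA a) (1 : MvPolynomial ((ι ⊕ Bool) ⊕ Fin k) ℝ) w = 1 := by simp [ev]
    simp only [e1, e2, e3] at h1
    have e4 : ∑ i, -(a (Fin.last k) i * u) * v (Sum.inl i) =
        -(u * ∑ i, a (Fin.last k) i * dx i) := by
      rw [Finset.mul_sum, ← Finset.sum_neg_distrib]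
      exact Finset.sum_congr rfl fun i _ => by rw [hdx]; ring
    rw [e4] at h1
    linarith
  -- the curve
  set c : ℝ → ι ⊕ Bool → ℝ := fun t => Sum.elim (fun i => z i + t * dx i)
    (fun b => if b then s + t * v (Sum.inr true) else
      Real.exp (∑ i, a (Fin.last k) i * (z i + t * dx i))) with hc
  have hc0 : c 0 = w := by
    funext x
    rcases x with i | b
    · simp [hc, hw, liftPt]
    · cases b <;> simp [hc, hw, liftPt]
  have hlin : ∀ i, HasDerivAt (fun t : ℝ => z i + t * dx i) (dx i) 0 := by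
    intro i
    have := ((hasDerivAt_id (0 : ℝ)).mul_const (dx i)).const_add (z i)
    simpa using this
  have hcd : HasDerivAt c v 0 := by
    rw [hasDerivAt_pi]
    rintro (i | b)
    · simp only [hc, Sum.elim_inl]
      exact hlin i
    · cases b with
      | true =>
        simp only [hc, Sum.elim_inr, if_true]
        have := ((hasDerivAt_id (0 : ℝ)).mul_const (v (Sum.inr true))).const_add s
        simpa using this
      | false =>
        simp only [hc, Sum.elim_inr, Bool.false_eq_true, if_false]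
        have h1 : HasDerivAt (fun t : ℝ => ∑ i, a (Fin.last k) i * (z i + t * dx i))
            (∑ i, a (Fin.last k) i * dx i) 0 :=
          HasDerivAt.fun_sum fun i _ => (hlin i).const_mul _
        have h2 := h1.exp
        rw [hrow]
        simpa [hu] using h2
  have hP0 : ∀ i, lf (fun j => ev a (dd a j (P i)) z) dx = 0 := by
    intro i
    have h1 := (hasFDerivAt_ev (newA a) (liftP (P i)) (c 0)).comp_hasDerivAt (0 : ℝ) hcd
    have h2 : (ev (newA a) (liftP (P i))) ∘ c = fun t => ev a (P i) (fun i => z i + t * dx i) := by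
      funext t
      rw [Function.comp_apply, ev_liftP]
      · rfl
      · simp [hc]
    rw [h2] at h1
    have h3 : HasDerivAt (fun t : ℝ => fun i => z i + t * dx i) dx 0 := by
      rw [hasDerivAt_pi]
      exact hlin
    have h4 := (hasFDerivAt_ev a (P i) (fun i => z i + 0 * dx i)).comp_hasDerivAt (0 : ℝ) h3
    have h5 := h1.unique h4
    have h6 : (fun i => z i + 0 * dx i) = z := by funext i; ring
    rw [h6] at h5
    rw [← h5, hc0, lf_apply]
    have h7 := congrFun hv0 (Sum.inl i)
    rw [Matrix.mulVec, dotProduct, hM, Matrix.updateRow_ne (by simp)] at h7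
    exact h7
  have hdx0 : dx = 0 := by
    apply Matrix.eq_zero_of_mulVec_eq_zero hz.2
    funext i
    have := hP0 i
    rw [lf_apply] at this
    exact this
  have hdxi : ∀ i, v (Sum.inl i) = 0 := fun i => congrFun hdx0 i
  have hdu : v (Sum.inr false) = 0 := by
    rw [hrow, hdx0]
    simp
  have hdz : v (Sum.inr true) = 0 := by
    have h1 := congrFun hv0 (Sum.inr false)
    rw [Matrix.mulVec, dotProduct, hM, Matrix.updateRow_ne (by simp), Fintype.sum_sum_type] at h1
    simp only [Fintype.univ_bool, Finset.sum_insert,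
      Finset.mem_singleton, Bool.true_eq_false, not_false_eq_true, Finset.sum_singleton,
      Pi.zero_apply, hdxi, hdu, mul_zero, Finset.sum_const_zero, zero_add, add_zero,
      Matrix.of_apply] at h1
    have h2 : baseQ P R (Sum.inr false) = sph ι k R := by simp [baseQ]
    rw [h2, ev_dd_sph, hws] at h1
    rcases mul_eq_zero.mp h1 with h3 | h3
    · exact absurd h3 (mul_ne_zero two_ne_zero hs)
    · exact h3
  funext x
  rcases x with i | b
  · exact hdxi i
  · cases b
    · exact hdu
    · exact hdz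

/-- The final system of the reduction. -/
noncomputable def finQ (a : Fin (k + 1) → ι → ℝ)
    (Q : ι ⊕ Bool → MvPolynomial ((ι ⊕ Bool) ⊕ Fin k) ℝ) (ε : ℝ) :
    ι ⊕ Bool → MvPolynomial ((ι ⊕ Bool) ⊕ Fin k) ℝ :=
  Function.update Q (Sum.inr true) (Jp a Q - C ε)

end Fewnomial
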