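import Mathlib
import Pool.Agent.Lib.MP_4cba3d_ag.Reduction

/-!
The reduction step of the Khovanskii bound.
-/

namespace Fewnomial

open MvPolynomial Filter Set
open scoped Topology

/-- The flow derivative of a function with known gradient. -/
lemma fd_of_hasFDerivAt {ι : Type*} [Fintype ι] [DecidableEq ι] (C : CurveFlow (ι → ℝ))
    {f : (ι → ℝ) → ℝ} {g : (ι → ℝ) → ι → ℝ} (hf : ∀ x, HasFDerivAt f (lf (g x)) x) :
    C.FD f (fun x => lf (g x) (C.V x)) := by
  intro p hp
  have h1 := C.deriv p hp 0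
  have h2 := (hf (C.γ p 0)).comp_hasDerivAt (0 : ℝ) h1
  rw [C.zero p hp] at h2
  exact h2

section

variable {J : Type} [Fintype J]

/-- Level sets containing a perturbed sphere are compact. -/
lemma compact_of_sphere (G : J → (J → ℝ) → ℝ) (hG : ∀ v, Continuous (G v)) (o s : J)
    (hso : s ≠ o) (R : ℝ) (c : ℝ) (B : J → ℝ) (hc : |c| ≤ 1) (hB : ∀ v, |B v| ≤ 1)
    (hs : ∀ w, G s w = ∑ v, w v ^ 2 - R ^ 2 - c - ∑ v, B v * w v) :
    IsCompact {w | ∀ v, v ≠ o → G v w = 0} := by
  apply Metric.isCompact_of_isClosed_isBounded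
  · have e : {w | ∀ v, v ≠ o → G v w = 0} = ⋂ v, ⋂ (_ : v ≠ o), {w | G v w = 0} := by
      ext w; simp
    rw [e]
    exact isClosed_iInter fun v => isClosed_iInter fun _ =>
      isClosed_eq (hG v) continuous_const
  · have hsub : {w | ∀ v, v ≠ o → G v w = 0} ⊆
        Metric.closedBall 0 (Real.sqrt (2 * R ^ 2 + 2 + Fintype.card J)) := by
      intro w hw
      have h1 := hw s hso
      rw [hs] at h1
      have hc' := abs_le.mp hc
      have h2 : ∑ v, B v * w v ≤ ∑ v, (w v ^ 2 / 2 + 1 / 2) := by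
        refine Finset.sum_le_sum fun v _ => ?_
        have h3 := hB v
        have h4 : B v * w v ≤ |w v| := by
          calc B v * w v ≤ |B v * w v| := le_abs_self _
            _ = |B v| * |w v| := abs_mul _ _
            _ ≤ 1 * |w v| := mul_le_mul_of_nonneg_right h3 (abs_nonneg _)
            _ = |w v| := one_mul _
        have h5 : |w v| ≤ w v ^ 2 / 2 + 1 / 2 := by
          have := sq_nonneg (|w v| - 1)
          rw [sub_sq, sq_abs] at this
          linarith
        linarith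
      rw [Finset.sum_add_distrib, ← Finset.sum_div, Finset.sum_const, Finset.card_univ,
        nsmul_eq_mul] at h2
      have h6 : ∑ v, w v ^ 2 ≤ 2 * R ^ 2 + 2 + Fintype.card J := by linarith [hc'.1, hc'.2]
      rw [mem_closedBall_zero_iff, pi_norm_le_iff_of_nonneg (Real.sqrt_nonneg _)]
      intro v
      rw [Real.norm_eq_abs]
      apply Real.abs_le_sqrt
      exact (Finset.single_le_sum (f := fun v => w v ^ 2) (fun _ _ => sq_nonneg _)
        (Finset.mem_univ v)).trans h6
    exact Metric.isBounded_closedBall.subset hsub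

end

variable {ι : Type} {k : ℕ} [Fintype ι] [DecidableEq ι]

theorem reduction (a : Fin (k + 1) → ι → ℝ) (P : ι → MvPolynomial (ι ⊕ Fin (k + 1)) ℝ)
    (Z : Finset (ι → ℝ)) (hZ : ∀ z ∈ Z, Nondeg a P z) :
    ∃ (R : ℝ) (θ : (ι ⊕ Bool → ℝ) × (ι ⊕ Bool → ι ⊕ Bool → ℝ)) (ε : ℝ)
      (Z' : Finset (ι ⊕ Bool → ℝ)),
      (∀ z ∈ Z', Nondeg (newA a) (finQ a (pertQ (baseQ P R) θ) ε) z) ∧ 2 * Z.card ≤ Z'.card := by
  classical
  set o : ι ⊕ Bool := Sum.inr true with ho
  set b := newA a with hb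
  set Rsq : ℝ := 1 + ∑ z ∈ Z, (∑ i, z i ^ 2 + Real.exp (∑ i, a (Fin.last k) i * z i) ^ 2)
    with hRsq
  have hRsq0 : 0 ≤ Rsq := by
    rw [hRsq]
    refine add_nonneg zero_le_one (Finset.sum_nonneg fun z _ => ?_)
    exact add_nonneg (Finset.sum_nonneg fun i _ => sq_nonneg _) (sq_nonneg _)
  set R := Real.sqrt Rsq with hR
  have hR2 : R ^ 2 = Rsq := Real.sq_sqrt hRsq0
  set h : (ι → ℝ) → ℝ := fun z =>
    Rsq - ∑ i, z i ^ 2 - Real.exp (∑ i, a (Fin.last k) i * z i) ^ 2 with hh
  have hhpos : ∀ z ∈ Z, 0 < h z := by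
    intro z hz
    have h1 : ∑ i, z i ^ 2 + Real.exp (∑ i, a (Fin.last k) i * z i) ^ 2 ≤
        ∑ z ∈ Z, (∑ i, z i ^ 2 + Real.exp (∑ i, a (Fin.last k) i * z i) ^ 2) :=
      Finset.single_le_sum (f := fun z : ι → ℝ =>
        ∑ i, z i ^ 2 + Real.exp (∑ i, a (Fin.last k) i * z i) ^ 2)
        (fun z _ => add_nonneg (Finset.sum_nonneg fun i _ => sq_nonneg _) (sq_nonneg _)) hz
    rw [hh]
    simp only
    linarith
  set W1 := Z.image (fun z => liftPt a z (Real.sqrt (h z))) with hW1
  set W2 := Z.image (fun z => liftPt a z (-Real.sqrt (h z))) with hW2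
  set W := W1 ∪ W2 with hW
  have hinjl : ∀ (z z' : ι → ℝ) (s s' : ℝ), liftPt a z s = liftPt a z' s' → z = z' := by
    intro z z' s s' h1
    funext i
    have := congrFun h1 (Sum.inl i)
    simpa [liftPt] using this
  have hWcard : W.card = 2 * Z.card := by
    have hdisj : Disjoint W1 W2 := by
      rw [Finset.disjoint_left]
      intro x hx1 hx2
      obtain ⟨z, hz, rfl⟩ := Finset.mem_image.mp hx1
      obtain ⟨z', hz', h1⟩ := Finset.mem_image.mp hx2
      have h2 := congrFun h1 (Sum.inr true)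
      simp only [liftPt, Sum.elim_inr, if_true] at h2
      have h3 := Real.sqrt_pos.mpr (hhpos z hz)
      have h4 := Real.sqrt_pos.mpr (hhpos z' hz')
      linarith
    rw [hW, Finset.card_union_of_disjoint hdisj, hW1, hW2, Finset.card_image_of_injOn,
      Finset.card_image_of_injOn]
    · ring
    · intro z _ z' _ h1
      exact hinjl _ _ _ _ h1
    · intro z _ z' _ h1
      exact hinjl _ _ _ _ h1
  have hWmem : ∀ w ∈ W, ∃ z ∈ Z, ∃ s : ℝ, s ^ 2 = h z ∧ s ≠ 0 ∧ w = liftPt a z s := by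
    intro w hw
    rcases Finset.mem_union.mp hw with hw | hw
    · obtain ⟨z, hz, rfl⟩ := Finset.mem_image.mp hw
      exact ⟨z, hz, _, Real.sq_sqrt (hhpos z hz).le, (Real.sqrt_pos.mpr (hhpos z hz)).ne', rfl⟩
    · obtain ⟨z, hz, rfl⟩ := Finset.mem_image.mp hw
      refine ⟨z, hz, _, ?_, neg_ne_zero.mpr (Real.sqrt_pos.mpr (hhpos z hz)).ne', rfl⟩
      rw [neg_sq]
      exact Real.sq_sqrt (hhpos z hz).le
  -- the family
  set B := baseQ P R with hBdef
  let F : ((ι ⊕ Bool → ℝ) × (ι ⊕ Bool → ι ⊕ Bool → ℝ)) × (ι ⊕ Bool → ℝ) → (ι ⊕ Bool → ℝ) :=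
    fun p v => if v = o then phi a p.2 else
      ev b (B v) p.2 - p.1.1 v - ∑ v', p.1.2 v v' * p.2 v'
  have hphiC : ContDiff ℝ 1 (phi a) := by
    unfold phi
    have h1 : ContDiff ℝ 1 (fun w : ι ⊕ Bool → ℝ => ∑ i, a (Fin.last k) i * w (Sum.inl i)) :=
      ContDiff.sum fun i _ => contDiff_const.mul (contDiff_apply ℝ ℝ _)
    exact ((contDiff_apply ℝ ℝ _).mul (Real.contDiff_exp.comp h1.neg)).sub contDiff_const
  have hFC : ContDiff ℝ 1 F := by
    rw [contDiff_pi]
    intro v
    by_cases hv : v = o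
    · simp only [F, if_pos hv]
      exact hphiC.comp contDiff_snd
    · simp only [F, if_neg hv]
      have e1 : ContDiff ℝ 1 (fun p : ((ι ⊕ Bool → ℝ) × (ι ⊕ Bool → ι ⊕ Bool → ℝ)) ×
          (ι ⊕ Bool → ℝ) => p.1.1) := contDiff_fst.comp contDiff_fst
      have e2 : ContDiff ℝ 1 (fun p : ((ι ⊕ Bool → ℝ) × (ι ⊕ Bool → ι ⊕ Bool → ℝ)) ×
          (ι ⊕ Bool → ℝ) => p.1.2) := contDiff_snd.comp contDiff_fst
      have e3 : ContDiff ℝ 1 (fun p : ((ι ⊕ Bool → ℝ) × (ι ⊕ Bool → ι ⊕ Bool → ℝ)) ×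
          (ι ⊕ Bool → ℝ) => p.2) := contDiff_snd
      refine (((contDiff_ev b (B v)).comp e3).sub (contDiff_pi.mp e1 v)).sub
        (ContDiff.sum fun v' _ => ?_)
      exact (contDiff_pi.mp (contDiff_pi.mp e2 v) v').mul (contDiff_pi.mp e3 v')
  let Jf : ((ι ⊕ Bool → ℝ) × (ι ⊕ Bool → ι ⊕ Bool → ℝ)) × (ι ⊕ Bool → ℝ) → ℝ := fun p =>
    ((Matrix.of fun v v' => ev b (dd b v' (B v)) p.2 - p.1.2 v v').updateRow o
      (fun v' => ev b (nu a v') p.2)).det
  have hJf : ∀ θ w, ev b (Jp a (pertQ B θ)) w = Jf (θ, w) := by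
    intro θ w
    rw [hb, ev_Jp]
    simp only [Jf, ev_dd_pertQ]
    rfl
  have hJfC : Continuous Jf := by
    apply Continuous.matrix_det
    refine continuous_matrix fun v v' => ?_
    by_cases hv : v = o
    · subst hv
      simp only [Matrix.updateRow_self]
      exact ((contDiff_ev b (nu a v') (n := 0)).continuous).comp continuous_snd
    · simp only [Matrix.updateRow_ne hv, Matrix.of_apply]
      have e2 : Continuous (fun p : ((ι ⊕ Bool → ℝ) × (ι ⊕ Bool → ι ⊕ Bool → ℝ)) ×
          (ι ⊕ Bool → ℝ) => p.1.2 v v') := by fun_prop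
      exact (((contDiff_ev b (dd b v' (B v)) (n := 0)).continuous).comp continuous_snd).sub e2
  obtain ⟨U, hU, hdisj⟩ := (W : Set (ι ⊕ Bool → ℝ)).toFinite.t2_separation
  -- persistence of the lifted zeros
  have hpers : ∀ w ∈ W, ∀ᶠ θ in 𝓝 (0 : (ι ⊕ Bool → ℝ) × (ι ⊕ Bool → ι ⊕ Bool → ℝ)),
      ∃ w', w' ∈ U w ∧ F (θ, w') = 0 ∧ Jf (θ, w') ≠ 0 := by
    intro w hw
    obtain ⟨z, hz, s, hs2, hs0, rfl⟩ := hWmem w hw
    have hdet := liftPt_det_ne a P R z (hZ z hz) s hs0
    have hJ0 : Jf (0, liftPt a z s) ≠ 0 := by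
      simp only [Jf, Prod.snd_zero, Pi.zero_apply, sub_zero]
      exact hdet
    have hu : liftPt a z s (Sum.inr false) = Real.exp (∑ i, a (Fin.last k) i * z i) := by
      simp [liftPt]
    have hF0 : F (0, liftPt a z s) = 0 := by
      funext v
      by_cases hv : v = o
      · simp only [F, if_pos hv, Pi.zero_apply]
        rw [phi, hu]
        have : ∀ i, liftPt a z s (Sum.inl i) = z i := fun i => by simp [liftPt]
        simp only [this]
        rw [← Real.exp_add, add_neg_cancel, Real.exp_zero, sub_self]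
      · simp only [F, if_neg hv, Prod.fst_zero, Prod.snd_zero, Pi.zero_apply, zero_mul,
          Finset.sum_const_zero, sub_zero]
        rcases v with i | c
        · have h1 : B (Sum.inl i) = liftP (P i) := by simp [hBdef, baseQ]
          rw [h1, hb, ev_liftP]
          · exact (hZ z hz).1 i
          · rw [hu]
            simp [liftPt]
        · cases c with
          | true => exact absurd rfl hv
          | false =>
            have h1 : B (Sum.inr false) = sph ι k R := by simp [hBdef, baseQ]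
            rw [h1, ev_sph, Fintype.sum_sum_type, hR2]
            simp only [Fintype.univ_bool, Finset.sum_insert, Finset.mem_singleton,
              Bool.true_eq_false, not_false_eq_true, Finset.sum_singleton, hu]
            have h2 : liftPt a z s (Sum.inr true) = s := by simp [liftPt]
            have h3 : ∀ i, liftPt a z s (Sum.inl i) = z i := fun i => by simp [liftPt]
            rw [h2, hs2, hh]
            simp only [h3]
            ring
    have hinj : ∀ w, fderiv ℝ F (0, liftPt a z s) (0, w) = 0 → w = 0 := by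
      intro w hw0
      set w₀ := liftPt a z s with hw₀
      set M : Matrix (ι ⊕ Bool) (ι ⊕ Bool) ℝ :=
        (Matrix.of fun v v' => ev b (dd b v' (B v)) w₀).updateRow o
          (fun v' => rho a w₀ * ev b (nu a v') w₀) with hM
      have hMdet : M.det ≠ 0 := by
        have h1 : (fun v' => rho a w₀ * ev b (nu a v') w₀) =
            rho a w₀ • (fun v' => ev b (nu a v') w₀) := rfl
        rw [hM, h1, Matrix.det_updateRow_smul]
        exact mul_ne_zero (Real.exp_pos _).ne' hdet
      have hg : HasFDerivAt (fun w : ι ⊕ Bool → ℝ =>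
          ((0 : (ι ⊕ Bool → ℝ) × (ι ⊕ Bool → ι ⊕ Bool → ℝ)), w))
          (ContinuousLinearMap.inr ℝ _ _) w₀ := hasFDerivAt_prodMk_right _ _
      have h2 : HasFDerivAt F (fderiv ℝ F (0, w₀)) (0, w₀) :=
        ((hFC.contDiffAt).differentiableAt one_ne_zero).hasFDerivAt
      have h3 := h2.comp w₀ hg
      have h4 : HasFDerivAt (F ∘ fun w : ι ⊕ Bool → ℝ =>
          ((0 : (ι ⊕ Bool → ℝ) × (ι ⊕ Bool → ι ⊕ Bool → ℝ)), w)) (clm M) w₀ := by
        rw [hasFDerivAt_pi']
        intro v
        have hrow : (ContinuousLinearMap.proj v).comp (clm M) = lf (M v) := by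
          ext x
          rw [ContinuousLinearMap.comp_apply, ContinuousLinearMap.proj_apply, clm_apply, lf_apply]
          rfl
        rw [hrow]
        by_cases hv : v = o
        · simp only [Function.comp_apply, F, if_pos hv]
          rw [hM, hv, Matrix.updateRow_self]
          exact phi_hasFDerivAt a w₀
        · simp only [Function.comp_apply, F, if_neg hv, Prod.fst_zero, Prod.snd_zero,
            Pi.zero_apply, zero_mul, Finset.sum_const_zero, sub_zero]
          rw [hM, Matrix.updateRow_ne hv]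
          exact hasFDerivAt_ev b (B v) w₀
      have h5 := h3.unique h4
      have h6 : clm M w = 0 := by
        rw [← h5]
        exact hw0
      rw [clm_apply] at h6
      exact Matrix.eq_zero_of_mulVec_eq_zero hMdet h6
    have hJev : ∀ᶠ p in 𝓝 ((0 : (ι ⊕ Bool → ℝ) × (ι ⊕ Bool → ι ⊕ Bool → ℝ)), liftPt a z s),
        Jf p ≠ 0 := hJfC.continuousAt.eventually_ne hJ0
    rw [nhds_prod_eq] at hJev
    obtain ⟨pa, hpa, pb, hpb, hpab⟩ := Filter.eventually_prod_iff.mp hJev
    have hUw : U (liftPt a z s) ∩ {w | pb w} ∈ 𝓝 (liftPt a z s) :=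
      Filter.inter_mem ((hU _).2.mem_nhds (hU _).1) hpb
    filter_upwards [persist_param F hFC (liftPt a z s) hF0 hinj hUw, hpa] with θ hθ hθa
    obtain ⟨w', hw', hF'⟩ := hθ
    exact ⟨w', hw'.1, hF', hpab hθa hw'.2⟩
  -- choice of the parameter
  have hev1 : ∀ᶠ θ in 𝓝 (0 : (ι ⊕ Bool → ℝ) × (ι ⊕ Bool → ι ⊕ Bool → ℝ)),
      ∀ w ∈ W, ∃ w', w' ∈ U w ∧ F (θ, w') = 0 ∧ Jf (θ, w') ≠ 0 :=
    (Filter.eventually_all_finset W).mpr hpers
  have hev2 : ∀ᶠ θ in 𝓝 (0 : (ι ⊕ Bool → ℝ) × (ι ⊕ Bool → ι ⊕ Bool → ℝ)), ‖θ‖ < 1 := by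
    have := Metric.ball_mem_nhds (0 : (ι ⊕ Bool → ℝ) × (ι ⊕ Bool → ι ⊕ Bool → ℝ)) one_pos
    filter_upwards [this] with θ hθ
    simpa using hθ
  obtain ⟨θ, hθD, hθ1, hθ2⟩ := (dense_regular o (fun v => ev b (B v))
    (fun v x j => ev b (dd b j (B v)) x) (fun v => contDiff_ev b (B v))
    (fun v j => contDiff_ev b (dd b j (B v)))).inter_nhds_nonempty (hev1.and hev2)
  set Q := pertQ B θ with hQ
  have hQev : ∀ v w, ev b (Q v) w = ev b (B v) w - θ.1 v - ∑ v', θ.2 v v' * w v' := fun v w =>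
    ev_pertQ b B θ v w
  have hQdd : ∀ v j w, ev b (dd b j (Q v)) w = ev b (dd b j (B v)) w - θ.2 v j := fun v j w =>
    ev_dd_pertQ b B θ v j w
  have hcomp : IsCompact {x | ∀ v, v ≠ o → ev b (Q v) x = 0} := by
    apply compact_of_sphere (fun v => ev b (Q v)) (fun v => (contDiff_ev b (Q v) (n := 0)).continuous)
      o (Sum.inr false) (by simp [ho]) R (θ.1 (Sum.inr false)) (θ.2 (Sum.inr false))
    · have h1 : ‖θ.1 (Sum.inr false)‖ ≤ ‖θ‖ := (norm_le_pi_norm _ _).trans (norm_fst_le θ)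
      rw [Real.norm_eq_abs] at h1
      linarith
    · intro v
      have h1 : ‖θ.2 (Sum.inr false) v‖ ≤ ‖θ‖ :=
        (norm_le_pi_norm _ _).trans ((norm_le_pi_norm _ _).trans (norm_snd_le θ))
      rw [Real.norm_eq_abs] at h1
      linarith
    · intro w
      have h1 : B (Sum.inr false) = sph ι k R := by simp [hBdef, baseQ]
      rw [hQev, h1, ev_sph]
  have hreg : ∀ x, (∀ v, v ≠ o → ev b (Q v) x = 0) →
      tangent (fun v x j => ev b (dd b j (Q v)) x) o x ≠ 0 := by
    intro x hx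
    have h1 := hθD x (fun v hv => by rw [← hQev]; exact hx v hv)
    have h2 : (fun (v : ι ⊕ Bool) (x : ι ⊕ Bool → ℝ) (j : ι ⊕ Bool) => ev b (dd b j (Q v)) x) =
        fun v x j => ev b (dd b j (B v)) x - θ.2 v j := by
      funext v x j
      exact hQdd v j x
    rw [h2]
    exact h1
  obtain ⟨C, hCΓ, hCV⟩ := exists_curveFlow o (fun v => ev b (Q v))
    (fun v x j => ev b (dd b j (Q v)) x) (fun v x => hasFDerivAt_ev b (Q v) x)
    (fun v j => contDiff_ev b (dd b j (Q v))) hcomp hreg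
  -- the points on the curve
  choose! pθ hpU hpF hpJ using hθ1
  set Z1 := W.image pθ with hZ1
  have hZ1card : Z1.card = W.card := by
    rw [hZ1]
    apply Finset.card_image_of_injOn
    intro p hp q hq hpq
    by_contra hne
    have hd := hdisj hp hq hne
    exact Set.disjoint_left.mp hd (hpU p hp) (by rw [hpq]; exact hpU q hq)
  have hFD1 : C.FD (phi a) (fun x => rho a x * ev b (Jp a Q) x) := by
    have h1 := fd_of_hasFDerivAt C (phi_hasFDerivAt a)
    have h2 : (fun x => lf (fun v => rho a x * ev (newA a) (nu a v) x) (C.V x)) =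
        fun x => rho a x * ev b (Jp a Q) x := by
      funext x
      rw [lf_smul', smul_apply, smul_eq_mul, hCV, lf_tangent, hb, ev_Jp]
    rw [← h2]
    exact h1
  have hFD2 : C.FD (ev b (Jp a Q)) (fun x => lf (fun v => ev b (dd b v (Jp a Q)) x) (C.V x)) :=
    fd_of_hasFDerivAt C (fun x => hasFDerivAt_ev b (Jp a Q) x)
  obtain ⟨ε, Z', hZ', hcard⟩ := C.rolle_khovanskii hFD1 hphiC.continuous.continuousOn
    (fun x _ => Real.exp_pos _) hFD2 Z1 (by
      intro z hz
      obtain ⟨w, hw, rfl⟩ := Finset.mem_image.mp hz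
      have h1 := hpF w hw
      refine ⟨?_, ?_, ?_⟩
      · rw [hCΓ]
        intro v hv
        have h2 := congrFun h1 v
        simp only [F, if_neg hv, Pi.zero_apply] at h2
        show ev b (Q v) (pθ w) = 0
        rw [hQev]
        exact h2
      · have h2 := congrFun h1 o
        simpa [F] using h2
      · have h2 := hpJ w hw
        rw [← hJf] at h2
        exact h2)
  refine ⟨R, θ, ε, Z', ?_, ?_⟩
  · intro z hz
    obtain ⟨h1, h2, h3⟩ := hZ' z hz
    rw [hCΓ] at h1
    refine ⟨?_, ?_⟩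
    · intro v
      by_cases hv : v = o
      · rw [hv, finQ, Function.update_self, ev_sub, ev_C]
        rw [sub_eq_zero]
        exact h2
      · rw [finQ, Function.update_of_ne hv]
        exact h1 v hv
    · have h4 : (Matrix.of fun v v' => ev b (dd b v' (finQ a Q ε v)) z) =
          (Matrix.of fun v => (fun v' => ev b (dd b v' (Q v)) z)).updateRow o
            (fun v' => ev b (dd b v' (Jp a Q)) z) := by
        ext v v'
        rw [Matrix.of_apply]
        by_cases hv : v = o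
        · rw [hv, Matrix.updateRow_self, finQ, Function.update_self, map_sub, derivation_C,
            sub_zero]
        · rw [Matrix.updateRow_ne hv, finQ, Function.update_of_ne hv]
          rfl
      rw [h4]
      rw [hCV, lf_tangent] at h3
      exact h3
  · rw [← hWcard, ← hZ1card]
    exact hcard

end Fewnomial
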