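import Mathlib
import Pool.Agent.Lib.MP_4cba3d_ag.Reduction2

/-!
Transversal zeros on a generic perturbation of a compact curve.
-/

namespace Fewnomial

open MvPolynomial Filter Set
open scoped Topology

variable {J κ : Type} [Fintype J] [DecidableEq J]

theorem exists_curve_with_zeros (b : κ → J → ℝ) (B : J → MvPolynomial (J ⊕ κ) ℝ) (o s : J)
    (hso : s ≠ o) (R : ℝ) (hsph : ∀ w, ev b (B s) w = ∑ v, w v ^ 2 - R ^ 2)
    (φ : (J → ℝ) → ℝ) (φg : (J → ℝ) → J → ℝ) (hφ : ∀ x, HasFDerivAt φ (lf (φg x)) x)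
    (hφC : ContDiff ℝ 1 φ) (hφg : ∀ j, Continuous (fun x => φg x j))
    (W : Finset (J → ℝ))
    (hW : ∀ w ∈ W, (∀ v, v ≠ o → ev b (B v) w = 0) ∧ φ w = 0 ∧
      ((Matrix.of fun v v' => ev b (dd b v' (B v)) w).updateRow o (φg w)).det ≠ 0) :
    ∃ (θ : (J → ℝ) × (J → J → ℝ)) (C : CurveFlow (J → ℝ)) (Z : Finset (J → ℝ)),
      C.Γ = {x | ∀ v, v ≠ o → ev b (pertQ B θ v) x = 0} ∧
      C.V = tangent (fun v x j => ev b (dd b j (pertQ B θ v)) x) o ∧
      (∀ z ∈ Z, z ∈ C.Γ ∧ φ z = 0 ∧ lf (φg z) (C.V z) ≠ 0) ∧ Z.card = W.card := by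
  classical
  -- the family
  let F : ((J → ℝ) × (J → J → ℝ)) × (J → ℝ) → (J → ℝ) :=
    fun p v => if v = o then φ p.2 else
      ev b (B v) p.2 - p.1.1 v - ∑ v', p.1.2 v v' * p.2 v'
  have hFC : ContDiff ℝ 1 F := by
    rw [contDiff_pi]
    intro v
    by_cases hv : v = o
    · simp only [F, if_pos hv]
      exact hφC.comp contDiff_snd
    · simp only [F, if_neg hv]
      have e1 : ContDiff ℝ 1 (fun p : ((J → ℝ) × (J → J → ℝ)) ×
          (J → ℝ) => p.1.1) := contDiff_fst.comp contDiff_fst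
      have e2 : ContDiff ℝ 1 (fun p : ((J → ℝ) × (J → J → ℝ)) ×
          (J → ℝ) => p.1.2) := contDiff_snd.comp contDiff_fst
      have e3 : ContDiff ℝ 1 (fun p : ((J → ℝ) × (J → J → ℝ)) ×
          (J → ℝ) => p.2) := contDiff_snd
      refine (((contDiff_ev b (B v)).comp e3).sub (contDiff_pi.mp e1 v)).sub
        (ContDiff.sum fun v' _ => ?_)
      exact (contDiff_pi.mp (contDiff_pi.mp e2 v) v').mul (contDiff_pi.mp e3 v')
  let Jf : ((J → ℝ) × (J → J → ℝ)) × (J → ℝ) → ℝ := fun p =>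
    ((Matrix.of fun v v' => ev b (dd b v' (B v)) p.2 - p.1.2 v v').updateRow o (φg p.2)).det
  have hJfC : Continuous Jf := by
    apply Continuous.matrix_det
    refine continuous_matrix fun v v' => ?_
    by_cases hv : v = o
    · subst hv
      simp only [Matrix.updateRow_self]
      exact (hφg v').comp continuous_snd
    · simp only [Matrix.updateRow_ne hv, Matrix.of_apply]
      have e2 : Continuous (fun p : ((J → ℝ) × (J → J → ℝ)) ×
          (J → ℝ) => p.1.2 v v') := by fun_prop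
      exact (((contDiff_ev b (dd b v' (B v)) (n := 0)).continuous).comp continuous_snd).sub e2
  obtain ⟨U, hU, hdisj⟩ := (W : Set (J → ℝ)).toFinite.t2_separation
  have hpers : ∀ w ∈ W, ∀ᶠ θ in 𝓝 (0 : (J → ℝ) × (J → J → ℝ)),
      ∃ w', w' ∈ U w ∧ F (θ, w') = 0 ∧ Jf (θ, w') ≠ 0 := by
    intro w hw
    obtain ⟨hw1, hw2, hdet⟩ := hW w hw
    have hJ0 : Jf (0, w) ≠ 0 := by
      simp only [Jf, Prod.snd_zero, Pi.zero_apply, sub_zero]
      exact hdet
    have hF0 : F (0, w) = 0 := by
      funext v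
      by_cases hv : v = o
      · simp only [F, if_pos hv, Pi.zero_apply]
        exact hw2
      · simp only [F, if_neg hv, Prod.fst_zero, Prod.snd_zero, Pi.zero_apply, zero_mul,
          Finset.sum_const_zero, sub_zero]
        exact hw1 v hv
    have hinj : ∀ u, fderiv ℝ F (0, w) (0, u) = 0 → u = 0 := by
      intro u hu0
      set M : Matrix J J ℝ :=
        (Matrix.of fun v v' => ev b (dd b v' (B v)) w).updateRow o (φg w) with hM
      have hg : HasFDerivAt (fun w : J → ℝ => ((0 : (J → ℝ) × (J → J → ℝ)), w))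
          (ContinuousLinearMap.inr ℝ _ _) w := hasFDerivAt_prodMk_right _ _
      have h2 : HasFDerivAt F (fderiv ℝ F (0, w)) (0, w) :=
        ((hFC.contDiffAt).differentiableAt one_ne_zero).hasFDerivAt
      have h3 := h2.comp w hg
      have h4 : HasFDerivAt (F ∘ fun w : J → ℝ =>
          ((0 : (J → ℝ) × (J → J → ℝ)), w)) (clm M) w := by
        rw [hasFDerivAt_pi']
        intro v
        have hrow : (ContinuousLinearMap.proj v).comp (clm M) = lf (M v) := by
          ext x
          rw [ContinuousLinearMap.comp_apply, ContinuousLinearMap.proj_apply, clm_apply, lf_apply]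
          rfl
        rw [hrow]
        by_cases hv : v = o
        · simp only [Function.comp_apply, F, if_pos hv]
          rw [hM, hv, Matrix.updateRow_self]
          exact hφ w
        · simp only [Function.comp_apply, F, if_neg hv, Prod.fst_zero, Prod.snd_zero,
            Pi.zero_apply, zero_mul, Finset.sum_const_zero, sub_zero]
          rw [hM, Matrix.updateRow_ne hv]
          exact hasFDerivAt_ev b (B v) w
      have h5 := h3.unique h4
      have h6 : clm M u = 0 := by
        rw [← h5]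
        exact hu0
      rw [clm_apply] at h6
      exact Matrix.eq_zero_of_mulVec_eq_zero hdet h6
    have hJev : ∀ᶠ p in 𝓝 ((0 : (J → ℝ) × (J → J → ℝ)), w), Jf p ≠ 0 :=
      hJfC.continuousAt.eventually_ne hJ0
    rw [nhds_prod_eq] at hJev
    obtain ⟨pa, hpa, pb, hpb, hpab⟩ := Filter.eventually_prod_iff.mp hJev
    have hUw : U w ∩ {w | pb w} ∈ 𝓝 w :=
      Filter.inter_mem ((hU _).2.mem_nhds (hU _).1) hpb
    filter_upwards [persist_param F hFC w hF0 hinj hUw, hpa] with θ hθ hθa
    obtain ⟨w', hw', hF'⟩ := hθ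
    exact ⟨w', hw'.1, hF', hpab hθa hw'.2⟩
  -- choice of the parameter
  have hev1 : ∀ᶠ θ in 𝓝 (0 : (J → ℝ) × (J → J → ℝ)),
      ∀ w ∈ W, ∃ w', w' ∈ U w ∧ F (θ, w') = 0 ∧ Jf (θ, w') ≠ 0 :=
    (Filter.eventually_all_finset W).mpr hpers
  have hev2 : ∀ᶠ θ in 𝓝 (0 : (J → ℝ) × (J → J → ℝ)), ‖θ‖ < 1 := by
    have := Metric.ball_mem_nhds (0 : (J → ℝ) × (J → J → ℝ)) one_pos
    filter_upwards [this] with θ hθ
    simpa using hθ
  obtain ⟨θ, hθD, hθ1, hθ2⟩ := (dense_regular o (fun v => ev b (B v))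
    (fun v x j => ev b (dd b j (B v)) x) (fun v => contDiff_ev b (B v))
    (fun v j => contDiff_ev b (dd b j (B v)))).inter_nhds_nonempty (hev1.and hev2)
  set Q := pertQ B θ with hQ
  have hQev : ∀ v w, ev b (Q v) w = ev b (B v) w - θ.1 v - ∑ v', θ.2 v v' * w v' := fun v w =>
    ev_pertQ b B θ v w
  have hQdd : ∀ v j w, ev b (dd b j (Q v)) w = ev b (dd b j (B v)) w - θ.2 v j := fun v j w =>
    ev_dd_pertQ b B θ v j w
  have hcomp : IsCompact {x | ∀ v, v ≠ o → ev b (Q v) x = 0} := by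
    apply compact_of_sphere (fun v => ev b (Q v)) (fun v => (contDiff_ev b (Q v) (n := 0)).continuous)
      o s hso R (θ.1 s) (θ.2 s)
    · have h1 : ‖θ.1 s‖ ≤ ‖θ‖ := (norm_le_pi_norm _ _).trans (norm_fst_le θ)
      rw [Real.norm_eq_abs] at h1
      linarith
    · intro v
      have h1 : ‖θ.2 s v‖ ≤ ‖θ‖ :=
        (norm_le_pi_norm _ _).trans ((norm_le_pi_norm _ _).trans (norm_snd_le θ))
      rw [Real.norm_eq_abs] at h1
      linarith
    · intro w
      rw [hQev, hsph]
  have hreg : ∀ x, (∀ v, v ≠ o → ev b (Q v) x = 0) →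
      tangent (fun v x j => ev b (dd b j (Q v)) x) o x ≠ 0 := by
    intro x hx
    have h1 := hθD x (fun v hv => by rw [← hQev]; exact hx v hv)
    have h2 : (fun (v : J) (x : J → ℝ) (j : J) => ev b (dd b j (Q v)) x) =
        fun v x j => ev b (dd b j (B v)) x - θ.2 v j := by
      funext v x j
      exact hQdd v j x
    rw [h2]
    exact h1
  obtain ⟨C, hCΓ, hCV⟩ := exists_curveFlow o (fun v => ev b (Q v))
    (fun v x j => ev b (dd b j (Q v)) x) (fun v x => hasFDerivAt_ev b (Q v) x)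
    (fun v j => contDiff_ev b (dd b j (Q v))) hcomp hreg
  -- the points on the curve
  choose! pθ hpU hpF hpJ using hθ1
  refine ⟨θ, C, W.image pθ, hCΓ, hCV, ?_, ?_⟩
  · intro z hz
    obtain ⟨w, hw, rfl⟩ := Finset.mem_image.mp hz
    have h1 := hpF w hw
    refine ⟨?_, ?_, ?_⟩
    · rw [hCΓ]
      intro v hv
      have h2 := congrFun h1 v
      simp only [F, if_neg hv, Pi.zero_apply] at h2
      show ev b (Q v) (pθ w) = 0
      rw [hQev]
      exact h2
    · have h2 := congrFun h1 o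
      simpa [F] using h2
    · have h2 := hpJ w hw
      rw [hCV, lf_tangent]
      simp only [Jf] at h2
      have h3 : (Matrix.of fun (v : J) => (fun j => ev b (dd b j (Q v)) (pθ w))) =
          (Matrix.of fun v v' => ev b (dd b v' (B v)) (pθ w) - θ.2 v v') := by
        ext v v'
        exact hQdd v v' _
      have h4 : (Matrix.of fun (v : J) => (fun (v : J) (x : J → ℝ) (j : J) =>
          ev b (dd b j (Q v)) x) v (pθ w)) =
          (Matrix.of fun v v' => ev b (dd b v' (B v)) (pθ w) - θ.2 v v') := h3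
      rw [h4]
      exact h2
  · apply Finset.card_image_of_injOn
    intro p hp q hq hpq
    by_contra hne
    have hd := hdisj hp hq hne
    exact Set.disjoint_left.mp hd (hpU p hp) (by rw [hpq]; exact hpU q hq)

end Fewnomial
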