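import Mathlib
import Pool.Agent.Lib.MP_4cba3d_ag.Reduction2
import Pool.Agent.Lib.MP_4cba3d_ag.Bezout

/-!
Khovanskii's bound for the number of nondegenerate zeros of systems of exponential polynomials.
-/

namespace Fewnomial

open MvPolynomial

lemma hasStrict_sys {ι κ : Type} [Fintype ι] [DecidableEq ι] (a : κ → ι → ℝ)
    (P : ι → MvPolynomial (ι ⊕ κ) ℝ) (z : ι → ℝ) :
    HasStrictFDerivAt (fun x i => ev a (P i) x)
      (clm (Matrix.of fun i j => ev a (dd a j (P i)) z)) z := by
  rw [hasStrictFDerivAt_pi']
  intro i
  have hrow : (ContinuousLinearMap.proj i).comp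
      (clm (Matrix.of fun i j => ev a (dd a j (P i)) z)) =
      lf (fun j => ev a (dd a j (P i)) z) := by
    ext x
    rw [ContinuousLinearMap.comp_apply, ContinuousLinearMap.proj_apply, clm_apply, lf_apply]
    rfl
  rw [hrow]
  exact hasStrictFDerivAt_of_lf (hasFDerivAt_ev a (P i))
    (fun j => (contDiff_ev a (dd a j (P i)) (n := 0)).continuous) z

/-- Khovanskii's bound: `n` equations in `n` real unknowns, `k` exponentials of linear forms. -/
theorem khovanskii : ∀ (k : ℕ) (ι : Type) [Fintype ι] [DecidableEq ι] (a : Fin k → ι → ℝ)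
    (P : ι → MvPolynomial (ι ⊕ Fin k) ℝ) (m : ι → ℕ), (∀ i, 1 ≤ m i) →
    (∀ i, (P i).totalDegree ≤ m i) → ∀ Z : Finset (ι → ℝ), (∀ z ∈ Z, Nondeg a P z) →
    Z.card ≤ (∏ i, m i) * 2 ^ (k.choose 2) * (∑ i, m i + 4) ^ k := by
  intro k
  induction k with
  | zero =>
    intro ι _ _ a P m hm hP Z hZ
    set P' : ι → MvPolynomial ι ℝ := fun i =>
      rename (Sum.elim id (fun j : Fin 0 => j.elim0)) (P i) with hP'
    have hev : ∀ (f : MvPolynomial (ι ⊕ Fin 0) ℝ) (x : ι → ℝ),
        eval x (rename (Sum.elim id (fun j : Fin 0 => j.elim0)) f) = ev a f x := by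
      intro f x
      rw [eval_rename, ev]
      congr 1
      congr 1
      funext v
      rcases v with i | j
      · simp [pt]
      · exact j.elim0
    have h := bezout (P := P') hm (fun i => (totalDegree_rename_le _ _).trans (hP i)) Z
      (fun z => Matrix.of fun i j => ev a (dd a j (P i)) z) (by
        intro z hz
        obtain ⟨h1, h2⟩ := hZ z hz
        refine ⟨fun i => ?_, ?_, h2⟩
        · rw [hP']
          simp only
          rw [hev]
          exact h1 i
        · have h3 : (fun (x : ι → ℝ) (i : ι) => eval x (P' i)) = fun x i => ev a (P i) x := by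
            funext x i
            exact hev (P i) x
          rw [h3]
          exact hasStrict_sys a P z)
    simpa using h
  | succ k ih =>
    intro ι _ _ a P m hm hP Z hZ
    obtain ⟨R, θ, ε, Z', hZ', hcard⟩ := reduction a P Z hZ
    set S := ∑ i, m i with hS
    set m' : ι ⊕ Bool → ℕ := Sum.elim m (fun b => if b then S + 2 else 2) with hm'
    have h1 : ∀ v, 1 ≤ m' v := by
      rintro (i | b)
      · exact hm i
      · cases b
        · show (1 : ℕ) ≤ 2
          norm_num
        · show (1 : ℕ) ≤ S + 2
          omega
    have hbase : ∀ i, (baseQ P R (Sum.inl i)).totalDegree ≤ m i := by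
      intro i
      simp only [baseQ, Sum.elim_inl, liftP]
      exact (totalDegree_rename_le _ _).trans (hP i)
    have hsph : (baseQ P R (Sum.inr false)).totalDegree ≤ 2 := by
      simp only [baseQ, Sum.elim_inr, Bool.false_eq_true, if_false, sph]
      refine (totalDegree_sub _ _).trans (max_le ?_ ?_)
      · refine totalDegree_finsetSum_le fun v _ => ?_
        rw [totalDegree_X_pow]
      · rw [totalDegree_C]; exact Nat.zero_le _
    have h2 : ∀ v, (finQ a (pertQ (baseQ P R) θ) ε v).totalDegree ≤ m' v := by
      rintro (i | b)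
      · rw [finQ, Function.update_of_ne (by simp)]
        exact pertQ_totalDegree θ (hm i) (hbase i)
      · cases b with
        | false =>
          rw [finQ, Function.update_of_ne (by simp)]
          exact pertQ_totalDegree (m := 2) θ (by norm_num) hsph
        | true =>
          rw [finQ, Function.update_self]
          refine (totalDegree_sub _ _).trans (max_le ?_ ?_)
          · refine (Jp_totalDegree a _ m ?_ ?_).trans ?_
            · intro i j
              exact (dd_totalDegree _ _ _).trans (pertQ_totalDegree θ (hm i) (hbase i))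
            · intro j
              have h3 : baseQ P R (Sum.inr false) = sph ι k R := by simp [baseQ]
              rw [pertQ, h3, map_sub, map_sub, derivation_C, sub_zero, map_sum]
              refine (totalDegree_sub _ _).trans (max_le (dd_sph_totalDegree _ _ _) ?_)
              refine totalDegree_finsetSum_le fun v _ => ?_
              refine (dd_totalDegree _ _ _).trans ?_
              refine (totalDegree_mul _ _).trans ?_
              rw [totalDegree_C, totalDegree_X]
            · simp [hm', hS]
          · rw [totalDegree_C]; exact Nat.zero_le _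
    have h3 := ih (ι ⊕ Bool) (newA a) (finQ a (pertQ (baseQ P R) θ) ε) m' h1 h2 Z' hZ'
    have hprod : ∏ v, m' v = (∏ i, m i) * ((S + 2) * 2) := by
      rw [Fintype.prod_sum_type]
      simp [hm']
    have hsum : ∑ v, m' v + 4 = 2 * (S + 4) := by
      rw [Fintype.sum_sum_type]
      simp only [hm', Sum.elim_inl, Sum.elim_inr, Fintype.univ_bool, Finset.sum_insert,
        Finset.mem_singleton, Bool.true_eq_false, not_false_eq_true, Finset.sum_singleton,
        if_true, Bool.false_eq_true, if_false]
      omega
    rw [hprod, hsum, mul_pow] at h3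
    have h4 : (k + 1).choose 2 = k + k.choose 2 := by
      rw [Nat.choose_succ_succ' k 1, Nat.choose_one_right]
    rw [h4, pow_add, pow_succ (S + 4) k]
    have h5 : 2 * Z.card ≤ 2 * ((∏ i, m i) * (2 ^ k * 2 ^ k.choose 2) *
        ((S + 4) ^ k * (S + 4))) := by
      calc 2 * Z.card ≤ Z'.card := hcard
        _ ≤ (∏ i, m i) * ((S + 2) * 2) * 2 ^ k.choose 2 * (2 ^ k * (S + 4) ^ k) := h3
        _ = 2 * ((∏ i, m i) * (2 ^ k * 2 ^ k.choose 2) * ((S + 4) ^ k * (S + 2))) := by ring
        _ ≤ 2 * ((∏ i, m i) * (2 ^ k * 2 ^ k.choose 2) * ((S + 4) ^ k * (S + 4))) := by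
          gcongr
          norm_num
    omega

end Fewnomial
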