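import Mathlib
import Pool.Agent.Lib.MP_4cba3d_ag.Curve2

/-!
Generic perturbations have simple zeros on a compact regular curve.
-/

namespace Fewnomial

open Set Filter Metric
open scoped Topology

namespace CurveFlow

variable {E : Type*} [NormedAddCommGroup E] [NormedSpace ℝ E] (C : CurveFlow E)

/-- Small generic linear perturbations have only simple zeros on the curve. -/
theorem simple_zeros {κ : Type*} [Fintype κ] [DecidableEq κ] {f0 f0' : E → ℝ}
    {f f' : κ → E → ℝ}
    (h0 : C.FD f0 f0') (h : ∀ k, C.FD (f k) (f' k)) (c0 : ContinuousOn f0 C.Γ)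
    (c0' : ContinuousOn f0' C.Γ) (cf : ∀ k, ContinuousOn (f k) C.Γ)
    (cf' : ∀ k, ContinuousOn (f' k) C.Γ) (hne : ∀ x ∈ C.Γ, ∃ k, f k x ≠ 0) {δ : ℝ}
    (hδ : 0 < δ) :
    ∃ q : κ → ℝ, (∀ k, |q k| < δ) ∧
      ∀ x ∈ C.Γ, f0 x + ∑ k, q k * f k x = 0 → f0' x + ∑ k, q k * f' k x ≠ 0 := by
  rcases C.Γ.eq_empty_or_nonempty with hΓ | hΓ
  · exact ⟨fun _ => 0, by simpa using fun _ => hδ, by simp [hΓ]⟩
  -- a uniform lower bound
  obtain ⟨c, hc, hcov⟩ : ∃ c > 0, ∀ x ∈ C.Γ, ∃ k, c ≤ |f k x| := by
    have hcont : ContinuousOn (fun x => ∑ k, |f k x|) C.Γ :=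
      continuousOn_finset_sum _ fun k _ => (cf k).abs
    obtain ⟨x0, hx0, hmin⟩ := C.compact.exists_isMinOn hΓ hcont
    have hpos : 0 < ∑ k, |f k x0| := by
      obtain ⟨k, hk⟩ := hne x0 hx0
      exact lt_of_lt_of_le (abs_pos.mpr hk)
        (Finset.single_le_sum (f := fun k => |f k x0|) (fun k _ => abs_nonneg _)
          (Finset.mem_univ k))
    set m := ∑ k, |f k x0| with hm
    have hN : (0 : ℝ) < Fintype.card κ + 1 := by positivity
    refine ⟨m / (Fintype.card κ + 1), div_pos hpos hN, fun x hx => ?_⟩
    by_contra hcon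
    push Not at hcon
    have h1 : m ≤ ∑ k, |f k x| := hmin hx
    have h2 : ∑ k, |f k x| ≤ ∑ _k : κ, m / (Fintype.card κ + 1) :=
      Finset.sum_le_sum fun k _ => (hcon k).le
    rw [Finset.sum_const, Finset.card_univ, nsmul_eq_mul] at h2
    have h3 : (Fintype.card κ : ℝ) * (m / (Fintype.card κ + 1)) < m := by
      rw [mul_div_assoc', div_lt_iff₀ hN]
      nlinarith
    linarith
  have hFD : ∀ q : κ → ℝ, C.FD (fun x => f0 x + ∑ k, q k * f k x)
      (fun x => f0' x + ∑ k, q k * f' k x) := by
    intro q p hp
    exact (h0 p hp).add (HasDerivAt.fun_sum fun k _ => (h k p hp).const_mul (q k))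
  have hcF : ∀ q : κ → ℝ, ContinuousOn (fun x => f0 x + ∑ k, q k * f k x) C.Γ := fun q =>
    c0.add (continuousOn_finset_sum _ fun k _ => continuousOn_const.mul (cf k))
  have hcF' : ∀ q : κ → ℝ, ContinuousOn (fun x => f0' x + ∑ k, q k * f' k x) C.Γ := fun q =>
    c0'.add (continuousOn_finset_sum _ fun k _ => continuousOn_const.mul (cf' k))
  have key : ∀ s : Finset κ, ∀ δ > 0, ∃ q : κ → ℝ, (∀ k, |q k| < δ) ∧
      ∀ x ∈ C.Γ, (∃ k ∈ s, c ≤ |f k x|) →
        f0 x + ∑ k, q k * f k x = 0 → f0' x + ∑ k, q k * f' k x ≠ 0 := by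
    intro s
    induction s using Finset.induction_on with
    | empty =>
      intro δ hδ
      exact ⟨fun _ => 0, by simpa using fun _ => hδ, by simp⟩
    | insert a s ha ih =>
      intro δ hδ
      obtain ⟨q, hq, hqs⟩ := ih (δ / 2) (by linarith)
      -- margin on the compact set already treated
      set K : Set E := {x | x ∈ C.Γ ∧ ∃ k ∈ s, c ≤ |f k x|} with hK
      have hKc : IsCompact K := by
        have e : K = ⋃ k ∈ s, (C.Γ ∩ (fun x => |f k x|) ⁻¹' Ici c) := by
          ext x
          simp only [hK, mem_setOf_eq, mem_iUnion, mem_inter_iff, mem_preimage, mem_Ici,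
            exists_prop]
          constructor
          · rintro ⟨h1, k, h2, h3⟩; exact ⟨k, h2, h1, h3⟩
          · rintro ⟨k, h2, h1, h3⟩; exact ⟨h1, k, h2, h3⟩
        rw [e]
        refine s.isCompact_biUnion fun k _ => ?_
        exact C.compact.of_isClosed_subset
          ((cf k).abs.preimage_isClosed_of_isClosed C.compact.isClosed isClosed_Ici)
          inter_subset_left
      obtain ⟨m, hm, hmK⟩ : ∃ m > 0, ∀ x ∈ K, m ≤ |f0 x + ∑ k, q k * f k x| +
          |f0' x + ∑ k, q k * f' k x| := by
        rcases K.eq_empty_or_nonempty with hKe | hKe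
        · exact ⟨1, one_pos, by simp [hKe]⟩
        · have hcont : ContinuousOn (fun x => |f0 x + ∑ k, q k * f k x| +
              |f0' x + ∑ k, q k * f' k x|) K :=
            ((hcF q).abs.add (hcF' q).abs).mono (fun x hx => hx.1)
          obtain ⟨x0, hx0, hmin⟩ := hKc.exists_isMinOn hKe hcont
          refine ⟨_, ?_, fun x hx => hmin hx⟩
          by_cases hz : f0 x0 + ∑ k, q k * f k x0 = 0
          · exact add_pos_of_nonneg_of_pos (abs_nonneg _)
              (abs_pos.mpr (hqs x0 hx0.1 hx0.2 hz))
          · exact add_pos_of_pos_of_nonneg (abs_pos.mpr hz) (abs_nonneg _)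
      obtain ⟨B, hB⟩ := C.compact.exists_bound_of_continuousOn
        (f := fun x => |f a x| + |f' a x|) ((cf a).abs.add (cf' a).abs)
      set B' := |B| + 1 with hB'
      have hB'0 : 0 < B' := by positivity
      set r0 := min (δ / 2) (m / B') with hr0
      have hr0pos : 0 < r0 := lt_min (by linarith) (div_pos hm hB'0)
      -- the exceptional set
      obtain ⟨e, he, heS⟩ := C.exists_value
        (S := {x | x ∈ C.Γ ∧ f a x ≠ 0 ∧ (f0' x + ∑ k, q k * f' k x) * f a x -
          (f0 x + ∑ k, q k * f k x) * f' a x = 0}) (fun x hx => hx.1)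
        (fun x => (f0 x + ∑ k, q k * f k x) / f a x) (fun x hx => by
          obtain ⟨hxΓ, hxa, hx0⟩ := hx
          have h1 := hFD q x hxΓ
          have h2 := h a x hxΓ
          have h3 := h1.fun_div h2 (by
            show f a (C.γ x 0) ≠ 0
            rw [C.zero x hxΓ]; exact hxa)
          simp only [C.zero x hxΓ] at h3
          rw [hx0, zero_div] at h3
          exact h3) (U := Ioo (-r0) r0) isOpen_Ioo ⟨0, by linarith, hr0pos⟩
      set r := -e with hr
      have hrabs : |r| < r0 := by rw [hr, abs_neg]; exact abs_lt.mpr he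
      have hsum : ∀ g : κ → ℝ, ∑ k, (q k + Pi.single (M := fun _ => ℝ) a r k) * g k =
          ∑ k, q k * g k + r * g a := by
        intro g
        simp only [add_mul, Finset.sum_add_distrib]
        congr 1
        rw [Finset.sum_eq_single a]
        · simp
        · intro b _ hb
          simp [Pi.single_eq_of_ne hb]
        · simp
      refine ⟨fun k => q k + Pi.single (M := fun _ => ℝ) a r k, ?_, ?_⟩
      · intro k
        have h1 := hq k
        have h2 : |Pi.single (M := fun _ => ℝ) a r k| < δ / 2 := by
          by_cases hk : k = a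
          · subst hk
            rw [Pi.single_eq_same]
            exact hrabs.trans_le (min_le_left _ _)
          · rw [Pi.single_eq_of_ne hk, abs_zero]
            linarith
        calc |q k + Pi.single (M := fun _ => ℝ) a r k|
            ≤ |q k| + |Pi.single (M := fun _ => ℝ) a r k| := abs_add_le _ _
          _ < δ := by linarith
      · intro x hx hk
        rw [hsum (fun k => f k x), hsum (fun k => f' k x)]
        intro hz
        obtain ⟨k, hks, hkc⟩ := hk
        rcases Finset.mem_insert.mp hks with rfl | hks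
        · -- the new index
          have hka : f k x ≠ 0 := by
            intro h0
            rw [h0, abs_zero] at hkc
            linarith
          intro hz'
          refine heS x ⟨hx, hka, ?_⟩ ?_
          · have e1 : f0 x + ∑ j, q j * f j x = -(r * f k x) := by linarith
            have e2 : f0' x + ∑ j, q j * f' j x = -(r * f' k x) := by linarith
            rw [e1, e2]; ring
          · have e1 : f0 x + ∑ j, q j * f j x = e * f k x := by
              have : e = -r := by rw [hr]; ring
              rw [this]; linarith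
            show (f0 x + ∑ j, q j * f j x) / f k x = e
            rw [e1, mul_div_cancel_right₀ _ hka]
        · -- the old indices
          intro hz'
          have hxK : x ∈ K := ⟨hx, k, hks, hkc⟩
          have h1 := hmK x hxK
          have h2 := hB x hx
          rw [Real.norm_eq_abs, abs_of_nonneg (by positivity)] at h2
          have h3 : |f a x| + |f' a x| < B' := by
            have := le_abs_self B
            rw [hB']; linarith
          have e1 : f0 x + ∑ j, q j * f j x = -(r * f a x) := by linarith
          have e2 : f0' x + ∑ j, q j * f' j x = -(r * f' a x) := by linarith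
          rw [e1, e2, abs_neg, abs_neg, abs_mul, abs_mul, ← mul_add] at h1
          have h4 : |r| < m / B' := hrabs.trans_le (min_le_right _ _)
          rw [lt_div_iff₀ hB'0] at h4
          have h5 : |r| * (|f a x| + |f' a x|) ≤ |r| * B' :=
            mul_le_mul_of_nonneg_left h3.le (abs_nonneg _)
          linarith
  obtain ⟨q, hq, hqs⟩ := key Finset.univ δ hδ
  refine ⟨q, hq, fun x hx => ?_⟩
  obtain ⟨k, hk⟩ := hcov x hx
  exact hqs x hx ⟨k, Finset.mem_univ k, hk⟩

end CurveFlow

end Fewnomial
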