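import Mathlib
import Pool.Agent.Lib.MP_4cba3d_ag.Wronsk
import Pool.Agent.Lib.MP_4cba3d_ag.ExpPoly
import Pool.Agent.Lib.MP_4cba3d_ag.Generic

/-!
Functions of the form exponential times exponential polynomial, their jets along the flow, and
generic perturbations with simple Wronskian zeros.
-/

namespace Fewnomial

open MvPolynomial Filter Set
open scoped Topology

variable {ι κ : Type} [Fintype ι] [DecidableEq ι]

/-- A single exponential. -/
noncomputable def mu (β : ι → ℝ) (x : ι → ℝ) : ℝ := Real.exp (∑ i, β i * x i)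

omit [DecidableEq ι] in
lemma mu_pos (β : ι → ℝ) (x : ι → ℝ) : 0 < mu β x := Real.exp_pos _

omit [DecidableEq ι] in
lemma mu_continuous (β : ι → ℝ) : Continuous (mu β) := by
  unfold mu
  fun_prop

omit [DecidableEq ι] in
lemma mu_hasFDerivAt (β : ι → ℝ) (x : ι → ℝ) : HasFDerivAt (mu β) (mu β x • lf β) x := by
  have h4 : (fun y : ι → ℝ => ∑ i, β i * y i) = lf β := by
    funext y; rw [lf_apply]
  have h3 : HasFDerivAt (fun y : ι → ℝ => ∑ i, β i * y i) (lf β) x := by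
    rw [h4]; exact (lf β).hasFDerivAt
  exact h3.exp

/-- The derivative along the field `𝒱` of `mu β * q`, divided by `mu β`. -/
noncomputable def Top (a : κ → ι → ℝ) (𝒱 : ι → MvPolynomial (ι ⊕ κ) ℝ) (β : ι → ℝ) :
    Module.End ℝ (MvPolynomial (ι ⊕ κ) ℝ) :=
  ∑ v, (LinearMap.mulLeft ℝ (𝒱 v)).comp (dd a v).toLinearMap +
    LinearMap.mulLeft ℝ (∑ v, C (β v) * 𝒱 v)

lemma Top_apply (a : κ → ι → ℝ) (𝒱 : ι → MvPolynomial (ι ⊕ κ) ℝ) (β : ι → ℝ)
    (q : MvPolynomial (ι ⊕ κ) ℝ) :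
    Top a 𝒱 β q = ∑ v, 𝒱 v * dd a v q + (∑ v, C (β v) * 𝒱 v) * q := by
  simp [Top, LinearMap.sum_apply]

lemma Top_totalDegree (a : κ → ι → ℝ) {𝒱 : ι → MvPolynomial (ι ⊕ κ) ℝ} (β : ι → ℝ) {D : ℕ}
    (h𝒱 : ∀ v, (𝒱 v).totalDegree ≤ D) (q : MvPolynomial (ι ⊕ κ) ℝ) (i : ℕ) :
    ((Top a 𝒱 β ^ i) q).totalDegree ≤ q.totalDegree + D * i := by
  induction i with
  | zero => simp
  | succ i ih =>
    rw [pow_succ', Module.End.mul_apply, Top_apply]
    refine (totalDegree_add _ _).trans (max_le ?_ ?_)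
    · refine totalDegree_finsetSum_le fun v _ => ?_
      refine (totalDegree_mul _ _).trans ?_
      have h1 := dd_totalDegree a v ((Top a 𝒱 β ^ i) q)
      have h2 := h𝒱 v
      have h3 : D * (i + 1) = D * i + D := by ring
      omega
    · refine (totalDegree_mul _ _).trans ?_
      have h1 : (∑ v, C (β v) * 𝒱 v).totalDegree ≤ D := by
        refine totalDegree_finsetSum_le fun v _ => ?_
        refine (totalDegree_mul _ _).trans ?_
        rw [totalDegree_C, zero_add]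
        exact h𝒱 v
      have h3 : D * (i + 1) = D * i + D := by ring
      omega

/-- The jets of `mu β * q`. -/
noncomputable def jet (a : κ → ι → ℝ) (𝒱 : ι → MvPolynomial (ι ⊕ κ) ℝ) (β : ι → ℝ)
    (q : MvPolynomial (ι ⊕ κ) ℝ) (i : ℕ) (x : ι → ℝ) : ℝ :=
  mu β x * ev a ((Top a 𝒱 β ^ i) q) x

lemma jet_zero (a : κ → ι → ℝ) (𝒱 : ι → MvPolynomial (ι ⊕ κ) ℝ) (β : ι → ℝ)
    (q : MvPolynomial (ι ⊕ κ) ℝ) (x : ι → ℝ) : jet a 𝒱 β q 0 x = mu β x * ev a q x := by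
  simp [jet]

lemma jet_continuous (a : κ → ι → ℝ) (𝒱 : ι → MvPolynomial (ι ⊕ κ) ℝ) (β : ι → ℝ)
    (q : MvPolynomial (ι ⊕ κ) ℝ) (i : ℕ) : Continuous (jet a 𝒱 β q i) :=
  (mu_continuous β).mul (contDiff_ev a _ (n := 0)).continuous

lemma jet_FD (C₀ : CurveFlow (ι → ℝ)) (a : κ → ι → ℝ) (𝒱 : ι → MvPolynomial (ι ⊕ κ) ℝ)
    (hV : ∀ x v, C₀.V x v = ev a (𝒱 v) x) (β : ι → ℝ) (q : MvPolynomial (ι ⊕ κ) ℝ) (i : ℕ) :
    C₀.FD (jet a 𝒱 β q i) (jet a 𝒱 β q (i + 1)) := by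
  intro p hp
  set r := (Top a 𝒱 β ^ i) q with hr
  have h1 : HasFDerivAt (jet a 𝒱 β q i)
      (mu β (C₀.γ p 0) • lf (fun v => ev a (dd a v r) (C₀.γ p 0)) +
        ev a r (C₀.γ p 0) • (mu β (C₀.γ p 0) • lf β)) (C₀.γ p 0) :=
    (mu_hasFDerivAt β _).mul (hasFDerivAt_ev a r _)
  have h2 := h1.comp_hasDerivAt (0 : ℝ) (C₀.deriv p hp 0)
  rw [C₀.zero p hp] at h2
  have h3 : jet a 𝒱 β q (i + 1) p = (mu β p • lf (fun v => ev a (dd a v r) p) +
      ev a r p • (mu β p • lf β)) (C₀.V p) := by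
    rw [jet, pow_succ', Module.End.mul_apply, ← hr, Top_apply]
    simp only [add_apply, smul_apply, smul_eq_mul, lf_apply, ev_add, ev_sum, ev_mul, ev_C, hV]
    have e1 : ∑ v, ev a (𝒱 v) p * ev a (dd a v r) p = ∑ v, ev a (dd a v r) p * ev a (𝒱 v) p :=
      Finset.sum_congr rfl fun v _ => mul_comm _ _
    rw [e1]
    ring
  rw [h3]
  exact h2

/-- Determinants with prescribed orders of the rows. -/
noncomputable def DetR {E : Type*} (f : ℕ → ℕ → E → ℝ) (n : ℕ) (r : Fin (n + 1) → ℕ) (x : E) : ℝ :=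
  (Matrix.of fun i l : Fin (n + 1) => f l (r i) x).det

lemma Wr_eq_DetR {E : Type*} (f : ℕ → ℕ → E → ℝ) (n : ℕ) (x : E) :
    Wr f (n + 1) x = DetR f n (fun i => i) x := rfl

lemma Wr'_eq_DetR {E : Type*} (f : ℕ → ℕ → E → ℝ) (n : ℕ) (x : E) :
    Wr' f (n + 1) x = DetR f n (fun i => if (i : ℕ) + 1 = n + 1 then n + 1 else i) x := rfl

lemma DetR_update {E : Type*} (f : ℕ → ℕ → E → ℝ) (n : ℕ) (r : Fin (n + 1) → ℕ) (g : ℕ → E → ℝ)
    (x : E) : DetR (Function.update f n g) n r x =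
      Matrix.cramer (Matrix.of fun i l : Fin (n + 1) => f l (r i) x)
        (fun i => g (r i) x) (Fin.last n) := by
  rw [Matrix.cramer_apply, DetR]
  congr 1
  ext i l
  by_cases hl : l = Fin.last n
  · subst hl
    rw [Matrix.updateCol_self, Matrix.of_apply]
    simp
  · have hl' : (l : ℕ) ≠ n := fun h3 => hl (Fin.ext (by simpa using h3))
    rw [Matrix.updateCol_ne hl, Matrix.of_apply, Function.update_of_ne hl']
    rfl

/-- Linearity in the last column. -/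
lemma DetR_linear {E : Type*} (f : ℕ → ℕ → E → ℝ) (n : ℕ) (r : Fin (n + 1) → ℕ) {K : Type*}
    (s : Finset K) (c : K → ℝ) (g : K → ℕ → E → ℝ) (g' : ℕ → E → ℝ) (x : E)
    (hg : ∀ i, g' i x = ∑ k ∈ s, c k * g k i x) :
    DetR (Function.update f n g') n r x =
      ∑ k ∈ s, c k * DetR (Function.update f n (g k)) n r x := by
  simp only [DetR_update]
  have h1 : (fun i => g' (r i) x) = ∑ k ∈ s, c k • (fun i => g k (r i) x) := by
    funext i
    rw [Finset.sum_apply, hg]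
    rfl
  rw [h1, map_sum, Finset.sum_apply]
  refine Finset.sum_congr rfl fun k _ => ?_
  rw [map_smul, Pi.smul_apply, smul_eq_mul]

lemma DetR_continuous {E : Type*} [TopologicalSpace E] (f : ℕ → ℕ → E → ℝ)
    (hf : ∀ l i, Continuous (f l i)) (n : ℕ) (r : Fin (n + 1) → ℕ) : Continuous (DetR f n r) := by
  apply Continuous.matrix_det
  exact continuous_matrix fun i l => hf _ _

/-- The order of vanishing along the flow. -/
lemma Top_pow_apply (a : κ → ι → ℝ) (𝒱 : ι → MvPolynomial (ι ⊕ κ) ℝ) (β : ι → ℝ) (v : ι) (c : ℝ)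
    (r : ℕ) : ∀ i ≤ r, ∃ s : MvPolynomial (ι ⊕ κ) ℝ,
      (Top a 𝒱 β ^ i) ((X (Sum.inl v) - C c) ^ r) =
        C ((r.descFactorial i : ℕ) : ℝ) * 𝒱 v ^ i * (X (Sum.inl v) - C c) ^ (r - i) +
        (X (Sum.inl v) - C c) ^ (r - i + 1) * s := by
  set y : MvPolynomial (ι ⊕ κ) ℝ := X (Sum.inl v) - C c with hy
  have hdy : ∀ j, dd a j y = if v = j then 1 else 0 := by
    intro j
    rw [hy, map_sub, derivation_C, sub_zero, dd_inl]
  have hmul : ∀ (m : ℕ) (s : MvPolynomial (ι ⊕ κ) ℝ), Top a 𝒱 β (y ^ (m + 1) * s) =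
      y ^ (m + 1) * Top a 𝒱 β s + C ((m + 1 : ℕ) : ℝ) * y ^ m * 𝒱 v * s := by
    intro m s
    rw [Top_apply, Top_apply]
    have h1 : ∀ j, 𝒱 j * dd a j (y ^ (m + 1) * s) = y ^ (m + 1) * (𝒱 j * dd a j s) +
        if v = j then C ((m + 1 : ℕ) : ℝ) * y ^ m * 𝒱 j * s else 0 := by
      intro j
      rw [Derivation.leibniz, Derivation.leibniz_pow, hdy]
      simp only [smul_eq_mul, nsmul_eq_mul, Nat.add_sub_cancel]
      split_ifs with h
      · rw [map_natCast]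
        ring
      · ring
    rw [Finset.sum_congr rfl fun j _ => h1 j, Finset.sum_add_distrib, Finset.sum_ite_eq,
      ← Finset.mul_sum]
    simp only [Finset.mem_univ, if_true]
    ring
  intro i
  induction i with
  | zero =>
    intro _
    exact ⟨0, by simp⟩
  | succ i ih =>
    intro hi
    obtain ⟨s, hs⟩ := ih (by omega)
    obtain ⟨m, hm⟩ : ∃ m, r - i = m + 1 := ⟨r - i - 1, by omega⟩
    have hm' : r - (i + 1) = m := by omega
    rw [pow_succ', Module.End.mul_apply, hs, hm, hm', Nat.descFactorial_succ, hm, map_add]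
    have e1 : C ((r.descFactorial i : ℕ) : ℝ) * 𝒱 v ^ i * y ^ (m + 1) =
        y ^ (m + 1) * (C ((r.descFactorial i : ℕ) : ℝ) * 𝒱 v ^ i) := by ring
    rw [e1, hmul m, hmul (m + 1)]
    refine ⟨Top a 𝒱 β (C ((r.descFactorial i : ℕ) : ℝ) * 𝒱 v ^ i) + y * Top a 𝒱 β s +
      C ((m + 1 + 1 : ℕ) : ℝ) * 𝒱 v * s, ?_⟩
    push_cast
    simp only [map_mul, map_add, map_natCast, map_one]
    ring

end Fewnomial
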