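import Mathlib
import Pool.Agent.Lib.MP_4cba3d_ag.Oper

/-!
Generic polynomial perturbations make all Wronskian zeros simple.
-/

namespace Fewnomial

open MvPolynomial Filter Set
open scoped Topology

section expand

variable {E : Type*}

/-- Expansion along the last column when all but the last entry vanish. -/
lemma Wr_update_of_vanish (f : ℕ → ℕ → E → ℝ) (n : ℕ) (g : ℕ → E → ℝ) (p : E)
    (h : ∀ i < n, g i p = 0) :
    Wr (Function.update f n g) (n + 1) p = g n p * Wr f n p := by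
  rw [Wr, Matrix.det_succ_column _ (Fin.last n), Finset.sum_eq_single (Fin.last n)]
  · have h1 : ((-1 : ℝ)) ^ (((Fin.last n : Fin (n + 1)) : ℕ) + ((Fin.last n : Fin (n + 1)) : ℕ)) = 1 := by
      rw [← two_mul, pow_mul]; simp
    rw [h1, one_mul, Matrix.of_apply, Fin.val_last, Function.update_self, Wr]
    congr 1
    congr 1
    ext i l
    simp only [Matrix.submatrix_apply, Matrix.of_apply, Fin.succAbove_last, Fin.val_castSucc]
    rw [Function.update_of_ne (ne_of_lt l.2)]
  · intro i _ hi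
    have hlt : (i : ℕ) < n := Fin.val_lt_last hi
    rw [Matrix.of_apply, Fin.val_last, Function.update_self, h _ hlt]
    ring
  · simp

lemma Wr_update_of_vanish' (f : ℕ → ℕ → E → ℝ) (m : ℕ) (g : ℕ → E → ℝ) (p : E)
    (h : ∀ i < m, g i p = 0) (hW : Wr f (m + 1) p = 0) :
    Wr (Function.update f (m + 1) g) (m + 2) p = -(g m p * Wr' f (m + 1) p) := by
  rw [Wr, Matrix.det_succ_column _ (Fin.last (m + 1)), Fin.sum_univ_castSucc]
  have hlast : ((Matrix.of fun i l : Fin (m + 2) => Function.update f (m + 1) g l i p).submatrix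
      (Fin.last (m + 1)).succAbove (Fin.last (m + 1)).succAbove).det = 0 := by
    rw [← hW, Wr]
    congr 1
    ext i l
    simp only [Matrix.submatrix_apply, Matrix.of_apply, Fin.succAbove_last, Fin.val_castSucc]
    rw [Function.update_of_ne (ne_of_lt l.2)]
  rw [hlast, mul_zero, add_zero, Finset.sum_eq_single (Fin.last m)]
  · have h1 : ((-1 : ℝ)) ^ ((((Fin.last m).castSucc : Fin (m + 2)) : ℕ) +
        ((Fin.last (m + 1) : Fin (m + 2)) : ℕ)) = -1 := by
      rw [Fin.val_castSucc, Fin.val_last, Fin.val_last, ← add_assoc, ← two_mul, pow_succ, pow_mul]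
      simp
    rw [h1, Matrix.of_apply, Fin.val_last, Function.update_self, Fin.val_castSucc, Fin.val_last, Wr']
    have h2 : ((Matrix.of fun i l : Fin (m + 2) => Function.update f (m + 1) g l i p).submatrix
        ((Fin.last m).castSucc).succAbove (Fin.last (m + 1)).succAbove) =
        Matrix.of fun i l : Fin (m + 1) => f l (if (i : ℕ) + 1 = m + 1 then m + 1 else i) p := by
      ext i l
      simp only [Matrix.submatrix_apply, Matrix.of_apply, Fin.succAbove_last, Fin.val_castSucc]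
      rw [Function.update_of_ne (ne_of_lt l.2)]
      congr 1
      by_cases hi : i = Fin.last m
      · subst hi
        rw [Fin.succAbove_castSucc_self]
        simp
      · have hlt : i < Fin.last m := Fin.lt_last_iff_ne_last.mpr hi
        rw [Fin.succAbove_of_castSucc_lt _ _ (Fin.castSucc_lt_castSucc_iff.mpr hlt)]
        have hne : (i : ℕ) + 1 ≠ m + 1 := by
          have : (i : ℕ) < m := hlt
          omega
        rw [if_neg hne, Fin.val_castSucc]
    rw [h2]
    ring
  · intro i _ hi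
    have hlt : (i : ℕ) < m := Fin.val_lt_last hi
    rw [Matrix.of_apply, Fin.val_last, Function.update_self, Fin.val_castSucc, h _ hlt]
    ring
  · simp

end expand

variable {ι κ : Type} [Fintype ι] [DecidableEq ι]

lemma jet_linear (a : κ → ι → ℝ) (𝒱 : ι → MvPolynomial (ι ⊕ κ) ℝ) (β : ι → ℝ) {K : Type*}
    (s : Finset K) (c : K → ℝ) (q : K → MvPolynomial (ι ⊕ κ) ℝ) (i : ℕ) (x : ι → ℝ) :
    jet a 𝒱 β (∑ k ∈ s, C (c k) * q k) i x = ∑ k ∈ s, c k * jet a 𝒱 β (q k) i x := by
  have h1 : ∀ k, C (c k) * q k = c k • q k := fun k => (smul_eq_C_mul _ _).symm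
  simp only [h1, jet, map_sum, map_smul, ev_sum, Finset.mul_sum]
  refine Finset.sum_congr rfl fun k _ => ?_
  rw [smul_eq_C_mul, ev_mul, ev_C]
  ring

/-- The jets of the powers of a coordinate at its zero. -/
lemma jet_pow_vanish (a : κ → ι → ℝ) (𝒱 : ι → MvPolynomial (ι ⊕ κ) ℝ) (β : ι → ℝ) (v : ι)
    (p : ι → ℝ) (r : ℕ) :
    (∀ i < r, jet a 𝒱 β ((X (Sum.inl v) - C (p v)) ^ r) i p = 0) ∧
    jet a 𝒱 β ((X (Sum.inl v) - C (p v)) ^ r) r p =
      mu β p * ((r.factorial : ℝ) * ev a (𝒱 v) p ^ r) := by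
  have hy : ev a (X (Sum.inl v) - C (p v)) p = 0 := by simp
  have hpow : ∀ (f : MvPolynomial (ι ⊕ κ) ℝ) (m : ℕ), ev a (f ^ m) p = ev a f p ^ m := by
    intro f m
    simp [ev]
  constructor
  · intro i hi
    obtain ⟨s, hs⟩ := Top_pow_apply a 𝒱 β v (p v) r i hi.le
    have e1 : (0 : ℝ) ^ (r - i) = 0 := zero_pow (by omega)
    have e2 : (0 : ℝ) ^ (r - i + 1) = 0 := zero_pow (by omega)
    rw [jet, hs]
    simp only [ev_add, ev_mul, hpow, hy, e1, e2]
    ring
  · obtain ⟨s, hs⟩ := Top_pow_apply a 𝒱 β v (p v) r r le_rfl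
    have h1 : ev a (1 : MvPolynomial (ι ⊕ κ) ℝ) p = 1 := by simp [ev]
    rw [jet, hs, Nat.descFactorial_self, Nat.sub_self]
    simp only [ev_add, ev_mul, hpow, hy, ev_C, pow_zero, zero_add, pow_one, h1]
    ring

/-- Some power of a coordinate is useful at every point. -/
lemma exists_power (a : κ → ι → ℝ) (𝒱 : ι → MvPolynomial (ι ⊕ κ) ℝ) (β : ι → ℝ)
    (f : ℕ → ℕ → (ι → ℝ) → ℝ) (n : ℕ) (p : ι → ℝ) (hv : ∃ v, ev a (𝒱 v) p ≠ 0)
    (hW : Wr f n p = 0 → Wr' f n p ≠ 0) :
    ∃ k : ι × Fin (n + 1), Wr (Function.update f n (jet a 𝒱 β (X (Sum.inl k.1) ^ (k.2 : ℕ))))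
      (n + 1) p ≠ 0 := by
  obtain ⟨v, hv⟩ := hv
  -- a power of `X_v - p_v`
  obtain ⟨r, hr, hne⟩ : ∃ r ≤ n, Wr (Function.update f n (jet a 𝒱 β
      ((X (Sum.inl v) - C (p v)) ^ r))) (n + 1) p ≠ 0 := by
    by_cases h0 : Wr f n p = 0
    · obtain ⟨m, rfl⟩ : ∃ m, n = m + 1 := by
        cases n with
        | zero => rw [Wr_zero] at h0; exact absurd h0 one_ne_zero
        | succ m => exact ⟨m, rfl⟩
      obtain ⟨h1, h2⟩ := jet_pow_vanish a 𝒱 β v p m
      refine ⟨m, Nat.le_succ m, ?_⟩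
      rw [Wr_update_of_vanish' f m _ p h1 h0, h2]
      refine neg_ne_zero.mpr (mul_ne_zero (mul_ne_zero (mu_pos β p).ne'
        (mul_ne_zero ?_ (pow_ne_zero _ hv))) (hW h0))
      exact_mod_cast Nat.factorial_ne_zero m
    · obtain ⟨h1, h2⟩ := jet_pow_vanish a 𝒱 β v p n
      refine ⟨n, le_rfl, ?_⟩
      rw [Wr_update_of_vanish f n _ p h1, h2]
      refine mul_ne_zero (mul_ne_zero (mu_pos β p).ne'
        (mul_ne_zero ?_ (pow_ne_zero _ hv))) h0
      exact_mod_cast Nat.factorial_ne_zero n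
  by_contra hcon
  push Not at hcon
  apply hne
  have hexp : ((X (Sum.inl v) - C (p v)) ^ r : MvPolynomial (ι ⊕ κ) ℝ) =
      ∑ j ∈ Finset.range (r + 1), C ((-(p v)) ^ (r - j) * (r.choose j : ℝ)) *
        X (Sum.inl v) ^ j := by
    rw [sub_eq_add_neg, add_pow]
    refine Finset.sum_congr rfl fun j _ => ?_
    rw [map_mul, map_pow, map_neg, map_natCast]
    ring
  rw [Wr_eq_DetR, DetR_linear f n (fun i => i) (Finset.range (r + 1))
    (fun j => (-(p v)) ^ (r - j) * (r.choose j : ℝ)) (fun j => jet a 𝒱 β (X (Sum.inl v) ^ j))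
    (jet a 𝒱 β ((X (Sum.inl v) - C (p v)) ^ r)) p (by
      intro i
      rw [hexp, jet_linear])]
  refine Finset.sum_eq_zero fun j hj => ?_
  have h3 := hcon (v, ⟨j, by have := Finset.mem_range.mp hj; omega⟩)
  rw [Wr_eq_DetR] at h3
  rw [h3, mul_zero]

/-- The generic step. -/
lemma generic_step (C₀ : CurveFlow (ι → ℝ)) (a : κ → ι → ℝ) (𝒱 : ι → MvPolynomial (ι ⊕ κ) ℝ)
    (hV : ∀ x v, C₀.V x v = ev a (𝒱 v) x) (β : ι → ℝ)
    (f : ℕ → ℕ → (ι → ℝ) → ℝ) (hf : ∀ l i, C₀.FD (f l i) (f l (i + 1)))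
    (hfc : ∀ l i, Continuous (f l i)) (n : ℕ)
    (hW : ∀ x ∈ C₀.Γ, Wr f n x = 0 → Wr' f n x ≠ 0) {δ : ℝ} (hδ : 0 < δ) :
    ∃ c : ι × Fin (n + 1) → ℝ, (∀ k, |c k| < δ) ∧ ∀ x ∈ C₀.Γ,
      Wr (Function.update f n (jet a 𝒱 β (1 + ∑ k, C (c k) * X (Sum.inl k.1) ^ (k.2 : ℕ))))
        (n + 1) x = 0 →
      Wr' (Function.update f n (jet a 𝒱 β (1 + ∑ k, C (c k) * X (Sum.inl k.1) ^ (k.2 : ℕ))))
        (n + 1) x ≠ 0 := by
  have hFD : ∀ q, C₀.FD (Wr (Function.update f n (jet a 𝒱 β q)) (n + 1))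
      (Wr' (Function.update f n (jet a 𝒱 β q)) (n + 1)) := by
    intro q
    apply Wr_FD
    intro l i
    by_cases hl : l = n
    · subst hl
      simp only [Function.update_self]
      exact jet_FD C₀ a 𝒱 hV β q i
    · simp only [Function.update_of_ne hl]
      exact hf l i
  have hco : ∀ q, ∀ l i, Continuous (Function.update f n (jet a 𝒱 β q) l i) := by
    intro q l i
    by_cases hl : l = n
    · subst hl
      simp only [Function.update_self]
      exact jet_continuous a 𝒱 β q i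
    · simp only [Function.update_of_ne hl]
      exact hfc l i
  have hcW : ∀ q, Continuous (Wr (Function.update f n (jet a 𝒱 β q)) (n + 1)) := fun q =>
    DetR_continuous _ (hco q) n _
  have hcW' : ∀ q, Continuous (Wr' (Function.update f n (jet a 𝒱 β q)) (n + 1)) := fun q =>
    DetR_continuous _ (hco q) n _
  obtain ⟨c, hc, hs⟩ := C₀.simple_zeros (κ := ι × Fin (n + 1)) (hFD 1)
    (fun k => hFD (X (Sum.inl k.1) ^ (k.2 : ℕ))) (hcW 1).continuousOn (hcW' 1).continuousOn
    (fun k => (hcW _).continuousOn) (fun k => (hcW' _).continuousOn) (by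
      intro x hx
      apply exists_power a 𝒱 β f n x _ (hW x hx)
      by_contra hcon
      push Not at hcon
      apply C₀.ne x hx
      funext v
      rw [hV, hcon v]
      rfl) hδ
  refine ⟨c, hc, fun x hx => ?_⟩
  have hlin : ∀ (r : Fin (n + 1) → ℕ), DetR (Function.update f n (jet a 𝒱 β
      (1 + ∑ k : ι × Fin (n + 1), C (c k) * X (Sum.inl k.1) ^ (k.2 : ℕ)))) n r x =
      DetR (Function.update f n (jet a 𝒱 β 1)) n r x +
      ∑ k : ι × Fin (n + 1), c k * DetR (Function.update f n (jet a 𝒱 β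
        (X (Sum.inl k.1) ^ (k.2 : ℕ)))) n r x := by
    intro r
    have h1 : (1 + ∑ k : ι × Fin (n + 1), C (c k) * X (Sum.inl k.1) ^ (k.2 : ℕ) :
        MvPolynomial (ι ⊕ κ) ℝ) =
        ∑ o : Option (ι × Fin (n + 1)), C (o.elim 1 c) *
          (o.elim 1 (fun k => X (Sum.inl k.1) ^ (k.2 : ℕ))) := by
      rw [Fintype.sum_option]
      simp
    rw [DetR_linear f n r (Finset.univ : Finset (Option (ι × Fin (n + 1)))) (fun o => o.elim 1 c)
      (fun o => jet a 𝒱 β (o.elim 1 (fun k => X (Sum.inl k.1) ^ (k.2 : ℕ)))) _ x (by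
        intro i
        rw [h1, jet_linear]), Fintype.sum_option]
    simp
  have := hs x hx
  rw [Wr_eq_DetR, Wr'_eq_DetR, hlin, hlin]
  simpa only [Wr_eq_DetR, Wr'_eq_DetR] using this

/-- All Wronskian zeros can be made simple. -/
theorem exists_generic (C₀ : CurveFlow (ι → ℝ)) (a : κ → ι → ℝ)
    (𝒱 : ι → MvPolynomial (ι ⊕ κ) ℝ) (hV : ∀ x v, C₀.V x v = ev a (𝒱 v) x)
    (β : ℕ → ι → ℝ) (t : ℕ) {δ : ℝ} (hδ : 0 < δ) :
    ∃ q : ℕ → MvPolynomial (ι ⊕ κ) ℝ, (∀ l, (q l).totalDegree ≤ l) ∧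
      (∀ l, ∀ x ∈ C₀.Γ, |ev a (q l) x - 1| < δ) ∧
      ∀ n ≤ t, ∀ x ∈ C₀.Γ, Wr (fun l => jet a 𝒱 (β l) (q l)) n x = 0 →
        Wr' (fun l => jet a 𝒱 (β l) (q l)) n x ≠ 0 := by
  induction t with
  | zero =>
    refine ⟨fun _ => 1, fun l => by simp, fun l x _ => by simpa [ev] using hδ, ?_⟩
    intro n hn x _ h0
    obtain rfl : n = 0 := by omega
    rw [Wr_zero] at h0
    exact absurd h0 one_ne_zero
  | succ t ih =>
    obtain ⟨q, hq1, hq2, hq3⟩ := ih
    set f : ℕ → ℕ → (ι → ℝ) → ℝ := fun l => jet a 𝒱 (β l) (q l) with hf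
    -- a bound for the monomials
    obtain ⟨B, hB⟩ := C₀.compact.exists_bound_of_continuousOn
      (f := fun x => ∑ k : ι × Fin (t + 1), |x k.1 ^ (k.2 : ℕ)|) (by fun_prop)
    set B' := |B| + 1 with hB'
    have hB'0 : 0 < B' := by positivity
    obtain ⟨c, hc, hs⟩ := generic_step C₀ a 𝒱 hV (β t) f
      (fun l i => jet_FD C₀ a 𝒱 hV (β l) (q l) i) (fun l i => jet_continuous a 𝒱 (β l) (q l) i)
      t (hq3 t le_rfl) (δ := δ / B') (div_pos hδ hB'0)
    set g : MvPolynomial (ι ⊕ κ) ℝ := 1 + ∑ k : ι × Fin (t + 1),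
      C (c k) * X (Sum.inl k.1) ^ (k.2 : ℕ) with hg
    have hupd : (fun l => jet a 𝒱 (β l) (Function.update q t g l)) =
        Function.update f t (jet a 𝒱 (β t) g) := by
      funext l
      by_cases hl : l = t
      · subst hl
        simp
      · rw [Function.update_of_ne hl, Function.update_of_ne hl]
    refine ⟨Function.update q t g, ?_, ?_, ?_⟩
    · intro l
      by_cases hl : l = t
      · subst hl
        rw [Function.update_self, hg]
        refine (totalDegree_add _ _).trans (max_le (by simp) ?_)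
        refine totalDegree_finsetSum_le fun k _ => ?_
        refine (totalDegree_mul _ _).trans ?_
        rw [totalDegree_C, totalDegree_X_pow]
        have := k.2.2
        omega
      · rw [Function.update_of_ne hl]
        exact hq1 l
    · intro l x hx
      by_cases hl : l = t
      · subst hl
        rw [Function.update_self, hg, ev_add, ev_sum]
        have h1 : ev a (1 : MvPolynomial (ι ⊕ κ) ℝ) x = 1 := by simp [ev]
        have h2 : ∀ k : ι × Fin (l + 1), ev a (C (c k) * X (Sum.inl k.1) ^ (k.2 : ℕ)) x =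
            c k * x k.1 ^ (k.2 : ℕ) := by
          intro k
          simp [ev, pt]
        rw [h1, add_sub_cancel_left]
        simp only [h2]
        have h3 := hB x hx
        rw [Real.norm_eq_abs, abs_of_nonneg (Finset.sum_nonneg fun k _ => abs_nonneg _)] at h3
        calc |∑ k : ι × Fin (l + 1), c k * x k.1 ^ (k.2 : ℕ)|
            ≤ ∑ k : ι × Fin (l + 1), |c k * x k.1 ^ (k.2 : ℕ)| := Finset.abs_sum_le_sum_abs _ _
          _ ≤ ∑ k : ι × Fin (l + 1), δ / B' * |x k.1 ^ (k.2 : ℕ)| := by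
              refine Finset.sum_le_sum fun k _ => ?_
              rw [abs_mul]
              exact mul_le_mul_of_nonneg_right (hc k).le (abs_nonneg _)
          _ = δ / B' * ∑ k : ι × Fin (l + 1), |x k.1 ^ (k.2 : ℕ)| := by rw [Finset.mul_sum]
          _ ≤ δ / B' * B := mul_le_mul_of_nonneg_left h3 (div_pos hδ hB'0).le
          _ < δ / B' * B' := by
              apply mul_lt_mul_of_pos_left _ (div_pos hδ hB'0)
              have := le_abs_self B
              rw [hB']; linarith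
          _ = δ := div_mul_cancel₀ _ hB'0.ne'
      · rw [Function.update_of_ne hl]
        exact hq2 l x hx
    · intro n hn x hx
      rw [hupd]
      rcases Nat.lt_or_ge t n with h | h
      · obtain rfl : n = t + 1 := by omega
        exact hs x hx
      · have e1 : ∀ l < n, Function.update f t (jet a 𝒱 (β t) g) l = f l := fun l hl =>
          Function.update_of_ne (by omega) _ _
        rw [Wr_congr e1, Wr'_congr e1]
        exact hq3 n h x hx

end Fewnomial
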