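import Mathlib
import Pool.Agent.Lib.MP_4cba3d_ag.Perturb
import Pool.Agent.Lib.MP_4cba3d_ag.Khov

/-!
Counting the zeros of the Wronskians on the curve.
-/

namespace Fewnomial

open MvPolynomial Filter Set
open scoped Topology

section general

variable {ι κ : Type} [Fintype ι] [DecidableEq ι]

/-- The polynomial tangent field. -/
noncomputable def fieldP (a : κ → ι → ℝ) (Q : ι → MvPolynomial (ι ⊕ κ) ℝ) (o : ι) :
    ι → MvPolynomial (ι ⊕ κ) ℝ := fun v => (jac a Q).adjugate v o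

lemma ev_fieldP (a : κ → ι → ℝ) (Q : ι → MvPolynomial (ι ⊕ κ) ℝ) (o v : ι) (x : ι → ℝ) :
    ev a (fieldP a Q o v) x = tangent (fun v x j => ev a (dd a j (Q v)) x) o x v := by
  rw [fieldP, tangent, Matrix.adjugate_apply, Matrix.adjugate_apply, ev_det]
  congr 1
  ext i j
  rw [Matrix.of_apply]
  by_cases h : i = o
  · subst h
    rw [Matrix.updateRow_self, Matrix.updateRow_self]
    by_cases hj : j = v
    · subst hj
      simp [ev]
    · rw [Pi.single_eq_of_ne hj, Pi.single_eq_of_ne hj]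
      simp [ev]
  · rw [Matrix.updateRow_ne h, Matrix.updateRow_ne h]
    rfl

omit [DecidableEq ι] in
lemma prod_mu {n : ℕ} (β : Fin n → ι → ℝ) (x : ι → ℝ) :
    ∏ l, mu (β l) x = mu (fun i => ∑ l, β l i) x := by
  simp only [mu]
  rw [← Real.exp_sum, Finset.sum_comm]
  simp only [Finset.sum_mul]

/-- The polynomial part of the Wronskian. -/
noncomputable def Wp (a : κ → ι → ℝ) (𝒱 : ι → MvPolynomial (ι ⊕ κ) ℝ) (β : ℕ → ι → ℝ)
    (q : ℕ → MvPolynomial (ι ⊕ κ) ℝ) (n : ℕ) : MvPolynomial (ι ⊕ κ) ℝ :=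
  (Matrix.of fun i l : Fin n => (Top a 𝒱 (β l) ^ (i : ℕ)) (q l)).det

lemma Wr_factor (a : κ → ι → ℝ) (𝒱 : ι → MvPolynomial (ι ⊕ κ) ℝ) (β : ℕ → ι → ℝ)
    (q : ℕ → MvPolynomial (ι ⊕ κ) ℝ) (n : ℕ) (x : ι → ℝ) :
    Wr (fun l => jet a 𝒱 (β l) (q l)) n x =
      mu (fun i => ∑ l : Fin n, β l i) x * ev a (Wp a 𝒱 β q n) x := by
  rw [← prod_mu (fun l : Fin n => β l), Wp, ev_det, ← Matrix.det_mul_row]
  rfl

lemma Wp_totalDegree (a : κ → ι → ℝ) {𝒱 : ι → MvPolynomial (ι ⊕ κ) ℝ}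
    (h𝒱 : ∀ v, (𝒱 v).totalDegree ≤ 2) (β : ℕ → ι → ℝ)
    {q : ℕ → MvPolynomial (ι ⊕ κ) ℝ} (hq : ∀ l, (q l).totalDegree ≤ l) (n : ℕ) :
    (Wp a 𝒱 β q n).totalDegree ≤ 3 * (n * (n - 1) / 2) := by
  refine (totalDegree_det_le _ (fun i : Fin n => 2 * (i : ℕ)) (fun l : Fin n => (l : ℕ)) ?_).trans ?_
  · intro i l
    rw [Matrix.of_apply]
    have h1 := Top_totalDegree a (β l) h𝒱 (q l) (i : ℕ)
    have h2 := hq l
    omega
  · rw [← Finset.mul_sum, Fin.sum_univ_eq_sum_range (fun i => i) n, Finset.sum_range_id]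
    omega

/-- The derivative of the Wronskian along the flow at its zeros. -/
lemma Wr'_at_zero (C₀ : CurveFlow (ι → ℝ)) (a : κ → ι → ℝ) (𝒱 : ι → MvPolynomial (ι ⊕ κ) ℝ)
    (hV : ∀ x v, C₀.V x v = ev a (𝒱 v) x) (β : ℕ → ι → ℝ)
    (q : ℕ → MvPolynomial (ι ⊕ κ) ℝ) (n : ℕ) (x : ι → ℝ) (hx : x ∈ C₀.Γ)
    (h0 : ev a (Wp a 𝒱 β q (n + 1)) x = 0) :
    Wr' (fun l => jet a 𝒱 (β l) (q l)) (n + 1) x =
      mu (fun i => ∑ l : Fin (n + 1), β l i) x *
        lf (fun v => ev a (dd a v (Wp a 𝒱 β q (n + 1))) x) (C₀.V x) := by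
  set f : ℕ → ℕ → (ι → ℝ) → ℝ := fun l => jet a 𝒱 (β l) (q l) with hf
  set b : ι → ℝ := fun i => ∑ l : Fin (n + 1), β l i with hb
  set w := Wp a 𝒱 β q (n + 1) with hw
  have h1 := Wr_FD C₀ f (fun l i => jet_FD C₀ a 𝒱 hV (β l) (q l) i) n x hx
  have h2 : HasFDerivAt (fun y => mu b y * ev a w y)
      (mu b (C₀.γ x 0) • lf (fun v => ev a (dd a v w) (C₀.γ x 0)) +
        ev a w (C₀.γ x 0) • (mu b (C₀.γ x 0) • lf b)) (C₀.γ x 0) :=
    (mu_hasFDerivAt b _).mul (hasFDerivAt_ev a w _)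
  have h3 := h2.comp_hasDerivAt (0 : ℝ) (C₀.deriv x hx 0)
  rw [C₀.zero x hx] at h3
  have h4 : ((fun y => mu b y * ev a w y) ∘ C₀.γ x) = fun t => Wr f (n + 1) (C₀.γ x t) := by
    funext t
    rw [hf, Wr_factor]
    rfl
  rw [h4] at h3
  have h5 := h1.unique h3
  rw [h5, h0]
  simp

end general

section three

variable {k : ℕ}

lemma fieldP_totalDegree (a : Fin k → Fin 3 → ℝ) (Q : Fin 3 → MvPolynomial (Fin 3 ⊕ Fin k) ℝ)
    (h0 : (Q 0).totalDegree ≤ 1) (h1 : ∀ j, (dd a j (Q 1)).totalDegree ≤ 1) (v : Fin 3) :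
    (fieldP a Q 2 v).totalDegree ≤ 2 := by
  rw [fieldP, Matrix.adjugate_apply]
  refine (totalDegree_det_le _ (![1, 1, 0] : Fin 3 → ℕ) (fun _ => 0) ?_).trans ?_
  · intro i j
    fin_cases i
    · rw [Matrix.updateRow_ne (by decide)]
      exact (dd_totalDegree a j (Q 0)).trans h0
    · rw [Matrix.updateRow_ne (by decide)]
      exact h1 j
    · have : (⟨2, by norm_num⟩ : Fin 3) = 2 := rfl
      simp only [this, Matrix.updateRow_self]
      by_cases hj : j = v
      · subst hj; simp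
      · rw [Pi.single_eq_of_ne hj]; simp
  · simp [Fin.sum_univ_three]

/-- The zeros of the Wronskians on the curve. -/
theorem wronskian_zeros (a : Fin k → Fin 3 → ℝ) (Q : Fin 3 → MvPolynomial (Fin 3 ⊕ Fin k) ℝ)
    (hQ0 : (Q 0).totalDegree ≤ 1) (hQ1 : (Q 1).totalDegree ≤ 2)
    (hQ1' : ∀ j, (dd a j (Q 1)).totalDegree ≤ 1) (C₀ : CurveFlow (Fin 3 → ℝ))
    (hΓ : C₀.Γ = {x | ∀ v, v ≠ 2 → ev a (Q v) x = 0})
    (hV : C₀.V = tangent (fun v x j => ev a (dd a j (Q v)) x) 2) (β : ℕ → Fin 3 → ℝ)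
    (q : ℕ → MvPolynomial (Fin 3 ⊕ Fin k) ℝ) (hq : ∀ l, (q l).totalDegree ≤ l) (t : ℕ)
    (hs : ∀ n ≤ t, ∀ x ∈ C₀.Γ, Wr (fun l => jet a (fieldP a Q 2) (β l) (q l)) n x = 0 →
        Wr' (fun l => jet a (fieldP a Q 2) (β l) (q l)) n x ≠ 0) (D : ℕ) (hD : 1 ≤ D)
    (hD' : 3 * (t * (t - 1) / 2) ≤ D) :
    ∃ F : ℕ → Finset (Fin 3 → ℝ), (∀ n ≤ t, ∀ x ∈ F n, x ∈ C₀.Γ) ∧
      (∀ n ≤ t, ∀ x ∈ C₀.Γ, Wr (fun l => jet a (fieldP a Q 2) (β l) (q l)) n x = 0 → x ∈ F n) ∧
      ∀ n ≤ t, (F n).card ≤ 2 * D * 2 ^ (k.choose 2) * (D + 7) ^ k := by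
  classical
  set 𝒱 := fieldP a Q 2 with h𝒱
  set f : ℕ → ℕ → (Fin 3 → ℝ) → ℝ := fun l => jet a 𝒱 (β l) (q l) with hf
  have hV' : ∀ x v, C₀.V x v = ev a (𝒱 v) x := by
    intro x v
    rw [hV, h𝒱, ev_fieldP]
  have h𝒱d : ∀ v, (𝒱 v).totalDegree ≤ 2 := fieldP_totalDegree a Q hQ0 hQ1'
  have hFDj : ∀ l i, C₀.FD (f l i) (f l (i + 1)) := fun l i => jet_FD C₀ a 𝒱 hV' (β l) (q l) i
  have hcj : ∀ l i, Continuous (f l i) := fun l i => jet_continuous a 𝒱 (β l) (q l) i
  -- for every `n` a finite set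
  have key : ∀ n, ∃ F : Finset (Fin 3 → ℝ), n ≤ t → (∀ x ∈ F, x ∈ C₀.Γ) ∧
      (∀ x ∈ C₀.Γ, Wr f n x = 0 → x ∈ F) ∧
      F.card ≤ 2 * D * 2 ^ (k.choose 2) * (D + 7) ^ k := by
    intro n
    by_cases hn : n ≤ t
    swap
    · exact ⟨∅, fun h => absurd h hn⟩
    cases n with
    | zero =>
      refine ⟨∅, fun _ => ⟨by simp, ?_, by simp⟩⟩
      intro x _ h0
      rw [Wr_zero] at h0
      exact absurd h0 one_ne_zero
    | succ n =>
      have hfin := C₀.finite_level (Wr_FD C₀ f hFDj n)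
        (DetR_continuous f hcj n (fun i => i)).continuousOn 0 (hs (n + 1) hn)
      refine ⟨hfin.toFinset, fun _ => ⟨?_, ?_, ?_⟩⟩
      · intro x hx
        exact ((Set.Finite.mem_toFinset hfin).mp hx).1
      · intro x hx h0
        exact (Set.Finite.mem_toFinset hfin).mpr ⟨hx, h0⟩
      · set P : Fin 3 → MvPolynomial (Fin 3 ⊕ Fin k) ℝ :=
          Function.update Q 2 (Wp a 𝒱 β q (n + 1)) with hP
        have hdeg : (Wp a 𝒱 β q (n + 1)).totalDegree ≤ D := by
          refine (Wp_totalDegree a h𝒱d β hq (n + 1)).trans (le_trans ?_ hD')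
          apply Nat.mul_le_mul_left
          apply Nat.div_le_div_right
          exact Nat.mul_le_mul hn (Nat.sub_le_sub_right hn 1)
        have hbound := khovanskii k (Fin 3) a P ![1, 2, D] (by
          intro i
          fin_cases i
          · exact le_rfl
          · exact one_le_two
          · exact hD) (by
          intro i
          fin_cases i
          · simp only [hP]
            rw [Function.update_of_ne (by decide)]
            exact hQ0
          · simp only [hP]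
            rw [Function.update_of_ne (by decide)]
            exact hQ1
          · have h2 : (⟨2, by norm_num⟩ : Fin 3) = 2 := rfl
            simp only [hP, h2, Function.update_self]
            exact hdeg) hfin.toFinset (by
          intro z hz
          obtain ⟨hzΓ, hz0⟩ := (Set.Finite.mem_toFinset hfin).mp hz
          have hw0 : ev a (Wp a 𝒱 β q (n + 1)) z = 0 := by
            rw [hf, Wr_factor] at hz0
            exact (mul_eq_zero.mp hz0).resolve_left (mu_pos _ _).ne'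
          refine ⟨?_, ?_⟩
          · intro i
            by_cases hi : i = 2
            · subst hi
              rw [hP, Function.update_self]
              exact hw0
            · rw [hP, Function.update_of_ne hi]
              rw [hΓ] at hzΓ
              exact hzΓ i hi
          · have h1 := hs (n + 1) hn z hzΓ hz0
            rw [hf, Wr'_at_zero C₀ a 𝒱 hV' β q n z hzΓ hw0, hV, lf_tangent] at h1
            have h2 := right_ne_zero_of_mul h1
            have h3 : (Matrix.of fun i j => ev a (dd a j (P i)) z) =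
                (Matrix.of fun v => (fun v' => ev a (dd a v' (Q v)) z)).updateRow 2
                  (fun v' => ev a (dd a v' (Wp a 𝒱 β q (n + 1))) z) := by
              ext v v'
              rw [Matrix.of_apply]
              by_cases hv : v = 2
              · subst hv
                rw [Matrix.updateRow_self, hP, Function.update_self]
              · rw [Matrix.updateRow_ne hv, hP, Function.update_of_ne hv]
                rfl
            rw [h3]
            exact h2)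
        have e1 : ∏ i, (![1, 2, D] : Fin 3 → ℕ) i = 2 * D := by
          simp [Fin.prod_univ_three]
        have e2 : ∑ i, (![1, 2, D] : Fin 3 → ℕ) i + 4 = D + 7 := by
          simp [Fin.sum_univ_three]
          ring
        rw [e1, e2] at hbound
        exact hbound
  choose F hF using key
  exact ⟨F, fun n hn => (hF n hn).1, fun n hn => (hF n hn).2.1, fun n hn => (hF n hn).2.2⟩

end three

end Fewnomial
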