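import Mathlib
import Pool.Agent.Lib.MP_4cba3d_ag.WCount
import Pool.Agent.Lib.MP_4cba3d_ag.Lift
import Pool.Agent.Lib.MP_4cba3d_ag.Chain

/-!
The bound for two exponential sums in the plane.
-/

namespace Fewnomial

open MvPolynomial Filter Set
open scoped Topology

section

variable {k : ℕ}

/-- Exponents in the plane, seen in space. -/
def up (α : Fin 2 → ℝ) : Fin 3 → ℝ := ![α 0, α 1, 0]

/-- The unperturbed system in space. -/
noncomputable def base3 (c0 : ℝ) (c : Fin k → ℝ) (R : ℝ) :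
    Fin 3 → MvPolynomial (Fin 3 ⊕ Fin k) ℝ :=
  ![C c0 + ∑ j, C (c j) * X (Sum.inr j), ∑ v, X (Sum.inl v) ^ 2 - C (R ^ 2), 0]

lemma up_sum (α : Fin 2 → ℝ) (x : Fin 3 → ℝ) :
    ∑ i, up α i * x i = α 0 * x 0 + α 1 * x 1 := by
  simp [up, Fin.sum_univ_three]

lemma mu_up (α : Fin 2 → ℝ) (x : Fin 3 → ℝ) :
    mu (up α) x = Real.exp (α 0 * x 0 + α 1 * x 1) := by
  rw [mu, up_sum]

lemma ev_base3_zero (α : Fin k → Fin 2 → ℝ) (c0 : ℝ) (c : Fin k → ℝ) (R : ℝ) (x : Fin 3 → ℝ) :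
    ev (fun j => up (α j)) (base3 c0 c R 0) x =
      c0 + ∑ j, c j * Real.exp (α j 0 * x 0 + α j 1 * x 1) := by
  simp [base3, up_sum]

lemma ev_base3_one (a : Fin k → Fin 3 → ℝ) (c0 : ℝ) (c : Fin k → ℝ) (R : ℝ) (x : Fin 3 → ℝ) :
    ev a (base3 c0 c R 1) x = ∑ v, x v ^ 2 - R ^ 2 := by
  simp only [base3, Matrix.cons_val_one, Matrix.cons_val_zero, ev_sub, ev_sum, ev_C]
  congr 1
  refine Finset.sum_congr rfl fun v _ => ?_
  simp [ev, pt]

lemma ev_dd_base3_zero (α : Fin k → Fin 2 → ℝ) (c0 : ℝ) (c : Fin k → ℝ) (R : ℝ) (x : Fin 3 → ℝ)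
    (i : Fin 3) :
    ev (fun j => up (α j)) (dd (fun j => up (α j)) i (base3 c0 c R 0)) x =
      ∑ j, c j * (up (α j) i * Real.exp (α j 0 * x 0 + α j 1 * x 1)) := by
  have h : base3 c0 c R 0 = C c0 + ∑ j, C (c j) * X (Sum.inr j) := rfl
  rw [h, map_add, map_sum, derivation_C, zero_add, ev_sum]
  refine Finset.sum_congr rfl fun j _ => ?_
  rw [Derivation.leibniz, derivation_C, smul_zero, add_zero, dd_inr, smul_eq_mul, ev_mul, ev_C,
    ev_mul, ev_C, ev_inr, up_sum]

lemma ev_dd_base3_one (a : Fin k → Fin 3 → ℝ) (c0 : ℝ) (c : Fin k → ℝ) (R : ℝ) (x : Fin 3 → ℝ)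
    (i : Fin 3) : ev a (dd a i (base3 c0 c R 1)) x = 2 * x i := by
  have h : base3 c0 c R 1 = ∑ v, X (Sum.inl v) ^ 2 - C (R ^ 2) := rfl
  have h1 : ∀ v : Fin 3, ev a (dd a i ((X (Sum.inl v) : MvPolynomial (Fin 3 ⊕ Fin k) ℝ)
      ^ 2)) x = if v = i then 2 * x v else 0 := by
    intro v
    rw [Derivation.leibniz_pow, dd_inl]
    split_ifs with h
    · simp [ev, pt]
    · simp [ev]
  rw [h, map_sub, map_sum, derivation_C, sub_zero, ev_sum]
  simp only [h1]
  rw [Finset.sum_ite_eq' Finset.univ i]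
  simp

lemma base3_zero_totalDegree (c0 : ℝ) (c : Fin k → ℝ) (R : ℝ) :
    (base3 c0 c R 0).totalDegree ≤ 1 := by
  have h : base3 c0 c R 0 = C c0 + ∑ j, C (c j) * X (Sum.inr j) := rfl
  rw [h]
  refine (totalDegree_add _ _).trans (max_le (by rw [totalDegree_C]; exact Nat.zero_le _) ?_)
  refine totalDegree_finsetSum_le fun j _ => ?_
  refine (totalDegree_mul _ _).trans ?_
  rw [totalDegree_C, totalDegree_X]

lemma base3_one_totalDegree (c0 : ℝ) (c : Fin k → ℝ) (R : ℝ) :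
    (base3 c0 c R 1).totalDegree ≤ 2 := by
  have h : base3 c0 c R 1 = ∑ v, X (Sum.inl v) ^ 2 - C (R ^ 2) := rfl
  rw [h]
  refine (totalDegree_sub _ _).trans (max_le ?_ ?_)
  · refine totalDegree_finsetSum_le fun v _ => ?_
    rw [totalDegree_X_pow]
  · rw [totalDegree_C]; exact Nat.zero_le _

lemma dd_base3_one_totalDegree (a : Fin k → Fin 3 → ℝ) (c0 : ℝ) (c : Fin k → ℝ) (R : ℝ)
    (θ : (Fin 3 → ℝ) × (Fin 3 → Fin 3 → ℝ)) (i : Fin 3) :
    (dd a i (pertQ (base3 c0 c R) θ 1)).totalDegree ≤ 1 := by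
  have h : base3 c0 c R 1 = ∑ v, X (Sum.inl v) ^ 2 - C (R ^ 2) := rfl
  rw [pertQ, h, map_sub, map_sub, map_sub, map_sum, derivation_C, derivation_C, sub_zero,
    sub_zero, map_sum]
  refine (totalDegree_sub _ _).trans (max_le ?_ ?_)
  · refine totalDegree_finsetSum_le fun v _ => ?_
    rw [Derivation.leibniz_pow, dd_inl]
    split_ifs with h
    · simp only [Nat.add_one_sub_one, pow_one, smul_eq_mul, mul_one]
      refine (totalDegree_smul_le _ _).trans ?_
      simp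
    · simp
  · refine totalDegree_finsetSum_le fun v _ => ?_
    refine (dd_totalDegree _ _ _).trans ?_
    refine (totalDegree_mul _ _).trans ?_
    rw [totalDegree_C, totalDegree_X]

end

/-- The second exponential sum, in space. -/
noncomputable def phi2 (t : ℕ) (β : ℕ → Fin 2 → ℝ) (d : ℕ → ℝ) (x : Fin 3 → ℝ) : ℝ :=
  ∑ l ∈ Finset.range (t + 1), d l * mu (up (β l)) x

/-- Its gradient. -/
noncomputable def phi2g (t : ℕ) (β : ℕ → Fin 2 → ℝ) (d : ℕ → ℝ) (x : Fin 3 → ℝ) (i : Fin 3) : ℝ :=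
  ∑ l ∈ Finset.range (t + 1), d l * (mu (up (β l)) x * up (β l) i)

lemma phi2_hasFDerivAt (t : ℕ) (β : ℕ → Fin 2 → ℝ) (d : ℕ → ℝ) (x : Fin 3 → ℝ) :
    HasFDerivAt (phi2 t β d) (lf (phi2g t β d x)) x := by
  have h1 : HasFDerivAt (phi2 t β d)
      (∑ l ∈ Finset.range (t + 1), d l • (mu (up (β l)) x • lf (up (β l)))) x :=
    HasFDerivAt.fun_sum fun l _ => (mu_hasFDerivAt (up (β l)) x).const_mul (d l)
  have h2 : lf (phi2g t β d x) =
      ∑ l ∈ Finset.range (t + 1), d l • (mu (up (β l)) x • lf (up (β l))) := by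
    ext y
    rw [lf_apply]
    simp only [phi2g, ContinuousLinearMap.sum_apply, smul_apply, smul_eq_mul, lf_apply,
      Finset.sum_mul, Finset.mul_sum]
    rw [Finset.sum_comm]
    refine Finset.sum_congr rfl fun l _ => Finset.sum_congr rfl fun i _ => ?_
    ring
  rw [h2]
  exact h1

lemma mu_contDiff {ι : Type} [Fintype ι] (β : ι → ℝ) {n : WithTop ℕ∞} : ContDiff ℝ n (mu β) := by
  unfold mu
  apply Real.contDiff_exp.comp
  exact ContDiff.sum fun i _ => contDiff_const.mul (contDiff_apply ℝ ℝ i)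

lemma phi2_contDiff (t : ℕ) (β : ℕ → Fin 2 → ℝ) (d : ℕ → ℝ) : ContDiff ℝ 1 (phi2 t β d) := by
  unfold phi2
  exact ContDiff.sum fun l _ => contDiff_const.mul (mu_contDiff _)

lemma phi2g_continuous (t : ℕ) (β : ℕ → Fin 2 → ℝ) (d : ℕ → ℝ) (i : Fin 3) :
    Continuous (fun x => phi2g t β d x i) := by
  unfold phi2g
  exact continuous_finsetSum _ fun l _ =>
    continuous_const.mul ((mu_continuous _).mul continuous_const)

/-- The bound for exponential sums in the plane. -/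
theorem exp_count {k : ℕ} (α : Fin k → Fin 2 → ℝ) (c0 : ℝ) (c : Fin k → ℝ) (t : ℕ)
    (β : ℕ → Fin 2 → ℝ) (d : ℕ → ℝ) (hd : d t ≠ 0) (D : ℕ) (hD : 1 ≤ D)
    (hD' : 3 * ((t + 1) * t / 2) ≤ D) (Z : Finset (Fin 2 → ℝ))
    (hZ : ∀ z ∈ Z, c0 + ∑ j, c j * Real.exp (α j 0 * z 0 + α j 1 * z 1) = 0 ∧
      ∑ l ∈ Finset.range (t + 1), d l * Real.exp (β l 0 * z 0 + β l 1 * z 1) = 0 ∧
      (∑ j, c j * (α j 0 * Real.exp (α j 0 * z 0 + α j 1 * z 1))) *
        (∑ l ∈ Finset.range (t + 1), d l * (β l 1 * Real.exp (β l 0 * z 0 + β l 1 * z 1))) -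
      (∑ j, c j * (α j 1 * Real.exp (α j 0 * z 0 + α j 1 * z 1))) *
        (∑ l ∈ Finset.range (t + 1), d l * (β l 0 * Real.exp (β l 0 * z 0 + β l 1 * z 1))) ≠ 0) :
    Z.card ≤ 2 * (t + 1) * (2 * D * 2 ^ (k.choose 2) * (D + 7) ^ k) := by
  classical
  set a : Fin k → Fin 3 → ℝ := fun j => up (α j) with ha
  -- the lifted points
  set Rsq : ℝ := 1 + ∑ z ∈ Z, (z 0 ^ 2 + z 1 ^ 2) with hRsq
  have hRsq0 : 0 ≤ Rsq := by
    rw [hRsq]
    exact add_nonneg zero_le_one (Finset.sum_nonneg fun z _ => by positivity)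
  set R := Real.sqrt Rsq with hR
  have hR2 : R ^ 2 = Rsq := Real.sq_sqrt hRsq0
  set h : (Fin 2 → ℝ) → ℝ := fun z => Rsq - z 0 ^ 2 - z 1 ^ 2 with hh
  have hhpos : ∀ z ∈ Z, 0 < h z := by
    intro z hz
    have h1 : z 0 ^ 2 + z 1 ^ 2 ≤ ∑ z ∈ Z, (z 0 ^ 2 + z 1 ^ 2) :=
      Finset.single_le_sum (f := fun z : Fin 2 → ℝ => z 0 ^ 2 + z 1 ^ 2)
        (fun z _ => by positivity) hz
    simp only [hh]
    linarith
  set P : (Fin 2 → ℝ) → ℝ → Fin 3 → ℝ := fun z s => ![z 0, z 1, s] with hP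
  have hinjl : ∀ (z z' : Fin 2 → ℝ) (s s' : ℝ), P z s = P z' s' → z = z' := by
    intro z z' s s' h1
    funext i
    fin_cases i
    · simpa [hP] using congrFun h1 0
    · simpa [hP] using congrFun h1 1
  set W1 := Z.image (fun z => P z (Real.sqrt (h z))) with hW1
  set W2 := Z.image (fun z => P z (-Real.sqrt (h z))) with hW2
  set W := W1 ∪ W2 with hW
  have hWcard : W.card = 2 * Z.card := by
    have hdisj : Disjoint W1 W2 := by
      rw [Finset.disjoint_left]
      intro x hx1 hx2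
      obtain ⟨z, hz, rfl⟩ := Finset.mem_image.mp hx1
      obtain ⟨z', hz', h1⟩ := Finset.mem_image.mp hx2
      have h2 : -Real.sqrt (h z') = Real.sqrt (h z) := by simpa [hP] using congrFun h1 2
      have h3 := Real.sqrt_pos.mpr (hhpos z hz)
      have h4 := Real.sqrt_pos.mpr (hhpos z' hz')
      linarith
    rw [hW, Finset.card_union_of_disjoint hdisj, hW1, hW2, Finset.card_image_of_injOn,
      Finset.card_image_of_injOn]
    · ring
    · intro z _ z' _ h1
      exact hinjl _ _ _ _ h1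
    · intro z _ z' _ h1
      exact hinjl _ _ _ _ h1
  have hWmem : ∀ w ∈ W, ∃ z ∈ Z, ∃ s : ℝ, s ^ 2 = h z ∧ s ≠ 0 ∧ w = P z s := by
    intro w hw
    rcases Finset.mem_union.mp hw with hw | hw
    · obtain ⟨z, hz, rfl⟩ := Finset.mem_image.mp hw
      exact ⟨z, hz, _, Real.sq_sqrt (hhpos z hz).le, (Real.sqrt_pos.mpr (hhpos z hz)).ne', rfl⟩
    · obtain ⟨z, hz, rfl⟩ := Finset.mem_image.mp hw
      refine ⟨z, hz, _, ?_, neg_ne_zero.mpr (Real.sqrt_pos.mpr (hhpos z hz)).ne', rfl⟩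
      rw [neg_sq]
      exact Real.sq_sqrt (hhpos z hz).le
  set B := base3 c0 c R with hB
  obtain ⟨θ, C₀, Z1, hΓ, hV, hZ1, hZ1c⟩ := exists_curve_with_zeros a B 2 1 (by decide) R
    (fun w => ev_base3_one a c0 c R w) (phi2 t β d) (phi2g t β d) (phi2_hasFDerivAt t β d)
    (phi2_contDiff t β d) (phi2g_continuous t β d) W (by
      intro w hw
      obtain ⟨z, hz, s, hs, hs0, rfl⟩ := hWmem w hw
      obtain ⟨hz1, hz2, hz3⟩ := hZ z hz
      have p0 : P z s 0 = z 0 := rfl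
      have p1 : P z s 1 = z 1 := rfl
      have p2 : P z s 2 = s := rfl
      refine ⟨?_, ?_, ?_⟩
      · intro v hv
        fin_cases v
        · show ev a (B 0) (P z s) = 0
          rw [ha, hB, ev_base3_zero, p0, p1]
          exact hz1
        · show ev a (B 1) (P z s) = 0
          rw [hB, ev_base3_one, Fin.sum_univ_three, p0, p1, p2, hs, hR2]
          simp only [hh]
          ring
        · exact absurd rfl hv
      · rw [phi2]
        simp only [mu_up, p0, p1]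
        exact hz2
      · have r0 : ∀ j, ((Matrix.of fun v v' => ev a (dd a v' (B v)) (P z s)).updateRow 2
            (phi2g t β d (P z s))) 0 j =
            ∑ l, c l * (up (α l) j * Real.exp (α l 0 * z 0 + α l 1 * z 1)) := by
          intro j
          rw [Matrix.updateRow_ne (by decide), Matrix.of_apply, ha, hB, ev_dd_base3_zero, p0, p1]
        have r1 : ∀ j, ((Matrix.of fun v v' => ev a (dd a v' (B v)) (P z s)).updateRow 2
            (phi2g t β d (P z s))) 1 j = 2 * P z s j := by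
          intro j
          rw [Matrix.updateRow_ne (by decide), Matrix.of_apply, hB, ev_dd_base3_one]
        have r2 : ∀ j, ((Matrix.of fun v v' => ev a (dd a v' (B v)) (P z s)).updateRow 2
            (phi2g t β d (P z s))) 2 j =
            ∑ l ∈ Finset.range (t + 1), d l * (Real.exp (β l 0 * z 0 + β l 1 * z 1) *
              up (β l) j) := by
          intro j
          rw [Matrix.updateRow_self, phi2g]
          simp only [mu_up, p0, p1]
        rw [Matrix.det_fin_three]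
        simp only [r0, r1, r2, p0, p1, p2]
        have u0 : ∀ γ : Fin 2 → ℝ, up γ 0 = γ 0 := fun γ => rfl
        have u1 : ∀ γ : Fin 2 → ℝ, up γ 1 = γ 1 := fun γ => rfl
        have u2 : ∀ γ : Fin 2 → ℝ, up γ 2 = 0 := fun γ => rfl
        simp only [u0, u1, u2, zero_mul, mul_zero, Finset.sum_const_zero]
        have e0 : ∑ l ∈ Finset.range (t + 1), d l * (Real.exp (β l 0 * z 0 + β l 1 * z 1) * β l 0) =
            ∑ l ∈ Finset.range (t + 1), d l * (β l 0 * Real.exp (β l 0 * z 0 + β l 1 * z 1)) :=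
          Finset.sum_congr rfl fun l _ => by ring
        have e1 : ∑ l ∈ Finset.range (t + 1), d l * (Real.exp (β l 0 * z 0 + β l 1 * z 1) * β l 1) =
            ∑ l ∈ Finset.range (t + 1), d l * (β l 1 * Real.exp (β l 0 * z 0 + β l 1 * z 1)) :=
          Finset.sum_congr rfl fun l _ => by ring
        rw [e0, e1]
        intro hcon
        apply mul_ne_zero (mul_ne_zero two_ne_zero hs0) hz3
        linarith)
  -- the exponential sum on the curve
  set Q := pertQ B θ with hQ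
  set 𝒱 := fieldP a Q 2 with h𝒱
  have hV' : ∀ x v, C₀.V x v = ev a (𝒱 v) x := by
    intro x v
    rw [hV, h𝒱, ev_fieldP]
  have hQ0 : (Q 0).totalDegree ≤ 1 := pertQ_totalDegree θ le_rfl (base3_zero_totalDegree c0 c R)
  have hQ1 : (Q 1).totalDegree ≤ 2 :=
    pertQ_totalDegree θ one_le_two (base3_one_totalDegree c0 c R)
  have hQ1' : ∀ j, (dd a j (Q 1)).totalDegree ≤ 1 := dd_base3_one_totalDegree a c0 c R θ
  obtain ⟨δ, hδ, hpers⟩ := C₀.persist (fd_of_hasFDerivAt C₀ (phi2_hasFDerivAt t β d)) 0 Z1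
    (fun z hz => hZ1 z hz)
  obtain ⟨M, hM⟩ := C₀.compact.exists_bound_of_continuousOn
    (f := fun x => ∑ l ∈ Finset.range (t + 1), |d l| * mu (up (β l)) x)
    (continuous_finsetSum _ fun l _ => continuous_const.mul (mu_continuous _)).continuousOn
  have hM'0 : 0 < |M| + 1 := by positivity
  obtain ⟨q, hq1, hq2, hq3⟩ := exists_generic C₀ a 𝒱 hV' (fun l => up (β l)) (t + 1)
    (δ := δ / (|M| + 1)) (div_pos hδ hM'0)
  set f : ℕ → ℕ → (Fin 3 → ℝ) → ℝ := fun l => jet a 𝒱 (up (β l)) (q l) with hf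
  obtain ⟨Z', hZ', hZ'c⟩ := hpers (fun x => ∑ l ∈ Finset.range (t + 1), d l * f l 0 x)
    (continuous_finsetSum _ fun l _ =>
      continuous_const.mul (jet_continuous a 𝒱 (up (β l)) (q l) 0)).continuousOn (by
      intro x hx
      have h3 := hM x hx
      have h4 : 0 ≤ ∑ l ∈ Finset.range (t + 1), |d l| * mu (up (β l)) x :=
        Finset.sum_nonneg fun l _ => mul_nonneg (abs_nonneg _) (mu_pos _ _).le
      rw [Real.norm_eq_abs, abs_of_nonneg h4] at h3
      have e1 : (∑ l ∈ Finset.range (t + 1), d l * f l 0 x) - phi2 t β d x =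
          ∑ l ∈ Finset.range (t + 1), d l * mu (up (β l)) x * (ev a (q l) x - 1) := by
        rw [phi2, ← Finset.sum_sub_distrib]
        refine Finset.sum_congr rfl fun l _ => ?_
        rw [hf]
        simp only
        rw [jet_zero]
        ring
      rw [e1]
      calc |∑ l ∈ Finset.range (t + 1), d l * mu (up (β l)) x * (ev a (q l) x - 1)|
          ≤ ∑ l ∈ Finset.range (t + 1), |d l * mu (up (β l)) x * (ev a (q l) x - 1)| :=
            Finset.abs_sum_le_sum_abs _ _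
        _ ≤ ∑ l ∈ Finset.range (t + 1), |d l| * mu (up (β l)) x * (δ / (|M| + 1)) := by
            refine Finset.sum_le_sum fun l _ => ?_
            rw [abs_mul, abs_mul, abs_of_pos (mu_pos _ _)]
            exact mul_le_mul_of_nonneg_left (hq2 l x hx).le
              (mul_nonneg (abs_nonneg _) (mu_pos _ _).le)
        _ = (∑ l ∈ Finset.range (t + 1), |d l| * mu (up (β l)) x) * (δ / (|M| + 1)) := by
            rw [Finset.sum_mul]
        _ ≤ M * (δ / (|M| + 1)) :=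
            mul_le_mul_of_nonneg_right h3 (div_pos hδ hM'0).le
        _ < (|M| + 1) * (δ / (|M| + 1)) := by
            apply mul_lt_mul_of_pos_right _ (div_pos hδ hM'0)
            have := le_abs_self M
            linarith
        _ = δ := mul_div_cancel₀ _ hM'0.ne')
  obtain ⟨F, hF1, hF2, hF3⟩ := wronskian_zeros a Q hQ0 hQ1 hQ1' C₀ hΓ hV (fun l => up (β l)) q
    hq1 (t + 1) hq3 D hD (by simpa using hD')
  have hchain := chain_count C₀ f (fun l i => jet_FD C₀ a 𝒱 hV' (up (β l)) (q l) i) t F hF1 hF2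
    (2 * D * 2 ^ (k.choose 2) * (D + 7) ^ k) hF3 d hd Z' hZ'
  rw [hZ'c, hZ1c, hWcard] at hchain
  have e : 4 * (t + 1) * (2 * D * 2 ^ k.choose 2 * (D + 7) ^ k) =
      2 * (2 * (t + 1) * (2 * D * 2 ^ (k.choose 2) * (D + 7) ^ k)) := by ring
  rw [e] at hchain
  exact Nat.le_of_mul_le_mul_left hchain two_pos

end Fewnomial
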