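import Mathlib
import Pool.Agent.Lib.MP_4cba3d_ag.Regular

/-!
Generic perturbations in a rich family make a level curve regular.
-/

namespace Fewnomial

open Set Filter Metric
open scoped Topology NNReal

variable {ι : Type*} [Fintype ι] [DecidableEq ι]

/-- Generic perturbations in a rich family make a level curve regular. -/
theorem dense_regular_gen (o : ι) (G : ι → (ι → ℝ) → ℝ) (g : ι → (ι → ℝ) → ι → ℝ)
    (hG : ∀ i, ContDiff ℝ 1 (G i)) (hg : ∀ i j, ContDiff ℝ 1 (fun x => g i x j))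
    (E E' : ι → ι → ℝ → ℝ) (hE : ∀ i j, ContDiff ℝ 1 (E i j)) (hE' : ∀ i j, ContDiff ℝ 1 (E' i j))
    (hne : ∀ i j s, E' i j s ≠ 0) :
    Dense {θ : (ι → ℝ) × (ι → ι → ℝ) | ∀ x, (∀ i, i ≠ o →
      G i x - θ.1 i - ∑ j, θ.2 i j * E i j (x j) = 0) →
        tangent (fun i x j => g i x j - θ.2 i j * E' i j (x j)) o x ≠ 0} := by
  classical
  -- the parametrization of bad parameters
  let Src : ι → Type _ := fun i₁ => (ι → ℝ) × ({l : ι // l ≠ o ∧ l ≠ i₁} → ℝ) ×
    ({l : ι // l ≠ i₁} → ι → ℝ) × ℝ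
  let Bh : ∀ i₁ : ι, (ι → ℝ) × ({l : ι // l ≠ o ∧ l ≠ i₁} → ℝ) ×
    ({l : ι // l ≠ i₁} → ι → ℝ) × ℝ → ι → ι → ℝ := fun i₁ s i j =>
      if h : i ≠ i₁ then s.2.2.1 ⟨i, h⟩ j else
        (g i₁ s.1 j - ∑ l : {l : ι // l ≠ o ∧ l ≠ i₁}, s.2.1 l *
          (g l s.1 j - s.2.2.1 ⟨l, l.2.2⟩ j * E' l j (s.1 j))) / E' i₁ j (s.1 j)
  let Ψ : ∀ i₁ : ι, (ι → ℝ) × ({l : ι // l ≠ o ∧ l ≠ i₁} → ℝ) ×
    ({l : ι // l ≠ i₁} → ι → ℝ) × ℝ → (ι → ℝ) × (ι → ι → ℝ) := fun i₁ s =>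
      (fun i => if i = o then s.2.2.2 else G i s.1 - ∑ j, Bh i₁ s i j * E i j (s.1 j), Bh i₁ s)
  have hBh : ∀ i₁ i j, ContDiff ℝ 1 (fun s => Bh i₁ s i j) := by
    intro i₁ i j
    by_cases h : i ≠ i₁
    · simp only [Bh, dif_pos h]
      have e1 : ContDiff ℝ 1 (fun s : (ι → ℝ) × ({l : ι // l ≠ o ∧ l ≠ i₁} → ℝ) ×
          ({l : ι // l ≠ i₁} → ι → ℝ) × ℝ => s.2.2.1) :=
        contDiff_fst.comp (contDiff_snd.comp contDiff_snd)
      exact contDiff_pi.mp (contDiff_pi.mp e1 ⟨i, h⟩) j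
    · simp only [Bh, dif_neg h]
      have e0 : ContDiff ℝ 1 (fun s : (ι → ℝ) × ({l : ι // l ≠ o ∧ l ≠ i₁} → ℝ) ×
          ({l : ι // l ≠ i₁} → ι → ℝ) × ℝ => s.1) := contDiff_fst
      have e1 : ContDiff ℝ 1 (fun s : (ι → ℝ) × ({l : ι // l ≠ o ∧ l ≠ i₁} → ℝ) ×
          ({l : ι // l ≠ i₁} → ι → ℝ) × ℝ => s.2.2.1) :=
        contDiff_fst.comp (contDiff_snd.comp contDiff_snd)
      have e2 : ContDiff ℝ 1 (fun s : (ι → ℝ) × ({l : ι // l ≠ o ∧ l ≠ i₁} → ℝ) ×
          ({l : ι // l ≠ i₁} → ι → ℝ) × ℝ => s.2.1) :=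
        contDiff_fst.comp contDiff_snd
      refine ContDiff.div (((hg i₁ j).comp e0).sub (ContDiff.sum fun l _ => ?_))
        ((hE' i₁ j).comp (contDiff_pi.mp e0 j)) (fun s => hne _ _ _)
      exact (contDiff_pi.mp e2 l).mul (((hg l j).comp e0).sub
        ((contDiff_pi.mp (contDiff_pi.mp e1 ⟨l, l.2.2⟩) j).mul
          ((hE' l j).comp (contDiff_pi.mp e0 j))))
  have hΨ : ∀ i₁, ContDiff ℝ 1 (Ψ i₁) := by
    intro i₁
    refine ContDiff.prodMk ?_ ?_
    · rw [contDiff_pi]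
      intro i
      by_cases h : i = o
      · simp only [if_pos h]
        exact contDiff_snd.comp (contDiff_snd.comp contDiff_snd)
      · simp only [if_neg h]
        refine ((hG i).comp contDiff_fst).sub (ContDiff.sum fun j _ => ?_)
        exact (hBh i₁ i j).mul ((hE i j).comp (contDiff_pi.mp contDiff_fst j))
    · rw [contDiff_pi]
      intro i
      rw [contDiff_pi]
      intro j
      exact hBh i₁ i j
  -- dimensions
  have hN : ∀ i₁ : ι, i₁ ≠ o → Module.finrank ℝ ((ι → ℝ) × ({l : ι // l ≠ o ∧ l ≠ i₁} → ℝ) ×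
      ({l : ι // l ≠ i₁} → ι → ℝ) × ℝ) ≤
      Fintype.card ι + (Fintype.card ι * Fintype.card ι) - 1 := by
    intro i₁ hi₁
    rw [Module.finrank_prod, Module.finrank_prod, Module.finrank_prod,
      Module.finrank_fintype_fun_eq_card, Module.finrank_fintype_fun_eq_card,
      Module.finrank_pi_fintype, Module.finrank_self]
    simp only [Module.finrank_fintype_fun_eq_card, Finset.sum_const, Finset.card_univ,
      smul_eq_mul]
    have c1 : Fintype.card {l : ι // l ≠ i₁} = Fintype.card ι - 1 := by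
      rw [Fintype.card_subtype, Finset.filter_ne', Finset.card_erase_of_mem (Finset.mem_univ _)]
      rfl
    have c2 : Fintype.card {l : ι // l ≠ o ∧ l ≠ i₁} = Fintype.card ι - 2 := by
      rw [Fintype.card_of_subtype ((Finset.univ.erase o).erase i₁)
        (fun l => by simp [and_comm]), Finset.card_erase_of_mem
          (Finset.mem_erase.mpr ⟨hi₁, Finset.mem_univ _⟩),
        Finset.card_erase_of_mem (Finset.mem_univ _)]
      rfl
    have c3 : 2 ≤ Fintype.card ι := Fintype.one_lt_card_iff.mpr ⟨i₁, o, hi₁⟩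
    rw [c1, c2]
    obtain ⟨n, hn⟩ := Nat.exists_eq_add_of_le c3
    rw [hn]
    have e1 : 2 + n - 2 = n := by omega
    have e2 : 2 + n - 1 = n + 1 := by omega
    rw [e1, e2]
    have e3 : (2 + n) + (2 + n) * (2 + n) - 1 = n * n + 5 * n + 5 := by
      have : (2 + n) + (2 + n) * (2 + n) = n * n + 5 * n + 5 + 1 := by ring
      omega
    rw [e3]
    have e4 : 2 + n + (n + ((n + 1) * (2 + n) + 1)) = n * n + 5 * n + 5 := by ring
    omega
  have hdim : dimH (⋃ i₁ : {i₁ : ι // i₁ ≠ o}, range (Ψ i₁)) <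
      Module.finrank ℝ ((ι → ℝ) × (ι → ι → ℝ)) := by
    have hpos : 0 < Fintype.card ι := Fintype.card_pos_iff.mpr ⟨o⟩
    have hT : Module.finrank ℝ ((ι → ℝ) × (ι → ι → ℝ)) =
        Fintype.card ι + (Fintype.card ι * Fintype.card ι) := by
      rw [Module.finrank_prod, Module.finrank_fintype_fun_eq_card, Module.finrank_pi_fintype]
      simp only [Module.finrank_fintype_fun_eq_card, Finset.sum_const, Finset.card_univ,
        smul_eq_mul]
    refine lt_of_le_of_lt (b := (((Fintype.card ι + (Fintype.card ι * Fintype.card ι) - 1 : ℕ)) :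
      ENNReal)) ?_ ?_
    · rw [dimH_iUnion]
      refine iSup_le fun i₁ => ?_
      refine ((hΨ i₁).dimH_range_le).trans ?_
      exact_mod_cast hN i₁ i₁.2
    · rw [hT]
      exact_mod_cast (by omega : Fintype.card ι + (Fintype.card ι * Fintype.card ι) - 1 <
        Fintype.card ι + (Fintype.card ι * Fintype.card ι))
  refine (dense_compl_of_dimH_lt_finrank hdim).mono ?_
  intro θ hθ x hx htan
  apply hθ
  obtain ⟨i₁, hi₁, t, ht⟩ := dependent_of_tangent_zero _ o x htan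
  refine mem_iUnion.mpr ⟨⟨i₁, hi₁⟩, ⟨x, t, fun l j => θ.2 l j, θ.1 o⟩, ?_⟩
  have hB : Bh i₁ ⟨x, t, fun l j => θ.2 l j, θ.1 o⟩ = θ.2 := by
    funext i j
    by_cases h : i ≠ i₁
    · simp only [Bh, dif_pos h]
    · have h' : i = i₁ := not_not.mp h
      subst h'
      simp only [Bh, dif_neg h]
      have := ht j
      rw [div_eq_iff (hne _ _ _)]
      linarith
  show (fun i => if i = o then θ.1 o else G i x - ∑ j, Bh i₁ ⟨x, t, fun l j => θ.2 l j, θ.1 o⟩ i j
    * E i j (x j), Bh i₁ ⟨x, t, fun l j => θ.2 l j, θ.1 o⟩) = θ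
  rw [hB]
  refine Prod.ext ?_ rfl
  funext i
  show (if i = o then θ.1 o else G i x - ∑ j, θ.2 i j * E i j (x j)) = θ.1 i
  by_cases h : i = o
  · rw [if_pos h, h]
  · rw [if_neg h]
    have := hx i h
    linarith

end Fewnomial
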