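import Mathlib
import Pool.Agent.Lib.MP_4cba3d_ag.LRegular
import Pool.Agent.Lib.MP_4cba3d_ag.Reduction2

/-!
Transversal zeros on a generic perturbation of a compact curve, for perturbations in a rich
family.
-/

namespace Fewnomial

open Filter Set
open scoped Topology

variable {J : Type} [Fintype J] [DecidableEq J]

/-- Perturbed functions. -/
noncomputable def pF (G : J → (J → ℝ) → ℝ) (E : J → J → ℝ → ℝ) (θ : (J → ℝ) × (J → J → ℝ))
    (v : J) (x : J → ℝ) : ℝ := G v x - θ.1 v - ∑ v', θ.2 v v' * E v v' (x v')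

/-- Perturbed gradients. -/
noncomputable def pG (g : J → (J → ℝ) → J → ℝ) (E' : J → J → ℝ → ℝ)
    (θ : (J → ℝ) × (J → J → ℝ)) (v : J) (x : J → ℝ) (j : J) : ℝ :=
  g v x j - θ.2 v j * E' v j (x j)

omit [DecidableEq J] in
lemma pF_hasFDerivAt {G : J → (J → ℝ) → ℝ} {g : J → (J → ℝ) → J → ℝ} {E E' : J → J → ℝ → ℝ}
    (hG : ∀ v x, HasFDerivAt (G v) (lf (g v x)) x) (hE : ∀ v j s, HasDerivAt (E v j) (E' v j s) s)
    (θ : (J → ℝ) × (J → J → ℝ)) (v : J) (x : J → ℝ) :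
    HasFDerivAt (pF G E θ v) (lf (pG g E' θ v x)) x := by
  have h1 : HasFDerivAt (fun y : J → ℝ => ∑ v', θ.2 v v' * E v v' (y v'))
      (∑ v', θ.2 v v' • (E' v v' (x v') •
        (ContinuousLinearMap.proj (R := ℝ) (φ := fun _ : J => ℝ) v'))) x := by
    refine HasFDerivAt.fun_sum fun v' _ => HasFDerivAt.const_mul ?_ _
    have h2 : HasFDerivAt (fun y : J → ℝ => y v')
      (ContinuousLinearMap.proj (R := ℝ) (φ := fun _ : J => ℝ) v') x :=
      (ContinuousLinearMap.proj (R := ℝ) (φ := fun _ : J => ℝ) v').hasFDerivAt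
    exact (hE v v' (x v')).comp_hasFDerivAt x h2
  have h2 : lf (pG g E' θ v x) = lf (g v x) - ∑ v', θ.2 v v' • (E' v v' (x v') •
        (ContinuousLinearMap.proj (R := ℝ) (φ := fun _ : J => ℝ) v')) := by
    ext y
    rw [lf_apply, sub_apply, lf_apply, sum_apply, ← Finset.sum_sub_distrib]
    refine Finset.sum_congr rfl fun j _ => ?_
    simp only [pG, smul_apply, ContinuousLinearMap.proj_apply, smul_eq_mul]
    ring
  rw [h2]
  exact ((hG v x).sub_const _).sub h1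

omit [DecidableEq J] in
lemma pF_contDiff {G : J → (J → ℝ) → ℝ} {E : J → J → ℝ → ℝ} (hGC : ∀ v, ContDiff ℝ 1 (G v))
    (hEC : ∀ v j, ContDiff ℝ 1 (E v j)) (v : J) :
    ContDiff ℝ 1 (fun p : ((J → ℝ) × (J → J → ℝ)) × (J → ℝ) => pF G E p.1 v p.2) := by
  have e1 : ContDiff ℝ 1 (fun p : ((J → ℝ) × (J → J → ℝ)) ×
      (J → ℝ) => p.1.1) := contDiff_fst.comp contDiff_fst
  have e2 : ContDiff ℝ 1 (fun p : ((J → ℝ) × (J → J → ℝ)) ×
      (J → ℝ) => p.1.2) := contDiff_snd.comp contDiff_fst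
  have e3 : ContDiff ℝ 1 (fun p : ((J → ℝ) × (J → J → ℝ)) ×
      (J → ℝ) => p.2) := contDiff_snd
  refine (((hGC v).comp e3).sub (contDiff_pi.mp e1 v)).sub
    (ContDiff.sum fun v' _ => ?_)
  exact (contDiff_pi.mp (contDiff_pi.mp e2 v) v').mul
    ((hEC v v').comp (contDiff_pi.mp e3 v'))

omit [DecidableEq J] in
lemma pG_contDiff {g : J → (J → ℝ) → J → ℝ} {E' : J → J → ℝ → ℝ}
    (hg : ∀ v j, ContDiff ℝ 1 (fun x => g v x j)) (hE'C : ∀ v j, ContDiff ℝ 1 (E' v j)) (v j : J) :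
    ContDiff ℝ 1 (fun p : ((J → ℝ) × (J → J → ℝ)) × (J → ℝ) => pG g E' p.1 v p.2 j) := by
  have e2 : ContDiff ℝ 1 (fun p : ((J → ℝ) × (J → J → ℝ)) ×
      (J → ℝ) => p.1.2) := contDiff_snd.comp contDiff_fst
  have e3 : ContDiff ℝ 1 (fun p : ((J → ℝ) × (J → J → ℝ)) ×
      (J → ℝ) => p.2) := contDiff_snd
  exact ((hg v j).comp e3).sub ((contDiff_pi.mp (contDiff_pi.mp e2 v) j).mul
    ((hE'C v j).comp (contDiff_pi.mp e3 j)))

theorem exists_curve_gen (o : J) (G : J → (J → ℝ) → ℝ) (g : J → (J → ℝ) → J → ℝ)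
    (hG : ∀ v x, HasFDerivAt (G v) (lf (g v x)) x) (hGC : ∀ v, ContDiff ℝ 1 (G v))
    (hg : ∀ v j, ContDiff ℝ 1 (fun x => g v x j)) (E E' : J → J → ℝ → ℝ)
    (hE : ∀ v j s, HasDerivAt (E v j) (E' v j s) s) (hEC : ∀ v j, ContDiff ℝ 1 (E v j))
    (hE'C : ∀ v j, ContDiff ℝ 1 (E' v j)) (hne : ∀ v j s, E' v j s ≠ 0) {η : ℝ} (hη : 0 < η)
    (hcomp : ∀ θ : (J → ℝ) × (J → J → ℝ), ‖θ‖ < η → IsCompact {x | ∀ v, v ≠ o → pF G E θ v x = 0})
    (φ : (J → ℝ) → ℝ) (φg : (J → ℝ) → J → ℝ) (hφ : ∀ x, HasFDerivAt φ (lf (φg x)) x)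
    (hφC : ContDiff ℝ 1 φ) (hφg : ∀ j, Continuous (fun x => φg x j))
    (W : Finset (J → ℝ))
    (hW : ∀ w ∈ W, (∀ v, v ≠ o → G v w = 0) ∧ φ w = 0 ∧
      ((Matrix.of fun v => g v w).updateRow o (φg w)).det ≠ 0) :
    ∃ (θ : (J → ℝ) × (J → J → ℝ)) (C : CurveFlow (J → ℝ)) (Z : Finset (J → ℝ)), ‖θ‖ < η ∧
      C.Γ = {x | ∀ v, v ≠ o → pF G E θ v x = 0} ∧
      C.V = tangent (pG g E' θ) o ∧
      (∀ z ∈ Z, z ∈ C.Γ ∧ φ z = 0 ∧ lf (φg z) (C.V z) ≠ 0) ∧ Z.card = W.card := by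
  classical
  -- the family
  let F : ((J → ℝ) × (J → J → ℝ)) × (J → ℝ) → (J → ℝ) :=
    fun p v => if v = o then φ p.2 else pF G E p.1 v p.2
  have hFC : ContDiff ℝ 1 F := by
    rw [contDiff_pi]
    intro v
    by_cases hv : v = o
    · simp only [F, if_pos hv]
      exact hφC.comp contDiff_snd
    · simp only [F, if_neg hv]
      exact pF_contDiff hGC hEC v
  let Jf : ((J → ℝ) × (J → J → ℝ)) × (J → ℝ) → ℝ := fun p =>
    ((Matrix.of fun v => pG g E' p.1 v p.2).updateRow o (φg p.2)).det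
  have hJfC : Continuous Jf := by
    apply Continuous.matrix_det
    refine continuous_matrix fun v v' => ?_
    by_cases hv : v = o
    · subst hv
      simp only [Matrix.updateRow_self]
      exact (hφg v').comp continuous_snd
    · simp only [Matrix.updateRow_ne hv, Matrix.of_apply]
      exact (pG_contDiff hg hE'C v v').continuous
  have hpG0 : ∀ v x, pG g E' 0 v x = g v x := by
    intro v x
    funext j
    simp [pG]
  have hpF0 : ∀ v x, pF G E 0 v x = G v x := by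
    intro v x
    simp [pF]
  obtain ⟨U, hU, hdisj⟩ := (W : Set (J → ℝ)).toFinite.t2_separation
  have hpers : ∀ w ∈ W, ∀ᶠ θ in 𝓝 (0 : (J → ℝ) × (J → J → ℝ)),
      ∃ w', w' ∈ U w ∧ F (θ, w') = 0 ∧ Jf (θ, w') ≠ 0 := by
    intro w hw
    obtain ⟨hw1, hw2, hdet⟩ := hW w hw
    have hJ0 : Jf (0, w) ≠ 0 := by
      simp only [Jf, hpG0]
      exact hdet
    have hF0 : F (0, w) = 0 := by
      funext v
      by_cases hv : v = o
      · simp only [F, if_pos hv, Pi.zero_apply]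
        exact hw2
      · simp only [F, if_neg hv, Pi.zero_apply, hpF0]
        exact hw1 v hv
    have hinj : ∀ u, fderiv ℝ F (0, w) (0, u) = 0 → u = 0 := by
      intro u hu0
      set M : Matrix J J ℝ := (Matrix.of fun v => g v w).updateRow o (φg w) with hM
      have hg : HasFDerivAt (fun w : J → ℝ => ((0 : (J → ℝ) × (J → J → ℝ)), w))
          (ContinuousLinearMap.inr ℝ _ _) w := hasFDerivAt_prodMk_right _ _
      have h2 : HasFDerivAt F (fderiv ℝ F (0, w)) (0, w) :=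
        ((hFC.contDiffAt).differentiableAt one_ne_zero).hasFDerivAt
      have h3 := h2.comp w hg
      have h4 : HasFDerivAt (F ∘ fun w : J → ℝ =>
          ((0 : (J → ℝ) × (J → J → ℝ)), w)) (clm M) w := by
        rw [hasFDerivAt_pi']
        intro v
        have hrow : (ContinuousLinearMap.proj v).comp (clm M) = lf (M v) := by
          ext x
          rw [ContinuousLinearMap.comp_apply, ContinuousLinearMap.proj_apply, clm_apply, lf_apply]
          rfl
        rw [hrow]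
        by_cases hv : v = o
        · simp only [Function.comp_apply, F, if_pos hv]
          rw [hM, hv, Matrix.updateRow_self]
          exact hφ w
        · simp only [Function.comp_apply, F, if_neg hv, hpF0]
          rw [hM, Matrix.updateRow_ne hv]
          exact hG v w
      have h5 := h3.unique h4
      have h6 : clm M u = 0 := by
        rw [← h5]
        exact hu0
      rw [clm_apply] at h6
      exact Matrix.eq_zero_of_mulVec_eq_zero hdet h6
    have hJev : ∀ᶠ p in 𝓝 ((0 : (J → ℝ) × (J → J → ℝ)), w), Jf p ≠ 0 :=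
      hJfC.continuousAt.eventually_ne hJ0
    rw [nhds_prod_eq] at hJev
    obtain ⟨pa, hpa, pb, hpb, hpab⟩ := Filter.eventually_prod_iff.mp hJev
    have hUw : U w ∩ {w | pb w} ∈ 𝓝 w :=
      Filter.inter_mem ((hU _).2.mem_nhds (hU _).1) hpb
    filter_upwards [persist_param F hFC w hF0 hinj hUw, hpa] with θ hθ hθa
    obtain ⟨w', hw', hF'⟩ := hθ
    exact ⟨w', hw'.1, hF', hpab hθa hw'.2⟩
  -- choice of the parameter
  have hev1 : ∀ᶠ θ in 𝓝 (0 : (J → ℝ) × (J → J → ℝ)),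
      ∀ w ∈ W, ∃ w', w' ∈ U w ∧ F (θ, w') = 0 ∧ Jf (θ, w') ≠ 0 :=
    (Filter.eventually_all_finset W).mpr hpers
  have hev2 : ∀ᶠ θ in 𝓝 (0 : (J → ℝ) × (J → J → ℝ)), ‖θ‖ < η := by
    have := Metric.ball_mem_nhds (0 : (J → ℝ) × (J → J → ℝ)) hη
    filter_upwards [this] with θ hθ
    simpa using hθ
  obtain ⟨θ, hθD, hθ1, hθ2⟩ := (dense_regular_gen o G g hGC hg E E' hEC hE'C
    hne).inter_nhds_nonempty (hev1.and hev2)
  have hreg : ∀ x, (∀ v, v ≠ o → pF G E θ v x = 0) → tangent (pG g E' θ) o x ≠ 0 := by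
    intro x hx
    exact hθD x hx
  obtain ⟨C, hCΓ, hCV⟩ := exists_curveFlow o (pF G E θ) (pG g E' θ)
    (fun v x => pF_hasFDerivAt hG hE θ v x)
    (fun v j => (pG_contDiff hg hE'C v j).comp (contDiff_const.prodMk contDiff_id))
    (hcomp θ hθ2) hreg
  -- the points on the curve
  choose! pθ hpU hpF' hpJ using hθ1
  refine ⟨θ, C, W.image pθ, hθ2, hCΓ, hCV, ?_, ?_⟩
  · intro z hz
    obtain ⟨w, hw, rfl⟩ := Finset.mem_image.mp hz
    have h1 := hpF' w hw
    refine ⟨?_, ?_, ?_⟩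
    · rw [hCΓ]
      intro v hv
      have h2 := congrFun h1 v
      simpa only [F, if_neg hv, Pi.zero_apply] using h2
    · have h2 := congrFun h1 o
      simpa [F] using h2
    · have h2 := hpJ w hw
      rw [hCV, lf_tangent]
      exact h2
  · apply Finset.card_image_of_injOn
    intro p hp q hq hpq
    by_contra hne
    have hd := hdisj hp hq hne
    exact Set.disjoint_left.mp hd (hpU p hp) (by rw [hpq]; exact hpU q hq)

end Fewnomial
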