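import Mathlib
import Pool.Agent.Lib.MP_4cba3d_ag.ExpPoly

/-!
Polynomials in coordinates some of which are exponentials of the variables.
-/

namespace Fewnomial

open MvPolynomial
open scoped Topology

variable {J : Type} [Fintype J] [DecidableEq J] (b : J → Bool)

/-- The coordinates. -/
noncomputable def UU (x : J → ℝ) : J → ℝ := fun v => if b v then Real.exp (x v) else x v

/-- Evaluation. -/
noncomputable def eU (f : MvPolynomial J ℝ) (x : J → ℝ) : ℝ := eval (UU b x) f

/-- The derivative of a coordinate with respect to its variable. -/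
noncomputable def wU (j : J) : MvPolynomial J ℝ := if b j then X j else 1

/-- Partial derivative. -/
noncomputable def dU (j : J) : Derivation ℝ (MvPolynomial J ℝ) (MvPolynomial J ℝ) :=
  mkDerivation ℝ (fun v => if v = j then wU b j else 0)

omit [Fintype J] in
lemma dU_X (i v : J) : dU b i (X v) = if v = i then wU b i else 0 := by simp [dU]

omit [Fintype J] [DecidableEq J] in
lemma wU_totalDegree (j : J) : (wU b j).totalDegree ≤ 1 := by
  unfold wU
  split_ifs <;> simp

omit [Fintype J] in
lemma dU_totalDegree (i : J) (f : MvPolynomial J ℝ) :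
    (dU b i f).totalDegree ≤ f.totalDegree := by
  apply totalDegree_mkDerivation_le
  intro v
  split_ifs
  · exact wU_totalDegree b i
  · simp

omit [Fintype J] [DecidableEq J] in
@[simp] lemma eU_C (r : ℝ) (x : J → ℝ) : eU b (C r) x = r := by simp [eU]
omit [Fintype J] [DecidableEq J] in
@[simp] lemma eU_zero (x : J → ℝ) : eU b 0 x = 0 := by simp [eU]
omit [Fintype J] [DecidableEq J] in
@[simp] lemma eU_one (x : J → ℝ) : eU b 1 x = 1 := by simp [eU]
omit [Fintype J] [DecidableEq J] in
@[simp] lemma eU_add (f g : MvPolynomial J ℝ) (x : J → ℝ) :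
    eU b (f + g) x = eU b f x + eU b g x := by simp [eU]
omit [Fintype J] [DecidableEq J] in
@[simp] lemma eU_sub (f g : MvPolynomial J ℝ) (x : J → ℝ) :
    eU b (f - g) x = eU b f x - eU b g x := by simp [eU]
omit [Fintype J] [DecidableEq J] in
@[simp] lemma eU_mul (f g : MvPolynomial J ℝ) (x : J → ℝ) :
    eU b (f * g) x = eU b f x * eU b g x := by simp [eU]
omit [Fintype J] [DecidableEq J] in
@[simp] lemma eU_pow (f : MvPolynomial J ℝ) (n : ℕ) (x : J → ℝ) :
    eU b (f ^ n) x = eU b f x ^ n := by simp [eU]
omit [Fintype J] [DecidableEq J] in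
@[simp] lemma eU_X (v : J) (x : J → ℝ) : eU b (X v) x = UU b x v := by simp [eU]
omit [Fintype J] [DecidableEq J] in
@[simp] lemma eU_sum {β : Type*} (s : Finset β)
    (f : β → MvPolynomial J ℝ) (x : J → ℝ) :
    eU b (∑ i ∈ s, f i) x = ∑ i ∈ s, eU b (f i) x := by simp [eU]
omit [Fintype J] [DecidableEq J] in
@[simp] lemma eU_prod {β : Type*} (s : Finset β)
    (f : β → MvPolynomial J ℝ) (x : J → ℝ) :
    eU b (∏ i ∈ s, f i) x = ∏ i ∈ s, eU b (f i) x := by simp [eU]

omit [Fintype J] [DecidableEq J] in
lemma eU_det {n : Type*} [Fintype n] [DecidableEq n]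
    (M : Matrix n n (MvPolynomial J ℝ)) (x : J → ℝ) :
    eU b M.det x = (Matrix.of fun i j => eU b (M i j) x).det := by
  rw [eU, RingHom.map_det]
  rfl

/-- The derivative of a coordinate, as a function of the variable. -/
noncomputable def wF (j : J) (s : ℝ) : ℝ := if b j then Real.exp s else 1

omit [Fintype J] [DecidableEq J] in
lemma wF_ne (j : J) (s : ℝ) : wF b j s ≠ 0 := by
  unfold wF
  split_ifs
  · exact (Real.exp_pos s).ne'
  · exact one_ne_zero

omit [Fintype J] [DecidableEq J] in
lemma eU_wU (j : J) (x : J → ℝ) : eU b (wU b j) x = wF b j (x j) := by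
  unfold wU wF
  split_ifs with h
  · simp [UU, h]
  · simp

lemma hasFDerivAt_UU (v : J) (x : J → ℝ) :
    HasFDerivAt (fun y => UU b y v) (lf (fun j => eU b (dU b j (X v)) x)) x := by
  have h2 : (fun j => eU b (dU b j (X v)) x) = fun j => wF b v (x v) * (Pi.single v 1 : J → ℝ) j := by
    funext j
    rw [dU_X]
    by_cases h : v = j
    · subst h
      rw [if_pos rfl, eU_wU, Pi.single_eq_same, mul_one]
    · rw [if_neg h, eU_zero, Pi.single_eq_of_ne (Ne.symm h), mul_zero]
  rw [h2, lf_smul', lf_single]
  have h3 : HasFDerivAt (fun y : J → ℝ => y v)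
      (ContinuousLinearMap.proj (R := ℝ) (φ := fun _ : J => ℝ) v) x :=
    (ContinuousLinearMap.proj (R := ℝ) (φ := fun _ : J => ℝ) v).hasFDerivAt
  by_cases h : b v
  · simp only [UU, wF, h, if_true]
    exact h3.exp
  · simp only [UU, wF, h]
    simpa using h3

/-- The gradient. -/
lemma hasFDerivAt_eU (f : MvPolynomial J ℝ) (x : J → ℝ) :
    HasFDerivAt (eU b f) (lf (fun i => eU b (dU b i f) x)) x := by
  induction f using MvPolynomial.induction_on with
  | C r =>
    have h1 : eU b (C r) = fun _ => r := by funext y; simp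
    have h2 : lf (fun i => eU b (dU b i (C r)) x) = 0 := by
      ext y
      rw [lf_apply]
      simp [derivation_C]
    rw [h1, h2]
    exact hasFDerivAt_const _ _
  | add p q hp hq =>
    have h1 : eU b (p + q) = fun y => eU b p y + eU b q y := by funext y; simp
    have h2 : lf (fun i => eU b (dU b i (p + q)) x) =
        lf (fun i => eU b (dU b i p) x) + lf (fun i => eU b (dU b i q) x) := by
      rw [← lf_add']
      simp
    rw [h1, h2]
    exact hp.add hq
  | mul_X p v hp =>
    have hv : HasFDerivAt (fun y => UU b y v) (lf (fun i => eU b (dU b i (X v)) x)) x :=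
      hasFDerivAt_UU b v x
    have h1 : eU b (p * X v) = fun y => eU b p y * UU b y v := by funext y; simp
    have h2 : lf (fun i => eU b (dU b i (p * X v)) x) =
        eU b p x • lf (fun i => eU b (dU b i (X v)) x) +
          UU b x v • lf (fun i => eU b (dU b i p) x) := by
      rw [← lf_smul', ← lf_smul', ← lf_add']
      congr 1
      funext i
      rw [Derivation.leibniz, eU_add, smul_eq_mul, smul_eq_mul, eU_mul, eU_mul, eU_X]
    rw [h1, h2]
    exact hp.mul hv

omit [DecidableEq J] in
lemma contDiff_eU (f : MvPolynomial J ℝ) {n : WithTop ℕ∞} :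
    ContDiff ℝ n (eU b f) := by
  induction f using MvPolynomial.induction_on with
  | C r =>
    have h1 : eU b (C r) = fun _ => r := by funext y; simp
    rw [h1]
    exact contDiff_const
  | add p q hp hq =>
    have h1 : eU b (p + q) = fun y => eU b p y + eU b q y := by funext y; simp
    rw [h1]
    exact hp.add hq
  | mul_X p v hp =>
    have h1 : eU b (p * X v) = fun y => eU b p y * UU b y v := by funext y; simp
    rw [h1]
    refine hp.mul ?_
    by_cases h : b v
    · simp only [UU, h, if_true]
      exact Real.contDiff_exp.comp (contDiff_apply ℝ ℝ v)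
    · simp only [UU, h]
      exact contDiff_apply ℝ ℝ v

/-- Gradient of a polynomial map in its own coordinates. -/
lemma hasFDerivAt_eval (f : MvPolynomial J ℝ) (x : J → ℝ) :
    HasFDerivAt (fun y => eval y f) (lf (fun i => eval x (pderiv i f))) x := by
  have h := hasFDerivAt_eU (fun _ : J => false) f x
  have e1 : ∀ y : J → ℝ, UU (fun _ : J => false) y = y := fun y => by funext v; simp [UU]
  have e2 : eU (fun _ : J => false) f = fun y => eval y f := by
    funext y
    rw [eU, e1]
  have e3 : ∀ i, dU (fun _ : J => false) i f = pderiv i f := by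
    intro i
    have : dU (fun _ : J => false) i = pderiv i := by
      apply derivation_ext
      intro v
      rw [dU_X, pderiv_X]
      by_cases h : v = i
      · subst h
        simp [wU]
      · rw [if_neg h, Pi.single_eq_of_ne h]
    rw [this]
  rw [e2] at h
  simpa only [e3, eU, e1] using h

omit [Fintype J] in
/-- The relation between the two derivatives. -/
lemma dU_eq (i : J) (f : MvPolynomial J ℝ) : dU b i f = wU b i * pderiv i f := by
  have : dU b i = wU b i • pderiv i := by
    apply derivation_ext
    intro v
    rw [dU_X, Derivation.smul_apply, pderiv_X, smul_eq_mul]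
    by_cases h : v = i
    · subst h
      simp
    · rw [if_neg h, Pi.single_eq_of_ne h, mul_zero]
  rw [this]
  rfl

end Fewnomial
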