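import Mathlib
import Pool.Agent.Lib.MP_4cba3d_ag.LPoly
import Pool.Agent.Lib.MP_4cba3d_ag.LLift

/-!
The compactifying polynomial and mixed systems.
-/

namespace Fewnomial

open MvPolynomial Filter Set
open scoped Topology

variable {J : Type} [Fintype J] [DecidableEq J] (b : J → Bool)

/-- The set of exponential coordinates. -/
def SS : Finset J := Finset.univ.filter (fun v => b v = true)

/-- The compactifying polynomial. -/
noncomputable def Bq (R c : ℝ) (bb : J → ℝ) : MvPolynomial J ℝ :=
  1 + ∑ v ∈ SS b, X v ^ ((SS b).card + 1) + ∑ v ∈ (SS b)ᶜ, X v ^ 2 - C R * ∏ v ∈ SS b, X v -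
    C c - ∑ v, C (bb v) * X v

lemma Bq_totalDegree (R c : ℝ) (bb : J → ℝ) (h : 1 ≤ (SS b).card) :
    (Bq b R c bb).totalDegree ≤ (SS b).card + 1 := by
  unfold Bq
  refine (totalDegree_sub _ _).trans (max_le ((totalDegree_sub _ _).trans (max_le
    ((totalDegree_sub _ _).trans (max_le ((totalDegree_add _ _).trans (max_le
      ((totalDegree_add _ _).trans (max_le ?_ ?_)) ?_)) ?_)) ?_)) ?_)
  · simp
  · refine totalDegree_finsetSum_le fun v _ => ?_
    rw [totalDegree_X_pow]
  · refine totalDegree_finsetSum_le fun v _ => ?_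
    rw [totalDegree_X_pow]
    omega
  · refine (totalDegree_mul _ _).trans ?_
    rw [totalDegree_C, zero_add]
    refine (totalDegree_finsetProd _ _).trans ?_
    simp
  · rw [totalDegree_C]; exact Nat.zero_le _
  · refine totalDegree_finsetSum_le fun v _ => ?_
    refine (totalDegree_mul _ _).trans ?_
    rw [totalDegree_C, totalDegree_X]
    omega

lemma le_one_add_pow {u : ℝ} (hu : 0 ≤ u) (n : ℕ) : u ≤ 1 + u ^ (n + 1) := by
  rcases le_total u 1 with h | h
  · have := pow_nonneg hu (n + 1)
    linarith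
  · have h1 : u ^ 1 ≤ u ^ (n + 1) := pow_le_pow_right₀ h (by omega)
    rw [pow_one] at h1
    linarith

/-- The zero set of the compactifying polynomial is bounded. -/
lemma Bq_bounded (R : ℝ) {η : ℝ} (hη : η * (Fintype.card J + 1) ≤ 1 / 2) (hη0 : 0 ≤ η)
    (hη1 : η ≤ 1 / 2) : ∃ M : ℝ, ∀ (c : ℝ) (bb : J → ℝ), |c| ≤ η → (∀ v, |bb v| ≤ η) →
      ∀ x : J → ℝ, eU b (Bq b R c bb) x = 0 → ∀ v, |x v| ≤ M := by
  set n := (SS b).card with hn
  set A : ℝ := 2 * R + 1 with hA
  refine ⟨Real.sqrt (2 * R * A ^ n) + |Real.log A| + |Real.log (2 * R * A ^ n)|, ?_⟩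
  intro c bb hc hbb x hx
  have hS : ∀ v, v ∈ SS b ↔ b v = true := fun v => by simp [SS]
  have hu : ∀ v ∈ SS b, UU b x v = Real.exp (x v) := fun v hv => by
    simp [UU, (hS v).mp hv]
  have hupos : ∀ v ∈ SS b, 0 < UU b x v := fun v hv => by
    rw [hu v hv]; exact Real.exp_pos _
  have hz : ∀ v ∈ (SS b)ᶜ, UU b x v = x v := fun v hv => by
    rw [Finset.mem_compl, hS] at hv
    simp [UU, hv]
  set S1 := ∑ v ∈ SS b, UU b x v ^ (n + 1) with hS1
  set S2 := ∑ v ∈ (SS b)ᶜ, UU b x v ^ 2 with hS2
  set Pi' := ∏ v ∈ SS b, UU b x v with hPi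
  have hPi0 : 0 < Pi' := Finset.prod_pos hupos
  have hS10 : 0 ≤ S1 := Finset.sum_nonneg fun v hv => pow_nonneg (hupos v hv).le _
  have hS20 : 0 ≤ S2 := Finset.sum_nonneg fun v _ => sq_nonneg _
  have heq : 1 + S1 + S2 - R * Pi' - c - ∑ v, bb v * UU b x v = 0 := by
    rw [← hx, Bq]
    simp only [eU_sub, eU_add, eU_one, eU_sum, eU_pow, eU_X, eU_mul, eU_C, eU_prod]
    rfl
  have hest : ∑ v, bb v * UU b x v ≤ η * (Fintype.card J + S1 + S2) := by
    have h1 : ∀ v ∈ SS b, bb v * UU b x v ≤ η * (1 + UU b x v ^ (n + 1)) := by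
      intro v hv
      have h2 := le_one_add_pow (hupos v hv).le n
      calc bb v * UU b x v ≤ η * UU b x v :=
            mul_le_mul_of_nonneg_right ((le_abs_self _).trans (hbb v)) (hupos v hv).le
        _ ≤ η * (1 + UU b x v ^ (n + 1)) := mul_le_mul_of_nonneg_left h2 hη0
    have h2 : ∀ v ∈ (SS b)ᶜ, bb v * UU b x v ≤ η * (1 + UU b x v ^ 2) := by
      intro v _
      have h3 : |UU b x v| ≤ 1 + UU b x v ^ 2 := by
        have := le_one_add_pow (abs_nonneg (UU b x v)) 1
        rwa [one_add_one_eq_two, sq_abs] at this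
      calc bb v * UU b x v ≤ |bb v * UU b x v| := le_abs_self _
        _ = |bb v| * |UU b x v| := abs_mul _ _
        _ ≤ η * |UU b x v| := mul_le_mul_of_nonneg_right (hbb v) (abs_nonneg _)
        _ ≤ η * (1 + UU b x v ^ 2) := mul_le_mul_of_nonneg_left h3 hη0
    rw [← Finset.sum_add_sum_compl (SS b)]
    have h3 := add_le_add (Finset.sum_le_sum h1) (Finset.sum_le_sum h2)
    refine h3.trans (le_of_eq ?_)
    rw [← Finset.mul_sum, ← Finset.mul_sum, Finset.sum_add_distrib, Finset.sum_add_distrib,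
      Finset.sum_const, Finset.sum_const, nsmul_one, nsmul_one, Finset.card_compl]
    have h4 : (SS b).card ≤ Fintype.card J := Finset.card_le_univ _
    rw [Nat.cast_sub h4]
    ring
  have hmain : (1 + S1 + S2) / 2 ≤ R * Pi' := by
    have h1 := (le_abs_self c).trans hc
    have h2 : η * (Fintype.card J + S1 + S2) = η * (Fintype.card J + 1) - η + η * (S1 + S2) := by
      ring
    have h3 : η * (S1 + S2) ≤ 1 / 2 * (S1 + S2) :=
      mul_le_mul_of_nonneg_right hη1 (add_nonneg hS10 hS20)
    linarith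
  have hR : 0 < R := by
    by_contra hcon
    push Not at hcon
    have := mul_nonpos_of_nonpos_of_nonneg hcon hPi0.le
    linarith
  have hA1 : 1 ≤ A := by rw [hA]; linarith
  have hub : ∀ v ∈ SS b, UU b x v ≤ A := by
    intro v hv
    obtain ⟨w, hw, hmax⟩ := Finset.exists_max_image (SS b) (fun v => UU b x v) ⟨v, hv⟩
    refine (hmax v hv).trans ?_
    have h1 : Pi' ≤ UU b x w ^ n := by
      rw [hPi, hn]
      calc ∏ v ∈ SS b, UU b x v ≤ ∏ v ∈ SS b, UU b x w :=
            Finset.prod_le_prod (fun v hv => (hupos v hv).le) hmax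
        _ = UU b x w ^ (SS b).card := by rw [Finset.prod_const]
    have h2 : UU b x w ^ (n + 1) ≤ S1 :=
      Finset.single_le_sum (f := fun v => UU b x v ^ (n + 1))
        (fun v hv => pow_nonneg (hupos v hv).le _) hw
    have h3 : UU b x w * UU b x w ^ n ≤ 2 * R * UU b x w ^ n := by
      calc UU b x w * UU b x w ^ n = UU b x w ^ (n + 1) := by rw [pow_succ']
        _ ≤ S1 := h2
        _ ≤ 2 * (R * Pi') := by linarith
        _ ≤ 2 * (R * UU b x w ^ n) := by
            have := mul_le_mul_of_nonneg_left h1 hR.le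
            linarith
        _ = 2 * R * UU b x w ^ n := by ring
    have h4 := le_of_mul_le_mul_right h3 (pow_pos (hupos w hw) n)
    rw [hA]
    linarith
  have hPiA : Pi' ≤ A ^ n := by
    calc Pi' ≤ ∏ v ∈ SS b, A := Finset.prod_le_prod (fun v hv => (hupos v hv).le) hub
      _ = A ^ n := by rw [Finset.prod_const]
  have hRA : 0 < 2 * R * A ^ n := by positivity
  intro v
  by_cases hv : v ∈ SS b
  · have h1 : x v ≤ Real.log A := by
      rw [Real.le_log_iff_exp_le (by linarith), ← hu v hv]
      exact hub v hv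
    have h2 : -Real.log (2 * R * A ^ n) ≤ x v := by
      rw [neg_le, ← Real.log_exp (-(x v))]
      apply Real.log_le_log (Real.exp_pos _)
      rw [Real.exp_neg, ← hu v hv, inv_le_iff_one_le_mul₀ (hupos v hv)]
      have h3 : Pi' ≤ UU b x v * A ^ n := by
        rw [hPi, ← Finset.mul_prod_erase (SS b) _ hv]
        apply mul_le_mul_of_nonneg_left _ (hupos v hv).le
        calc ∏ w ∈ (SS b).erase v, UU b x w ≤ ∏ w ∈ (SS b).erase v, A :=
              Finset.prod_le_prod (fun w hw => (hupos w (Finset.mem_of_mem_erase hw)).le)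
                (fun w hw => hub w (Finset.mem_of_mem_erase hw))
          _ = A ^ ((SS b).erase v).card := by rw [Finset.prod_const]
          _ ≤ A ^ n := pow_le_pow_right₀ hA1 (Finset.card_le_card (Finset.erase_subset _ _))
      have h4 : R * Pi' ≤ R * (UU b x v * A ^ n) := mul_le_mul_of_nonneg_left h3 hR.le
      linarith
    have h3 := le_abs_self (Real.log A)
    have h4 := le_abs_self (Real.log (2 * R * A ^ n))
    have h5 := Real.sqrt_nonneg (2 * R * A ^ n)
    have h6 := abs_nonneg (Real.log A)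
    have h7 := abs_nonneg (Real.log (2 * R * A ^ n))
    rw [abs_le]
    constructor <;> linarith
  · have hv' : v ∈ (SS b)ᶜ := Finset.mem_compl.mpr hv
    have h1 : x v ^ 2 ≤ 2 * R * A ^ n := by
      have h2 : UU b x v ^ 2 ≤ S2 :=
        Finset.single_le_sum (f := fun v => UU b x v ^ 2) (fun _ _ => sq_nonneg _) hv'
      rw [hz v hv'] at h2
      have h3 : R * Pi' ≤ R * A ^ n := mul_le_mul_of_nonneg_left hPiA hR.le
      linarith
    have h2 := Real.abs_le_sqrt h1
    have h6 := abs_nonneg (Real.log A)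
    have h7 := abs_nonneg (Real.log (2 * R * A ^ n))
    linarith

/-! ### Mixed systems -/

variable (Λ : Finset J)

/-- The functions of a mixed system: linear for indices in `Λ`, polynomial otherwise. -/
noncomputable def mF (P : J → MvPolynomial J ℝ) (κ : J → ℝ) (lam : J → J → ℝ) (v : J)
    (x : J → ℝ) : ℝ := if v ∈ Λ then ∑ j, lam v j * x j - κ v else eU b (P v) x

/-- The gradients of a mixed system. -/
noncomputable def mG (P : J → MvPolynomial J ℝ) (lam : J → J → ℝ) (v : J)
    (x : J → ℝ) (j : J) : ℝ := if v ∈ Λ then lam v j else eU b (dU b j (P v)) x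

/-- The perturbing functions. -/
noncomputable def mE (v j : J) (s : ℝ) : ℝ :=
  if v ∈ Λ then s else if b j then Real.exp s else s

/-- Their derivatives. -/
noncomputable def mE' (v j : J) (s : ℝ) : ℝ := if v ∈ Λ then 1 else wF b j s

/-- Perturbed polynomials. -/
noncomputable def pP (P : J → MvPolynomial J ℝ) (θ : (J → ℝ) × (J → J → ℝ)) (v : J) :
    MvPolynomial J ℝ := P v - C (θ.1 v) - ∑ j, C (θ.2 v j) * X j

omit [DecidableEq J] in
lemma pP_totalDegree {P : J → MvPolynomial J ℝ} (θ : (J → ℝ) × (J → J → ℝ)) {v : J}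
    {m : ℕ} (hm : 1 ≤ m) (hP : (P v).totalDegree ≤ m) : (pP P θ v).totalDegree ≤ m := by
  rw [pP]
  refine (totalDegree_sub _ _).trans (max_le ((totalDegree_sub _ _).trans (max_le hP ?_)) ?_)
  · rw [totalDegree_C]; exact Nat.zero_le _
  · refine totalDegree_finsetSum_le fun v' _ => ?_
    refine (totalDegree_mul _ _).trans ?_
    rw [totalDegree_C, totalDegree_X]
    omega

lemma pP_Bq {P : J → MvPolynomial J ℝ} (θ : (J → ℝ) × (J → J → ℝ)) {s : J} {R c : ℝ}
    {bb : J → ℝ} (hP : P s = Bq b R c bb) :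
    pP P θ s = Bq b R (c + θ.1 s) (fun v => bb v + θ.2 s v) := by
  rw [pP, hP, Bq, Bq]
  simp only [map_add, add_mul, Finset.sum_add_distrib]
  ring

lemma pF_mF (P : J → MvPolynomial J ℝ) (κ : J → ℝ) (lam : J → J → ℝ)
    (θ : (J → ℝ) × (J → J → ℝ)) (v : J) (x : J → ℝ) :
    pF (mF b Λ P κ lam) (mE b Λ) θ v x =
      mF b Λ (pP P θ) (fun v => κ v + θ.1 v) (fun v j => lam v j - θ.2 v j) v x := by
  unfold pF mF mE
  by_cases h : v ∈ Λ
  · simp only [h, if_true, sub_mul, Finset.sum_sub_distrib]
    ring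
  · simp only [h, if_false, pP, eU_sub, eU_C, eU_sum, eU_mul, eU_X]
    rfl

lemma pG_mG (P : J → MvPolynomial J ℝ) (lam : J → J → ℝ)
    (θ : (J → ℝ) × (J → J → ℝ)) (v : J) (x : J → ℝ) (j : J) :
    pG (mG b Λ P lam) (mE' b Λ) θ v x j =
      mG b Λ (pP P θ) (fun v j => lam v j - θ.2 v j) v x j := by
  unfold pG mG mE'
  by_cases h : v ∈ Λ
  · simp only [h, if_true]
    ring
  · simp only [h, if_false, pP, map_sub, map_sum, derivation_C, eU_sub, eU_sum, sub_zero]
    congr 1
    rw [Finset.sum_eq_single j]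
    · rw [Derivation.leibniz, derivation_C, smul_zero, add_zero, dU_X, if_pos rfl, smul_eq_mul,
        eU_mul, eU_C, eU_wU]
    · intro i _ hi
      rw [Derivation.leibniz, derivation_C, smul_zero, add_zero, dU_X, if_neg hi, smul_zero,
        eU_zero]
    · simp

lemma mF_hasFDerivAt (P : J → MvPolynomial J ℝ) (κ : J → ℝ) (lam : J → J → ℝ) (v : J)
    (x : J → ℝ) : HasFDerivAt (mF b Λ P κ lam v) (lf (mG b Λ P lam v x)) x := by
  by_cases h : v ∈ Λ
  · have e1 : mF b Λ P κ lam v = fun y => lf (lam v) y - κ v := by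
      funext y
      simp only [mF, h, if_true, lf_apply]
    have e2 : mG b Λ P lam v x = lam v := by
      funext j
      simp only [mG, h, if_true]
    rw [e1, e2]
    exact (lf (lam v)).hasFDerivAt.sub_const _
  · have e1 : mF b Λ P κ lam v = eU b (P v) := by
      funext y
      simp only [mF, h, if_false]
    have e2 : mG b Λ P lam v x = fun j => eU b (dU b j (P v)) x := by
      funext j
      simp only [mG, h, if_false]
    rw [e1, e2]
    exact hasFDerivAt_eU b (P v) x

lemma mF_contDiff (P : J → MvPolynomial J ℝ) (κ : J → ℝ) (lam : J → J → ℝ) (v : J) :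
    ContDiff ℝ 1 (mF b Λ P κ lam v) := by
  by_cases h : v ∈ Λ
  · have e1 : mF b Λ P κ lam v = fun y => lf (lam v) y - κ v := by
      funext y
      simp only [mF, h, if_true, lf_apply]
    rw [e1]
    exact (lf (lam v)).contDiff.sub contDiff_const
  · have e1 : mF b Λ P κ lam v = eU b (P v) := by
      funext y
      simp only [mF, h, if_false]
    rw [e1]
    exact contDiff_eU b (P v)

lemma mG_contDiff (P : J → MvPolynomial J ℝ) (lam : J → J → ℝ) (v j : J) :
    ContDiff ℝ 1 (fun x => mG b Λ P lam v x j) := by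
  by_cases h : v ∈ Λ
  · simp only [mG, h, if_true]
    exact contDiff_const
  · simp only [mG, h, if_false]
    exact contDiff_eU b _

omit [Fintype J] in
lemma mE_hasDerivAt (v j : J) (s : ℝ) : HasDerivAt (mE b Λ v j) (mE' b Λ v j s) s := by
  unfold mE mE' wF
  by_cases h : v ∈ Λ
  · simp only [h, if_true]
    exact hasDerivAt_id s
  · simp only [h, if_false]
    by_cases h' : b j
    · simp only [h', if_true]
      exact Real.hasDerivAt_exp s
    · simp only [h', Bool.false_eq_true, if_false]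
      exact hasDerivAt_id s

omit [Fintype J] in
lemma mE_contDiff (v j : J) : ContDiff ℝ 1 (mE b Λ v j) := by
  unfold mE
  by_cases h : v ∈ Λ
  · simp only [h, if_true]
    exact contDiff_id
  · simp only [h, if_false]
    by_cases h' : b j
    · simp only [h', if_true]
      exact Real.contDiff_exp
    · simp only [h', Bool.false_eq_true, if_false]
      exact contDiff_id

omit [Fintype J] in
lemma mE'_contDiff (v j : J) : ContDiff ℝ 1 (mE' b Λ v j) := by
  unfold mE' wF
  by_cases h : v ∈ Λ
  · simp only [h, if_true]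
    exact contDiff_const
  · simp only [h, if_false]
    by_cases h' : b j
    · simp only [h', if_true]
      exact Real.contDiff_exp
    · simp only [h', Bool.false_eq_true, if_false]
      exact contDiff_const

omit [Fintype J] in
lemma mE'_ne (v j : J) (s : ℝ) : mE' b Λ v j s ≠ 0 := by
  unfold mE'
  split_ifs
  · exact one_ne_zero
  · exact wF_ne b j s

end Fewnomial
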