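import Mathlib
import Pool.Agent.Lib.MP_4cba3d_ag.LComp
import Pool.Agent.Lib.MP_4cba3d_ag.Bezout

/-!
A Khovanskii-type bound for mixed systems: polynomial equations in the exponentials, linear
equations in the variables, one of the polynomial equations being compactifying.
-/

namespace Fewnomial

open MvPolynomial Filter Set
open scoped Topology

variable {J : Type} [Fintype J] [DecidableEq J] (b : J → Bool)

/-- Nondegenerate zeros of mixed systems. -/
def mNondeg (Λ : Finset J) (P : J → MvPolynomial J ℝ) (κ : J → ℝ) (lam : J → J → ℝ)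
    (z : J → ℝ) : Prop :=
  (∀ v, mF b Λ P κ lam v z = 0) ∧ (Matrix.of fun v => mG b Λ P lam v z).det ≠ 0

omit [Fintype J] [DecidableEq J] in
lemma UU_injective : Function.Injective (UU b) := by
  intro x y h
  funext v
  have h1 := congrFun h v
  unfold UU at h1
  by_cases hb : b v
  · simp only [hb, if_true] at h1
    exact Real.exp_injective h1
  · simpa [hb] using h1

/-- The case of no linear equation. -/
lemma mixed_bound_zero (P : J → MvPolynomial J ℝ) (κ : J → ℝ) (lam : J → J → ℝ)
    (deg : J → ℕ) (hdeg : ∀ v, 1 ≤ deg v) (hP : ∀ v, (P v).totalDegree ≤ deg v)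
    (Z : Finset (J → ℝ)) (hZ : ∀ z ∈ Z, mNondeg b ∅ P κ lam z) : Z.card ≤ ∏ v, deg v := by
  classical
  rw [← Finset.card_image_of_injective Z (UU_injective b)]
  refine bezout hdeg hP _ (fun u => Matrix.of fun i j => eval u (pderiv j (P i))) ?_
  intro u hu
  obtain ⟨z, hz, rfl⟩ := Finset.mem_image.mp hu
  obtain ⟨h1, h2⟩ := hZ z hz
  refine ⟨fun i => ?_, ?_, ?_⟩
  · have := h1 i
    simpa [mF, eU] using this
  · rw [hasStrictFDerivAt_pi']
    intro i
    have hrow : (ContinuousLinearMap.proj i).comp
        (clm (Matrix.of fun i j => eval (UU b z) (pderiv j (P i)))) =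
        lf (fun j => eval (UU b z) (pderiv j (P i))) := by
      ext x
      rw [ContinuousLinearMap.comp_apply, ContinuousLinearMap.proj_apply, clm_apply, lf_apply]
      rfl
    rw [hrow]
    exact hasStrictFDerivAt_of_lf (hasFDerivAt_eval (P i))
      (fun j => MvPolynomial.continuous_eval _) (UU b z)
  · intro hdet
    apply h2
    have h3 : (Matrix.of fun v => mG b ∅ P lam v z) =
        (Matrix.of fun i j => eval (UU b z) (pderiv j (P i))) *
          Matrix.diagonal (fun j => wF b j (z j)) := by
      ext i j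
      rw [Matrix.mul_diagonal, Matrix.of_apply, Matrix.of_apply]
      simp only [mG, Finset.notMem_empty, if_false]
      rw [dU_eq, eU_mul, eU_wU]
      show _ * eval (UU b z) (pderiv j (P i)) = _
      ring
    rw [h3, Matrix.det_mul, hdet, zero_mul]

/-- The bound for mixed systems. -/
theorem mixed_bound : ∀ (m : ℕ) (Λ : Finset J), Λ.card = m → ∀ (P : J → MvPolynomial J ℝ)
    (κ : J → ℝ) (lam : J → J → ℝ) (deg : J → ℕ) (s : J), s ∉ Λ → ∀ (R c : ℝ) (bb : J → ℝ)
    (r η : ℝ), (∀ v, 1 ≤ deg v) → (∀ v, v ∉ Λ → (P v).totalDegree ≤ deg v) →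
    P s = Bq b R c bb → η * (Fintype.card J + 1) ≤ 1 / 2 → η ≤ 1 / 2 → r < η → 0 ≤ r →
    |c| ≤ r → (∀ v, |bb v| ≤ r) → ∀ Z : Finset (J → ℝ), (∀ z ∈ Z, mNondeg b Λ P κ lam z) →
    Z.card ≤ (∏ v ∈ Λᶜ, deg v) * (∑ v ∈ Λᶜ, deg v) ^ m * 2 ^ (m.choose 2) := by
  intro m
  induction m with
  | zero =>
    intro Λ hΛ P κ lam deg s _ R c bb r η hdeg hP _ _ _ _ _ _ _ Z hZ
    have hΛ0 : Λ = ∅ := Finset.card_eq_zero.mp hΛ
    subst hΛ0
    have := mixed_bound_zero b P κ lam deg hdeg (fun v => hP v (Finset.notMem_empty v)) Z hZ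
    simpa using this
  | succ m ih =>
    intro Λ hΛ P κ lam deg s hs R c bb r η hdeg hP hPs hη hη2 hr hr0 hc hbb Z hZ
    obtain ⟨o, ho⟩ : Λ.Nonempty := by
      rw [← Finset.card_pos, hΛ]
      exact Nat.succ_pos m
    have hso : s ≠ o := fun h => hs (h ▸ ho)
    set δ := (η - r) / 2 with hδ
    have hδ0 : 0 < δ := by rw [hδ]; linarith
    have hη0 : 0 ≤ η := hr0.trans hr.le
    have hθbound : ∀ θ : (J → ℝ) × (J → J → ℝ), ‖θ‖ < δ →
        |c + θ.1 s| ≤ r + δ ∧ ∀ v, |bb v + θ.2 s v| ≤ r + δ := by
      intro θ hθ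
      constructor
      · have h1 : ‖θ.1 s‖ ≤ ‖θ‖ := (norm_le_pi_norm _ _).trans (norm_fst_le θ)
        rw [Real.norm_eq_abs] at h1
        exact (abs_add_le _ _).trans (by linarith)
      · intro v
        have h1 : ‖θ.2 s v‖ ≤ ‖θ‖ :=
          (norm_le_pi_norm _ _).trans ((norm_le_pi_norm _ _).trans (norm_snd_le θ))
        rw [Real.norm_eq_abs] at h1
        exact (abs_add_le _ _).trans (by have := hbb v; linarith)
    obtain ⟨M, hM⟩ := Bq_bounded b R hη hη0 hη2
    have hcomp : ∀ θ : (J → ℝ) × (J → J → ℝ), ‖θ‖ < δ →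
        IsCompact {x | ∀ v, v ≠ o → pF (mF b Λ P κ lam) (mE b Λ) θ v x = 0} := by
      intro θ hθ
      apply Metric.isCompact_of_isClosed_isBounded
      · have e : {x | ∀ v, v ≠ o → pF (mF b Λ P κ lam) (mE b Λ) θ v x = 0} =
            ⋂ v, ⋂ (_ : v ≠ o), {x | pF (mF b Λ P κ lam) (mE b Λ) θ v x = 0} := by
          ext w; simp
        rw [e]
        refine isClosed_iInter fun v => isClosed_iInter fun _ => isClosed_eq ?_ continuous_const
        exact ((pF_contDiff (mF_contDiff b Λ P κ lam) (mE_contDiff b Λ) v).comp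
          (contDiff_const.prodMk contDiff_id)).continuous
      · refine (Metric.isBounded_closedBall (x := (0 : J → ℝ)) (r := max M 0)).subset ?_
        intro x hx
        have h1 := hx s hso
        rw [pF_mF] at h1
        simp only [mF, hs, if_false] at h1
        rw [pP_Bq b θ hPs] at h1
        have h2 := hM _ _ ((hθbound θ hθ).1.trans (by rw [hδ]; linarith))
          (fun v => ((hθbound θ hθ).2 v).trans (by rw [hδ]; linarith)) x h1
        rw [mem_closedBall_zero_iff, pi_norm_le_iff_of_nonneg (le_max_right _ _)]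
        intro v
        rw [Real.norm_eq_abs]
        exact (h2 v).trans (le_max_left _ _)
    have hφe : (fun x : J → ℝ => lf (lam o) x - κ o) = mF b Λ P κ lam o := by
      funext x
      simp only [mF, ho, if_true, lf_apply]
    obtain ⟨θ, C₀, Z1, hθ, hΓ, hV, hZ1, hZ1c⟩ := exists_curve_gen o (mF b Λ P κ lam)
      (mG b Λ P lam) (mF_hasFDerivAt b Λ P κ lam) (mF_contDiff b Λ P κ lam)
      (mG_contDiff b Λ P lam) (mE b Λ) (mE' b Λ) (mE_hasDerivAt b Λ) (mE_contDiff b Λ)
      (mE'_contDiff b Λ) (mE'_ne b Λ) hδ0 hcomp (fun x => lf (lam o) x - κ o) (fun _ => lam o)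
      (fun x => (lf (lam o)).hasFDerivAt.sub_const _) ((lf (lam o)).contDiff.sub contDiff_const)
      (fun j => continuous_const) Z (by
        intro w hw
        obtain ⟨h1, h2⟩ := hZ w hw
        refine ⟨fun v _ => h1 v, ?_, ?_⟩
        · have := h1 o
          rw [← hφe] at this
          exact this
        · have h3 : (Matrix.of fun v => mG b Λ P lam v w).updateRow o (lam o) =
              Matrix.of fun v => mG b Λ P lam v w := by
            ext v j
            by_cases hv : v = o
            · subst hv
              rw [Matrix.updateRow_self, Matrix.of_apply]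
              simp only [mG, ho, if_true]
            · rw [Matrix.updateRow_ne hv]
          rw [h3]
          exact h2)
    set lam' : J → J → ℝ := fun v j => lam v j - θ.2 v j with hlam'
    set κ' : J → ℝ := fun v => κ v + θ.1 v with hκ'
    set S := ∑ v ∈ Λᶜ, deg v with hS
    set Jp : MvPolynomial J ℝ := (Matrix.of fun v j : J => if v = o then C (lam o j) else
      if v ∈ Λ then C (lam' v j) else dU b j (pP P θ v)).det with hJp
    have hJpdeg : Jp.totalDegree ≤ S := by
      refine (totalDegree_det_le _ (fun v => if v ∈ Λ then 0 else deg v) (fun _ => 0) ?_).trans ?_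
      · intro v j
        rw [Matrix.of_apply]
        by_cases hv : v = o
        · subst hv
          simp
        · rw [if_neg hv]
          by_cases hvΛ : v ∈ Λ
          · simp [hvΛ]
          · simp only [hvΛ, if_false, add_zero]
            exact (dU_totalDegree b j _).trans (pP_totalDegree θ (hdeg v) (hP v hvΛ))
      · rw [Finset.sum_const_zero, add_zero, hS, ← Finset.sum_add_sum_compl Λ]
        have e1 : ∑ v ∈ Λ, (if v ∈ Λ then 0 else deg v) = 0 :=
          Finset.sum_eq_zero fun v hv => if_pos hv
        have e2 : ∑ v ∈ Λᶜ, (if v ∈ Λ then 0 else deg v) = ∑ v ∈ Λᶜ, deg v :=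
          Finset.sum_congr rfl fun v hv => if_neg (Finset.mem_compl.mp hv)
        rw [e1, e2, zero_add]
    have hJev : ∀ x, lf (lam o) (C₀.V x) = eU b Jp x := by
      intro x
      rw [hV, lf_tangent, hJp, eU_det]
      congr 1
      ext v j
      by_cases hv : v = o
      · subst hv
        rw [Matrix.updateRow_self, Matrix.of_apply, Matrix.of_apply, if_pos rfl, eU_C]
      · rw [Matrix.updateRow_ne hv, Matrix.of_apply, Matrix.of_apply, Matrix.of_apply, if_neg hv,
          pG_mG]
        by_cases hvΛ : v ∈ Λ
        · simp only [mG, hvΛ, if_true, eU_C]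
          rfl
        · simp only [mG, hvΛ, if_false]
    have hFD1 : C₀.FD (fun x => lf (lam o) x - κ o) (fun x => 1 * eU b Jp x) := by
      have h1 := fd_of_hasFDerivAt C₀ (f := fun x => lf (lam o) x - κ o) (g := fun _ => lam o)
        (fun x => (lf (lam o)).hasFDerivAt.sub_const _)
      simp only [hJev] at h1
      simpa only [one_mul] using h1
    have hFD2 : C₀.FD (eU b Jp) (fun x => lf (fun v => eU b (dU b v Jp) x) (C₀.V x)) :=
      fd_of_hasFDerivAt C₀ (fun x => hasFDerivAt_eU b Jp x)
    obtain ⟨ε, Z', hZ', hcard⟩ := C₀.rolle_khovanskii hFD1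
      ((lf (lam o)).continuous.sub continuous_const).continuousOn
      (fun _ _ => one_pos) hFD2 Z1 (by
        intro z hz
        obtain ⟨h1, h2, h3⟩ := hZ1 z hz
        refine ⟨h1, h2, ?_⟩
        rw [hJev] at h3
        exact h3)
    -- the new system
    set P' : J → MvPolynomial J ℝ := fun v => if v = o then Jp - C ε else pP P θ v with hP'
    have hmemΛ : ∀ v, v ≠ o → (v ∈ Λ.erase o ↔ v ∈ Λ) := fun v hv => by
      rw [Finset.mem_erase]
      exact ⟨fun h => h.2, fun h => ⟨hv, h⟩⟩
    have ho' : o ∉ Λ.erase o := Finset.notMem_erase o Λ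
    have hmFo : ∀ x, mF b (Λ.erase o) P' κ' lam' o x = eU b Jp x - ε := by
      intro x
      simp only [mF, ho', if_false, hP', if_true, eU_sub, eU_C]
    have hmFv : ∀ v, v ≠ o → ∀ x, mF b (Λ.erase o) P' κ' lam' v x =
        pF (mF b Λ P κ lam) (mE b Λ) θ v x := by
      intro v hv x
      rw [pF_mF]
      simp only [mF, hP', hmemΛ v hv, if_neg hv, hκ', hlam']
    have hmGo : ∀ x, mG b (Λ.erase o) P' lam' o x = fun j => eU b (dU b j Jp) x := by
      intro x
      funext j
      simp only [mG, ho', if_false, hP', if_true, map_sub, derivation_C, sub_zero]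
    have hmGv : ∀ v, v ≠ o → ∀ x, mG b (Λ.erase o) P' lam' v x =
        pG (mG b Λ P lam) (mE' b Λ) θ v x := by
      intro v hv x
      funext j
      rw [pG_mG]
      simp only [mG, hP', hmemΛ v hv, if_neg hv, hlam']
    have hkey := ih (Λ.erase o) (by rw [Finset.card_erase_of_mem ho, hΛ]; rfl) P' κ' lam'
      (Function.update deg o S) s (fun h => hs (Finset.mem_of_mem_erase h)) R (c + θ.1 s)
      (fun v => bb v + θ.2 s v) (r + δ) η (by
        intro v
        by_cases hv : v = o
        · subst hv
          rw [Function.update_self, hS]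
          exact (hdeg s).trans (Finset.single_le_sum (f := deg) (fun _ _ => Nat.zero_le _)
            (Finset.mem_compl.mpr hs))
        · rw [Function.update_of_ne hv]
          exact hdeg v) (by
        intro v hv
        by_cases hvo : v = o
        · subst hvo
          rw [Function.update_self]
          simp only [hP', if_true]
          refine (totalDegree_sub _ _).trans (max_le hJpdeg ?_)
          rw [totalDegree_C]; exact Nat.zero_le _
        · rw [Function.update_of_ne hvo]
          simp only [hP', if_neg hvo]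
          rw [hmemΛ v hvo] at hv
          exact pP_totalDegree θ (hdeg v) (hP v hv)) (by
        simp only [hP', if_neg hso]
        exact pP_Bq b θ hPs) hη hη2 (by rw [hδ]; linarith) (by linarith)
      (hθbound θ hθ).1 (hθbound θ hθ).2 Z' (by
        intro z hz
        obtain ⟨h1, h2, h3⟩ := hZ' z hz
        rw [hΓ] at h1
        refine ⟨?_, ?_⟩
        · intro v
          by_cases hv : v = o
          · subst hv
            rw [hmFo, h2, sub_self]
          · rw [hmFv v hv]
            exact h1 v hv
        · rw [hV, lf_tangent] at h3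
          have h4 : (Matrix.of fun v => mG b (Λ.erase o) P' lam' v z) =
              (Matrix.of fun v => pG (mG b Λ P lam) (mE' b Λ) θ v z).updateRow o
                (fun j => eU b (dU b j Jp) z) := by
            ext v j
            by_cases hv : v = o
            · subst hv
              rw [Matrix.updateRow_self, Matrix.of_apply, hmGo]
            · rw [Matrix.updateRow_ne hv, Matrix.of_apply, hmGv v hv]
              rfl
          rw [h4]
          exact h3)
    have hprod : ∏ v ∈ (Λ.erase o)ᶜ, Function.update deg o S v = S * ∏ v ∈ Λᶜ, deg v := by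
      rw [Finset.compl_erase, Finset.prod_insert (by simpa using ho), Function.update_self]
      congr 1
      refine Finset.prod_congr rfl fun v hv => ?_
      rw [Function.update_of_ne]
      rintro rfl
      exact (Finset.mem_compl.mp hv) ho
    have hsum : ∑ v ∈ (Λ.erase o)ᶜ, Function.update deg o S v = 2 * S := by
      rw [Finset.compl_erase, Finset.sum_insert (by simpa using ho), Function.update_self, two_mul]
      congr 1
      rw [hS]
      refine Finset.sum_congr rfl fun v hv => ?_
      rw [Function.update_of_ne]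
      rintro rfl
      exact (Finset.mem_compl.mp hv) ho
    rw [hprod, hsum] at hkey
    have h4 : (m + 1).choose 2 = m + m.choose 2 := by
      rw [Nat.choose_succ_succ' m 1, Nat.choose_one_right]
    calc Z.card = Z1.card := hZ1c.symm
      _ ≤ Z'.card := hcard
      _ ≤ S * (∏ v ∈ Λᶜ, deg v) * (2 * S) ^ m * 2 ^ m.choose 2 := hkey
      _ = (∏ v ∈ Λᶜ, deg v) * S ^ (m + 1) * 2 ^ ((m + 1).choose 2) := by
        rw [h4]
        ring

end Fewnomial
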