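import Mathlib
import Pool.Agent.Lib.MP_4cba3d_ag.Perturb
import Pool.Agent.Lib.MP_4cba3d_ag.LPoly

/-!
Jets of exponentials times polynomials in the coordinates `UU b`, and generic perturbations with
simple Wronskian zeros.
-/

namespace Fewnomial

open MvPolynomial Filter Set
open scoped Topology

variable {J : Type} [Fintype J] [DecidableEq J] (b : J → Bool)

/-- The derivative along the field `𝒱` of `mu β * q`, divided by `mu β`. -/
noncomputable def TopU (𝒱 : J → MvPolynomial J ℝ) (β : J → ℝ) :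
    Module.End ℝ (MvPolynomial J ℝ) :=
  ∑ v, (LinearMap.mulLeft ℝ (𝒱 v)).comp (dU b v).toLinearMap +
    LinearMap.mulLeft ℝ (∑ v, C (β v) * 𝒱 v)

lemma TopU_apply (𝒱 : J → MvPolynomial J ℝ) (β : J → ℝ) (q : MvPolynomial J ℝ) :
    TopU b 𝒱 β q = ∑ v, 𝒱 v * dU b v q + (∑ v, C (β v) * 𝒱 v) * q := by
  simp [TopU, LinearMap.sum_apply]

lemma TopU_totalDegree {𝒱 : J → MvPolynomial J ℝ} (β : J → ℝ) {D : ℕ}
    (h𝒱 : ∀ v, (𝒱 v).totalDegree ≤ D) (q : MvPolynomial J ℝ) (i : ℕ) :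
    ((TopU b 𝒱 β ^ i) q).totalDegree ≤ q.totalDegree + D * i := by
  induction i with
  | zero => simp
  | succ i ih =>
    rw [pow_succ', Module.End.mul_apply, TopU_apply]
    refine (totalDegree_add _ _).trans (max_le ?_ ?_)
    · refine totalDegree_finsetSum_le fun v _ => ?_
      refine (totalDegree_mul _ _).trans ?_
      have h1 := dU_totalDegree b v ((TopU b 𝒱 β ^ i) q)
      have h2 := h𝒱 v
      have h3 : D * (i + 1) = D * i + D := by ring
      omega
    · refine (totalDegree_mul _ _).trans ?_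
      have h1 : (∑ v, C (β v) * 𝒱 v).totalDegree ≤ D := by
        refine totalDegree_finsetSum_le fun v _ => ?_
        refine (totalDegree_mul _ _).trans ?_
        rw [totalDegree_C, zero_add]
        exact h𝒱 v
      have h3 : D * (i + 1) = D * i + D := by ring
      omega

/-- The jets of `mu β * q`. -/
noncomputable def jetU (𝒱 : J → MvPolynomial J ℝ) (β : J → ℝ)
    (q : MvPolynomial J ℝ) (i : ℕ) (x : J → ℝ) : ℝ :=
  mu β x * eU b ((TopU b 𝒱 β ^ i) q) x

lemma jetU_zero (𝒱 : J → MvPolynomial J ℝ) (β : J → ℝ)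
    (q : MvPolynomial J ℝ) (x : J → ℝ) : jetU b 𝒱 β q 0 x = mu β x * eU b q x := by
  simp [jetU]

lemma jetU_continuous (𝒱 : J → MvPolynomial J ℝ) (β : J → ℝ)
    (q : MvPolynomial J ℝ) (i : ℕ) : Continuous (jetU b 𝒱 β q i) :=
  (mu_continuous β).mul (contDiff_eU b _ (n := 0)).continuous

lemma jetU_FD (C₀ : CurveFlow (J → ℝ)) (𝒱 : J → MvPolynomial J ℝ)
    (hV : ∀ x v, C₀.V x v = eU b (𝒱 v) x) (β : J → ℝ) (q : MvPolynomial J ℝ) (i : ℕ) :
    C₀.FD (jetU b 𝒱 β q i) (jetU b 𝒱 β q (i + 1)) := by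
  intro p hp
  set r := (TopU b 𝒱 β ^ i) q with hr
  have h1 : HasFDerivAt (jetU b 𝒱 β q i)
      (mu β (C₀.γ p 0) • lf (fun v => eU b (dU b v r) (C₀.γ p 0)) +
        eU b r (C₀.γ p 0) • (mu β (C₀.γ p 0) • lf β)) (C₀.γ p 0) :=
    (mu_hasFDerivAt β _).mul (hasFDerivAt_eU b r _)
  have h2 := h1.comp_hasDerivAt (0 : ℝ) (C₀.deriv p hp 0)
  rw [C₀.zero p hp] at h2
  have h3 : jetU b 𝒱 β q (i + 1) p = (mu β p • lf (fun v => eU b (dU b v r) p) +
      eU b r p • (mu β p • lf β)) (C₀.V p) := by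
    rw [jetU, pow_succ', Module.End.mul_apply, ← hr, TopU_apply]
    simp only [add_apply, smul_apply, smul_eq_mul, lf_apply, eU_add, eU_sum, eU_mul, eU_C, hV]
    have e1 : ∑ v, eU b (𝒱 v) p * eU b (dU b v r) p = ∑ v, eU b (dU b v r) p * eU b (𝒱 v) p :=
      Finset.sum_congr rfl fun v _ => mul_comm _ _
    rw [e1]
    ring
  rw [h3]
  exact h2

/-- The order of vanishing along the flow. -/
lemma TopU_pow_apply (𝒱 : J → MvPolynomial J ℝ) (β : J → ℝ) (v : J) (c : ℝ)
    (r : ℕ) : ∀ i ≤ r, ∃ s : MvPolynomial J ℝ,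
      (TopU b 𝒱 β ^ i) ((X v - C c) ^ r) =
        C ((r.descFactorial i : ℕ) : ℝ) * (𝒱 v * wU b v) ^ i * (X v - C c) ^ (r - i) +
        (X v - C c) ^ (r - i + 1) * s := by
  set y : MvPolynomial J ℝ := X v - C c with hy
  have hdy : ∀ j, dU b j y = if v = j then wU b j else 0 := by
    intro j
    rw [hy, map_sub, derivation_C, sub_zero, dU_X]
  have hmul : ∀ (m : ℕ) (s : MvPolynomial J ℝ), TopU b 𝒱 β (y ^ (m + 1) * s) =
      y ^ (m + 1) * TopU b 𝒱 β s + C ((m + 1 : ℕ) : ℝ) * y ^ m * (𝒱 v * wU b v) * s := by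
    intro m s
    rw [TopU_apply, TopU_apply]
    have h1 : ∀ j, 𝒱 j * dU b j (y ^ (m + 1) * s) = y ^ (m + 1) * (𝒱 j * dU b j s) +
        if v = j then C ((m + 1 : ℕ) : ℝ) * y ^ m * (𝒱 j * wU b j) * s else 0 := by
      intro j
      rw [Derivation.leibniz, Derivation.leibniz_pow, hdy]
      simp only [smul_eq_mul, nsmul_eq_mul, Nat.add_sub_cancel]
      split_ifs with h
      · rw [map_natCast]
        ring
      · ring
    rw [Finset.sum_congr rfl fun j _ => h1 j, Finset.sum_add_distrib, Finset.sum_ite_eq,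
      ← Finset.mul_sum]
    simp only [Finset.mem_univ, if_true]
    ring
  intro i
  induction i with
  | zero =>
    intro _
    exact ⟨0, by simp⟩
  | succ i ih =>
    intro hi
    obtain ⟨s, hs⟩ := ih (by omega)
    obtain ⟨m, hm⟩ : ∃ m, r - i = m + 1 := ⟨r - i - 1, by omega⟩
    have hm' : r - (i + 1) = m := by omega
    rw [pow_succ', Module.End.mul_apply, hs, hm, hm', Nat.descFactorial_succ, hm, map_add]
    have e1 : C ((r.descFactorial i : ℕ) : ℝ) * (𝒱 v * wU b v) ^ i * y ^ (m + 1) =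
        y ^ (m + 1) * (C ((r.descFactorial i : ℕ) : ℝ) * (𝒱 v * wU b v) ^ i) := by ring
    rw [e1, hmul m, hmul (m + 1)]
    refine ⟨TopU b 𝒱 β (C ((r.descFactorial i : ℕ) : ℝ) * (𝒱 v * wU b v) ^ i) +
      y * TopU b 𝒱 β s + C ((m + 1 + 1 : ℕ) : ℝ) * (𝒱 v * wU b v) * s, ?_⟩
    push_cast
    simp only [map_mul, map_add, map_natCast, map_one]
    ring

lemma jetU_linear (𝒱 : J → MvPolynomial J ℝ) (β : J → ℝ) {K : Type*}
    (s : Finset K) (c : K → ℝ) (q : K → MvPolynomial J ℝ) (i : ℕ) (x : J → ℝ) :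
    jetU b 𝒱 β (∑ k ∈ s, C (c k) * q k) i x = ∑ k ∈ s, c k * jetU b 𝒱 β (q k) i x := by
  have h1 : ∀ k, C (c k) * q k = c k • q k := fun k => (smul_eq_C_mul _ _).symm
  simp only [h1, jetU, map_sum, map_smul, eU_sum, Finset.mul_sum]
  refine Finset.sum_congr rfl fun k _ => ?_
  rw [smul_eq_C_mul, eU_mul, eU_C]
  ring

/-- The jets of the powers of a coordinate at its zero. -/
lemma jetU_pow_vanish (𝒱 : J → MvPolynomial J ℝ) (β : J → ℝ) (v : J)
    (p : J → ℝ) (r : ℕ) :
    (∀ i < r, jetU b 𝒱 β ((X v - C (UU b p v)) ^ r) i p = 0) ∧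
    jetU b 𝒱 β ((X v - C (UU b p v)) ^ r) r p =
      mu β p * ((r.factorial : ℝ) * (eU b (𝒱 v) p * wF b v (p v)) ^ r) := by
  have hy : eU b (X v - C (UU b p v)) p = 0 := by simp
  constructor
  · intro i hi
    obtain ⟨s, hs⟩ := TopU_pow_apply b 𝒱 β v (UU b p v) r i hi.le
    have e1 : (0 : ℝ) ^ (r - i) = 0 := zero_pow (by omega)
    have e2 : (0 : ℝ) ^ (r - i + 1) = 0 := zero_pow (by omega)
    rw [jetU, hs]
    simp only [eU_add, eU_mul, eU_pow, hy, e1, e2]
    ring
  · obtain ⟨s, hs⟩ := TopU_pow_apply b 𝒱 β v (UU b p v) r r le_rfl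
    rw [jetU, hs, Nat.descFactorial_self, Nat.sub_self]
    simp only [eU_add, eU_mul, eU_pow, hy, eU_C, pow_zero, zero_add, pow_one, eU_one, eU_wU]
    ring

/-- Some power of a coordinate is useful at every point. -/
lemma exists_powerU (𝒱 : J → MvPolynomial J ℝ) (β : J → ℝ)
    (f : ℕ → ℕ → (J → ℝ) → ℝ) (n : ℕ) (p : J → ℝ) (hv : ∃ v, eU b (𝒱 v) p ≠ 0)
    (hW : Wr f n p = 0 → Wr' f n p ≠ 0) :
    ∃ k : J × Fin (n + 1), Wr (Function.update f n (jetU b 𝒱 β (X k.1 ^ (k.2 : ℕ))))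
      (n + 1) p ≠ 0 := by
  obtain ⟨v, hv⟩ := hv
  have hvw : eU b (𝒱 v) p * wF b v (p v) ≠ 0 := mul_ne_zero hv (wF_ne b v _)
  set u := UU b p v with hu
  -- a power of `X_v - u`
  obtain ⟨r, hr, hne⟩ : ∃ r ≤ n, Wr (Function.update f n (jetU b 𝒱 β
      ((X v - C u) ^ r))) (n + 1) p ≠ 0 := by
    by_cases h0 : Wr f n p = 0
    · obtain ⟨m, rfl⟩ : ∃ m, n = m + 1 := by
        cases n with
        | zero => rw [Wr_zero] at h0; exact absurd h0 one_ne_zero
        | succ m => exact ⟨m, rfl⟩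
      obtain ⟨h1, h2⟩ := jetU_pow_vanish b 𝒱 β v p m
      refine ⟨m, Nat.le_succ m, ?_⟩
      rw [Wr_update_of_vanish' f m _ p h1 h0, h2]
      refine neg_ne_zero.mpr (mul_ne_zero (mul_ne_zero (mu_pos β p).ne'
        (mul_ne_zero ?_ (pow_ne_zero _ hvw))) (hW h0))
      exact_mod_cast Nat.factorial_ne_zero m
    · obtain ⟨h1, h2⟩ := jetU_pow_vanish b 𝒱 β v p n
      refine ⟨n, le_rfl, ?_⟩
      rw [Wr_update_of_vanish f n _ p h1, h2]
      refine mul_ne_zero (mul_ne_zero (mu_pos β p).ne'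
        (mul_ne_zero ?_ (pow_ne_zero _ hvw))) h0
      exact_mod_cast Nat.factorial_ne_zero n
  by_contra hcon
  push Not at hcon
  apply hne
  have hexp : ((X v - C u) ^ r : MvPolynomial J ℝ) =
      ∑ j ∈ Finset.range (r + 1), C ((-u) ^ (r - j) * (r.choose j : ℝ)) * X v ^ j := by
    rw [sub_eq_add_neg, add_pow]
    refine Finset.sum_congr rfl fun j _ => ?_
    rw [map_mul, map_pow, map_neg, map_natCast]
    ring
  rw [Wr_eq_DetR, DetR_linear f n (fun i => i) (Finset.range (r + 1))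
    (fun j => (-u) ^ (r - j) * (r.choose j : ℝ)) (fun j => jetU b 𝒱 β (X v ^ j))
    (jetU b 𝒱 β ((X v - C u) ^ r)) p (by
      intro i
      rw [hexp, jetU_linear])]
  refine Finset.sum_eq_zero fun j hj => ?_
  have h3 := hcon (v, ⟨j, by have := Finset.mem_range.mp hj; omega⟩)
  rw [Wr_eq_DetR] at h3
  rw [h3, mul_zero]

/-- The generic step. -/
lemma generic_stepU (C₀ : CurveFlow (J → ℝ)) (𝒱 : J → MvPolynomial J ℝ)
    (hV : ∀ x v, C₀.V x v = eU b (𝒱 v) x) (β : J → ℝ)
    (f : ℕ → ℕ → (J → ℝ) → ℝ) (hf : ∀ l i, C₀.FD (f l i) (f l (i + 1)))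
    (hfc : ∀ l i, Continuous (f l i)) (n : ℕ)
    (hW : ∀ x ∈ C₀.Γ, Wr f n x = 0 → Wr' f n x ≠ 0) {δ : ℝ} (hδ : 0 < δ) :
    ∃ c : J × Fin (n + 1) → ℝ, (∀ k, |c k| < δ) ∧ ∀ x ∈ C₀.Γ,
      Wr (Function.update f n (jetU b 𝒱 β (1 + ∑ k, C (c k) * X k.1 ^ (k.2 : ℕ))))
        (n + 1) x = 0 →
      Wr' (Function.update f n (jetU b 𝒱 β (1 + ∑ k, C (c k) * X k.1 ^ (k.2 : ℕ))))
        (n + 1) x ≠ 0 := by
  have hFD : ∀ q, C₀.FD (Wr (Function.update f n (jetU b 𝒱 β q)) (n + 1))
      (Wr' (Function.update f n (jetU b 𝒱 β q)) (n + 1)) := by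
    intro q
    apply Wr_FD
    intro l i
    by_cases hl : l = n
    · subst hl
      simp only [Function.update_self]
      exact jetU_FD b C₀ 𝒱 hV β q i
    · simp only [Function.update_of_ne hl]
      exact hf l i
  have hco : ∀ q, ∀ l i, Continuous (Function.update f n (jetU b 𝒱 β q) l i) := by
    intro q l i
    by_cases hl : l = n
    · subst hl
      simp only [Function.update_self]
      exact jetU_continuous b 𝒱 β q i
    · simp only [Function.update_of_ne hl]
      exact hfc l i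
  have hcW : ∀ q, Continuous (Wr (Function.update f n (jetU b 𝒱 β q)) (n + 1)) := fun q =>
    DetR_continuous _ (hco q) n _
  have hcW' : ∀ q, Continuous (Wr' (Function.update f n (jetU b 𝒱 β q)) (n + 1)) := fun q =>
    DetR_continuous _ (hco q) n _
  obtain ⟨c, hc, hs⟩ := C₀.simple_zeros (κ := J × Fin (n + 1)) (hFD 1)
    (fun k => hFD (X k.1 ^ (k.2 : ℕ))) (hcW 1).continuousOn (hcW' 1).continuousOn
    (fun k => (hcW _).continuousOn) (fun k => (hcW' _).continuousOn) (by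
      intro x hx
      apply exists_powerU b 𝒱 β f n x _ (hW x hx)
      by_contra hcon
      push Not at hcon
      apply C₀.ne x hx
      funext v
      rw [hV, hcon v]
      rfl) hδ
  refine ⟨c, hc, fun x hx => ?_⟩
  have hlin : ∀ (r : Fin (n + 1) → ℕ), DetR (Function.update f n (jetU b 𝒱 β
      (1 + ∑ k : J × Fin (n + 1), C (c k) * X k.1 ^ (k.2 : ℕ)))) n r x =
      DetR (Function.update f n (jetU b 𝒱 β 1)) n r x +
      ∑ k : J × Fin (n + 1), c k * DetR (Function.update f n (jetU b 𝒱 β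
        (X k.1 ^ (k.2 : ℕ)))) n r x := by
    intro r
    have h1 : (1 + ∑ k : J × Fin (n + 1), C (c k) * X k.1 ^ (k.2 : ℕ) :
        MvPolynomial J ℝ) =
        ∑ o : Option (J × Fin (n + 1)), C (o.elim 1 c) *
          (o.elim 1 (fun k => X k.1 ^ (k.2 : ℕ))) := by
      rw [Fintype.sum_option]
      simp
    rw [DetR_linear f n r (Finset.univ : Finset (Option (J × Fin (n + 1)))) (fun o => o.elim 1 c)
      (fun o => jetU b 𝒱 β (o.elim 1 (fun k => X k.1 ^ (k.2 : ℕ)))) _ x (by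
        intro i
        rw [h1, jetU_linear]), Fintype.sum_option]
    simp
  have := hs x hx
  rw [Wr_eq_DetR, Wr'_eq_DetR, hlin, hlin]
  simpa only [Wr_eq_DetR, Wr'_eq_DetR] using this

/-- All Wronskian zeros can be made simple. -/
theorem exists_genericU (C₀ : CurveFlow (J → ℝ))
    (𝒱 : J → MvPolynomial J ℝ) (hV : ∀ x v, C₀.V x v = eU b (𝒱 v) x)
    (β : ℕ → J → ℝ) (t : ℕ) {δ : ℝ} (hδ : 0 < δ) :
    ∃ q : ℕ → MvPolynomial J ℝ, (∀ l, (q l).totalDegree ≤ l) ∧
      (∀ l, ∀ x ∈ C₀.Γ, |eU b (q l) x - 1| < δ) ∧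
      ∀ n ≤ t, ∀ x ∈ C₀.Γ, Wr (fun l => jetU b 𝒱 (β l) (q l)) n x = 0 →
        Wr' (fun l => jetU b 𝒱 (β l) (q l)) n x ≠ 0 := by
  induction t with
  | zero =>
    refine ⟨fun _ => 1, fun l => by simp, fun l x _ => by simpa using hδ, ?_⟩
    intro n hn x _ h0
    obtain rfl : n = 0 := by omega
    rw [Wr_zero] at h0
    exact absurd h0 one_ne_zero
  | succ t ih =>
    obtain ⟨q, hq1, hq2, hq3⟩ := ih
    set f : ℕ → ℕ → (J → ℝ) → ℝ := fun l => jetU b 𝒱 (β l) (q l) with hf
    -- a bound for the monomials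
    obtain ⟨B, hB⟩ := C₀.compact.exists_bound_of_continuousOn
      (f := fun x => ∑ k : J × Fin (t + 1), |eU b (X k.1 ^ (k.2 : ℕ)) x|)
      (continuous_finsetSum _ fun k _ => (contDiff_eU b _ (n := 0)).continuous.abs).continuousOn
    set B' := |B| + 1 with hB'
    have hB'0 : 0 < B' := by positivity
    obtain ⟨c, hc, hs⟩ := generic_stepU b C₀ 𝒱 hV (β t) f
      (fun l i => jetU_FD b C₀ 𝒱 hV (β l) (q l) i) (fun l i => jetU_continuous b 𝒱 (β l) (q l) i)
      t (hq3 t le_rfl) (δ := δ / B') (div_pos hδ hB'0)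
    set g : MvPolynomial J ℝ := 1 + ∑ k : J × Fin (t + 1),
      C (c k) * X k.1 ^ (k.2 : ℕ) with hg
    have hupd : (fun l => jetU b 𝒱 (β l) (Function.update q t g l)) =
        Function.update f t (jetU b 𝒱 (β t) g) := by
      funext l
      by_cases hl : l = t
      · subst hl
        simp
      · rw [Function.update_of_ne hl, Function.update_of_ne hl]
    refine ⟨Function.update q t g, ?_, ?_, ?_⟩
    · intro l
      by_cases hl : l = t
      · subst hl
        rw [Function.update_self, hg]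
        refine (totalDegree_add _ _).trans (max_le (by simp) ?_)
        refine totalDegree_finsetSum_le fun k _ => ?_
        refine (totalDegree_mul _ _).trans ?_
        rw [totalDegree_C, totalDegree_X_pow]
        have := k.2.2
        omega
      · rw [Function.update_of_ne hl]
        exact hq1 l
    · intro l x hx
      by_cases hl : l = t
      · subst hl
        rw [Function.update_self, hg, eU_add, eU_sum, eU_one, add_sub_cancel_left]
        simp only [eU_mul, eU_C]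
        have h3 := hB x hx
        rw [Real.norm_eq_abs, abs_of_nonneg (Finset.sum_nonneg fun k _ => abs_nonneg _)] at h3
        calc |∑ k : J × Fin (l + 1), c k * eU b (X k.1 ^ (k.2 : ℕ)) x|
            ≤ ∑ k : J × Fin (l + 1), |c k * eU b (X k.1 ^ (k.2 : ℕ)) x| :=
              Finset.abs_sum_le_sum_abs _ _
          _ ≤ ∑ k : J × Fin (l + 1), δ / B' * |eU b (X k.1 ^ (k.2 : ℕ)) x| := by
              refine Finset.sum_le_sum fun k _ => ?_
              rw [abs_mul]
              exact mul_le_mul_of_nonneg_right (hc k).le (abs_nonneg _)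
          _ = δ / B' * ∑ k : J × Fin (l + 1), |eU b (X k.1 ^ (k.2 : ℕ)) x| := by
              rw [Finset.mul_sum]
          _ ≤ δ / B' * B := mul_le_mul_of_nonneg_left h3 (div_pos hδ hB'0).le
          _ < δ / B' * B' := by
              apply mul_lt_mul_of_pos_left _ (div_pos hδ hB'0)
              have := le_abs_self B
              rw [hB']; linarith
          _ = δ := div_mul_cancel₀ _ hB'0.ne'
      · rw [Function.update_of_ne hl]
        exact hq2 l x hx
    · intro n hn x hx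
      rw [hupd]
      rcases Nat.lt_or_ge t n with h | h
      · obtain rfl : n = t + 1 := by omega
        exact hs x hx
      · have e1 : ∀ l < n, Function.update f t (jetU b 𝒱 (β t) g) l = f l := fun l hl =>
          Function.update_of_ne (by omega) _ _
        rw [Wr_congr e1, Wr'_congr e1]
        exact hq3 n h x hx

end Fewnomial
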