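import Mathlib
import Pool.Agent.Lib.MP_4cba3d_ag.LOper
import Pool.Agent.Lib.MP_4cba3d_ag.LKhov
import Pool.Agent.Lib.MP_4cba3d_ag.WCount

/-!
Counting the zeros of the Wronskians on the curve of a mixed system.
-/

namespace Fewnomial

open MvPolynomial Filter Set
open scoped Topology

variable {J : Type} [Fintype J] [DecidableEq J] (b : J → Bool) (Λ : Finset J)

/-- The polynomial Jacobian matrix of a mixed system. -/
noncomputable def jacU (P : J → MvPolynomial J ℝ) (lam : J → J → ℝ) :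
    Matrix J J (MvPolynomial J ℝ) :=
  Matrix.of fun i j => if i ∈ Λ then C (lam i j) else dU b j (P i)

/-- The polynomial tangent field. -/
noncomputable def fieldU (P : J → MvPolynomial J ℝ) (lam : J → J → ℝ) (o : J) :
    J → MvPolynomial J ℝ := fun v => (jacU b Λ P lam).adjugate v o

omit [Fintype J] in
lemma eU_jacU (P : J → MvPolynomial J ℝ) (lam : J → J → ℝ) (i j : J) (x : J → ℝ) :
    eU b (jacU b Λ P lam i j) x = mG b Λ P lam i x j := by
  unfold jacU mG
  rw [Matrix.of_apply]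
  split_ifs <;> simp

lemma eU_fieldU (P : J → MvPolynomial J ℝ) (lam : J → J → ℝ) (o v : J) (x : J → ℝ) :
    eU b (fieldU b Λ P lam o v) x = tangent (mG b Λ P lam) o x v := by
  rw [fieldU, tangent, Matrix.adjugate_apply, Matrix.adjugate_apply, eU_det]
  congr 1
  ext i j
  rw [Matrix.of_apply]
  by_cases h : i = o
  · subst h
    rw [Matrix.updateRow_self, Matrix.updateRow_self]
    by_cases hj : j = v
    · subst hj
      simp
    · rw [Pi.single_eq_of_ne hj, Pi.single_eq_of_ne hj]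
      simp
  · rw [Matrix.updateRow_ne h, Matrix.updateRow_ne h, eU_jacU]
    rfl

lemma fieldU_totalDegree {P : J → MvPolynomial J ℝ} (lam : J → J → ℝ) {o : J} {deg : J → ℕ}
    (hP : ∀ v, v ∉ Λ → v ≠ o → (P v).totalDegree ≤ deg v) (v : J) :
    (fieldU b Λ P lam o v).totalDegree ≤ ∑ i ∈ (Λᶜ).erase o, deg i := by
  rw [fieldU, Matrix.adjugate_apply]
  refine (totalDegree_det_le _ (fun i => if i ∈ (Λᶜ).erase o then deg i else 0)
    (fun _ => 0) ?_).trans ?_
  · intro i j
    by_cases hi : i = o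
    · subst hi
      rw [Matrix.updateRow_self]
      by_cases hj : j = v
      · subst hj; simp
      · rw [Pi.single_eq_of_ne hj]; simp
    · rw [Matrix.updateRow_ne hi, jacU, Matrix.of_apply]
      by_cases hΛ : i ∈ Λ
      · simp [hΛ]
      · rw [if_neg hΛ, if_pos (by simp [hi, hΛ]), add_zero]
        exact (dU_totalDegree b j _).trans (hP i hΛ hi)
  · rw [Finset.sum_const_zero, add_zero, Finset.sum_ite_mem, Finset.univ_inter]

/-- The polynomial part of the Wronskian. -/
noncomputable def WpU (𝒱 : J → MvPolynomial J ℝ) (β : ℕ → J → ℝ)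
    (q : ℕ → MvPolynomial J ℝ) (n : ℕ) : MvPolynomial J ℝ :=
  (Matrix.of fun i l : Fin n => (TopU b 𝒱 (β l) ^ (i : ℕ)) (q l)).det

lemma Wr_factorU (𝒱 : J → MvPolynomial J ℝ) (β : ℕ → J → ℝ)
    (q : ℕ → MvPolynomial J ℝ) (n : ℕ) (x : J → ℝ) :
    Wr (fun l => jetU b 𝒱 (β l) (q l)) n x =
      mu (fun i => ∑ l : Fin n, β l i) x * eU b (WpU b 𝒱 β q n) x := by
  rw [← prod_mu (fun l : Fin n => β l), WpU, eU_det, ← Matrix.det_mul_row]
  rfl

lemma WpU_totalDegree {𝒱 : J → MvPolynomial J ℝ} {d : ℕ}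
    (h𝒱 : ∀ v, (𝒱 v).totalDegree ≤ d) (β : ℕ → J → ℝ)
    {q : ℕ → MvPolynomial J ℝ} (hq : ∀ l, (q l).totalDegree ≤ l) (n : ℕ) :
    (WpU b 𝒱 β q n).totalDegree ≤ (d + 1) * (n * (n - 1) / 2) := by
  refine (totalDegree_det_le _ (fun i : Fin n => d * (i : ℕ)) (fun l : Fin n => (l : ℕ)) ?_).trans ?_
  · intro i l
    rw [Matrix.of_apply]
    have h1 := TopU_totalDegree b (β l) h𝒱 (q l) (i : ℕ)
    have h2 := hq l
    omega
  · rw [← Finset.mul_sum, Fin.sum_univ_eq_sum_range (fun i => i) n, Finset.sum_range_id, add_mul,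
      one_mul]

/-- The derivative of the Wronskian along the flow at its zeros. -/
lemma Wr'_at_zeroU (C₀ : CurveFlow (J → ℝ)) (𝒱 : J → MvPolynomial J ℝ)
    (hV : ∀ x v, C₀.V x v = eU b (𝒱 v) x) (β : ℕ → J → ℝ)
    (q : ℕ → MvPolynomial J ℝ) (n : ℕ) (x : J → ℝ) (hx : x ∈ C₀.Γ)
    (h0 : eU b (WpU b 𝒱 β q (n + 1)) x = 0) :
    Wr' (fun l => jetU b 𝒱 (β l) (q l)) (n + 1) x =
      mu (fun i => ∑ l : Fin (n + 1), β l i) x *
        lf (fun v => eU b (dU b v (WpU b 𝒱 β q (n + 1))) x) (C₀.V x) := by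
  set f : ℕ → ℕ → (J → ℝ) → ℝ := fun l => jetU b 𝒱 (β l) (q l) with hf
  set B : J → ℝ := fun i => ∑ l : Fin (n + 1), β l i with hB
  set w := WpU b 𝒱 β q (n + 1) with hw
  have h1 := Wr_FD C₀ f (fun l i => jetU_FD b C₀ 𝒱 hV (β l) (q l) i) n x hx
  have h2 : HasFDerivAt (fun y => mu B y * eU b w y)
      (mu B (C₀.γ x 0) • lf (fun v => eU b (dU b v w) (C₀.γ x 0)) +
        eU b w (C₀.γ x 0) • (mu B (C₀.γ x 0) • lf B)) (C₀.γ x 0) :=
    (mu_hasFDerivAt B _).mul (hasFDerivAt_eU b w _)
  have h3 := h2.comp_hasDerivAt (0 : ℝ) (C₀.deriv x hx 0)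
  rw [C₀.zero x hx] at h3
  have h4 : ((fun y => mu B y * eU b w y) ∘ C₀.γ x) = fun t => Wr f (n + 1) (C₀.γ x t) := by
    funext t
    rw [hf, Wr_factorU]
    rfl
  rw [h4] at h3
  have h5 := h1.unique h3
  rw [h5, h0]
  simp

/-- The zeros of the Wronskians on the curve. -/
theorem wronskian_zerosU (P : J → MvPolynomial J ℝ) (κ : J → ℝ) (lam : J → J → ℝ)
    (deg : J → ℕ) (hdeg : ∀ v, 1 ≤ deg v) (o s : J) (ho : o ∉ Λ) (hs : s ∉ Λ) (hso : s ≠ o)
    (hP : ∀ v, v ∉ Λ → v ≠ o → (P v).totalDegree ≤ deg v) (R c : ℝ) (bb : J → ℝ) (r η : ℝ)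
    (hPs : P s = Bq b R c bb) (hη : η * (Fintype.card J + 1) ≤ 1 / 2) (hη2 : η ≤ 1 / 2)
    (hr : r < η) (hr0 : 0 ≤ r) (hc : |c| ≤ r) (hbb : ∀ v, |bb v| ≤ r)
    (C₀ : CurveFlow (J → ℝ)) (hΓ : C₀.Γ = {x | ∀ v, v ≠ o → mF b Λ P κ lam v x = 0})
    (hV : C₀.V = tangent (mG b Λ P lam) o) (β : ℕ → J → ℝ)
    (q : ℕ → MvPolynomial J ℝ) (hq : ∀ l, (q l).totalDegree ≤ l) (t : ℕ)
    (hsimple : ∀ n ≤ t, ∀ x ∈ C₀.Γ,
      Wr (fun l => jetU b (fieldU b Λ P lam o) (β l) (q l)) n x = 0 →
        Wr' (fun l => jetU b (fieldU b Λ P lam o) (β l) (q l)) n x ≠ 0) (d D : ℕ)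
    (hd : ∑ i ∈ (Λᶜ).erase o, deg i = d) (hD : 1 ≤ D)
    (hD' : (d + 1) * (t * (t - 1) / 2) ≤ D) :
    ∃ F : ℕ → Finset (J → ℝ), (∀ n ≤ t, ∀ x ∈ F n, x ∈ C₀.Γ) ∧
      (∀ n ≤ t, ∀ x ∈ C₀.Γ,
        Wr (fun l => jetU b (fieldU b Λ P lam o) (β l) (q l)) n x = 0 → x ∈ F n) ∧
      ∀ n ≤ t, (F n).card ≤ (D * ∏ v ∈ (Λᶜ).erase o, deg v) * (D + d) ^ Λ.card *
        2 ^ (Λ.card.choose 2) := by
  classical
  set 𝒱 := fieldU b Λ P lam o with h𝒱
  set f : ℕ → ℕ → (J → ℝ) → ℝ := fun l => jetU b 𝒱 (β l) (q l) with hf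
  have hV' : ∀ x v, C₀.V x v = eU b (𝒱 v) x := by
    intro x v
    rw [hV, h𝒱, eU_fieldU]
  have h𝒱d : ∀ v, (𝒱 v).totalDegree ≤ d := fun v => by
    rw [← hd]
    exact fieldU_totalDegree b Λ lam hP v
  have hFDj : ∀ l i, C₀.FD (f l i) (f l (i + 1)) := fun l i => jetU_FD b C₀ 𝒱 hV' (β l) (q l) i
  have hcj : ∀ l i, Continuous (f l i) := fun l i => jetU_continuous b 𝒱 (β l) (q l) i
  have hoc : o ∈ Λᶜ := Finset.mem_compl.mpr ho
  have hprod : ∏ v ∈ Λᶜ, Function.update deg o D v = D * ∏ v ∈ (Λᶜ).erase o, deg v := by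
    rw [← Finset.mul_prod_erase _ _ hoc, Function.update_self]
    congr 1
    exact Finset.prod_congr rfl fun v hv => Function.update_of_ne (Finset.ne_of_mem_erase hv) _ _
  have hsum : ∑ v ∈ Λᶜ, Function.update deg o D v = D + d := by
    rw [← Finset.add_sum_erase _ _ hoc, Function.update_self, ← hd]
    congr 1
    exact Finset.sum_congr rfl fun v hv => Function.update_of_ne (Finset.ne_of_mem_erase hv) _ _
  -- for every `n` a finite set
  have key : ∀ n, ∃ F : Finset (J → ℝ), n ≤ t → (∀ x ∈ F, x ∈ C₀.Γ) ∧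
      (∀ x ∈ C₀.Γ, Wr f n x = 0 → x ∈ F) ∧
      F.card ≤ (D * ∏ v ∈ (Λᶜ).erase o, deg v) * (D + d) ^ Λ.card *
        2 ^ (Λ.card.choose 2) := by
    intro n
    by_cases hn : n ≤ t
    swap
    · exact ⟨∅, fun h => absurd h hn⟩
    cases n with
    | zero =>
      refine ⟨∅, fun _ => ⟨by simp, ?_, by simp⟩⟩
      intro x _ h0
      rw [Wr_zero] at h0
      exact absurd h0 one_ne_zero
    | succ n =>
      have hfin := C₀.finite_level (Wr_FD C₀ f hFDj n)
        (DetR_continuous f hcj n (fun i => i)).continuousOn 0 (hsimple (n + 1) hn)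
      refine ⟨hfin.toFinset, fun _ => ⟨?_, ?_, ?_⟩⟩
      · intro x hx
        exact ((Set.Finite.mem_toFinset hfin).mp hx).1
      · intro x hx h0
        exact (Set.Finite.mem_toFinset hfin).mpr ⟨hx, h0⟩
      · set P' : J → MvPolynomial J ℝ := Function.update P o (WpU b 𝒱 β q (n + 1)) with hP'
        have hdegW : (WpU b 𝒱 β q (n + 1)).totalDegree ≤ D := by
          refine (WpU_totalDegree b h𝒱d β hq (n + 1)).trans (le_trans ?_ hD')
          apply Nat.mul_le_mul_left
          apply Nat.div_le_div_right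
          exact Nat.mul_le_mul hn (Nat.sub_le_sub_right hn 1)
        have hmFv : ∀ v, v ≠ o → ∀ x, mF b Λ P' κ lam v x = mF b Λ P κ lam v x := by
          intro v hv x
          simp only [mF, hP', Function.update_of_ne hv]
        have hmGv : ∀ v, v ≠ o → ∀ x, mG b Λ P' lam v x = mG b Λ P lam v x := by
          intro v hv x
          funext j
          simp only [mG, hP', Function.update_of_ne hv]
        have hbound := mixed_bound b Λ.card Λ rfl P' κ lam (Function.update deg o D) s hs R c bb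
          r η (by
          intro v
          by_cases hv : v = o
          · subst hv
            rw [Function.update_self]
            exact hD
          · rw [Function.update_of_ne hv]
            exact hdeg v) (by
          intro v hv
          by_cases hvo : v = o
          · subst hvo
            rw [Function.update_self, hP', Function.update_self]
            exact hdegW
          · rw [Function.update_of_ne hvo, hP', Function.update_of_ne hvo]
            exact hP v hv hvo) (by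
          rw [hP', Function.update_of_ne hso]
          exact hPs) hη hη2 hr hr0 hc hbb hfin.toFinset (by
          intro z hz
          obtain ⟨hzΓ, hz0⟩ := (Set.Finite.mem_toFinset hfin).mp hz
          have hw0 : eU b (WpU b 𝒱 β q (n + 1)) z = 0 := by
            rw [hf, Wr_factorU] at hz0
            exact (mul_eq_zero.mp hz0).resolve_left (mu_pos _ _).ne'
          refine ⟨?_, ?_⟩
          · intro i
            by_cases hi : i = o
            · subst hi
              simp only [mF, ho, if_false, hP', Function.update_self]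
              exact hw0
            · rw [hmFv i hi]
              rw [hΓ] at hzΓ
              exact hzΓ i hi
          · have h1 := hsimple (n + 1) hn z hzΓ hz0
            rw [hf, Wr'_at_zeroU b C₀ 𝒱 hV' β q n z hzΓ hw0, hV, lf_tangent] at h1
            have h2 := right_ne_zero_of_mul h1
            have h3 : (Matrix.of fun v => mG b Λ P' lam v z) =
                (Matrix.of fun v => mG b Λ P lam v z).updateRow o
                  (fun v' => eU b (dU b v' (WpU b 𝒱 β q (n + 1))) z) := by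
              ext v v'
              by_cases hv : v = o
              · subst hv
                rw [Matrix.updateRow_self, Matrix.of_apply]
                simp only [mG, ho, if_false, hP', Function.update_self]
              · rw [Matrix.updateRow_ne hv, Matrix.of_apply, hmGv v hv]
                rfl
            rw [h3]
            exact h2)
        rw [hprod, hsum] at hbound
        exact hbound
  choose F hF using key
  exact ⟨F, fun n hn => (hF n hn).1, fun n hn => (hF n hn).2.1, fun n hn => (hF n hn).2.2⟩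

end Fewnomial
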