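import Mathlib
import Pool.Agent.Lib.MP_4cba3d_ag.LCount
import Pool.Agent.Lib.MP_4cba3d_ag.Chain

/-!
The improved bound for two exponential sums in the plane, in normalized form.
-/

namespace Fewnomial

open MvPolynomial Filter Set
open scoped Topology

lemma mixed_compact {J : Type} [Fintype J] [DecidableEq J] (b : J → Bool) (Λ : Finset J)
    (P : J → MvPolynomial J ℝ) (κ : J → ℝ) (lam : J → J → ℝ) (o s : J) (hs : s ∉ Λ)
    (hso : s ≠ o) (R c : ℝ) (bb : J → ℝ) (r δ η : ℝ) (hPs : P s = Bq b R c bb)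
    (hη : η * (Fintype.card J + 1) ≤ 1 / 2) (hη0 : 0 ≤ η) (hη2 : η ≤ 1 / 2) (hrδ : r + δ ≤ η)
    (hc : |c| ≤ r) (hbb : ∀ v, |bb v| ≤ r) (θ : (J → ℝ) × (J → J → ℝ)) (hθ : ‖θ‖ < δ) :
    IsCompact {x | ∀ v, v ≠ o → pF (mF b Λ P κ lam) (mE b Λ) θ v x = 0} ∧
      |c + θ.1 s| ≤ r + δ ∧ ∀ v, |bb v + θ.2 s v| ≤ r + δ := by
  have h12 : |c + θ.1 s| ≤ r + δ ∧ ∀ v, |bb v + θ.2 s v| ≤ r + δ := by
    constructor
    · have h1 : ‖θ.1 s‖ ≤ ‖θ‖ := (norm_le_pi_norm _ _).trans (norm_fst_le θ)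
      rw [Real.norm_eq_abs] at h1
      exact (abs_add_le _ _).trans (by linarith)
    · intro v
      have h1 : ‖θ.2 s v‖ ≤ ‖θ‖ :=
        (norm_le_pi_norm _ _).trans ((norm_le_pi_norm _ _).trans (norm_snd_le θ))
      rw [Real.norm_eq_abs] at h1
      exact (abs_add_le _ _).trans (by have := hbb v; linarith)
  refine ⟨?_, h12⟩
  obtain ⟨M, hM⟩ := Bq_bounded b R hη hη0 hη2
  apply Metric.isCompact_of_isClosed_isBounded
  · have e : {x | ∀ v, v ≠ o → pF (mF b Λ P κ lam) (mE b Λ) θ v x = 0} =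
        ⋂ v, ⋂ (_ : v ≠ o), {x | pF (mF b Λ P κ lam) (mE b Λ) θ v x = 0} := by
      ext w; simp
    rw [e]
    refine isClosed_iInter fun v => isClosed_iInter fun _ => isClosed_eq ?_ continuous_const
    exact ((pF_contDiff (mF_contDiff b Λ P κ lam) (mE_contDiff b Λ) v).comp
      (contDiff_const.prodMk contDiff_id)).continuous
  · refine (Metric.isBounded_closedBall (x := (0 : J → ℝ)) (r := max M 0)).subset ?_
    intro x hx
    have h1 := hx s hso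
    rw [pF_mF] at h1
    simp only [mF, hs, if_false] at h1
    rw [pP_Bq b θ hPs] at h1
    have h2 := hM _ _ (h12.1.trans hrδ) (fun v => (h12.2 v).trans hrδ) x h1
    rw [mem_closedBall_zero_iff, pi_norm_le_iff_of_nonneg (le_max_right _ _)]
    intro v
    rw [Real.norm_eq_abs]
    exact (h2 v).trans (le_max_left _ _)

/-! ### The spaces -/

section

variable {n : ℕ}

/-- Which coordinates are exponential. -/
def bN (n : ℕ) : Fin 3 ⊕ Fin n → Bool := Sum.elim (fun i => decide (i ≠ 2)) (fun _ => true)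

/-- The linear rows. -/
def LN (n : ℕ) : Finset (Fin 3 ⊕ Fin n) := Finset.univ.map Function.Embedding.inr

lemma inl_notMem_LN (i : Fin 3) : (Sum.inl i : Fin 3 ⊕ Fin n) ∉ LN n := by simp [LN]

lemma inr_mem_LN (j : Fin n) : (Sum.inr j : Fin 3 ⊕ Fin n) ∈ LN n := by simp [LN]

lemma LN_card : (LN n).card = n := by simp [LN]

lemma LN_compl_erase : ((LN n)ᶜ).erase (Sum.inl 2) = {Sum.inl 0, Sum.inl 1} := by
  ext v
  rcases v with i | j
  · simp only [Finset.mem_erase, Finset.mem_compl, inl_notMem_LN, not_false_eq_true, and_true,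
      Finset.mem_insert, Finset.mem_singleton, ne_eq, Sum.inl.injEq]
    revert i
    decide
  · simp [inr_mem_LN]

lemma SS_bN_compl : (SS (bN n))ᶜ = {Sum.inl 2} := by
  ext v
  rcases v with i | j
  · fin_cases i <;> simp [SS, bN]
  · simp [SS, bN]

lemma SS_bN_card : (SS (bN n)).card = n + 2 := by
  have h := Finset.card_compl_add_card (SS (bN n))
  rw [SS_bN_compl, Finset.card_singleton, Fintype.card_sum, Fintype.card_fin, Fintype.card_fin] at h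
  omega

/-- The degrees. -/
def degN (n : ℕ) : Fin 3 ⊕ Fin n → ℕ := fun v => if v = Sum.inl 1 then n + 3 else 1

/-- The coefficients of the linear rows. -/
noncomputable def lamN (α : Fin n → Fin 2 → ℝ) : Fin 3 ⊕ Fin n → Fin 3 ⊕ Fin n → ℝ :=
  Sum.elim (fun _ _ => 0) (fun j => Sum.elim ![-(α j 0), -(α j 1), 0] (Pi.single j 1))

/-- The polynomials. -/
noncomputable def PN (c0 c1 c2 : ℝ) (c : Fin n → ℝ) (R : ℝ) :
    Fin 3 ⊕ Fin n → MvPolynomial (Fin 3 ⊕ Fin n) ℝ :=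
  Sum.elim ![C c0 + C c1 * X (Sum.inl 0) + C c2 * X (Sum.inl 1) + ∑ j, C (c j) * X (Sum.inr j),
    Bq (bN n) R 0 (fun _ => 0), 0] (fun _ => 0)

/-- Exponents in the plane, seen in the big space. -/
noncomputable def upN (n : ℕ) (β : Fin 2 → ℝ) : Fin 3 ⊕ Fin n → ℝ :=
  Sum.elim ![β 0, β 1, 0] (fun _ => 0)

/-- The lifted points. -/
noncomputable def ptN (α : Fin n → Fin 2 → ℝ) (z : Fin 2 → ℝ) (s : ℝ) : Fin 3 ⊕ Fin n → ℝ :=
  Sum.elim ![z 0, z 1, s] (fun j => α j 0 * z 0 + α j 1 * z 1)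

lemma upN_sum (β : Fin 2 → ℝ) (x : Fin 3 ⊕ Fin n → ℝ) :
    ∑ i, upN n β i * x i = β 0 * x (Sum.inl 0) + β 1 * x (Sum.inl 1) := by
  rw [Fintype.sum_sum_type]
  simp [upN, Fin.sum_univ_three]

lemma mu_upN (β : Fin 2 → ℝ) (x : Fin 3 ⊕ Fin n → ℝ) :
    mu (upN n β) x = Real.exp (β 0 * x (Sum.inl 0) + β 1 * x (Sum.inl 1)) := by
  rw [mu, upN_sum]

lemma lamN_sum (α : Fin n → Fin 2 → ℝ) (j : Fin n) (x : Fin 3 ⊕ Fin n → ℝ) :
    ∑ i, lamN α (Sum.inr j) i * x i =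
      x (Sum.inr j) - (α j 0 * x (Sum.inl 0) + α j 1 * x (Sum.inl 1)) := by
  rw [Fintype.sum_sum_type]
  simp only [lamN, Sum.elim_inr, Sum.elim_inl, Fin.sum_univ_three]
  rw [Finset.sum_eq_single j]
  · simp
    ring
  · intro i _ hi
    rw [Pi.single_eq_of_ne hi, zero_mul]
  · simp

lemma UU_ptN_inr (α : Fin n → Fin 2 → ℝ) (z : Fin 2 → ℝ) (s : ℝ) (j : Fin n) :
    UU (bN n) (ptN α z s) (Sum.inr j) = Real.exp (α j 0 * z 0 + α j 1 * z 1) := by
  simp [UU, bN, ptN]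

lemma UU_ptN_0 (α : Fin n → Fin 2 → ℝ) (z : Fin 2 → ℝ) (s : ℝ) :
    UU (bN n) (ptN α z s) (Sum.inl 0) = Real.exp (z 0) := by
  simp [UU, bN, ptN]

lemma UU_ptN_1 (α : Fin n → Fin 2 → ℝ) (z : Fin 2 → ℝ) (s : ℝ) :
    UU (bN n) (ptN α z s) (Sum.inl 1) = Real.exp (z 1) := by
  simp [UU, bN, ptN]

lemma UU_ptN_2 (α : Fin n → Fin 2 → ℝ) (z : Fin 2 → ℝ) (s : ℝ) :
    UU (bN n) (ptN α z s) (Sum.inl 2) = s := by
  simp [UU, bN, ptN]

lemma UU_ptN_congr (α : Fin n → Fin 2 → ℝ) (z : Fin 2 → ℝ) (s s' : ℝ) (v : Fin 3 ⊕ Fin n)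
    (hv : v ∈ SS (bN n)) : UU (bN n) (ptN α z s) v = UU (bN n) (ptN α z s') v := by
  rcases v with i | j
  · fin_cases i
    · exact (UU_ptN_0 α z s).trans (UU_ptN_0 α z s').symm
    · exact (UU_ptN_1 α z s).trans (UU_ptN_1 α z s').symm
    · simp [SS, bN] at hv
  · exact (UU_ptN_inr α z s j).trans (UU_ptN_inr α z s' j).symm

/-- The value of the compactifying polynomial. -/
lemma eU_Bq_ptN (α : Fin n → Fin 2 → ℝ) (z : Fin 2 → ℝ) (s R : ℝ) :
    eU (bN n) (Bq (bN n) R 0 (fun _ => 0)) (ptN α z s) =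
      1 + ∑ v ∈ SS (bN n), UU (bN n) (ptN α z 0) v ^ ((SS (bN n)).card + 1) + s ^ 2 -
        R * ∏ v ∈ SS (bN n), UU (bN n) (ptN α z 0) v := by
  rw [Bq, SS_bN_compl]
  simp only [eU_sub, eU_add, eU_one, eU_sum, eU_pow, eU_X, eU_mul, eU_C, eU_prod, zero_mul,
    Finset.sum_const_zero, sub_zero, Finset.sum_singleton, UU_ptN_2]
  rw [Finset.sum_congr rfl fun v hv => by rw [UU_ptN_congr α z s 0 v hv],
    Finset.prod_congr rfl fun v hv => UU_ptN_congr α z s 0 v hv]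

lemma ptN_hasDerivAt (α : Fin n → Fin 2 → ℝ) (z : Fin 2 → ℝ) (s : ℝ) :
    HasDerivAt (fun s => ptN α z s) (Pi.single (Sum.inl 2) 1) s := by
  rw [hasDerivAt_pi]
  rintro (i | j)
  · fin_cases i
    · have h : (Pi.single (Sum.inl 2) 1 : Fin 3 ⊕ Fin n → ℝ) (Sum.inl 0) = 0 :=
        Pi.single_eq_of_ne (by simp) _
      exact h ▸ hasDerivAt_const s (z 0)
    · have h : (Pi.single (Sum.inl 2) 1 : Fin 3 ⊕ Fin n → ℝ) (Sum.inl 1) = 0 :=
        Pi.single_eq_of_ne (by simp) _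
      exact h ▸ hasDerivAt_const s (z 1)
    · have h : (Pi.single (Sum.inl 2) 1 : Fin 3 ⊕ Fin n → ℝ) (Sum.inl 2) = 1 :=
        Pi.single_eq_same _ _
      exact h ▸ hasDerivAt_id s
  · have h : (Pi.single (Sum.inl 2) 1 : Fin 3 ⊕ Fin n → ℝ) (Sum.inr j) = 0 :=
      Pi.single_eq_of_ne (by simp) _
    exact h ▸ hasDerivAt_const s _

lemma eU_dU_Bq_ptN (α : Fin n → Fin 2 → ℝ) (z : Fin 2 → ℝ) (s R : ℝ) :
    eU (bN n) (dU (bN n) (Sum.inl 2) (Bq (bN n) R 0 (fun _ => 0))) (ptN α z s) = 2 * s := by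
  have h1 := (hasFDerivAt_eU (bN n) (Bq (bN n) R 0 (fun _ => 0)) (ptN α z s)).comp_hasDerivAt s
    (ptN_hasDerivAt α z s)
  have h2 : ((eU (bN n) (Bq (bN n) R 0 (fun _ => 0))) ∘ fun s => ptN α z s) = fun s =>
      1 + ∑ v ∈ SS (bN n), UU (bN n) (ptN α z 0) v ^ ((SS (bN n)).card + 1) + s ^ 2 -
        R * ∏ v ∈ SS (bN n), UU (bN n) (ptN α z 0) v := by
    funext s
    exact eU_Bq_ptN α z s R
  rw [h2] at h1
  have h3 : HasDerivAt (fun s : ℝ =>
      1 + ∑ v ∈ SS (bN n), UU (bN n) (ptN α z 0) v ^ ((SS (bN n)).card + 1) + s ^ 2 -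
        R * ∏ v ∈ SS (bN n), UU (bN n) (ptN α z 0) v) (2 * s) s := by
    have h4 : HasDerivAt (fun s : ℝ => s ^ 2) (2 * s) s := by
      have := hasDerivAt_pow 2 s
      simpa using this
    exact (h4.const_add _).sub_const _
  have h5 := h1.unique h3
  rw [← h5, lf_apply, Finset.sum_eq_single (Sum.inl 2)]
  · rw [Pi.single_eq_same, mul_one]
  · intro i _ hi
    rw [Pi.single_eq_of_ne hi, mul_zero]
  · simp

end

end Fewnomial
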