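import Mathlib
import Pool.Agent.Lib.MP_4cba3d_ag.LExp
import Pool.Agent.Lib.MP_4cba3d_ag.ExpSum

/-!
The improved bound for two exponential sums in the plane, in normalized form: the count.
-/

namespace Fewnomial

open MvPolynomial Filter Set
open scoped Topology

section sums

variable {J : Type} [Fintype J]

/-- An exponential sum. -/
noncomputable def expS (t : ℕ) (β : ℕ → J → ℝ) (d : ℕ → ℝ) (x : J → ℝ) : ℝ :=
  ∑ l ∈ Finset.range (t + 1), d l * mu (β l) x

/-- Its gradient. -/
noncomputable def expSg (t : ℕ) (β : ℕ → J → ℝ) (d : ℕ → ℝ) (x : J → ℝ) (i : J) : ℝ :=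
  ∑ l ∈ Finset.range (t + 1), d l * (mu (β l) x * β l i)

lemma expS_hasFDerivAt [DecidableEq J] (t : ℕ) (β : ℕ → J → ℝ) (d : ℕ → ℝ) (x : J → ℝ) :
    HasFDerivAt (expS t β d) (lf (expSg t β d x)) x := by
  have h1 : HasFDerivAt (expS t β d)
      (∑ l ∈ Finset.range (t + 1), d l • (mu (β l) x • lf (β l))) x :=
    HasFDerivAt.fun_sum fun l _ => (mu_hasFDerivAt (β l) x).const_mul (d l)
  have h2 : lf (expSg t β d x) =
      ∑ l ∈ Finset.range (t + 1), d l • (mu (β l) x • lf (β l)) := by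
    ext y
    rw [lf_apply]
    simp only [expSg, sum_apply, smul_apply, smul_eq_mul, lf_apply,
      Finset.sum_mul, Finset.mul_sum]
    rw [Finset.sum_comm]
    refine Finset.sum_congr rfl fun l _ => Finset.sum_congr rfl fun i _ => ?_
    ring
  rw [h2]
  exact h1

lemma expS_contDiff (t : ℕ) (β : ℕ → J → ℝ) (d : ℕ → ℝ) : ContDiff ℝ 1 (expS t β d) := by
  unfold expS
  exact ContDiff.sum fun l _ => contDiff_const.mul (mu_contDiff _)

lemma expSg_continuous (t : ℕ) (β : ℕ → J → ℝ) (d : ℕ → ℝ) (i : J) :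
    Continuous (fun x => expSg t β d x i) := by
  unfold expSg
  exact continuous_finsetSum _ fun l _ =>
    continuous_const.mul ((mu_continuous _).mul continuous_const)

end sums

section

variable {n : ℕ}

lemma eU_dU_PN_zero (c0 c1 c2 : ℝ) (c : Fin n → ℝ) (R : ℝ) (α : Fin n → Fin 2 → ℝ)
    (z : Fin 2 → ℝ) (s : ℝ) (y : Fin 3 ⊕ Fin n → ℝ)
    (hy : ∀ j, y (Sum.inr j) = α j 0 * y (Sum.inl 0) + α j 1 * y (Sum.inl 1)) :
    ∑ i, eU (bN n) (dU (bN n) i (PN c0 c1 c2 c R (Sum.inl 0))) (ptN α z s) * y i =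
      (c1 * Real.exp (z 0) + ∑ j, c j * (α j 0 * Real.exp (α j 0 * z 0 + α j 1 * z 1))) *
        y (Sum.inl 0) +
      (c2 * Real.exp (z 1) + ∑ j, c j * (α j 1 * Real.exp (α j 0 * z 0 + α j 1 * z 1))) *
        y (Sum.inl 1) := by
  have hP : PN c0 c1 c2 c R (Sum.inl 0) = C c0 + C c1 * X (Sum.inl 0) + C c2 * X (Sum.inl 1) +
      ∑ j, C (c j) * X (Sum.inr j) := rfl
  -- directional derivative
  have h0 : ∀ (r : ℝ) (v i : Fin 3 ⊕ Fin n), eU (bN n) (dU (bN n) i (C r * X v)) (ptN α z s) =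
      if v = i then r * wF (bN n) i (ptN α z s i) else 0 := by
    intro r v i
    rw [Derivation.leibniz, derivation_C, smul_zero, add_zero, dU_X, smul_eq_mul, eU_mul, eU_C]
    split_ifs with h
    · rw [eU_wU]
    · simp
  have h1 : ∀ (r : ℝ) (v : Fin 3 ⊕ Fin n),
      ∑ i, eU (bN n) (dU (bN n) i (C r * X v)) (ptN α z s) * y i =
        r * wF (bN n) v (ptN α z s v) * y v := by
    intro r v
    simp only [h0]
    rw [Finset.sum_eq_single v]
    · rw [if_pos rfl]
    · intro i _ hi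
      rw [if_neg (Ne.symm hi), zero_mul]
    · simp
  have h2 : ∀ i, eU (bN n) (dU (bN n) i (PN c0 c1 c2 c R (Sum.inl 0))) (ptN α z s) * y i =
      eU (bN n) (dU (bN n) i (C c1 * X (Sum.inl 0))) (ptN α z s) * y i +
      eU (bN n) (dU (bN n) i (C c2 * X (Sum.inl 1))) (ptN α z s) * y i +
      ∑ j, eU (bN n) (dU (bN n) i (C (c j) * X (Sum.inr j))) (ptN α z s) * y i := by
    intro i
    rw [hP, map_add, map_add, map_add, map_sum, derivation_C, eU_add, eU_add, eU_add, eU_zero,
      eU_sum, zero_add, add_mul, add_mul, Finset.sum_mul]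
  have w0 : wF (bN n) (Sum.inl 0) (ptN α z s (Sum.inl 0)) = Real.exp (z 0) := by
    simp [wF, bN, ptN]
  have w1 : wF (bN n) (Sum.inl 1) (ptN α z s (Sum.inl 1)) = Real.exp (z 1) := by
    simp [wF, bN, ptN]
  have w2 : ∀ j : Fin n, wF (bN n) (Sum.inr j) (ptN α z s (Sum.inr j)) =
      Real.exp (α j 0 * z 0 + α j 1 * z 1) := by
    intro j
    simp [wF, bN, ptN]
  rw [Finset.sum_congr rfl fun i _ => h2 i, Finset.sum_add_distrib, Finset.sum_add_distrib,
    Finset.sum_comm, h1, h1, w0, w1]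
  have h3 : ∑ j, ∑ i, eU (bN n) (dU (bN n) i (C (c j) * X (Sum.inr j))) (ptN α z s) * y i =
      (∑ j, c j * (α j 0 * Real.exp (α j 0 * z 0 + α j 1 * z 1))) * y (Sum.inl 0) +
      (∑ j, c j * (α j 1 * Real.exp (α j 0 * z 0 + α j 1 * z 1))) * y (Sum.inl 1) := by
    rw [Finset.sum_mul, Finset.sum_mul, ← Finset.sum_add_distrib]
    refine Finset.sum_congr rfl fun j _ => ?_
    rw [h1, w2, hy]
    ring
  rw [h3]
  ring

/-- The improved bound for exponential sums in the plane. -/
theorem exp_count2 (α : Fin n → Fin 2 → ℝ) (c0 c1 c2 : ℝ) (c : Fin n → ℝ) (t : ℕ)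
    (β : ℕ → Fin 2 → ℝ) (d : ℕ → ℝ) (hd : d t ≠ 0) (D : ℕ) (hD : 1 ≤ D)
    (hD' : (n + 5) * ((t + 1) * t / 2) ≤ D) (Z : Finset (Fin 2 → ℝ))
    (hZ : ∀ z ∈ Z, c0 + c1 * Real.exp (z 0) + c2 * Real.exp (z 1) +
        ∑ j, c j * Real.exp (α j 0 * z 0 + α j 1 * z 1) = 0 ∧
      ∑ l ∈ Finset.range (t + 1), d l * Real.exp (β l 0 * z 0 + β l 1 * z 1) = 0 ∧
      (c1 * Real.exp (z 0) + ∑ j, c j * (α j 0 * Real.exp (α j 0 * z 0 + α j 1 * z 1))) *
        (∑ l ∈ Finset.range (t + 1), d l * (β l 1 * Real.exp (β l 0 * z 0 + β l 1 * z 1))) -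
      (c2 * Real.exp (z 1) + ∑ j, c j * (α j 1 * Real.exp (α j 0 * z 0 + α j 1 * z 1))) *
        (∑ l ∈ Finset.range (t + 1), d l * (β l 0 * Real.exp (β l 0 * z 0 + β l 1 * z 1))) ≠ 0) :
    Z.card ≤ 2 * (t + 1) * (D * (n + 3) * (D + (n + 4)) ^ n * 2 ^ (n.choose 2)) := by
  classical
  set b := bN n with hb
  set Λ := LN n with hΛ
  set o : Fin 3 ⊕ Fin n := Sum.inl 2 with ho
  set s₀ : Fin 3 ⊕ Fin n := Sum.inl 1 with hs₀
  have hso : s₀ ≠ o := by simp [ho, hs₀]
  -- the radius
  set A : (Fin 2 → ℝ) → ℝ := fun z =>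
    1 + ∑ v ∈ SS b, UU b (ptN α z 0) v ^ ((SS b).card + 1) with hA
  set Pi' : (Fin 2 → ℝ) → ℝ := fun z => ∏ v ∈ SS b, UU b (ptN α z 0) v with hPi
  have hUpos : ∀ z, ∀ v ∈ SS b, 0 < UU b (ptN α z 0) v := by
    intro z v hv
    have : b v = true := by simpa [SS] using hv
    simp only [UU, this, if_true]
    exact Real.exp_pos _
  have hPipos : ∀ z, 0 < Pi' z := fun z => Finset.prod_pos (hUpos z)
  have hApos : ∀ z, 0 < A z := fun z =>
    add_pos_of_pos_of_nonneg one_pos (Finset.sum_nonneg fun v hv => pow_nonneg (hUpos z v hv).le _)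
  set R : ℝ := ∑ z ∈ Z, (A z + 1) / Pi' z with hR
  set h : (Fin 2 → ℝ) → ℝ := fun z => R * Pi' z - A z with hh
  have hhpos : ∀ z ∈ Z, 0 < h z := by
    intro z hz
    have h1 : (A z + 1) / Pi' z ≤ R :=
      Finset.single_le_sum (f := fun z => (A z + 1) / Pi' z)
        (fun z _ => div_nonneg (by have := hApos z; linarith) (hPipos z).le) hz
    rw [div_le_iff₀ (hPipos z)] at h1
    simp only [hh]
    linarith
  have hinjl : ∀ (z z' : Fin 2 → ℝ) (s s' : ℝ), ptN α z s = ptN α z' s' → z = z' := by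
    intro z z' s s' h1
    funext i
    fin_cases i
    · simpa [ptN] using congrFun h1 (Sum.inl 0)
    · simpa [ptN] using congrFun h1 (Sum.inl 1)
  set W1 := Z.image (fun z => ptN α z (Real.sqrt (h z))) with hW1
  set W2 := Z.image (fun z => ptN α z (-Real.sqrt (h z))) with hW2
  set W := W1 ∪ W2 with hW
  have hWcard : W.card = 2 * Z.card := by
    have hdisj : Disjoint W1 W2 := by
      rw [Finset.disjoint_left]
      intro x hx1 hx2
      obtain ⟨z, hz, rfl⟩ := Finset.mem_image.mp hx1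
      obtain ⟨z', hz', h1⟩ := Finset.mem_image.mp hx2
      have h2 : -Real.sqrt (h z') = Real.sqrt (h z) := by
        simpa [ptN] using congrFun h1 (Sum.inl 2)
      have h3 := Real.sqrt_pos.mpr (hhpos z hz)
      have h4 := Real.sqrt_pos.mpr (hhpos z' hz')
      linarith
    rw [hW, Finset.card_union_of_disjoint hdisj, hW1, hW2, Finset.card_image_of_injOn,
      Finset.card_image_of_injOn]
    · ring
    · intro z _ z' _ h1
      exact hinjl _ _ _ _ h1
    · intro z _ z' _ h1
      exact hinjl _ _ _ _ h1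
  have hWmem : ∀ w ∈ W, ∃ z ∈ Z, ∃ s : ℝ, s ^ 2 = h z ∧ s ≠ 0 ∧ w = ptN α z s := by
    intro w hw
    rcases Finset.mem_union.mp hw with hw | hw
    · obtain ⟨z, hz, rfl⟩ := Finset.mem_image.mp hw
      exact ⟨z, hz, _, Real.sq_sqrt (hhpos z hz).le, (Real.sqrt_pos.mpr (hhpos z hz)).ne', rfl⟩
    · obtain ⟨z, hz, rfl⟩ := Finset.mem_image.mp hw
      refine ⟨z, hz, _, ?_, neg_ne_zero.mpr (Real.sqrt_pos.mpr (hhpos z hz)).ne', rfl⟩
      rw [neg_sq]
      exact Real.sq_sqrt (hhpos z hz).le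
  -- the mixed system
  set P := PN c0 c1 c2 c R with hP
  set lam := lamN α with hlam
  set κ : Fin 3 ⊕ Fin n → ℝ := fun _ => 0 with hκ
  have hPs : P s₀ = Bq b R 0 (fun _ => 0) := rfl
  set q0 : ℝ := 1 / (2 * ((Fintype.card (Fin 3 ⊕ Fin n) : ℝ) + 1)) with hq0
  have hcard1 : (0 : ℝ) ≤ Fintype.card (Fin 3 ⊕ Fin n) := Nat.cast_nonneg _
  have hq0pos : 0 < q0 := by rw [hq0]; positivity
  have hη : q0 * ((Fintype.card (Fin 3 ⊕ Fin n) : ℝ) + 1) ≤ 1 / 2 := by
    rw [hq0]
    apply le_of_eq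
    field_simp
  have hη2 : q0 ≤ 1 / 2 := by
    rw [hq0]
    apply one_div_le_one_div_of_le two_pos
    linarith
  have hβu : ∀ x : Fin 3 ⊕ Fin n → ℝ, expS t (fun l => upN n (β l)) d x =
      ∑ l ∈ Finset.range (t + 1), d l *
        Real.exp (β l 0 * x (Sum.inl 0) + β l 1 * x (Sum.inl 1)) := by
    intro x
    simp only [expS, mu_upN]
  obtain ⟨θ, C₀, Z1, hθ, hΓ, hV, hZ1, hZ1c⟩ := exists_curve_gen o (mF b Λ P κ lam)
    (mG b Λ P lam) (mF_hasFDerivAt b Λ P κ lam) (mF_contDiff b Λ P κ lam)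
    (mG_contDiff b Λ P lam) (mE b Λ) (mE' b Λ) (mE_hasDerivAt b Λ) (mE_contDiff b Λ)
    (mE'_contDiff b Λ) (mE'_ne b Λ) (η := q0 / 2) (by linarith)
    (fun θ hθ => (mixed_compact b Λ P κ lam o s₀ (inl_notMem_LN 1) hso R 0 (fun _ => 0) 0
      (q0 / 2) q0 hPs hη hq0pos.le hη2 (by linarith) (by simp) (by simp) θ hθ).1)
    (expS t (fun l => upN n (β l)) d) (expSg t (fun l => upN n (β l)) d)
    (expS_hasFDerivAt t _ d) (expS_contDiff t _ d) (expSg_continuous t _ d) W (by
      intro w hw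
      obtain ⟨z, hz, s, hs, hs0, rfl⟩ := hWmem w hw
      obtain ⟨hz1, hz2, hz3⟩ := hZ z hz
      refine ⟨?_, ?_, ?_⟩
      · intro v hv
        rcases v with i | j
        · have hi : (Sum.inl i : Fin 3 ⊕ Fin n) ∉ Λ := inl_notMem_LN i
          simp only [mF, hi, if_false]
          fin_cases i
          · show eU b (C c0 + C c1 * X (Sum.inl 0) + C c2 * X (Sum.inl 1) +
              ∑ j, C (c j) * X (Sum.inr j)) (ptN α z s) = 0
            simp only [eU_add, eU_mul, eU_C, eU_X, eU_sum, hb, UU_ptN_0, UU_ptN_1, UU_ptN_inr]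
            exact hz1
          · show eU b (Bq b R 0 (fun _ => 0)) (ptN α z s) = 0
            rw [hb, eU_Bq_ptN, hs]
            simp only [hh, hA, hPi, hb]
            ring
          · exact absurd rfl hv
        · have hj : (Sum.inr j : Fin 3 ⊕ Fin n) ∈ Λ := inr_mem_LN j
          simp only [mF, hj, if_true, hκ, sub_zero]
          rw [hlam, lamN_sum]
          simp [ptN]
      · rw [hβu]
        exact hz2
      · intro hdet
        obtain ⟨y, hy0, hy⟩ := Matrix.exists_mulVec_eq_zero_iff.mpr hdet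
        apply hy0
        have hrow : ∀ v, v ≠ o → ∑ j, mG b Λ P lam v (ptN α z s) j * y j = 0 := by
          intro v hv
          have h1 := congrFun hy v
          rw [Matrix.mulVec, dotProduct, Matrix.updateRow_ne hv] at h1
          exact h1
        have hrowo : ∑ j, expSg t (fun l => upN n (β l)) d (ptN α z s) j * y j = 0 := by
          have h1 := congrFun hy o
          rw [Matrix.mulVec, dotProduct, Matrix.updateRow_self] at h1
          exact h1
        have hyr : ∀ j, y (Sum.inr j) = α j 0 * y (Sum.inl 0) + α j 1 * y (Sum.inl 1) := by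
          intro j
          have h1 := hrow (Sum.inr j) (by simp [ho])
          have hj : (Sum.inr j : Fin 3 ⊕ Fin n) ∈ Λ := inr_mem_LN j
          simp only [mG, hj, if_true] at h1
          rw [hlam, lamN_sum] at h1
          linarith
        have e1 : (c1 * Real.exp (z 0) + ∑ j, c j * (α j 0 * Real.exp (α j 0 * z 0 +
              α j 1 * z 1))) * y (Sum.inl 0) +
            (c2 * Real.exp (z 1) + ∑ j, c j * (α j 1 * Real.exp (α j 0 * z 0 + α j 1 * z 1))) *
              y (Sum.inl 1) = 0 := by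
          have h1 := hrow (Sum.inl 0) (by simp [ho])
          have hi : (Sum.inl 0 : Fin 3 ⊕ Fin n) ∉ Λ := inl_notMem_LN 0
          simp only [mG, hi, if_false] at h1
          rw [← eU_dU_PN_zero c0 c1 c2 c R α z s y hyr]
          exact h1
        have e2 : (∑ l ∈ Finset.range (t + 1), d l * (β l 0 *
              Real.exp (β l 0 * z 0 + β l 1 * z 1))) * y (Sum.inl 0) +
            (∑ l ∈ Finset.range (t + 1), d l * (β l 1 *
              Real.exp (β l 0 * z 0 + β l 1 * z 1))) * y (Sum.inl 1) = 0 := by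
          rw [← hrowo]
          simp only [expSg, Finset.sum_mul]
          rw [Finset.sum_comm, ← Finset.sum_add_distrib]
          refine Finset.sum_congr rfl fun l _ => ?_
          have h1 : ∑ i, d l * (mu (upN n (β l)) (ptN α z s) * upN n (β l) i) * y i =
              d l * mu (upN n (β l)) (ptN α z s) * ∑ i, upN n (β l) i * y i := by
            rw [Finset.mul_sum]
            exact Finset.sum_congr rfl fun i _ => by ring
          rw [h1, upN_sum, mu_upN]
          have p0 : ptN α z s (Sum.inl 0) = z 0 := rfl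
          have p1 : ptN α z s (Sum.inl 1) = z 1 := rfl
          rw [p0, p1]
          ring
        have y0 : y (Sum.inl 0) = 0 := by
          refine (mul_eq_zero.mp ?_).resolve_left hz3
          linear_combination (∑ l ∈ Finset.range (t + 1), d l * (β l 1 *
              Real.exp (β l 0 * z 0 + β l 1 * z 1))) * e1 -
            (c2 * Real.exp (z 1) + ∑ j, c j * (α j 1 *
              Real.exp (α j 0 * z 0 + α j 1 * z 1))) * e2
        have y1 : y (Sum.inl 1) = 0 := by
          refine (mul_eq_zero.mp ?_).resolve_left hz3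
          linear_combination (c1 * Real.exp (z 0) + ∑ j, c j * (α j 0 *
              Real.exp (α j 0 * z 0 + α j 1 * z 1))) * e2 -
            (∑ l ∈ Finset.range (t + 1), d l * (β l 0 *
              Real.exp (β l 0 * z 0 + β l 1 * z 1))) * e1
        have yr : ∀ j, y (Sum.inr j) = 0 := fun j => by rw [hyr, y0, y1]; ring
        have y2 : y (Sum.inl 2) = 0 := by
          have h1 := hrow s₀ hso
          have hi : s₀ ∉ Λ := inl_notMem_LN 1
          simp only [mG, hi, if_false] at h1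
          rw [hPs, Finset.sum_eq_single (Sum.inl 2)] at h1
          · rw [hb, eU_dU_Bq_ptN] at h1
            exact (mul_eq_zero.mp h1).resolve_left (mul_ne_zero two_ne_zero hs0)
          · intro v _ hv
            rcases v with i | j
            · fin_cases i
              · exact mul_eq_zero_of_right _ y0
              · exact mul_eq_zero_of_right _ y1
              · exact absurd rfl hv
            · exact mul_eq_zero_of_right _ (yr j)
          · simp
        funext v
        rcases v with i | j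
        · fin_cases i
          · exact y0
          · exact y1
          · exact y2
        · exact yr j)
  -- the perturbed mixed system
  obtain ⟨-, hc', hbb'⟩ := mixed_compact b Λ P κ lam o s₀ (inl_notMem_LN 1) hso R 0 (fun _ => 0) 0
      (q0 / 2) q0 hPs hη hq0pos.le hη2 (by linarith) (by simp) (by simp) θ hθ
  set Q := pP P θ with hQ
  set κ' : Fin 3 ⊕ Fin n → ℝ := fun v => κ v + θ.1 v with hκ'
  set lam' : Fin 3 ⊕ Fin n → Fin 3 ⊕ Fin n → ℝ := fun v j => lam v j - θ.2 v j with hlam'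
  have hΓ' : C₀.Γ = {x | ∀ v, v ≠ o → mF b Λ Q κ' lam' v x = 0} := by
    rw [hΓ]
    simp only [pF_mF]
    rfl
  have hV' : C₀.V = tangent (mG b Λ Q lam') o := by
    rw [hV]
    congr 1
    funext v x j
    rw [pG_mG]
  set 𝒱 := fieldU b Λ Q lam' o with h𝒱
  have hVe : ∀ x v, C₀.V x v = eU b (𝒱 v) x := by
    intro x v
    rw [hV', h𝒱, eU_fieldU]
  have hdegN : ∀ v, 1 ≤ degN n v := by
    intro v
    unfold degN
    split_ifs <;> omega
  have hPdeg : ∀ v, v ∉ Λ → v ≠ o → (Q v).totalDegree ≤ degN n v := by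
    intro v hv hvo
    refine pP_totalDegree θ (hdegN v) ?_
    rcases v with i | j
    · fin_cases i
      · show (C c0 + C c1 * X (Sum.inl 0) + C c2 * X (Sum.inl 1) +
          ∑ j, C (c j) * X (Sum.inr j) : MvPolynomial (Fin 3 ⊕ Fin n) ℝ).totalDegree ≤ _
        refine le_trans ?_ (hdegN _)
        have hl : ∀ (r : ℝ) (v : Fin 3 ⊕ Fin n),
            (C r * X v : MvPolynomial (Fin 3 ⊕ Fin n) ℝ).totalDegree ≤ 1 := by
          intro r v
          refine (totalDegree_mul _ _).trans ?_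
          rw [totalDegree_C, totalDegree_X]
        refine (totalDegree_add _ _).trans (max_le ((totalDegree_add _ _).trans
          (max_le ((totalDegree_add _ _).trans (max_le ?_ (hl _ _))) (hl _ _))) ?_)
        · rw [totalDegree_C]; exact Nat.zero_le _
        · exact totalDegree_finsetSum_le fun j _ => hl _ _
      · show (Bq b R 0 (fun _ => 0)).totalDegree ≤ degN n (Sum.inl 1)
        have h1 := Bq_totalDegree b R 0 (fun _ => 0) (by rw [hb, SS_bN_card]; omega)
        rw [hb, SS_bN_card] at h1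
        simpa [degN, hb] using h1
      · exact absurd rfl hvo
    · exact absurd (inr_mem_LN j) hv
  have hQs : Q s₀ = Bq b R (0 + θ.1 s₀) (fun v => 0 + θ.2 s₀ v) := pP_Bq b θ hPs
  have hdsum : ∑ i ∈ (Λᶜ).erase o, degN n i = n + 4 := by
    rw [hΛ, ho, LN_compl_erase, Finset.sum_pair (by simp)]
    simp [degN]
    omega
  have hdprod : ∏ i ∈ (Λᶜ).erase o, degN n i = n + 3 := by
    rw [hΛ, ho, LN_compl_erase, Finset.prod_pair (by simp)]
    simp [degN]
  -- the exponential sum on the curve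
  obtain ⟨δ, hδ, hpers⟩ := C₀.persist (fd_of_hasFDerivAt C₀
    (expS_hasFDerivAt t (fun l => upN n (β l)) d)) 0 Z1 (fun z hz => hZ1 z hz)
  obtain ⟨M, hM⟩ := C₀.compact.exists_bound_of_continuousOn
    (f := fun x => ∑ l ∈ Finset.range (t + 1), |d l| * mu (upN n (β l)) x)
    (continuous_finsetSum _ fun l _ => continuous_const.mul (mu_continuous _)).continuousOn
  have hM'0 : 0 < |M| + 1 := by positivity
  obtain ⟨q, hq1, hq2, hq3⟩ := exists_genericU b C₀ 𝒱 hVe (fun l => upN n (β l)) (t + 1)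
    (δ := δ / (|M| + 1)) (div_pos hδ hM'0)
  set f : ℕ → ℕ → (Fin 3 ⊕ Fin n → ℝ) → ℝ := fun l => jetU b 𝒱 (upN n (β l)) (q l) with hf
  obtain ⟨Z', hZ', hZ'c⟩ := hpers (fun x => ∑ l ∈ Finset.range (t + 1), d l * f l 0 x)
    (continuous_finsetSum _ fun l _ =>
      continuous_const.mul (jetU_continuous b 𝒱 (upN n (β l)) (q l) 0)).continuousOn (by
      intro x hx
      have h3 := hM x hx
      have h4 : 0 ≤ ∑ l ∈ Finset.range (t + 1), |d l| * mu (upN n (β l)) x :=
        Finset.sum_nonneg fun l _ => mul_nonneg (abs_nonneg _) (mu_pos _ _).le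
      rw [Real.norm_eq_abs, abs_of_nonneg h4] at h3
      have e1 : (∑ l ∈ Finset.range (t + 1), d l * f l 0 x) -
          expS t (fun l => upN n (β l)) d x =
          ∑ l ∈ Finset.range (t + 1), d l * mu (upN n (β l)) x * (eU b (q l) x - 1) := by
        rw [expS, ← Finset.sum_sub_distrib]
        refine Finset.sum_congr rfl fun l _ => ?_
        rw [hf]
        simp only
        rw [jetU_zero]
        ring
      rw [e1]
      calc |∑ l ∈ Finset.range (t + 1), d l * mu (upN n (β l)) x * (eU b (q l) x - 1)|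
          ≤ ∑ l ∈ Finset.range (t + 1), |d l * mu (upN n (β l)) x * (eU b (q l) x - 1)| :=
            Finset.abs_sum_le_sum_abs _ _
        _ ≤ ∑ l ∈ Finset.range (t + 1), |d l| * mu (upN n (β l)) x * (δ / (|M| + 1)) := by
            refine Finset.sum_le_sum fun l _ => ?_
            rw [abs_mul, abs_mul, abs_of_pos (mu_pos _ _)]
            exact mul_le_mul_of_nonneg_left (hq2 l x hx).le
              (mul_nonneg (abs_nonneg _) (mu_pos _ _).le)
        _ = (∑ l ∈ Finset.range (t + 1), |d l| * mu (upN n (β l)) x) * (δ / (|M| + 1)) := by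
            rw [Finset.sum_mul]
        _ ≤ M * (δ / (|M| + 1)) :=
            mul_le_mul_of_nonneg_right h3 (div_pos hδ hM'0).le
        _ < (|M| + 1) * (δ / (|M| + 1)) := by
            apply mul_lt_mul_of_pos_right _ (div_pos hδ hM'0)
            have := le_abs_self M
            linarith
        _ = δ := mul_div_cancel₀ _ hM'0.ne')
  obtain ⟨F, hF1, hF2, hF3⟩ := wronskian_zerosU b Λ Q κ' lam' (degN n) hdegN o s₀
    (inl_notMem_LN 2) (inl_notMem_LN 1) hso hPdeg R (0 + θ.1 s₀) (fun v => 0 + θ.2 s₀ v)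
    (0 + q0 / 2) q0 hQs hη hη2 (by linarith) (by linarith) hc' hbb' C₀ hΓ' hV'
    (fun l => upN n (β l)) q hq1 (t + 1) hq3 (n + 4) D hdsum hD (by simpa using hD')
  have hchain := chain_count C₀ f (fun l i => jetU_FD b C₀ 𝒱 hVe (upN n (β l)) (q l) i) t F hF1
    hF2 ((D * ∏ v ∈ (Λᶜ).erase o, degN n v) * (D + (n + 4)) ^ Λ.card *
        2 ^ (Λ.card.choose 2)) hF3 d hd Z' hZ'
  rw [hZ'c, hZ1c, hWcard, hdprod, hΛ, LN_card] at hchain
  have e : 4 * (t + 1) * (D * (n + 3) * (D + (n + 4)) ^ n * 2 ^ n.choose 2) =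
      2 * (2 * (t + 1) * (D * (n + 3) * (D + (n + 4)) ^ n * 2 ^ n.choose 2)) := by ring
  rw [e] at hchain
  exact Nat.le_of_mul_le_mul_left hchain two_pos

end

end Fewnomial
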