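import Mathlib
import Pool.Agent.Lib.MP_4cba3d_ag.LExp2

/-!
The improved bound for two exponential sums in the plane: general exponents.
-/

namespace Fewnomial

open MvPolynomial Filter Set
open scoped Topology

/-- The determinant of two vectors. -/
def dt (u v : Fin 2 → ℝ) : ℝ := u 0 * v 1 - u 1 * v 0

/-- A finite sum of exponentials. -/
noncomputable def es {K : Type*} (s : Finset K) (c : K → ℝ) (a : K → Fin 2 → ℝ)
    (w : Fin 2 → ℝ) : ℝ := ∑ k ∈ s, c k * Real.exp (a k 0 * w 0 + a k 1 * w 1)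

/-- Its partial derivatives. -/
noncomputable def esg {K : Type*} (s : Finset K) (c : K → ℝ) (a : K → Fin 2 → ℝ)
    (w : Fin 2 → ℝ) (i : Fin 2) : ℝ :=
  ∑ k ∈ s, c k * (a k i * Real.exp (a k 0 * w 0 + a k 1 * w 1))

lemma es_hasFDerivAt {K : Type*} (s : Finset K) (c : K → ℝ) (a : K → Fin 2 → ℝ)
    (w : Fin 2 → ℝ) : HasFDerivAt (es s c a) (lf (esg s c a w)) w := by
  have hmu : ∀ k (y : Fin 2 → ℝ), mu (a k) y = Real.exp (a k 0 * y 0 + a k 1 * y 1) := by
    intro k y
    rw [mu, Fin.sum_univ_two]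
  have h1 : HasFDerivAt (fun y => ∑ k ∈ s, c k * mu (a k) y)
      (∑ k ∈ s, c k • (mu (a k) w • lf (a k))) w :=
    HasFDerivAt.fun_sum fun k _ => (mu_hasFDerivAt (a k) w).const_mul (c k)
  have h2 : lf (esg s c a w) = ∑ k ∈ s, c k • (mu (a k) w • lf (a k)) := by
    ext y
    rw [lf_apply]
    simp only [esg, sum_apply, smul_apply, smul_eq_mul, lf_apply,
      Finset.sum_mul, Finset.mul_sum, hmu]
    rw [Finset.sum_comm]
    refine Finset.sum_congr rfl fun l _ => Finset.sum_congr rfl fun i _ => ?_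
    ring
  rw [h2]
  have h3 : es s c a = fun y => ∑ k ∈ s, c k * mu (a k) y := by
    funext y
    simp only [es, hmu]
  rw [h3]
  exact h1

/-- The bound when the first two exponents are independent. -/
theorem exp_count3 {n : ℕ} (α : Fin (n + 2) → Fin 2 → ℝ) (c0 : ℝ) (c : Fin (n + 2) → ℝ)
    (hα : dt (α 0) (α 1) ≠ 0) (t : ℕ)
    (β : ℕ → Fin 2 → ℝ) (d : ℕ → ℝ) (hd : d t ≠ 0) (D : ℕ) (hD : 1 ≤ D)
    (hD' : (n + 5) * ((t + 1) * t / 2) ≤ D) (Z : Finset (Fin 2 → ℝ))
    (hZ : ∀ z ∈ Z, c0 + es Finset.univ c α z = 0 ∧ es (Finset.range (t + 1)) d β z = 0 ∧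
      dt (esg Finset.univ c α z) (esg (Finset.range (t + 1)) d β z) ≠ 0) :
    Z.card ≤ 2 * (t + 1) * (D * (n + 3) * (D + (n + 4)) ^ n * 2 ^ (n.choose 2)) := by
  classical
  set Δ := dt (α 0) (α 1) with hΔ
  -- the linear change of coordinates
  set L : (Fin 2 → ℝ) → (Fin 2 → ℝ) := fun x =>
    ![α 0 0 * x 0 + α 0 1 * x 1, α 1 0 * x 0 + α 1 1 * x 1] with hL
  have hL0 : ∀ x, L x 0 = α 0 0 * x 0 + α 0 1 * x 1 := fun x => rfl
  have hL1 : ∀ x, L x 1 = α 1 0 * x 0 + α 1 1 * x 1 := fun x => rfl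
  have hcomb : ∀ (u x : Fin 2 → ℝ), dt u (α 1) / Δ * L x 0 + dt (α 0) u / Δ * L x 1 =
      u 0 * x 0 + u 1 * x 1 := by
    intro u x
    rw [hL0, hL1, div_mul_eq_mul_div, div_mul_eq_mul_div, ← add_div, div_eq_iff hα, hΔ]
    unfold dt
    ring
  have hcombv : ∀ (u : Fin 2 → ℝ) (i : Fin 2), dt u (α 1) / Δ * α 0 i + dt (α 0) u / Δ * α 1 i =
      u i := by
    intro u i
    rw [div_mul_eq_mul_div, div_mul_eq_mul_div, ← add_div, div_eq_iff hα, hΔ]
    unfold dt
    fin_cases i <;> simp <;> ring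
  have hinj : Function.Injective L := by
    intro x y hxy
    have e0 := congrFun hxy 0
    have e1 := congrFun hxy 1
    rw [hL0, hL0] at e0
    rw [hL1, hL1] at e1
    have k0 : Δ * (x 0 - y 0) = 0 := by
      rw [hΔ]; unfold dt
      linear_combination (α 1 1) * e0 - (α 0 1) * e1
    have k1 : Δ * (x 1 - y 1) = 0 := by
      rw [hΔ]; unfold dt
      linear_combination (α 0 0) * e1 - (α 1 0) * e0
    funext i
    fin_cases i
    · exact sub_eq_zero.mp ((mul_eq_zero.mp k0).resolve_left hα)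
    · exact sub_eq_zero.mp ((mul_eq_zero.mp k1).resolve_left hα)
  rw [← Finset.card_image_of_injective Z hinj]
  refine exp_count2 (fun j => ![dt (α j.succ.succ) (α 1) / Δ, dt (α 0) (α j.succ.succ) / Δ])
    c0 (c 0) (c 1) (fun j => c j.succ.succ) t
    (fun l => ![dt (β l) (α 1) / Δ, dt (α 0) (β l) / Δ]) d hd D hD hD' _ ?_
  intro z hz
  obtain ⟨x, hx, rfl⟩ := Finset.mem_image.mp hz
  obtain ⟨h1, h2, h3⟩ := hZ x hx
  simp only [Matrix.cons_val_zero, Matrix.cons_val_one, hcomb]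
  refine ⟨?_, ?_, ?_⟩
  · have e0 : (Fin.succ 0 : Fin (n + 2)) = 1 := rfl
    rw [← h1, es, Fin.sum_univ_succ, Fin.sum_univ_succ, hL0, hL1, e0]
    ring
  · exact h2
  · -- the Jacobian
    set A : ℝ := c 0 * Real.exp (L x 0) + ∑ j : Fin n, c j.succ.succ *
      (dt (α j.succ.succ) (α 1) / Δ *
        Real.exp (α j.succ.succ 0 * x 0 + α j.succ.succ 1 * x 1)) with hA
    set B : ℝ := c 1 * Real.exp (L x 1) + ∑ j : Fin n, c j.succ.succ *
      (dt (α 0) (α j.succ.succ) / Δ *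
        Real.exp (α j.succ.succ 0 * x 0 + α j.succ.succ 1 * x 1)) with hB
    set A' : ℝ := ∑ l ∈ Finset.range (t + 1), d l * (dt (β l) (α 1) / Δ *
      Real.exp (β l 0 * x 0 + β l 1 * x 1)) with hA'
    set B' : ℝ := ∑ l ∈ Finset.range (t + 1), d l * (dt (α 0) (β l) / Δ *
      Real.exp (β l 0 * x 0 + β l 1 * x 1)) with hB'
    have g1 : ∀ i, esg Finset.univ c α x i = A * α 0 i + B * α 1 i := by
      intro i
      rw [esg, Fin.sum_univ_succ, Fin.sum_univ_succ, hA, hB, add_mul, add_mul, Finset.sum_mul,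
        Finset.sum_mul]
      have e1 : ∑ j : Fin n, c j.succ.succ * (α j.succ.succ i *
          Real.exp (α j.succ.succ 0 * x 0 + α j.succ.succ 1 * x 1)) =
          ∑ j : Fin n, c j.succ.succ * (dt (α j.succ.succ) (α 1) / Δ *
            Real.exp (α j.succ.succ 0 * x 0 + α j.succ.succ 1 * x 1)) * α 0 i +
          ∑ j : Fin n, c j.succ.succ * (dt (α 0) (α j.succ.succ) / Δ *
            Real.exp (α j.succ.succ 0 * x 0 + α j.succ.succ 1 * x 1)) * α 1 i := by
        rw [← Finset.sum_add_distrib]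
        refine Finset.sum_congr rfl fun j _ => ?_
        conv_lhs => rw [← hcombv (α j.succ.succ) i]
        ring
      have e0 : (Fin.succ 0 : Fin (n + 2)) = 1 := rfl
      rw [e0, e1, hL0, hL1]
      ring
    have g2 : ∀ i, esg (Finset.range (t + 1)) d β x i = A' * α 0 i + B' * α 1 i := by
      intro i
      rw [esg, hA', hB', Finset.sum_mul, Finset.sum_mul, ← Finset.sum_add_distrib]
      refine Finset.sum_congr rfl fun l _ => ?_
      conv_lhs => rw [← hcombv (β l) i]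
      ring
    intro hcon
    apply h3
    have e : dt (esg Finset.univ c α x) (esg (Finset.range (t + 1)) d β x) =
        Δ * (A * B' - B * A') := by
      rw [hΔ]
      unfold dt
      rw [g1, g1, g2, g2]
      ring
    rw [e, hcon, mul_zero]

/-- The bound when the first two exponents are nonzero. -/
theorem exp_count4 {n : ℕ} (α : Fin (n + 2) → Fin 2 → ℝ) (c0 : ℝ) (c : Fin (n + 2) → ℝ)
    (hα0 : α 0 ≠ 0) (hα1 : α 1 ≠ 0) (t : ℕ)
    (β : ℕ → Fin 2 → ℝ) (d : ℕ → ℝ) (hd : d t ≠ 0) (D : ℕ) (hD : 1 ≤ D)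
    (hD' : (n + 5) * ((t + 1) * t / 2) ≤ D) (Z : Finset (Fin 2 → ℝ))
    (hZ : ∀ z ∈ Z, c0 + es Finset.univ c α z = 0 ∧ es (Finset.range (t + 1)) d β z = 0 ∧
      dt (esg Finset.univ c α z) (esg (Finset.range (t + 1)) d β z) ≠ 0) :
    Z.card ≤ 2 * (t + 1) * (D * (n + 3) * (D + (n + 4)) ^ n * 2 ^ (n.choose 2)) := by
  classical
  by_cases hΔ : dt (α 0) (α 1) ≠ 0
  · exact exp_count3 α c0 c hΔ t β d hd D hD hD' Z hZ
  push Not at hΔ
  -- perturbation of the second exponent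
  set ν : Fin (n + 2) → Fin 2 → ℝ := fun j => if j = 1 then ![-(α 1 1), α 1 0] else 0 with hν
  set α' : ℝ → Fin (n + 2) → Fin 2 → ℝ := fun ε j i => α j i + ε * ν j i with hα'
  have hα'0 : α' 0 = α := by
    funext j i
    simp [hα']
  have hdot : α 0 0 * α 1 0 + α 0 1 * α 1 1 ≠ 0 := by
    intro h0
    have h1 : (α 0 0 ^ 2 + α 0 1 ^ 2) * (α 1 0 ^ 2 + α 1 1 ^ 2) = 0 := by
      have h2 : (α 0 0 ^ 2 + α 0 1 ^ 2) * (α 1 0 ^ 2 + α 1 1 ^ 2) =
          (α 0 0 * α 1 0 + α 0 1 * α 1 1) ^ 2 + (dt (α 0) (α 1)) ^ 2 := by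
        unfold dt
        ring
      rw [h2, h0, hΔ]
      ring
    have hsq : ∀ u : Fin 2 → ℝ, u 0 ^ 2 + u 1 ^ 2 = 0 → u = 0 := by
      intro u hu
      have h2 : u 0 ^ 2 = 0 := le_antisymm (by nlinarith [sq_nonneg (u 1)]) (sq_nonneg _)
      have h3 : u 1 ^ 2 = 0 := le_antisymm (by nlinarith [sq_nonneg (u 0)]) (sq_nonneg _)
      funext i
      fin_cases i
      · exact pow_eq_zero_iff two_ne_zero |>.mp h2
      · exact pow_eq_zero_iff two_ne_zero |>.mp h3
    rcases mul_eq_zero.mp h1 with h | h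
    · exact hα0 (hsq _ h)
    · exact hα1 (hsq _ h)
  have hdet : ∀ ε : ℝ, ε ≠ 0 → dt (α' ε 0) (α' ε 1) ≠ 0 := by
    intro ε hε
    have h01 : (0 : Fin (n + 2)) ≠ 1 := by
      intro h
      have := congrArg Fin.val h
      simp at this
    have e : dt (α' ε 0) (α' ε 1) = dt (α 0) (α 1) + ε * (α 0 0 * α 1 0 + α 0 1 * α 1 1) := by
      simp only [dt, hα', hν, if_neg h01, if_true, Pi.zero_apply, mul_zero, add_zero,
        Matrix.cons_val_zero, Matrix.cons_val_one]
      ring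
    rw [e, hΔ, zero_add]
    exact mul_ne_zero hε hdot
  -- persistence
  let F : ℝ × (Fin 2 → ℝ) → (Fin 2 → ℝ) := fun p =>
    ![c0 + es Finset.univ c (α' p.1) p.2, es (Finset.range (t + 1)) d β p.2]
  let Jf : ℝ × (Fin 2 → ℝ) → ℝ := fun p =>
    dt (esg Finset.univ c (α' p.1) p.2) (esg (Finset.range (t + 1)) d β p.2)
  have hcoord : ∀ i : Fin 2, ContDiff ℝ 1 (fun p : ℝ × (Fin 2 → ℝ) => p.2 i) := fun i =>
    contDiff_pi.mp contDiff_snd i
  have hαC : ∀ j i, ContDiff ℝ 1 (fun p : ℝ × (Fin 2 → ℝ) => α' p.1 j i) := by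
    intro j i
    simp only [hα']
    exact contDiff_const.add (contDiff_fst.mul contDiff_const)
  have hFC : ContDiff ℝ 1 F := by
    rw [contDiff_pi]
    intro v
    fin_cases v
    · show ContDiff ℝ 1 (fun p : ℝ × (Fin 2 → ℝ) => c0 + es Finset.univ c (α' p.1) p.2)
      unfold es
      refine contDiff_const.add (ContDiff.sum fun k _ => contDiff_const.mul
        (Real.contDiff_exp.comp (((hαC k 0).mul (hcoord 0)).add ((hαC k 1).mul (hcoord 1)))))
    · show ContDiff ℝ 1 (fun p : ℝ × (Fin 2 → ℝ) => es (Finset.range (t + 1)) d β p.2)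
      unfold es
      refine ContDiff.sum fun k _ => contDiff_const.mul
        (Real.contDiff_exp.comp ((contDiff_const.mul (hcoord 0)).add
          (contDiff_const.mul (hcoord 1))))
  have hJfC : Continuous Jf := by
    have h1 : ∀ i, Continuous (fun p : ℝ × (Fin 2 → ℝ) => esg Finset.univ c (α' p.1) p.2 i) := by
      intro i
      unfold esg
      exact continuous_finsetSum _ fun k _ => continuous_const.mul ((hαC k i).continuous.mul
        (Real.continuous_exp.comp (((hαC k 0).continuous.mul (hcoord 0).continuous).add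
          ((hαC k 1).continuous.mul (hcoord 1).continuous))))
    have h2 : ∀ i, Continuous (fun p : ℝ × (Fin 2 → ℝ) =>
        esg (Finset.range (t + 1)) d β p.2 i) := by
      intro i
      unfold esg
      exact continuous_finsetSum _ fun k _ => continuous_const.mul (continuous_const.mul
        (Real.continuous_exp.comp ((continuous_const.mul (hcoord 0).continuous).add
          (continuous_const.mul (hcoord 1).continuous))))
    exact ((h1 0).mul (h2 1)).sub ((h1 1).mul (h2 0))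
  obtain ⟨U, hU, hdisj⟩ := (Z : Set (Fin 2 → ℝ)).toFinite.t2_separation
  have hpers : ∀ w ∈ Z, ∀ᶠ ε in 𝓝 (0 : ℝ), ∃ w', w' ∈ U w ∧ F (ε, w') = 0 ∧ Jf (ε, w') ≠ 0 := by
    intro w hw
    obtain ⟨h1, h2, h3⟩ := hZ w hw
    have hJ0 : Jf (0, w) ≠ 0 := by
      simp only [Jf, hα'0]
      exact h3
    have hF0 : F (0, w) = 0 := by
      funext v
      fin_cases v
      · show c0 + es Finset.univ c (α' 0) w = 0
        rw [hα'0]
        exact h1
      · exact h2
    have hinj : ∀ u, fderiv ℝ F (0, w) (0, u) = 0 → u = 0 := by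
      intro u hu0
      set M : Matrix (Fin 2) (Fin 2) ℝ :=
        Matrix.of ![esg Finset.univ c α w, esg (Finset.range (t + 1)) d β w] with hM
      have hMdet : M.det ≠ 0 := by
        rw [Matrix.det_fin_two]
        have : M 0 0 * M 1 1 - M 0 1 * M 1 0 =
            dt (esg Finset.univ c α w) (esg (Finset.range (t + 1)) d β w) := rfl
        rw [this]
        exact h3
      have hg : HasFDerivAt (fun w : Fin 2 → ℝ => ((0 : ℝ), w))
          (ContinuousLinearMap.inr ℝ _ _) w := hasFDerivAt_prodMk_right _ _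
      have k2 : HasFDerivAt F (fderiv ℝ F (0, w)) (0, w) :=
        ((hFC.contDiffAt).differentiableAt one_ne_zero).hasFDerivAt
      have k3 := k2.comp w hg
      have k4 : HasFDerivAt (F ∘ fun w : Fin 2 → ℝ => ((0 : ℝ), w)) (clm M) w := by
        rw [hasFDerivAt_pi']
        intro v
        have hrow : (ContinuousLinearMap.proj v).comp (clm M) = lf (M v) := by
          ext x
          rw [ContinuousLinearMap.comp_apply, ContinuousLinearMap.proj_apply, clm_apply, lf_apply]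
          rfl
        rw [hrow]
        fin_cases v
        · show HasFDerivAt (fun w => c0 + es Finset.univ c (α' 0) w)
            (lf (esg Finset.univ c α w)) w
          rw [hα'0]
          exact (es_hasFDerivAt Finset.univ c α w).const_add c0
        · exact es_hasFDerivAt (Finset.range (t + 1)) d β w
      have k5 := k3.unique k4
      have k6 : clm M u = 0 := by
        rw [← k5]
        exact hu0
      rw [clm_apply] at k6
      exact Matrix.eq_zero_of_mulVec_eq_zero hMdet k6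
    have hJev : ∀ᶠ p in 𝓝 ((0 : ℝ), w), Jf p ≠ 0 := hJfC.continuousAt.eventually_ne hJ0
    rw [nhds_prod_eq] at hJev
    obtain ⟨pa, hpa, pb, hpb, hpab⟩ := Filter.eventually_prod_iff.mp hJev
    have hUw : U w ∩ {w | pb w} ∈ 𝓝 w :=
      Filter.inter_mem ((hU _).2.mem_nhds (hU _).1) hpb
    filter_upwards [persist_param F hFC w hF0 hinj hUw, hpa] with ε hε hεa
    obtain ⟨w', hw', hF'⟩ := hε
    exact ⟨w', hw'.1, hF', hpab hεa hw'.2⟩
  have hev : ∀ᶠ ε in 𝓝 (0 : ℝ), ∀ w ∈ Z, ∃ w', w' ∈ U w ∧ F (ε, w') = 0 ∧ Jf (ε, w') ≠ 0 :=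
    (Filter.eventually_all_finset Z).mpr hpers
  obtain ⟨ε, hε, hε0⟩ : ∃ ε : ℝ, (∀ w ∈ Z, ∃ w', w' ∈ U w ∧ F (ε, w') = 0 ∧ Jf (ε, w') ≠ 0) ∧
      ε ≠ 0 := by
    have h1 : ∀ᶠ ε in 𝓝[≠] (0 : ℝ), ∀ w ∈ Z, ∃ w', w' ∈ U w ∧ F (ε, w') = 0 ∧
        Jf (ε, w') ≠ 0 := nhdsWithin_le_nhds hev
    obtain ⟨ε, h2, h3⟩ := (h1.and self_mem_nhdsWithin).exists
    exact ⟨ε, h2, h3⟩
  choose! pε hpU hpF hpJ using hε
  have hcard : (Z.image pε).card = Z.card := by
    apply Finset.card_image_of_injOn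
    intro p hp q hq hpq
    by_contra hne
    have hd' := hdisj hp hq hne
    exact Set.disjoint_left.mp hd' (hpU p hp) (by rw [hpq]; exact hpU q hq)
  rw [← hcard]
  refine exp_count3 (α' ε) c0 c (hdet ε hε0) t β d hd D hD hD' _ ?_
  intro z hz
  obtain ⟨w, hw, rfl⟩ := Finset.mem_image.mp hz
  have h1 := hpF w hw
  exact ⟨congrFun h1 0, congrFun h1 1, hpJ w hw⟩

end Fewnomial
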