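import Mathlib
import Pool.Agent.Lib.MP_4cba3d_ag.LAlg
import Pool.Agent.Lib.MP_4cba3d_ag.Transfer

/-!
From bivariate polynomials to exponential sums: the improved bound.
-/

namespace Fewnomial

open MvPolynomial

theorem transfer_core {s t : ℕ} (f g : MvPolynomial (Fin 2) ℝ) (hf : f.support.card = s + 1)
    (hg : g.support.card = t + 1)
    (Z : Finset (Fin 2 → ℝ)) (hZ : ∀ z ∈ Z, z ∈ positiveSimple f g) :
    ∃ (α : Fin s → Fin 2 → ℝ) (c0 : ℝ) (c : Fin s → ℝ) (β : ℕ → Fin 2 → ℝ) (d : ℕ → ℝ)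
      (Z' : Finset (Fin 2 → ℝ)), (∀ j, α j ≠ 0) ∧ d t ≠ 0 ∧ Z'.card = Z.card ∧
      ∀ z ∈ Z', c0 + es Finset.univ c α z = 0 ∧ es (Finset.range (t + 1)) d β z = 0 ∧
        dt (esg Finset.univ c α z) (esg (Finset.range (t + 1)) d β z) ≠ 0 := by
  classical
  set e : Fin (s + 1) → (Fin 2 →₀ ℕ) := fun j => ((Finset.equivFinOfCardEq hf).symm j : _)
    with he
  set e' : Fin (t + 1) → (Fin 2 →₀ ℕ) := fun j => ((Finset.equivFinOfCardEq hg).symm j : _) with he'
  have heinj : Function.Injective e := by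
    intro i j h
    exact (Finset.equivFinOfCardEq hf).symm.injective (Subtype.ext h)
  set α : Fin s → Fin 2 → ℝ := fun j i => (e j.succ i : ℝ) - (e 0 i : ℝ) with hα
  have hαne : ∀ j, α j ≠ 0 := by
    intro j h
    have h1 : e j.succ = e 0 := by
      ext i
      have h2 := congrFun h i
      simp only [hα, Pi.zero_apply, sub_eq_zero] at h2
      exact_mod_cast h2
    exact Fin.succ_ne_zero j (heinj h1)
  set β : ℕ → Fin 2 → ℝ := fun l i => if h : l < t + 1 then (e' ⟨l, h⟩ i : ℝ) else 0 with hβ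
  set d : ℕ → ℝ := fun l => if h : l < t + 1 then coeff (e' ⟨l, h⟩) g else 0 with hd
  have hdt : d t ≠ 0 := by
    rw [hd]
    simp only
    rw [dif_pos (Nat.lt_succ_self t)]
    exact mem_support_iff.mp ((Finset.equivFinOfCardEq hg).symm ⟨t, Nat.lt_succ_self t⟩).2
  have hrange : ∀ G : ℝ → (Fin 2 → ℝ) → ℝ, ∑ l ∈ Finset.range (t + 1), G (d l) (β l) =
      ∑ m ∈ g.support, G (coeff m g) (fun i => (m i : ℝ)) := by
    intro G
    rw [sum_support_eq g hg (fun m => G (coeff m g) (fun i => (m i : ℝ))), Finset.sum_range]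
    refine Finset.sum_congr rfl fun l _ => ?_
    have e1 : d l = coeff (e' l) g := by
      rw [hd]
      simp only
      rw [dif_pos l.2]
    have e2 : β l = fun i => (e' l i : ℝ) := by
      funext i
      rw [hβ]
      simp only
      rw [dif_pos l.2]
    rw [e1, e2]
  -- logarithmic coordinates
  set L : (Fin 2 → ℝ) → (Fin 2 → ℝ) := fun p i => Real.log (p i) with hL
  have hpos : ∀ p ∈ Z, ∀ i, 0 < p i := by
    intro p hp i
    obtain ⟨h0, h1, -⟩ := hZ p hp
    fin_cases i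
    · exact h0
    · exact h1
  have hexp : ∀ p ∈ Z, (fun i => Real.exp (L p i)) = p := by
    intro p hp
    funext i
    exact Real.exp_log (hpos p hp i)
  have hinj : Set.InjOn L Z := by
    intro p hp q hq hpq
    rw [← hexp p hp, ← hexp q hq, hpq]
  refine ⟨α, coeff (e 0) f, fun j => coeff (e j.succ) f, β, d, Z.image L, hαne, hdt,
    Finset.card_image_of_injOn hinj, ?_⟩
  intro z hz
  obtain ⟨p, hp, rfl⟩ := Finset.mem_image.mp hz
  obtain ⟨-, -, hf0, hg0, hJ⟩ := hZ p hp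
  set z := L p with hzdef
  have hpe : (fun i => Real.exp (z i)) = p := hexp p hp
  rw [← hpe] at hf0 hg0 hJ
  -- the first equation
  set E : ℝ := Real.exp (-((e 0 0 : ℝ) * z 0 + (e 0 1 : ℝ) * z 1)) with hE
  have hshift : ∀ j, Real.exp (α j 0 * z 0 + α j 1 * z 1) =
      E * Real.exp ((e j.succ 0 : ℝ) * z 0 + (e j.succ 1 : ℝ) * z 1) := by
    intro j
    rw [hE, ← Real.exp_add]
    congr 1
    rw [hα]
    ring
  have hE0 : E * Real.exp ((e 0 0 : ℝ) * z 0 + (e 0 1 : ℝ) * z 1) = 1 := by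
    rw [hE, ← Real.exp_add, neg_add_cancel, Real.exp_zero]
  have hS : coeff (e 0) f + ∑ j : Fin s, coeff (e j.succ) f *
      Real.exp (α j 0 * z 0 + α j 1 * z 1) = 0 := by
    rw [eval_exp, sum_support_eq f hf, Fin.sum_univ_succ] at hf0
    have h1 := congrArg (fun r => E * r) hf0
    simp only [mul_zero, mul_add, Finset.mul_sum] at h1
    rw [← h1]
    congr 1
    · rw [mul_left_comm, hE0, mul_one]
    · refine Finset.sum_congr rfl fun j _ => ?_
      rw [hshift]
      ring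
  have hD1 : ∀ i, ∑ j : Fin s, coeff (e j.succ) f * (α j i *
      Real.exp (α j 0 * z 0 + α j 1 * z 1)) =
      E * (Real.exp (z i) * eval (fun i => Real.exp (z i)) (pderiv i f)) := by
    intro i
    rw [eval_pderiv_exp, sum_support_eq f hf, Fin.sum_univ_succ, mul_add, Finset.mul_sum]
    have e1 : E * (coeff (e 0) f * ((e 0 i : ℝ) * Real.exp ((e 0 0 : ℝ) * z 0 +
        (e 0 1 : ℝ) * z 1))) = coeff (e 0) f * (e 0 i : ℝ) := by
      calc E * (coeff (e 0) f * ((e 0 i : ℝ) * Real.exp ((e 0 0 : ℝ) * z 0 +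
            (e 0 1 : ℝ) * z 1)))
          = coeff (e 0) f * (e 0 i : ℝ) * (E * Real.exp ((e 0 0 : ℝ) * z 0 +
            (e 0 1 : ℝ) * z 1)) := by ring
        _ = coeff (e 0) f * (e 0 i : ℝ) := by rw [hE0, mul_one]
    have e2 : ∑ j : Fin s, coeff (e j.succ) f * (α j i *
        Real.exp (α j 0 * z 0 + α j 1 * z 1)) =
        ∑ j : Fin s, E * (coeff (e j.succ) f * ((e j.succ i : ℝ) *
          Real.exp ((e j.succ 0 : ℝ) * z 0 + (e j.succ 1 : ℝ) * z 1))) -
        (e 0 i : ℝ) * ∑ j : Fin s, coeff (e j.succ) f *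
          Real.exp (α j 0 * z 0 + α j 1 * z 1) := by
      rw [Finset.mul_sum, ← Finset.sum_sub_distrib]
      refine Finset.sum_congr rfl fun j _ => ?_
      have e3 : α j i = (e j.succ i : ℝ) - (e 0 i : ℝ) := rfl
      rw [hshift, e3]
      ring
    have e4 : ∑ j : Fin s, coeff (e j.succ) f * Real.exp (α j 0 * z 0 + α j 1 * z 1) =
        -coeff (e 0) f := by linarith
    rw [e2, e4]
    have e5 : E * (coeff ((Finset.equivFinOfCardEq hf).symm 0 : Fin 2 →₀ ℕ) f *
        ((((Finset.equivFinOfCardEq hf).symm 0 : Fin 2 →₀ ℕ) i : ℝ) *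
          Real.exp (((((Finset.equivFinOfCardEq hf).symm 0 : Fin 2 →₀ ℕ) 0 : ℕ) : ℝ) * z 0 +
            ((((Finset.equivFinOfCardEq hf).symm 0 : Fin 2 →₀ ℕ) 1 : ℕ) : ℝ) * z 1))) =
        coeff (e 0) f * (e 0 i : ℝ) := e1
    rw [e5]
    ring
  have hG : ∑ l ∈ Finset.range (t + 1), d l * Real.exp (β l 0 * z 0 + β l 1 * z 1) = 0 := by
    rw [hrange (fun c b => c * Real.exp (b 0 * z 0 + b 1 * z 1)), ← eval_exp]
    exact hg0
  have hG1 : ∀ i, ∑ l ∈ Finset.range (t + 1), d l * (β l i *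
      Real.exp (β l 0 * z 0 + β l 1 * z 1)) =
      Real.exp (z i) * eval (fun i => Real.exp (z i)) (pderiv i g) := by
    intro i
    rw [hrange (fun c b => c * (b i * Real.exp (b 0 * z 0 + b 1 * z 1))), ← eval_pderiv_exp]
  refine ⟨hS, hG, ?_⟩
  unfold dt esg
  rw [hD1, hD1, hG1, hG1]
  have hfac : E * (Real.exp (z 0) * eval (fun i => Real.exp (z i)) (pderiv 0 f)) *
      (Real.exp (z 1) * eval (fun i => Real.exp (z i)) (pderiv 1 g)) -
      E * (Real.exp (z 1) * eval (fun i => Real.exp (z i)) (pderiv 1 f)) *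
      (Real.exp (z 0) * eval (fun i => Real.exp (z i)) (pderiv 0 g)) =
      E * Real.exp (z 0) * Real.exp (z 1) * eval (fun i => Real.exp (z i))
        (pderiv 0 f * pderiv 1 g - pderiv 1 f * pderiv 0 g) := by
    rw [map_sub, map_mul, map_mul]
    ring
  rw [hfac]
  exact mul_ne_zero (mul_ne_zero (mul_ne_zero (Real.exp_pos _).ne' (Real.exp_pos _).ne')
    (Real.exp_pos _).ne') hJ

theorem transfer2 {n t : ℕ} (f g : MvPolynomial (Fin 2) ℝ) (hf : f.support.card = n + 2 + 1)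
    (hg : g.support.card = t + 1) (D : ℕ) (hD : 1 ≤ D) (hD' : (n + 5) * ((t + 1) * t / 2) ≤ D)
    (Z : Finset (Fin 2 → ℝ)) (hZ : ∀ z ∈ Z, z ∈ positiveSimple f g) :
    Z.card ≤ 2 * (t + 1) * (D * (n + 3) * (D + (n + 4)) ^ n * 2 ^ (n.choose 2)) := by
  obtain ⟨α, c0, c, β, d, Z', hα, hd, hcard, hZ'⟩ := transfer_core f g hf hg Z hZ
  rw [← hcard]
  exact exp_count4 α c0 c (hα 0) (hα 1) t β d hd D hD hD' Z' hZ'

end Fewnomial
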