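import Mathlib

/-!
The identities `x ^ m + y ^ m = S m (x y)` and `x ^ m - y ^ m = (x - y) U m (x y)` on the line
`x + y = 1`, the signs of the coefficients of `S m`, and the coprimality of `U a`, `U b` for
coprime `a`, `b`.
-/

namespace Fewnomial.Low

open Polynomial

/-- `x ^ m + y ^ m` as a polynomial in `x y`, for `x + y = 1`. -/
noncomputable def S : ℕ → ℝ[X]
  | 0 => 2
  | 1 => 1
  | (m + 2) => S (m + 1) - X * S m

/-- `(x ^ m - y ^ m) / (x - y)` as a polynomial in `x y`, for `x + y = 1`. -/
noncomputable def U : ℕ → ℝ[X]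
  | 0 => 0
  | 1 => 1
  | (m + 2) => U (m + 1) - X * U m

lemma S_eval {x y : ℝ} (h : x + y = 1) : ∀ m, (S m).eval (x * y) = x ^ m + y ^ m
  | 0 => by simp [S]; norm_num
  | 1 => by simp [S, h]
  | (m + 2) => by
    simp only [S, eval_sub, eval_mul, eval_X, S_eval h (m + 1), S_eval h m]
    have hy : y = 1 - x := by linarith
    subst hy
    ring

lemma U_eval {x y : ℝ} (h : x + y = 1) : ∀ m, (x - y) * (U m).eval (x * y) = x ^ m - y ^ m
  | 0 => by simp [U]
  | 1 => by simp [U]
  | (m + 2) => by
    simp only [U, eval_sub, eval_mul, eval_X]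
    have h1 := U_eval h (m + 1)
    have h2 := U_eval h m
    have h3 : (x - y) * ((U (m + 1)).eval (x * y) - x * y * (U m).eval (x * y)) =
      (x - y) * (U (m + 1)).eval (x * y) - x * y * ((x - y) * (U m).eval (x * y)) := by ring
    rw [h3, h1, h2]
    have hy : y = 1 - x := by linarith
    subst hy
    ring

/-- signed coefficients -/
noncomputable def sc (m j : ℕ) : ℝ := (-1) ^ j * (S m).coeff j

lemma sc_zero_right (m : ℕ) : sc (m + 2) 0 = sc (m + 1) 0 := by
  simp [sc, S]

lemma sc_succ (m j : ℕ) : sc (m + 2) (j + 1) = sc (m + 1) (j + 1) + sc m j := by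
  simp only [sc, S, coeff_sub, coeff_X_mul]
  ring

lemma sc_sign : ∀ m, (∀ j, 2 * j ≤ m → 0 < sc m j) ∧ (∀ j, m < 2 * j → sc m j = 0)
  | 0 => by
    constructor
    · intro j hj
      have : j = 0 := by omega
      subst this
      simp [sc, S]
    · intro j hj
      have h2 : (2 : ℝ[X]) = C 2 := rfl
      simp only [sc, S]
      rw [h2, coeff_C, if_neg (by omega), mul_zero]
  | 1 => by
    constructor
    · intro j hj
      have : j = 0 := by omega
      subst this
      simp [sc, S]
    · intro j hj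
      simp only [sc, S]
      rw [coeff_one, if_neg (by omega), mul_zero]
  | (m + 2) => by
    obtain ⟨a1, a2⟩ := sc_sign (m + 1)
    obtain ⟨b1, b2⟩ := sc_sign m
    constructor
    · intro j hj
      rcases j with _ | j
      · rw [sc_zero_right]
        exact a1 0 (by omega)
      · rw [sc_succ]
        have h1 := b1 j (by omega)
        rcases le_or_gt (2 * (j + 1)) (m + 1) with h | h
        · linarith [a1 (j + 1) h]
        · rw [a2 (j + 1) h]
          linarith
    · intro j hj
      rcases j with _ | j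
      · omega
      · rw [sc_succ, a2 (j + 1) (by omega), b2 j (by omega), add_zero]

lemma S_coeff_ne (m j : ℕ) (h : j < m / 2 + 1) : (S m).coeff j ≠ 0 := by
  have h1 := (sc_sign m).1 j (by omega)
  intro h0
  rw [sc, h0, mul_zero] at h1
  exact lt_irrefl _ h1

lemma S_natDegree (m : ℕ) : (S m).natDegree < m / 2 + 1 := by
  rw [Nat.lt_succ_iff, natDegree_le_iff_coeff_eq_zero]
  intro j hj
  have h1 := (sc_sign m).2 j (by omega)
  rw [sc] at h1
  rcases mul_eq_zero.1 h1 with h | h
  · exact absurd h (pow_ne_zero _ (by norm_num))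
  · exact h

lemma S_sum {x y : ℝ} (h : x + y = 1) (m : ℕ) :
    ∑ j ∈ Finset.range (m / 2 + 1), (S m).coeff j * (x * y) ^ j = x ^ m + y ^ m := by
  rw [← S_eval h m, eval_eq_sum_range' (S_natDegree m)]

lemma U_zero_eval : ∀ m, (U (m + 1)).eval 0 = 1
  | 0 => by simp [U]
  | (m + 1) => by
    have : U (m + 1 + 1) = U (m + 1) - X * U m := rfl
    rw [this, eval_sub, eval_mul, eval_X, zero_mul, sub_zero, U_zero_eval m]

lemma U_degree : ∀ k, (U (2 * k + 1)).natDegree = k ∧ (U (2 * k + 1)).coeff k ≠ 0 ∧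
    (U (2 * k + 2)).natDegree ≤ k
  | 0 => by
    refine ⟨by simp [U], by simp [U], ?_⟩
    simp [U]
  | (k + 1) => by
    obtain ⟨h1, h2, h3⟩ := U_degree k
    have e1 : U (2 * (k + 1) + 1) = U (2 * k + 2) - X * U (2 * k + 1) := rfl
    have e2 : U (2 * (k + 1) + 2) = U (2 * (k + 1) + 1) - X * U (2 * k + 2) := rfl
    have c1 : (U (2 * (k + 1) + 1)).coeff (k + 1) ≠ 0 := by
      rw [e1, coeff_sub, coeff_X_mul, coeff_eq_zero_of_natDegree_lt (by omega), zero_sub]
      exact neg_ne_zero.2 h2
    have d1 : (U (2 * (k + 1) + 1)).natDegree ≤ k + 1 := by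
      rw [e1]
      refine (natDegree_sub_le _ _).trans (max_le (by omega) ?_)
      refine (natDegree_mul_le).trans ?_
      rw [natDegree_X, h1]
      omega
    refine ⟨le_antisymm d1 (le_natDegree_of_ne_zero c1), c1, ?_⟩
    rw [e2]
    refine (natDegree_sub_le _ _).trans (max_le d1 ?_)
    refine (natDegree_mul_le).trans ?_
    rw [natDegree_X]
    omega

lemma U_natDegree_le (m : ℕ) : (U m).natDegree ≤ m / 2 := by
  rcases Nat.even_or_odd' m with ⟨k, rfl | rfl⟩
  · rcases k with _ | k
    · simp [U]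
    · have := (U_degree k).2.2
      have e : 2 * (k + 1) = 2 * k + 2 := by ring
      rw [e]
      omega
  · have := (U_degree k).1
    omega

lemma U_add (m : ℕ) : ∀ n, U (m + n + 1) = U (m + 1) * U (n + 1) - X * U m * U n
  | 0 => by simp [U]
  | 1 => by
    have e : U (m + 1 + 1) = U (m + 1) - X * U m := rfl
    have e2 : U (1 + 1) = U 1 - X * U 0 := rfl
    rw [e, e2]
    simp [U]
  | (n + 2) => by
    have e1 : U (m + (n + 2) + 1) = U (m + (n + 1) + 1) - X * U (m + n + 1) := rfl
    have e2 : U (n + 2 + 1) = U (n + 1 + 1) - X * U (n + 1) := rfl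
    have e3 : U (n + 2) = U (n + 1) - X * U n := rfl
    rw [e1, U_add m (n + 1), U_add m n, e2, e3]
    ring

lemma isCoprime_X (m : ℕ) : IsCoprime (U (m + 1)) (X : ℝ[X]) := by
  have h := U_zero_eval m
  obtain ⟨q, hq⟩ : X ∣ U (m + 1) - 1 := by
    rw [X_dvd_iff, coeff_zero_eq_eval_zero, eval_sub, h, eval_one, sub_self]
  refine ⟨1, -q, ?_⟩
  have : U (m + 1) = 1 + X * q := by rw [← hq]; ring
  rw [this]
  ring

lemma isCoprime_succ : ∀ m, IsCoprime (U m) (U (m + 1))
  | 0 => by
    have : U (0 + 1) = 1 := rfl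
    rw [this]
    exact isCoprime_one_right
  | (m + 1) => by
    have e : U (m + 1 + 1) = U (m + 1) - X * U m := rfl
    have h : IsCoprime (U (m + 1)) (X * U m) :=
      IsCoprime.mul_right (isCoprime_X m) (isCoprime_succ m).symm
    rw [e]
    have h2 := h.neg_right.add_mul_left_right 1
    have e3 : -(X * U m) + U (m + 1) * 1 = U (m + 1) - X * U m := by ring
    rw [e3] at h2
    exact h2

lemma isCoprime_add {m n : ℕ} (h : IsCoprime (U (m + 1)) (U n)) :
    IsCoprime (U (m + 1)) (U (n + (m + 1))) := by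
  have e : U (n + (m + 1)) = U (m + 1) * U (n + 1) - X * U m * U n := by
    have e1 : n + (m + 1) = m + n + 1 := by ring
    rw [e1, U_add m n]
  have h1 : IsCoprime (U (m + 1)) (X * U m * U n) :=
    (IsCoprime.mul_right (isCoprime_X m) (isCoprime_succ m).symm).mul_right h
  have h2 := h1.neg_right.add_mul_left_right (U (n + 1))
  have e3 : -(X * U m * U n) + U (m + 1) * U (n + 1) =
    U (m + 1) * U (n + 1) - X * U m * U n := by ring
  rw [e3] at h2
  rw [e]
  exact h2

theorem isCoprime_U : ∀ (s m n : ℕ), m + n ≤ s → Nat.Coprime m n → IsCoprime (U m) (U n) := by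
  intro s
  induction s with
  | zero =>
    intro m n hs hc
    have hm : m = 0 := by omega
    have hn : n = 0 := by omega
    subst hm; subst hn
    exact absurd hc (by decide)
  | succ s ih =>
    have key : ∀ m n : ℕ, m ≤ n → m + n ≤ s + 1 → Nat.Coprime m n → IsCoprime (U m) (U n) := by
      intro m n hmn hs hc
      rcases m with _ | m
      · have : n = 1 := by simpa using hc
        subst this
        exact isCoprime_one_right
      · obtain ⟨k, rfl⟩ := Nat.exists_eq_add_of_le hmn
        rw [add_comm (m + 1) k]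
        apply isCoprime_add
        apply ih _ _ (by omega)
        have h2 : Nat.Coprime (m + 1) (m + 1 + k) := hc
        rwa [Nat.coprime_self_add_right] at h2
    intro m n hs hc
    rcases le_total m n with h | h
    · exact key m n h hs hc
    · exact (key n m h (by omega) hc.symm).symm

/-- Every polynomial of small degree is a combination of two coprime polynomials with small
coefficients. -/
theorem decomp (g1 g2 P : ℝ[X]) (n1 n2 : ℕ) (hn1 : 1 ≤ n1) (h1 : g1.natDegree + 1 = n1)
    (h10 : g1 ≠ 0) (h2 : g2.natDegree < n2) (hco : IsCoprime g1 g2)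
    (hP : P.natDegree < n1 + n2 - 1) :
    ∃ L1 L2 : ℝ[X], L1.natDegree < n1 ∧ L2.natDegree < n2 ∧ g1 * L2 - g2 * L1 = P := by
  obtain ⟨u, v, huv⟩ := hco
  set L1 : ℝ[X] := -((P * v) % g1) with hL1
  set L2 : ℝ[X] := P * u + g2 * ((P * v) / g1) with hL2
  have hdiv : g1 * ((P * v) / g1) + (P * v) % g1 = P * v := EuclideanDomain.div_add_mod _ _
  have heq : g1 * L2 - g2 * L1 = P := by
    rw [hL1, hL2]
    have e1 : (P * v) % g1 = P * v - g1 * ((P * v) / g1) := eq_sub_of_add_eq' hdiv
    rw [e1]
    have e2 : g1 * (P * u + g2 * (P * v / g1)) - g2 * -(P * v - g1 * (P * v / g1)) =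
      P * (u * g1 + v * g2) := by ring
    rw [e2, huv, mul_one]
  have hd1 : L1.natDegree < n1 := by
    rw [hL1, natDegree_neg]
    have := natDegree_le_natDegree (degree_mod_lt (P * v) h10).le
    omega
  refine ⟨L1, L2, hd1, ?_, heq⟩
  by_cases hL20 : L2 = 0
  · rw [hL20, natDegree_zero]
    omega
  have h3 : (g1 * L2).natDegree = g1.natDegree + L2.natDegree := natDegree_mul h10 hL20
  have h4 : g1 * L2 = P + g2 * L1 := by rw [← heq]; ring
  have h5 : (g1 * L2).natDegree ≤ n1 + n2 - 2 := by
    rw [h4]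
    refine (natDegree_add_le _ _).trans (max_le (by omega) ?_)
    refine natDegree_mul_le.trans ?_
    omega
  omega

end Fewnomial.Low
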