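import Mathlib
import Pool.Agent.Lib.MP_4cba3d_ag.LowCheb

/-!
The function `g (x y) (x ^ a log x + y ^ a log y)`, `x + y = 1`, as a function of `τ = log (x y)`,
is not of the form `∑ j < n, (l j + k j * τ) * exp (j * τ)` near `-∞`.
-/

namespace Fewnomial.Low

open Filter Set Polynomial
open scoped Topology

/-- the larger coordinate of the point of `x + y = 1` with `x y = exp τ` -/
noncomputable def xt (τ : ℝ) : ℝ := (1 + √(1 - 4 * Real.exp τ)) / 2

/-- the smaller coordinate -/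
noncomputable def yt (τ : ℝ) : ℝ := (1 - √(1 - 4 * Real.exp τ)) / 2

lemma exp_lt_of {τ : ℝ} (h : τ < Real.log (1 / 4)) : Real.exp τ < 1 / 4 := by
  rw [← Real.exp_log (show (0 : ℝ) < 1 / 4 by norm_num)]
  exact Real.exp_lt_exp.2 h

lemma xt_add_yt (τ : ℝ) : xt τ + yt τ = 1 := by
  unfold xt yt
  ring

lemma xt_mul_yt {τ : ℝ} (h : τ < Real.log (1 / 4)) : xt τ * yt τ = Real.exp τ := by
  have h1 := exp_lt_of h
  have h2 := Real.sq_sqrt (show 0 ≤ 1 - 4 * Real.exp τ by linarith)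
  unfold xt yt
  nlinarith

lemma yt_lt_xt {τ : ℝ} (h : τ < Real.log (1 / 4)) : yt τ < xt τ := by
  have h1 := exp_lt_of h
  have h2 := Real.sqrt_pos.2 (show 0 < 1 - 4 * Real.exp τ by linarith)
  unfold xt yt
  linarith

lemma yt_pos {τ : ℝ} (h : τ < Real.log (1 / 4)) : 0 < yt τ := by
  have h1 := xt_mul_yt h
  have h2 := yt_lt_xt h
  have h3 := xt_add_yt τ
  have h4 : 0 < xt τ := by linarith
  by_contra hcon
  have := mul_nonpos_of_nonneg_of_nonpos h4.le (not_lt.1 hcon)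
  have := Real.exp_pos τ
  linarith

lemma yt_log {y : ℝ} (h0 : 0 < y) (h1 : y < 1 / 2) : yt (Real.log (y * (1 - y))) = y := by
  unfold yt
  rw [Real.exp_log (mul_pos h0 (by linarith))]
  have e : 1 - 4 * (y * (1 - y)) = (1 - 2 * y) ^ 2 := by ring
  rw [e, Real.sqrt_sq (by linarith)]
  ring

lemma xt_log {y : ℝ} (h0 : 0 < y) (h1 : y < 1 / 2) : xt (Real.log (y * (1 - y))) = 1 - y := by
  have := xt_add_yt (Real.log (y * (1 - y)))
  rw [yt_log h0 h1] at this
  linarith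

/-- No analytic function times the logarithm is analytic. -/
lemma no_log {A B : ℝ → ℝ} (hA : AnalyticAt ℝ A 0) (hB : AnalyticAt ℝ B 0)
    (h : ∀ᶠ y in 𝓝[>] (0 : ℝ), A y + B y * Real.log y = 0) : ∀ᶠ y in 𝓝 (0 : ℝ), B y = 0 := by
  by_contra hBne
  obtain ⟨m, B1, hB1, hB10, hBe⟩ := hB.exists_eventuallyEq_pow_smul_nonzero_iff.2 hBne
  have hB1ne : ∀ᶠ y in 𝓝 (0 : ℝ), B1 y ≠ 0 := hB1.continuousAt.eventually_ne hB10
  have hlog : ∀ᶠ y in 𝓝[>] (0 : ℝ), Real.log y ≠ 0 := by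
    have : ∀ᶠ y in 𝓝[>] (0 : ℝ), y < 1 :=
      mem_nhdsWithin_of_mem_nhds (Iio_mem_nhds one_pos)
    filter_upwards [this, self_mem_nhdsWithin] with y h1 h0
    exact (Real.log_neg h0 h1).ne
  by_cases hAz : ∀ᶠ y in 𝓝 (0 : ℝ), A y = 0
  · have hall : ∀ᶠ y in 𝓝[>] (0 : ℝ), False := by
      filter_upwards [h, hlog, mem_nhdsWithin_of_mem_nhds hAz, mem_nhdsWithin_of_mem_nhds hB1ne,
        mem_nhdsWithin_of_mem_nhds hBe, self_mem_nhdsWithin] with y h1 h2 h3 h4 h5 h6
      rw [h3, zero_add] at h1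
      have h7 := (mul_eq_zero.1 h1).resolve_right h2
      rw [h5, sub_zero, smul_eq_mul] at h7
      rcases mul_eq_zero.1 h7 with h8 | h8
      · exact (pow_ne_zero _ (ne_of_gt h6)) h8
      · exact h4 h8
    exact (hall.exists).choose_spec
  obtain ⟨r, A1, hA1, hA10, hAe⟩ := hA.exists_eventuallyEq_pow_smul_nonzero_iff.2 hAz
  have hkey : ∀ᶠ y in 𝓝[>] (0 : ℝ), y ^ r * A1 y = -(y ^ m * B1 y * Real.log y) ∧ 0 < y ∧
      B1 y ≠ 0 := by
    filter_upwards [h, mem_nhdsWithin_of_mem_nhds hAe, mem_nhdsWithin_of_mem_nhds hB1ne,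
        mem_nhdsWithin_of_mem_nhds hBe, self_mem_nhdsWithin] with y h1 h3 h4 h5 h6
    rw [h3, h5, sub_zero, smul_eq_mul, smul_eq_mul] at h1
    exact ⟨by linarith, h6, h4⟩
  have hA1t : Tendsto A1 (𝓝[>] 0) (𝓝 (A1 0)) := hA1.continuousAt.continuousWithinAt
  have hB1t : Tendsto B1 (𝓝[>] 0) (𝓝 (B1 0)) := hB1.continuousAt.continuousWithinAt
  have hid : Tendsto (fun y : ℝ => y) (𝓝[>] 0) (𝓝 0) :=
    (continuous_id.tendsto' 0 0 rfl).mono_left nhdsWithin_le_nhds
  rcases le_or_gt m r with hmr | hmr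
  · obtain ⟨s, rfl⟩ := Nat.exists_eq_add_of_le hmr
    have h1 : ∀ᶠ y in 𝓝[>] (0 : ℝ), -(y ^ s * A1 y / B1 y) = Real.log y := by
      filter_upwards [hkey] with y hy
      obtain ⟨h2, h3, h4⟩ := hy
      have h5 : y ^ m ≠ 0 := pow_ne_zero _ h3.ne'
      have h6 : y ^ m * (y ^ s * A1 y) = y ^ m * -(B1 y * Real.log y) := by
        rw [← mul_assoc, ← pow_add, h2]
        ring
      have h7 := mul_left_cancel₀ h5 h6
      rw [h7]
      field_simp
    have h2 : Tendsto (fun y => -(y ^ s * A1 y / B1 y)) (𝓝[>] 0)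
        (𝓝 (-(0 ^ s * A1 0 / B1 0))) := (((hid.pow s).mul hA1t).div hB1t hB10).neg
    exact not_tendsto_nhds_of_tendsto_atBot Real.tendsto_log_nhdsGT_zero _ (h2.congr' h1)
  · obtain ⟨s, rfl⟩ := Nat.exists_eq_add_of_lt hmr
    have h1 : ∀ᶠ y in 𝓝[>] (0 : ℝ), -(y ^ s * B1 y * (Real.log y * y ^ (1 : ℝ))) = A1 y := by
      filter_upwards [hkey] with y hy
      obtain ⟨h2, h3, h4⟩ := hy
      have h5 : y ^ r ≠ 0 := pow_ne_zero _ h3.ne'
      apply mul_left_cancel₀ h5
      rw [h2, Real.rpow_one]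
      ring
    have h2 : Tendsto (fun y => -(y ^ s * B1 y * (Real.log y * y ^ (1 : ℝ)))) (𝓝[>] 0)
        (𝓝 (-(0 ^ s * B1 0 * 0))) :=
      (((hid.pow s).mul hB1t).mul (tendsto_log_mul_rpow_nhdsGT_zero one_pos)).neg
    have h3 := tendsto_nhds_unique (h2.congr' h1) hA1t
    rw [mul_zero, neg_zero] at h3
    exact hA10 h3.symm

/-- The extra function. -/
noncomputable def Psi (g : ℝ[X]) (a : ℕ) (τ : ℝ) : ℝ :=
  g.eval (Real.exp τ) * (xt τ ^ a * Real.log (xt τ) + yt τ ^ a * Real.log (yt τ))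

theorem psi_not_mem (g : ℝ[X]) (hg : g.eval 0 ≠ 0) (a : ℕ) (ha : 1 ≤ a) (n : ℕ) (l k : ℕ → ℝ)
    (b' : ℝ) : ∃ τ < b', Psi g a τ ≠ G n l k τ := by
  by_contra hcon
  push Not at hcon
  set Pb : ℝ[X] := (g.comp (X * (1 - X))) * X ^ a -
    ∑ j ∈ Finset.range n, C (k j) * (X * (1 - X)) ^ j with hPb
  have hPbe : ∀ y : ℝ, Pb.eval y = g.eval (y * (1 - y)) * y ^ a -
      ∑ j ∈ Finset.range n, k j * (y * (1 - y)) ^ j := by
    intro y
    simp [hPb, eval_finsetSum]
  set A : ℝ → ℝ := fun y => g.eval (y * (1 - y)) * ((1 - y) ^ a * Real.log (1 - y)) -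
    ∑ j ∈ Finset.range n, (l j + k j * Real.log (1 - y)) * (y * (1 - y)) ^ j with hA
  have hlog1 : AnalyticAt ℝ (fun y : ℝ => Real.log (1 - y)) 0 := by
    apply AnalyticAt.log
    · fun_prop
    · norm_num
  have hg1 : AnalyticAt ℝ (fun y : ℝ => g.eval (y * (1 - y))) 0 := by
    have h1 : (fun y : ℝ => g.eval (y * (1 - y))) = fun y => (g.comp (X * (1 - X))).eval y := by
      funext y; simp
    rw [h1]
    exact AnalyticAt.aeval_polynomial (f := fun y : ℝ => y) (by fun_prop) (g.comp (X * (1 - X)))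
  have hAa : AnalyticAt ℝ A 0 := by
    apply AnalyticAt.sub
    · apply hg1.mul
      apply AnalyticAt.mul _ hlog1
      fun_prop
    · apply Finset.analyticAt_fun_sum
      intro j _
      apply AnalyticAt.mul
      · exact analyticAt_const.add (analyticAt_const.mul hlog1)
      · fun_prop
  have hBa : AnalyticAt ℝ (fun y : ℝ => Pb.eval y) 0 :=
    AnalyticAt.aeval_polynomial (f := fun y : ℝ => y) (by fun_prop) Pb
  have hev : ∀ᶠ y in 𝓝[>] (0 : ℝ), A y + Pb.eval y * Real.log y = 0 := by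
    have h1 : Tendsto (fun y : ℝ => Real.log (y * (1 - y))) (𝓝[>] 0) atBot := by
      apply Real.tendsto_log_nhdsGT_zero.comp
      rw [tendsto_nhdsWithin_iff]
      refine ⟨?_, ?_⟩
      · have : Continuous fun y : ℝ => y * (1 - y) := by fun_prop
        exact (this.tendsto' 0 0 (by simp)).mono_left nhdsWithin_le_nhds
      · filter_upwards [self_mem_nhdsWithin, mem_nhdsWithin_of_mem_nhds (Iio_mem_nhds one_pos)]
          with y h0 h1
        have h0' : (0 : ℝ) < y := h0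
        have h1' : y < 1 := h1
        exact mul_pos h0' (by linarith)
    filter_upwards [h1.eventually (eventually_lt_atBot b'), self_mem_nhdsWithin,
      mem_nhdsWithin_of_mem_nhds (Iio_mem_nhds (show (0 : ℝ) < 1 / 2 by norm_num))] with y h2 h0 h3
    have h0' : 0 < y := h0
    have h3' : y < 1 / 2 := h3
    have h4 := hcon _ h2
    have h5 : 0 < 1 - y := by linarith
    have h6 : 0 < y * (1 - y) := mul_pos h0' h5
    unfold Psi G at h4
    rw [xt_log h0' h3', yt_log h0' h3', Real.exp_log h6] at h4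
    have h7 : ∀ j ∈ Finset.range n, (l j + k j * Real.log (y * (1 - y))) *
        Real.exp (j * Real.log (y * (1 - y))) = (l j + k j * Real.log (1 - y)) *
        (y * (1 - y)) ^ j + k j * (y * (1 - y)) ^ j * Real.log y := by
      intro j _
      rw [Real.exp_nat_mul, Real.exp_log h6, Real.log_mul h0'.ne' h5.ne']
      ring
    rw [Finset.sum_congr rfl h7, Finset.sum_add_distrib, ← Finset.sum_mul] at h4
    rw [hPbe]
    simp only [hA]
    linear_combination h4
  have hB0 := no_log hAa hBa hev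
  have hP0 : Pb = 0 := by
    apply Polynomial.eq_zero_of_infinite_isRoot
    obtain ⟨δ, hδ, hball⟩ := Metric.eventually_nhds_iff.1 hB0
    apply Set.Infinite.mono (s := Ioo 0 δ)
    · intro y hy
      apply hball
      rw [Real.dist_eq, sub_zero, abs_of_pos hy.1]
      exact hy.2
    · exact Set.Ioo_infinite hδ
  have e0 := hPbe 0
  have e1 := hPbe 1
  rw [hP0] at e0 e1
  simp only [eval_zero, zero_mul, sub_self, mul_zero, one_pow, mul_one] at e0 e1
  rw [zero_pow (by omega), mul_zero, zero_sub] at e0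
  apply hg
  linarith

end Fewnomial.Low
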