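import Mathlib
import Pool.Agent.Lib.MP_4cba3d_ag.LowPsi
import Pool.Agent.Lib.MP_4cba3d_ag.LowId

/-!
First order perturbation of the coefficients and of the exponents of two polynomials with the
common component `x + y = 1`.
-/

namespace Fewnomial.Low

open Filter Set Polynomial
open scoped Topology

/-- half of the logarithm of `x / y` -/
noncomputable def u0 (τ : ℝ) : ℝ := (Real.log (xt τ) - Real.log (yt τ)) / 2

lemma xt_pos {τ : ℝ} (h : τ < Real.log (1 / 4)) : 0 < xt τ := (yt_pos h).trans (yt_lt_xt h)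

lemma log_xt {τ : ℝ} (h : τ < Real.log (1 / 4)) : Real.log (xt τ) = τ / 2 + u0 τ := by
  have h1 : Real.log (xt τ) + Real.log (yt τ) = τ := by
    rw [← Real.log_mul (xt_pos h).ne' (yt_pos h).ne', xt_mul_yt h, Real.log_exp]
  unfold u0
  linarith

lemma log_yt {τ : ℝ} (h : τ < Real.log (1 / 4)) : Real.log (yt τ) = τ / 2 - u0 τ := by
  have h1 : Real.log (xt τ) + Real.log (yt τ) = τ := by
    rw [← Real.log_mul (xt_pos h).ne' (yt_pos h).ne', xt_mul_yt h, Real.log_exp]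
  unfold u0
  linarith

lemma u0_pos {τ : ℝ} (h : τ < Real.log (1 / 4)) : 0 < u0 τ := by
  unfold u0
  have := Real.log_lt_log (yt_pos h) (yt_lt_xt h)
  linarith

lemma xt_pow {τ : ℝ} (h : τ < Real.log (1 / 4)) (a : ℕ) :
    xt τ ^ a = Real.exp (a / 2 * τ) * Real.exp (a * u0 τ) := by
  rw [← Real.exp_add, ← Real.exp_log (pow_pos (xt_pos h) a), Real.log_pow, log_xt h]
  congr 1
  ring

lemma yt_pow {τ : ℝ} (h : τ < Real.log (1 / 4)) (a : ℕ) :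
    yt τ ^ a = Real.exp (a / 2 * τ) * Real.exp (-(a * u0 τ)) := by
  rw [← Real.exp_add, ← Real.exp_log (pow_pos (yt_pos h) a), Real.log_pow, log_yt h]
  congr 1
  ring

lemma cosh_eq' {τ : ℝ} (h : τ < Real.log (1 / 4)) (a : ℕ) :
    2 * Real.exp (a / 2 * τ) * Real.cosh (a * u0 τ) = xt τ ^ a + yt τ ^ a := by
  rw [xt_pow h, yt_pow h, Real.cosh_eq]
  ring

lemma sinh_eq' {τ : ℝ} (h : τ < Real.log (1 / 4)) (a : ℕ) :
    2 * Real.exp (a / 2 * τ) * Real.sinh (a * u0 τ) = xt τ ^ a - yt τ ^ a := by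
  rw [xt_pow h, yt_pow h, Real.sinh_eq]
  ring

/-- the perturbed diagonal part -/
noncomputable def Rr (a : ℕ) (l μ : ℕ → ℝ) (ε τ : ℝ) : ℝ :=
  ∑ j ∈ Finset.range (a / 2 + 1), ((S a).coeff j + ε * l j) * Real.exp ((j + ε * μ j) * τ)

lemma Rr_zero {τ : ℝ} (h : τ < Real.log (1 / 4)) (a : ℕ) (l μ : ℕ → ℝ) :
    Rr a l μ 0 τ = xt τ ^ a + yt τ ^ a := by
  rw [← S_sum (xt_add_yt τ) a, xt_mul_yt h]
  unfold Rr
  refine Finset.sum_congr rfl fun j _ => ?_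
  rw [zero_mul, zero_mul, add_zero, add_zero, Real.exp_nat_mul]

lemma Rr_gt {τ : ℝ} (h : τ < Real.log (1 / 4)) (a : ℕ) (ha : 1 ≤ a) (l μ : ℕ → ℝ) :
    2 * Real.exp (a / 2 * τ) < Rr a l μ 0 τ := by
  rw [Rr_zero h, ← cosh_eq' h]
  have h1 : (a : ℝ) * u0 τ ≠ 0 := by
    have : (0 : ℝ) < a := by exact_mod_cast ha
    exact (mul_pos this (u0_pos h)).ne'
  have h2 := Real.one_lt_cosh.2 h1
  have h3 := Real.exp_pos (a / 2 * τ)
  nlinarith

lemma Rr_hasDerivAt (a : ℕ) (l μ : ℕ → ℝ) (τ : ℝ) :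
    HasDerivAt (fun ε => Rr a l μ ε τ)
      (G (a / 2 + 1) l (fun j => (S a).coeff j * μ j) τ) 0 := by
  unfold Rr G
  apply HasDerivAt.fun_sum
  intro j _
  have h1 : HasDerivAt (fun ε : ℝ => (S a).coeff j + ε * l j) (l j) 0 := by
    simpa using ((hasDerivAt_id (0 : ℝ)).mul_const (l j)).const_add ((S a).coeff j)
  have h2 : HasDerivAt (fun ε : ℝ => Real.exp ((j + ε * μ j) * τ))
      (Real.exp (j * τ) * (μ j * τ)) 0 := by
    have := ((((hasDerivAt_id (0 : ℝ)).mul_const (μ j)).const_add (j : ℝ)).mul_const τ).exp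
    simpa using this
  refine (h1.mul h2).congr_deriv ?_
  simp only [zero_mul, add_zero]
  ring

/-- the solution of the first equation -/
noncomputable def vr (a : ℕ) (l μ : ℕ → ℝ) (ε τ : ℝ) : ℝ :=
  Real.arcosh (Rr a l μ ε τ * Real.exp (-(a / 2 * τ)) / 2) / a

lemma exp_neg_mul (B τ : ℝ) : Real.exp (B * τ) * Real.exp (-(B * τ)) = 1 := by
  rw [← Real.exp_add, add_neg_cancel, Real.exp_zero]

lemma arg_zero {τ : ℝ} (h : τ < Real.log (1 / 4)) (a : ℕ) (l μ : ℕ → ℝ) :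
    Rr a l μ 0 τ * Real.exp (-(a / 2 * τ)) / 2 = Real.cosh (a * u0 τ) := by
  rw [Rr_zero h, ← cosh_eq' h]
  linear_combination (Real.cosh (a * u0 τ)) * exp_neg_mul (a / 2) τ

lemma vr_zero {τ : ℝ} (h : τ < Real.log (1 / 4)) (a : ℕ) (ha : 1 ≤ a) (l μ : ℕ → ℝ) :
    vr a l μ 0 τ = u0 τ := by
  have ha0 : (0 : ℝ) < a := by exact_mod_cast ha
  unfold vr
  rw [arg_zero h, Real.arcosh_cosh (mul_pos ha0 (u0_pos h)).le, mul_div_cancel_left₀ _ ha0.ne']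

lemma vr_hasDerivAt {τ : ℝ} (h : τ < Real.log (1 / 4)) (a : ℕ) (ha : 1 ≤ a) (l μ : ℕ → ℝ) :
    HasDerivAt (fun ε => vr a l μ ε τ)
      (G (a / 2 + 1) l (fun j => (S a).coeff j * μ j) τ / (a * (xt τ ^ a - yt τ ^ a))) 0 := by
  have ha0 : (0 : ℝ) < a := by exact_mod_cast ha
  have hpos : 0 < (a : ℝ) * u0 τ := mul_pos ha0 (u0_pos h)
  have hc : 1 < Real.cosh (a * u0 τ) := Real.one_lt_cosh.2 hpos.ne'
  have h1 := ((Rr_hasDerivAt a l μ τ).mul_const (Real.exp (-(a / 2 * τ)))).div_const 2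
  have h2 := Real.hasDerivAt_arcosh (x := Rr a l μ 0 τ * Real.exp (-(a / 2 * τ)) / 2) (by
    rw [arg_zero h]; exact hc)
  have h3 := (HasDerivAt.comp (0 : ℝ) h2 h1).div_const (a : ℝ)
  refine h3.congr_deriv ?_
  rw [arg_zero h]
  have hs : √(Real.cosh (a * u0 τ) ^ 2 - 1) = Real.sinh (a * u0 τ) := by
    rw [← Real.sinh_sq, Real.sqrt_sq (Real.sinh_nonneg_iff.2 hpos.le)]
  rw [hs, ← sinh_eq' h]
  have hsp : 0 < Real.sinh (a * u0 τ) := Real.sinh_pos_iff.2 hpos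
  have he := exp_neg_mul (a / 2) τ
  have hep := Real.exp_pos (a / 2 * τ)
  have he' : Real.exp (-(a / 2 * τ)) = 1 / Real.exp (a / 2 * τ) := by
    rw [eq_div_iff hep.ne']
    linarith
  rw [he']
  field_simp

/-- the second equation on the solution curve of the first -/
noncomputable def Fr (a1 a2 : ℕ) (l1 μ1 l2 μ2 : ℕ → ℝ) (ε τ : ℝ) : ℝ :=
  2 * Real.exp ((a2 + ε) / 2 * τ) * Real.cosh ((a2 + ε) * vr a1 l1 μ1 ε τ) - Rr a2 l2 μ2 ε τ

lemma Fr_zero {τ : ℝ} (h : τ < Real.log (1 / 4)) (a1 a2 : ℕ) (ha1 : 1 ≤ a1)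
    (l1 μ1 l2 μ2 : ℕ → ℝ) : Fr a1 a2 l1 μ1 l2 μ2 0 τ = 0 := by
  unfold Fr
  rw [vr_zero h a1 ha1, Rr_zero h, add_zero, cosh_eq' h, sub_self]

/-- `g_a = a * U a` -/
noncomputable def gg (a : ℕ) : ℝ[X] := C (a : ℝ) * U a

lemma gg_eval {τ : ℝ} (h : τ < Real.log (1 / 4)) (a : ℕ) :
    (xt τ - yt τ) * (gg a).eval (Real.exp τ) = a * (xt τ ^ a - yt τ ^ a) := by
  rw [← xt_mul_yt h, gg, eval_mul, eval_C, ← U_eval (xt_add_yt τ) a]
  ring

lemma gg_pos {τ : ℝ} (h : τ < Real.log (1 / 4)) (a : ℕ) (ha : 1 ≤ a) :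
    0 < (gg a).eval (Real.exp τ) := by
  have h1 := gg_eval h a
  have h2 : 0 < xt τ - yt τ := sub_pos.2 (yt_lt_xt h)
  have h3 : 0 < xt τ ^ a - yt τ ^ a := by
    rw [← sinh_eq' h]
    have ha0 : (0 : ℝ) < a := by exact_mod_cast ha
    have := Real.sinh_pos_iff.2 (mul_pos ha0 (u0_pos h))
    positivity
  have ha0 : (0 : ℝ) < a := by exact_mod_cast ha
  have h4 : 0 < (xt τ - yt τ) * (gg a).eval (Real.exp τ) := by
    rw [h1]
    positivity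
  exact (pos_iff_pos_of_mul_pos h4).1 h2

theorem Fr_hasDerivAt {τ : ℝ} (h : τ < Real.log (1 / 4)) (a1 a2 : ℕ) (ha1 : 1 ≤ a1)
    (l1 μ1 l2 μ2 : ℕ → ℝ) :
    ∃ D, HasDerivAt (fun ε => Fr a1 a2 l1 μ1 l2 μ2 ε τ) D 0 ∧
      (gg a1).eval (Real.exp τ) * D = Psi (gg a1) a2 τ +
        (gg a2).eval (Real.exp τ) * G (a1 / 2 + 1) l1 (fun j => (S a1).coeff j * μ1 j) τ -
        (gg a1).eval (Real.exp τ) * G (a2 / 2 + 1) l2 (fun j => (S a2).coeff j * μ2 j) τ := by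
  set G1 := G (a1 / 2 + 1) l1 (fun j => (S a1).coeff j * μ1 j) τ with hG1
  set G2 := G (a2 / 2 + 1) l2 (fun j => (S a2).coeff j * μ2 j) τ with hG2
  set v' := G1 / (a1 * (xt τ ^ a1 - yt τ ^ a1)) with hv'
  have hv : HasDerivAt (fun ε => vr a1 l1 μ1 ε τ) v' 0 := vr_hasDerivAt h a1 ha1 l1 μ1
  have h1 : HasDerivAt (fun ε : ℝ => 2 * Real.exp ((a2 + ε) / 2 * τ))
      (2 * (Real.exp (a2 / 2 * τ) * (1 / 2 * τ))) 0 := by
    have := (((((hasDerivAt_id (0 : ℝ)).const_add (a2 : ℝ)).div_const 2).mul_const τ).exp).const_mul 2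
    simpa using this
  have h2 : HasDerivAt (fun ε : ℝ => Real.cosh ((a2 + ε) * vr a1 l1 μ1 ε τ))
      (Real.sinh (a2 * u0 τ) * (u0 τ + a2 * v')) 0 := by
    have h3 := ((((hasDerivAt_id (0 : ℝ)).const_add (a2 : ℝ)).mul hv).cosh)
    refine h3.congr_deriv ?_
    simp only [id_eq, add_zero, Pi.mul_apply]
    rw [vr_zero h a1 ha1]
    ring
  have h3 := (h1.mul h2).sub (Rr_hasDerivAt a2 l2 μ2 τ)
  refine ⟨_, h3, ?_⟩
  simp only [add_zero]
  rw [vr_zero h a1 ha1, ← hG2]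
  unfold Psi
  rw [log_xt h, log_yt h]
  have hx := xt_pow h a2
  have hy := yt_pow h a2
  have hcc := cosh_eq' h a2
  have hss := sinh_eq' h a2
  have g1 := gg_eval h a1
  have g2 := gg_eval h a2
  have hxy : 0 < xt τ - yt τ := sub_pos.2 (yt_lt_xt h)
  have hd1 : 0 < xt τ ^ a1 - yt τ ^ a1 := by
    rw [← sinh_eq' h]
    have ha0 : (0 : ℝ) < a1 := by exact_mod_cast ha1
    have := Real.sinh_pos_iff.2 (mul_pos ha0 (u0_pos h))
    positivity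
  have ha10 : (a1 : ℝ) ≠ 0 := by
    have : (0 : ℝ) < a1 := by exact_mod_cast ha1
    exact this.ne'
  -- `gg a1 * a2 (x^a2 - y^a2) v' = gg a2 * G1`
  have key : (gg a1).eval (Real.exp τ) * (a2 * (xt τ ^ a2 - yt τ ^ a2) * v') =
      (gg a2).eval (Real.exp τ) * G1 := by
    apply mul_left_cancel₀ hxy.ne'
    have e1 : (xt τ - yt τ) * ((gg a1).eval (Real.exp τ) * (a2 * (xt τ ^ a2 - yt τ ^ a2) * v')) =
      ((xt τ - yt τ) * (gg a1).eval (Real.exp τ)) * (a2 * (xt τ ^ a2 - yt τ ^ a2)) * v' := by ring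
    rw [e1, g1, ← g2, hv']
    field_simp
  rw [← key, ← hss]
  have e2 : xt τ ^ a2 * (τ / 2 + u0 τ) + yt τ ^ a2 * (τ / 2 - u0 τ) =
      (xt τ ^ a2 + yt τ ^ a2) * (τ / 2) + (xt τ ^ a2 - yt τ ^ a2) * u0 τ := by ring
  rw [e2, ← hcc, ← hss]
  ring

end Fewnomial.Low
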