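import Mathlib
import Pool.Agent.Lib.MP_4cba3d_ag.LowPert
import Pool.Agent.Lib.MP_4cba3d_ag.LowCount

/-!
The lower bound `4 (a / 2 + b / 2 + 1) ≤ N (a / 2 + 3) (b / 2 + 3)` for coprime `a`, `b`.
-/

namespace Fewnomial.Low

open Filter Set Polynomial
open scoped Topology

lemma gg_natDegree (a : ℕ) (ha : 1 ≤ a) : (gg a).natDegree = (U a).natDegree := by
  have : (a : ℝ) ≠ 0 := by
    have : (0 : ℝ) < a := by exact_mod_cast ha
    exact this.ne'
  exact natDegree_C_mul this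

lemma gg_zero_ne (a : ℕ) (ha : 1 ≤ a) : (gg a).eval 0 ≠ 0 := by
  obtain ⟨m, rfl⟩ := Nat.exists_eq_add_of_le' ha
  rw [gg, eval_mul, eval_C, U_zero_eval, mul_one]
  have : (0 : ℝ) < (m + 1 : ℕ) := by exact_mod_cast ha
  exact this.ne'

lemma gg_ne (a : ℕ) (ha : 1 ≤ a) : gg a ≠ 0 := by
  intro h
  apply gg_zero_ne a ha
  rw [h, eval_zero]

lemma gg_coprime (a b : ℕ) (ha : 1 ≤ a) (hb : 1 ≤ b) (h : Nat.Coprime a b) :
    IsCoprime (gg a) (gg b) := by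
  have h1 := isCoprime_U (a + b) a b le_rfl h
  have ua : IsUnit (C (a : ℝ)) := by
    rw [isUnit_C, isUnit_iff_ne_zero]
    have : (0 : ℝ) < a := by exact_mod_cast ha
    exact this.ne'
  have ub : IsUnit (C (b : ℝ)) := by
    rw [isUnit_C, isUnit_iff_ne_zero]
    have : (0 : ℝ) < b := by exact_mod_cast hb
    exact this.ne'
  unfold gg
  rw [isCoprime_mul_unit_left_left ua, isCoprime_mul_unit_left_right ub]
  exact h1

lemma gg_decomp (a b : ℕ) (ha : 1 ≤ a) (hb : 1 ≤ b) (h : Nat.Coprime a b) (P : ℝ[X])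
    (hP : P.natDegree < a / 2 + b / 2 + 1) :
    ∃ L1 L2 : ℝ[X], L1.natDegree < a / 2 + 1 ∧ L2.natDegree < b / 2 + 1 ∧
      gg a * L2 - gg b * L1 = P := by
  have hco := gg_coprime a b ha hb h
  have da := U_natDegree_le a
  have db := U_natDegree_le b
  rw [← gg_natDegree a ha] at da
  rw [← gg_natDegree b hb] at db
  rcases Nat.even_or_odd' a with ⟨k, hk | hk⟩
  · rcases Nat.even_or_odd' b with ⟨k', hk' | hk'⟩
    · exfalso
      rw [hk, hk'] at h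
      have h2 := Nat.Coprime.coprime_mul_right h
      have h3 := Nat.Coprime.coprime_mul_right_right h2
      exact absurd h3 (by decide)
    · have hd : (gg b).natDegree = k' := by
        rw [gg_natDegree b hb, hk']
        exact (U_degree k').1
      obtain ⟨L1, L2, h1, h2, h3⟩ := decomp (gg b) (gg a) (-P) (b / 2 + 1) (a / 2 + 1)
        (by omega) (by omega) (gg_ne b hb) (by omega) hco.symm (by
          rw [natDegree_neg]; omega)
      refine ⟨L2, L1, h2, h1, ?_⟩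
      linear_combination -h3
  · have hd : (gg a).natDegree = k := by
      rw [gg_natDegree a ha, hk]
      exact (U_degree k).1
    exact decomp (gg a) (gg b) P (a / 2 + 1) (b / 2 + 1) (by omega) (by omega) (gg_ne a ha)
      (by omega) hco (by omega)

lemma G_poly (n : ℕ) (L K : ℝ[X]) (hL : L.natDegree < n) (hK : K.natDegree < n) (τ : ℝ) :
    G n L.coeff K.coeff τ = L.eval (Real.exp τ) + τ * K.eval (Real.exp τ) := by
  rw [eval_eq_sum_range' hL, eval_eq_sum_range' hK, Finset.mul_sum, ← Finset.sum_add_distrib]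
  unfold G
  refine Finset.sum_congr rfl fun j _ => ?_
  rw [Real.exp_nat_mul]
  ring

/-- the polynomial with given coefficients -/
noncomputable def mk (n : ℕ) (l : ℕ → ℝ) : ℝ[X] := ∑ j ∈ Finset.range n, C (l j) * X ^ j

lemma mk_coeff (n : ℕ) (l : ℕ → ℝ) {j : ℕ} (hj : j < n) : (mk n l).coeff j = l j := by
  unfold mk
  rw [finsetSum_coeff, Finset.sum_eq_single j]
  · simp
  · intro i _ hi
    rw [coeff_C_mul, coeff_X_pow, if_neg (fun h => hi h.symm), mul_zero]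
  · intro h
    exact absurd (Finset.mem_range.2 hj) h

lemma mk_natDegree (n : ℕ) (l : ℕ → ℝ) : (mk (n + 1) l).natDegree < n + 1 := by
  rw [Nat.lt_succ_iff, natDegree_le_iff_coeff_eq_zero]
  intro j hj
  unfold mk
  rw [finsetSum_coeff]
  apply Finset.sum_eq_zero
  intro i hi
  have := Finset.mem_range.1 hi
  rw [coeff_C_mul, coeff_X_pow, if_neg (by omega), mul_zero]

lemma floor_tendsto (r : ℝ) :
    Tendsto (fun L : ℕ => ((⌊(L : ℝ) * r⌋ : ℤ) : ℝ) / L) atTop (𝓝 r) := by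
  have h1 : Tendsto (fun L : ℕ => r - 1 / (L : ℝ)) atTop (𝓝 r) := by
    have := (tendsto_const_nhds (x := r) (f := (atTop : Filter ℕ))).sub
      tendsto_one_div_atTop_nhds_zero_nat
    simpa using this
  apply tendsto_of_tendsto_of_tendsto_of_le_of_le' h1 tendsto_const_nhds
  · filter_upwards [eventually_gt_atTop 0] with L hL
    have hL' : (0 : ℝ) < L := by exact_mod_cast hL
    rw [le_div_iff₀ hL', sub_mul, one_div, inv_mul_cancel₀ hL'.ne']
    have := Int.lt_floor_add_one ((L : ℝ) * r)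
    linarith
  · filter_upwards [eventually_gt_atTop 0] with L hL
    have hL' : (0 : ℝ) < L := by exact_mod_cast hL
    rw [div_le_iff₀ hL']
    have := Int.floor_le ((L : ℝ) * r)
    linarith

lemma pos_of_deriv {f : ℝ → ℝ} {d : ℝ} (hf : HasDerivAt f d 0) (h0 : f 0 = 0) (hd : 0 < d) :
    ∀ᶠ ε in 𝓝[>] (0 : ℝ), 0 < f ε := by
  have h1 := hasDerivAt_iff_tendsto_slope_zero.1 hf
  have h2 : ∀ᶠ ε in 𝓝[≠] (0 : ℝ), 0 < ε⁻¹ • (f (0 + ε) - f 0) := h1.eventually (lt_mem_nhds hd)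
  have h3 : ∀ᶠ ε in 𝓝[>] (0 : ℝ), 0 < ε⁻¹ • (f (0 + ε) - f 0) :=
    h2.filter_mono (nhdsWithin_mono _ (fun x hx => ne_of_gt hx))
  filter_upwards [h3, self_mem_nhdsWithin] with ε h4 h5
  have h5' : (0 : ℝ) < ε := h5
  rw [zero_add, h0, sub_zero, smul_eq_mul] at h4
  exact (pos_iff_pos_of_mul_pos h4).1 (inv_pos.2 h5')

lemma Rr_continuous (a : ℕ) (l μ : ℕ → ℝ) : Continuous fun z : ℝ × ℝ => Rr a l μ z.1 z.2 := by
  unfold Rr
  fun_prop

theorem main (a1 a2 : ℕ) (ha1 : 1 ≤ a1) (ha2 : 1 ≤ a2) (hco : Nat.Coprime a1 a2) :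
    ((4 * (a1 / 2 + a2 / 2 + 1) : ℕ) : ℕ∞) ≤ N (a1 / 2 + 1 + 2) (a2 / 2 + 1 + 2) := by
  set M := a1 / 2 + a2 / 2 + 1 with hM
  obtain ⟨t, ht, htb, l, k, η, hη, hlk⟩ := exists_alt M (Psi (gg a1) a2) (Real.log (1 / 4))
    (fun l k b' _ => psi_not_mem (gg a1) (gg_zero_ne a1 ha1) a2 ha2 M l k b')
  obtain ⟨L1, L2, hL1, hL2, hL⟩ := gg_decomp a1 a2 ha1 ha2 hco (mk M l) (mk_natDegree _ l)
  obtain ⟨K1, K2, hK1, hK2, hK⟩ := gg_decomp a1 a2 ha1 ha2 hco (mk M k) (mk_natDegree _ k)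
  have hG : ∀ τ, (gg a1).eval (Real.exp τ) * G (a2 / 2 + 1) L2.coeff K2.coeff τ -
      (gg a2).eval (Real.exp τ) * G (a1 / 2 + 1) L1.coeff K1.coeff τ = G M l k τ := by
    intro τ
    have h1 : G M l k τ = G M (mk M l).coeff (mk M k).coeff τ :=
      G_congr (fun j hj => (mk_coeff M l hj).symm) (fun j hj => (mk_coeff M k hj).symm) τ
    rw [h1, G_poly M _ _ (mk_natDegree _ l) (mk_natDegree _ k), G_poly _ _ _ hL1 hK1,
      G_poly _ _ _ hL2 hK2, ← hL, ← hK]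
    simp only [eval_sub, eval_mul]
    ring
  -- rational exponents
  set ν1 : ℕ → ℝ := fun j => K1.coeff j / (S a1).coeff j with hν1
  set ν2 : ℕ → ℝ := fun j => K2.coeff j / (S a2).coeff j with hν2
  have hlim : ∀ (a : ℕ) (K : ℝ[X]) (l : ℕ → ℝ) (τ : ℝ), Tendsto (fun L : ℕ => G (a / 2 + 1) l
      (fun j => (S a).coeff j * (((⌊(L : ℝ) * (K.coeff j / (S a).coeff j)⌋ : ℤ) : ℝ) / L)) τ)
      atTop (𝓝 (G (a / 2 + 1) l K.coeff τ)) := by
    intro a K l τ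
    unfold G
    apply tendsto_finsetSum
    intro j hj
    apply Tendsto.mul_const
    apply Tendsto.const_add
    apply Tendsto.mul_const
    have h1 := (floor_tendsto (K.coeff j / (S a).coeff j)).const_mul ((S a).coeff j)
    rwa [mul_div_cancel₀ _ (S_coeff_ne a j (Finset.mem_range.1 hj))] at h1
  have hev : ∀ᶠ L : ℕ in atTop, ∀ i : Fin (2 * M + 1), 0 < (-1) ^ (i : ℕ) * η *
      (Psi (gg a1) a2 (t i) + (gg a2).eval (Real.exp (t i)) * G (a1 / 2 + 1) L1.coeff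
        (fun j => (S a1).coeff j * (((⌊(L : ℝ) * ν1 j⌋ : ℤ) : ℝ) / L)) (t i) -
        (gg a1).eval (Real.exp (t i)) * G (a2 / 2 + 1) L2.coeff
        (fun j => (S a2).coeff j * (((⌊(L : ℝ) * ν2 j⌋ : ℤ) : ℝ) / L)) (t i)) := by
    rw [eventually_all]
    intro i
    have h1 := (((hlim a1 K1 L1.coeff (t i)).const_mul ((gg a2).eval (Real.exp (t i)))).const_add
      (Psi (gg a1) a2 (t i))).sub
      ((hlim a2 K2 L2.coeff (t i)).const_mul ((gg a1).eval (Real.exp (t i))))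
    have h2 := h1.const_mul ((-1) ^ (i : ℕ) * η)
    have h3 : (-1) ^ (i : ℕ) * η * (Psi (gg a1) a2 (t i) +
        (gg a2).eval (Real.exp (t i)) * G (a1 / 2 + 1) L1.coeff K1.coeff (t i) -
        (gg a1).eval (Real.exp (t i)) * G (a2 / 2 + 1) L2.coeff K2.coeff (t i)) = η ^ 2 := by
      have h4 := hG (t i)
      have h5 := hlk i
      have h6 : Psi (gg a1) a2 (t i) +
        (gg a2).eval (Real.exp (t i)) * G (a1 / 2 + 1) L1.coeff K1.coeff (t i) -
        (gg a1).eval (Real.exp (t i)) * G (a2 / 2 + 1) L2.coeff K2.coeff (t i) =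
        (-1) ^ (i : ℕ) * η := by linarith
      rw [h6]
      have h7 : ((-1 : ℝ) ^ (i : ℕ)) * ((-1 : ℝ) ^ (i : ℕ)) = 1 := by
        rw [← mul_pow]; norm_num
      linear_combination η ^ 2 * h7
    rw [h3] at h2
    exact h2.eventually (lt_mem_nhds (by positivity))
  obtain ⟨L, hLs, hLpos⟩ := (hev.and (eventually_gt_atTop 0)).exists
  set μ1 : ℕ → ℝ := fun j => ((⌊(L : ℝ) * ν1 j⌋ : ℤ) : ℝ) / L with hμ1
  set μ2 : ℕ → ℝ := fun j => ((⌊(L : ℝ) * ν2 j⌋ : ℤ) : ℝ) / L with hμ2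
  -- the sign condition for small `ε`
  have hsign : ∀ᶠ ε in 𝓝[>] (0 : ℝ), ∀ i : Fin (2 * M + 1),
      0 < (-1) ^ (i : ℕ) * η * Fr a1 a2 L1.coeff μ1 L2.coeff μ2 ε (t i) := by
    rw [eventually_all]
    intro i
    obtain ⟨D, hD, hDe⟩ := Fr_hasDerivAt (htb i) a1 a2 ha1 L1.coeff μ1 L2.coeff μ2
    apply pos_of_deriv (hD.const_mul ((-1) ^ (i : ℕ) * η))
    · rw [Fr_zero (htb i) a1 a2 ha1, mul_zero]
    · have h1 := hLs i
      rw [← hDe] at h1
      have h2 := gg_pos (htb i) a1 ha1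
      have h3 : 0 < (gg a1).eval (Real.exp (t i)) * ((-1) ^ (i : ℕ) * η * D) := by
        calc 0 < _ := h1
          _ = _ := by ring
      exact (pos_iff_pos_of_mul_pos h3).1 h2
  have hRpos : ∀ᶠ ε in 𝓝 (0 : ℝ), ∀ τ ∈ Icc (t 0) (t (Fin.last (2 * M))),
      2 * Real.exp (a1 / 2 * τ) < Rr a1 L1.coeff μ1 ε τ := by
    apply isCompact_Icc.eventually_forall_of_forall_eventually
    intro τ hτ
    have hc1 : Continuous fun z : ℝ × ℝ => 2 * Real.exp (a1 / 2 * z.2) := by fun_prop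
    have hc2 := Rr_continuous a1 L1.coeff μ1
    exact (hc1.continuousAt.eventually_lt hc2.continuousAt
      (Rr_gt (hτ.2.trans_lt (htb _)) a1 ha1 L1.coeff μ1))
  have hcoef : ∀ (a : ℕ) (l : ℕ → ℝ), ∀ᶠ ε in 𝓝 (0 : ℝ), ∀ j ∈ Finset.range (a / 2 + 1),
      (S a).coeff j + ε * l j ≠ 0 := by
    intro a l
    rw [Filter.eventually_all_finset]
    intro j hj
    have hc : Continuous fun ε : ℝ => (S a).coeff j + ε * l j := by fun_prop
    apply hc.continuousAt.eventually_ne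
    rw [zero_mul, add_zero]
    exact S_coeff_ne a j (Finset.mem_range.1 hj)
  have hexp : ∀ (a : ℕ) (μ : ℕ → ℝ), ∀ᶠ ε in 𝓝 (0 : ℝ), ∀ j ∈ Finset.range (a / 2 + 1),
      |ε * μ j| < 1 / 2 := by
    intro a μ
    rw [Filter.eventually_all_finset]
    intro j hj
    have hc : Continuous fun ε : ℝ => |ε * μ j| := by fun_prop
    apply hc.continuousAt.eventually_lt continuousAt_const
    rw [zero_mul, abs_zero]
    norm_num
  have hall := (((((hsign.and (hRpos.filter_mono nhdsWithin_le_nhds)).and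
    ((hcoef a1 L1.coeff).filter_mono nhdsWithin_le_nhds)).and
    ((hcoef a2 L2.coeff).filter_mono nhdsWithin_le_nhds)).and
    ((hexp a1 μ1).filter_mono nhdsWithin_le_nhds)).and
    ((hexp a2 μ2).filter_mono nhdsWithin_le_nhds))
  have htend : Tendsto (fun n : ℕ => 1 / ((n : ℝ) + 1)) atTop (𝓝[>] 0) := by
    rw [tendsto_nhdsWithin_iff]
    refine ⟨tendsto_one_div_add_atTop_nhds_zero_nat, Eventually.of_forall fun n => ?_⟩
    have : (0 : ℝ) < 1 / ((n : ℝ) + 1) := by positivity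
    exact this
  obtain ⟨n0, ⟨⟨⟨⟨hs, hR⟩, hc1⟩, hc2⟩, he1⟩, he2⟩ := (htend.eventually hall).exists
  set ε : ℝ := 1 / ((n0 : ℝ) + 1) with hε
  -- common denominator
  set q : ℕ := L * (n0 + 1) with hq
  have hLr : (0 : ℝ) < L := by exact_mod_cast hLpos
  have hnr : (0 : ℝ) < (n0 : ℝ) + 1 := by positivity
  have hqr : (q : ℝ) = L * ((n0 : ℝ) + 1) := by rw [hq]; push_cast; ring
  have hqpos : (0 : ℝ) < q := by rw [hqr]; positivity
  set Ei : (ℕ → ℝ) → ℕ → ℤ := fun ν j => (j : ℤ) * q + ⌊(L : ℝ) * ν j⌋ with hEi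
  set K : ℕ := ∑ j ∈ Finset.range (a1 / 2 + 1), (Ei ν1 j).natAbs +
    ∑ j ∈ Finset.range (a2 / 2 + 1), (Ei ν2 j).natAbs with hKdef
  set E : (ℕ → ℝ) → ℕ → ℕ := fun ν j => ((K : ℤ) + Ei ν j).toNat with hE
  have hE1 : ∀ j < a1 / 2 + 1, ((E ν1 j : ℕ) : ℝ) = K + (Ei ν1 j : ℝ) := by
    intro j hj
    have h1 : (Ei ν1 j).natAbs ≤ ∑ j ∈ Finset.range (a1 / 2 + 1), (Ei ν1 j).natAbs :=
      Finset.single_le_sum (f := fun j => (Ei ν1 j).natAbs) (fun _ _ => Nat.zero_le _)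
        (Finset.mem_range.2 hj)
    have h2 : (0 : ℤ) ≤ (K : ℤ) + Ei ν1 j := by omega
    have h3 : ((E ν1 j : ℕ) : ℤ) = K + Ei ν1 j := Int.toNat_of_nonneg h2
    exact_mod_cast h3
  have hE2 : ∀ j < a2 / 2 + 1, ((E ν2 j : ℕ) : ℝ) = K + (Ei ν2 j : ℝ) := by
    intro j hj
    have h1 : (Ei ν2 j).natAbs ≤ ∑ j ∈ Finset.range (a2 / 2 + 1), (Ei ν2 j).natAbs :=
      Finset.single_le_sum (f := fun j => (Ei ν2 j).natAbs) (fun _ _ => Nat.zero_le _)
        (Finset.mem_range.2 hj)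
    have h2 : (0 : ℤ) ≤ (K : ℤ) + Ei ν2 j := by omega
    have h3 : ((E ν2 j : ℕ) : ℤ) = K + Ei ν2 j := Int.toNat_of_nonneg h2
    exact_mod_cast h3
  have hEq : ∀ (ν : ℕ → ℝ) (j : ℕ), ((Ei ν j : ℤ) : ℝ) =
      ((j : ℝ) + ε * (((⌊(L : ℝ) * ν j⌋ : ℤ) : ℝ) / L)) * q := by
    intro ν j
    simp only [hEi]
    push_cast
    rw [hε, hqr]
    field_simp
  -- distinct exponents
  have hdist : ∀ (a : ℕ) (ν : ℕ → ℝ), (∀ j < a / 2 + 1, ((E ν j : ℕ) : ℝ) = K + (Ei ν j : ℝ)) →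
      (∀ j ∈ Finset.range (a / 2 + 1), |ε * (((⌊(L : ℝ) * ν j⌋ : ℤ) : ℝ) / L)| < 1 / 2) →
      ∀ i < a / 2 + 1, ∀ j < a / 2 + 1, E ν i = E ν j → i = j := by
    intro a ν hEν heν i hi j hj hij
    have h1 : ((E ν i : ℕ) : ℝ) = ((E ν j : ℕ) : ℝ) := by rw [hij]
    rw [hEν i hi, hEν j hj, hEq, hEq] at h1
    have h2 := mul_right_cancel₀ hqpos.ne' (add_left_cancel h1)
    have h3 := abs_lt.1 (heν i (Finset.mem_range.2 hi))
    have h4 := abs_lt.1 (heν j (Finset.mem_range.2 hj))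
    have h5 : ((i : ℕ) : ℝ) < j + 1 := by linarith [h3.1, h4.2]
    have h6 : ((j : ℕ) : ℝ) < i + 1 := by linarith [h3.2, h4.1]
    have h5' : i < j + 1 := by exact_mod_cast h5
    have h6' : j < i + 1 := by exact_mod_cast h6
    omega
  set c1 : ℕ → ℝ := fun j => (S a1).coeff j + ε * L1.coeff j with hc1def
  set c2 : ℕ → ℝ := fun j => (S a2).coeff j + ε * L2.coeff j with hc2def
  have hPe : ∀ (a : ℕ) (ν l : ℕ → ℝ),
      (∀ j < a / 2 + 1, ((E ν j : ℕ) : ℝ) = K + (Ei ν j : ℝ)) → ∀ θ : ℝ,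
      Pe (a / 2 + 1) (E ν) (fun j => (S a).coeff j + ε * l j) θ = Real.exp (2 * K * θ) *
        Rr a l (fun j => ((⌊(L : ℝ) * ν j⌋ : ℤ) : ℝ) / L) ε (2 * q * θ) := by
    intro a ν l hEν θ
    unfold Pe Rr
    rw [Finset.mul_sum]
    refine Finset.sum_congr rfl fun j hj => ?_
    rw [hEν j (Finset.mem_range.1 hj), hEq]
    have h1 : 2 * ((K : ℝ) + (((j : ℝ) + ε * (((⌊(L : ℝ) * ν j⌋ : ℤ) : ℝ) / L)) * q)) * θ =
      2 * K * θ + ((j : ℝ) + ε * (((⌊(L : ℝ) * ν j⌋ : ℤ) : ℝ) / L)) * (2 * q * θ) := by ring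
    rw [h1, Real.exp_add]
    ring
  set A1 : ℕ := q * a1 with hA1
  set A2 : ℕ := q * a2 + L with hA2
  have hA1r : (A1 : ℝ) = q * a1 := by rw [hA1]; push_cast; ring
  have hA2r : (A2 : ℝ) = q * (a2 + ε) := by
    rw [hA2]
    push_cast
    rw [hε, hqr]
    field_simp
  have ha10 : (0 : ℝ) < a1 := by exact_mod_cast ha1
  have hexp1 : ∀ θ : ℝ, Real.exp ((2 * K + A1) * θ) =
      Real.exp (2 * K * θ) * Real.exp (a1 / 2 * (2 * q * θ)) := by
    intro θ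
    rw [← Real.exp_add, hA1r]
    congr 1
    ring
  have hexp2 : ∀ θ : ℝ, Real.exp ((2 * K + A2) * θ) =
      Real.exp (2 * K * θ) * Real.exp ((a2 + ε) / 2 * (2 * q * θ)) := by
    intro θ
    rw [← Real.exp_add, hA2r]
    congr 1
    ring
  have hve : ∀ θ : ℝ, ve (a1 / 2 + 1) A1 K (E ν1) c1 θ =
      vr a1 L1.coeff μ1 ε (2 * q * θ) / q := by
    intro θ
    unfold ve vr
    have h1 : Pe (a1 / 2 + 1) (E ν1) c1 θ * Real.exp (-((2 * K + A1) * θ)) =
        Rr a1 L1.coeff μ1 ε (2 * q * θ) * Real.exp (-(a1 / 2 * (2 * q * θ))) := by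
      rw [hc1def, hPe a1 ν1 L1.coeff hE1 θ]
      have e1 : -((2 * K + A1) * θ) = -(2 * K * θ) + -(a1 / 2 * (2 * q * θ)) := by
        rw [hA1r]; ring
      rw [e1, Real.exp_add]
      have e2 : Real.exp (2 * K * θ) * Real.exp (-(2 * K * θ)) = 1 := exp_neg_mul (2 * K) θ
      linear_combination (Rr a1 L1.coeff μ1 ε (2 * q * θ) *
        Real.exp (-(a1 / 2 * (2 * q * θ)))) * e2
    rw [h1, hA1r]
    field_simp
  have hFe : ∀ θ : ℝ, Fe (a1 / 2 + 1) (a2 / 2 + 1) A1 A2 K (E ν1) (E ν2) c1 c2 θ =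
      Real.exp (2 * K * θ) * Fr a1 a2 L1.coeff μ1 L2.coeff μ2 ε (2 * q * θ) := by
    intro θ
    unfold Fe Fr
    rw [hve, hc2def, hPe a2 ν2 L2.coeff hE2 θ, hexp2, hA2r]
    have e1 : (q : ℝ) * (a2 + ε) * (vr a1 L1.coeff μ1 ε (2 * q * θ) / q) =
      (a2 + ε) * vr a1 L1.coeff μ1 ε (2 * q * θ) := by
      field_simp
    rw [e1]
    ring
  set t' : Fin (2 * M + 1) → ℝ := fun i => t i / (2 * q) with ht'
  have h2q : (0 : ℝ) < 2 * q := by positivity
  have htt : ∀ i, 2 * q * t' i = t i := by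
    intro i
    simp only [ht']
    field_simp
  apply count (a1 / 2 + 1) (a2 / 2 + 1) M (by omega) A1 A2 K
    (Nat.mul_pos (Nat.mul_pos hLpos (Nat.succ_pos _)) ha1) (by omega) (E ν1) (E ν2)
    (hdist a1 ν1 hE1 he1) (hdist a2 ν2 hE2 he2) c1 c2
    (fun j hj => hc1 j (Finset.mem_range.2 hj)) (fun j hj => hc2 j (Finset.mem_range.2 hj)) t'
  · intro i j hij
    simp only [ht']
    exact div_lt_div_of_pos_right (ht hij) h2q
  · intro θ hθ
    rw [hexp1, hc1def, hPe a1 ν1 L1.coeff hE1 θ]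
    have h1 : 2 * q * θ ∈ Icc (t 0) (t (Fin.last (2 * M))) := by
      rw [← htt 0, ← htt (Fin.last (2 * M))]
      exact ⟨mul_le_mul_of_nonneg_left hθ.1 h2q.le, mul_le_mul_of_nonneg_left hθ.2 h2q.le⟩
    have h2 := hR _ h1
    have h3 := Real.exp_pos (2 * K * θ)
    calc 2 * (Real.exp (2 * K * θ) * Real.exp (a1 / 2 * (2 * q * θ)))
        = Real.exp (2 * K * θ) * (2 * Real.exp (a1 / 2 * (2 * q * θ))) := by ring
      _ < Real.exp (2 * K * θ) * Rr a1 L1.coeff μ1 ε (2 * q * θ) :=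
        mul_lt_mul_of_pos_left h2 h3
  · intro i
    rw [hFe, htt]
    have h3 := Real.exp_pos (2 * K * t' i)
    have h4 := mul_pos h3 (hs i)
    calc 0 < _ := h4
      _ = _ := by ring

end Fewnomial.Low
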